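import Pool.Agent.H465.PT.E

/-!
# Few zeros off the line, bounds, and the distribution of the zeros
-/

set_option autoImplicit false

open MeasureTheory Metric Set Filter Topology
open scoped Real ENNReal ComplexConjugate

namespace Pool.Agent.H465.PT

open Pool.Agent.H465.EQ

/-- the order is not changed by a factor without zeros -/
lemma order_mul_ne {f k : ℂ → ℂ} (hf : Differentiable ℂ f) (hk : Differentiable ℂ k)
    (hk0 : ∀ z, k z ≠ 0) (u : ℂ) : analyticOrderAt (fun z => f z * k z) u = analyticOrderAt f u := by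
  have h3 : analyticOrderAt k u = 0 := (hk.analyticAt u).analyticOrderAt_eq_zero.2 (hk0 u)
  have h4 := analyticOrderAt_mul (f := f) (g := k) (hf.analyticAt u) (hk.analyticAt u)
  rw [h3, add_zero] at h4
  exact h4

lemma mu_mul_ne {f k : ℂ → ℂ} (hf : Differentiable ℂ f) (hk : Differentiable ℂ k)
    (hk0 : ∀ z, k z ≠ 0) (u : ℂ) : mu (fun z => f z * k z) u = mu f u := by
  unfold mu analyticOrderNatAt
  rw [order_mul_ne hf hk hk0]

lemma mu_HH {x : ℝ} {Λ : ℂ → ℂ} (h : Differentiable ℂ Λ) (u : ℂ) : mu (HH x Λ) u = mu Λ u := by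
  unfold HH
  exact mu_mul_ne h ((differentiable_id.const_mul _).cexp) (fun z => Complex.exp_ne_zero _) u

lemma nz_HH {x : ℝ} {Λ : ℂ → ℂ} (h : Differentiable ℂ Λ) (S : Set ℂ) : nz (HH x Λ) S = nz Λ S := by
  unfold nz
  simp only [mu_HH h]

open Classical in
lemma nz_filter {f : ℂ → ℂ} (hf : Differentiable ℂ f) {z₀ : ℂ} (h0 : f z₀ ≠ 0) {S : Set ℂ} {R : ℝ}
    (hS : S ⊆ closedBall 0 R) :
    nz f S = ∑ u ∈ (finite_zeros hf h0 R).toFinset.filter (· ∈ S), mu f u := by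
  refine nz_eq (fun u h1 h2 => ?_) (fun _ h1 => (Finset.mem_filter.1 h1).2) hf
  exact Finset.mem_filter.2 ⟨(Finite.mem_toFinset _).2 ⟨h2, hS h1⟩, h1⟩

lemma nz_mono {f : ℂ → ℂ} (hf : Differentiable ℂ f) {z₀ : ℂ} (h0 : f z₀ ≠ 0) {S S' : Set ℂ} {R : ℝ}
    (hS : S' ⊆ closedBall 0 R) (h : S ⊆ S') : nz f S ≤ nz f S' := by
  classical
  rw [nz_filter hf h0 (h.trans hS), nz_filter hf h0 hS]
  refine Finset.sum_le_sum_of_subset_of_nonneg (fun u hu => ?_) fun u _ _ => mu_nonneg _ _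
  rw [Finset.mem_filter] at hu ⊢
  exact ⟨hu.1, h hu.2⟩

lemma nz_le_finsum {f : ℂ → ℂ} (hf : Differentiable ℂ f) {z₀ : ℂ} (h0 : f z₀ ≠ 0) {S : Set ℂ}
    {R : ℝ} (hS : S ⊆ closedBall 0 R) {g : ℂ → ℝ} (hg0 : ∀ z, 0 ≤ g z) (hg1 : ∀ z ∈ S, 1 ≤ g z)
    (hgR : ∀ z : ℂ, R < ‖z‖ → g z = 0) : nz f S ≤ ∑ᶠ u, mu f u * g u := by
  classical
  rw [nz_filter hf h0 hS, finsum_eq_sum_of_support_subset (s := (finite_zeros hf h0 R).toFinset)]
  · refine (Finset.sum_le_sum (g := fun u => mu f u * g u) fun u hu => ?_).trans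
      (Finset.sum_le_sum_of_subset_of_nonneg (Finset.filter_subset _ _)
        fun u _ _ => mul_nonneg (mu_nonneg _ _) (hg0 u))
    have h1 := hg1 u (Finset.mem_filter.1 hu).2
    have h2 := mu_nonneg f u
    nlinarith
  · intro u hu
    rw [Function.mem_support] at hu
    rw [Finite.coe_toFinset]
    refine ⟨mu_ne hf (left_ne_zero_of_mul hu), ?_⟩
    rw [mem_closedBall_zero_iff]
    by_contra h
    exact hu (by rw [hgR u (not_le.1 h), mul_zero])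

lemma nz_nonneg (f : ℂ → ℂ) (S : Set ℂ) : 0 ≤ nz f S :=
  finsum_nonneg fun u => finsum_nonneg fun _ => mu_nonneg _ _

/-- a rectangle -/
def box (a b T : ℝ) : Set ℂ := {s : ℂ | a ≤ s.re ∧ s.re ≤ b ∧ |s.im| ≤ T}

lemma box_sub {a b T : ℝ} : box a b T ⊆ closedBall 0 (|a| + |b| + |T|) := by
  rintro s ⟨h1, h2, h3⟩
  rw [mem_closedBall_zero_iff]
  refine (Complex.norm_le_abs_re_add_abs_im _).trans ?_
  have h4 : |s.re| ≤ |a| + |b| := by
    rw [abs_le]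
    constructor
    · have := neg_abs_le a; have := abs_nonneg b; linarith
    · have := le_abs_self b; have := abs_nonneg a; linarith
  have := le_abs_self T
  linarith

variable {A : ℝ}

/-- **Few zeros off the line.** -/
theorem few_disc {T₁ δ : ℝ} (hδ : 0 < δ) (hδ1 : δ ≤ 1 / 10) {ε₁ : ℝ} (hε₁ : 0 < ε₁)
    (hA : 0 ≤ A) : ∃ ω : ℝ, 0 < ω ∧ ∀ x : ℝ, 0 < x → ∀ Λ : ℂ → ℂ,
      Pot (1 / 4) ω A x (T₁ + 10) Λ → nz Λ (box (1 / 2 + δ) (5 / 2) (T₁ + 5)) ≤ ω * x →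
      ∀ t : ℝ, |t| ≤ T₁ + 4 →
        ∫ z in ball (⟨3 / 2, t⟩ : ℂ) (1 - 3 / 2 * δ), |Real.log ‖HH x Λ z‖| ≤ ε₁ * x := by
  have hpi := Real.pi_pos
  obtain ⟨ω₁, hω₁0, hω₁1, hd⟩ := disc_mass (r₀ := 1 / 4) (ρ' := 1 - 3 / 2 * δ) (ρ := 1 - δ)
    (by norm_num) (by linarith) (by linarith) hε₁ hA
  set ω : ℝ := min ω₁ (ω₁ * 4 / π) with hω
  refine ⟨ω, by positivity, fun x hx Λ h hnz t ht => ?_⟩
  have hωx : ω * x ≤ ω₁ * x := mul_le_mul_of_nonneg_right (min_le_left _ _) hx.le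
  have hT0 : 0 ≤ T₁ + 4 := (abs_nonneg _).trans ht
  have h2 : Λ 2 ≠ 0 := h.two (by norm_num) (by linarith)
  have hc : ∀ {r : ℝ} {z : ℂ}, z ∈ closedBall (⟨3 / 2, t⟩ : ℂ) r →
      3 / 2 - r ≤ z.re ∧ z.re ≤ 3 / 2 + r ∧ |z.im| ≤ T₁ + 4 + r := by
    intro r z hz
    rw [mem_closedBall, dist_eq_norm] at hz
    have h3 := (Complex.abs_re_le_norm (z - ⟨3 / 2, t⟩)).trans hz
    have h4 := (Complex.abs_im_le_norm (z - ⟨3 / 2, t⟩)).trans hz
    simp only [Complex.sub_re, Complex.sub_im] at h3 h4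
    rw [abs_le] at h3 h4
    have h5 := abs_le.1 ht
    exact ⟨by linarith [h3.1], by linarith [h3.2], abs_le.2 ⟨by linarith [h4.1], by linarith [h4.2]⟩⟩
  have hn : ∀ {r : ℝ} {z : ℂ}, r ≤ 1 → z ∈ closedBall (⟨3 / 2, t⟩ : ℂ) r → ‖z‖ ≤ T₁ + 10 := by
    intro r z hr hz
    obtain ⟨h3, h4, h5⟩ := hc hz
    refine (Complex.norm_le_abs_re_add_abs_im _).trans ?_
    rw [abs_of_nonneg (by linarith)]
    linarith
  refine hd x hx (HH x Λ) 2 ⟨3 / 2, t⟩ (HH_diff h.ent x) (HH_ne.2 h2) (fun z hz => ?_) ?_ ?_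
  · exact h.upH hx.le hA (by linarith [(hc hz).1]) (hn (by linarith) hz)
  · rw [nz_HH h.ent]
    refine (nz_mono h.ent h2 box_sub ?_).trans (hnz.trans hωx)
    intro z hz
    obtain ⟨h3, h4, h5⟩ := hc hz
    exact ⟨by linarith, by linarith, by linarith⟩
  · calc ∫ z in ball (⟨3 / 2, t⟩ : ℂ) (1 / 4), |Real.log ‖HH x Λ z‖| ≤
        ∫ z in ball (⟨3 / 2, t⟩ : ℂ) (1 / 4), ω * x := by
          refine setIntegral_mono_on (intOn_log (HH_diff h.ent x) (HH_ne.2 h2) _ _).abs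
            (intConst _ _ _) measurableSet_ball fun z hz => ?_
          have hz' := ball_subset_closedBall hz
          have h3 : 5 / 4 ≤ z.re := by linarith [(hc hz').1]
          have h4 := hn (by norm_num) hz'
          rw [log_HH (h.ne z (by linarith) h4)]
          exact h.edge z (by linarith) h4
      _ = π * (1 / 4) ^ 2 * (ω * x) := by
          rw [setIntegral_const, vol_ball_real _ (by norm_num), smul_eq_mul]
      _ ≤ ω₁ * x := by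
          have h5 : ω ≤ ω₁ * 4 / π := min_le_right _ _
          calc π * (1 / 4) ^ 2 * (ω * x) ≤ π * (1 / 4) ^ 2 * (ω₁ * 4 / π * x) := by gcongr
            _ = ω₁ * x / 4 := by field_simp
            _ ≤ ω₁ * x := by
                have : 0 < ω₁ * x := by positivity
                linarith

/-- **Bounds.** -/
theorem lind_disc {T₁ δ : ℝ} (hδ : 0 < δ) (hδ1 : δ ≤ 1 / 10) {ε₁ : ℝ} (hε₁ : 0 < ε₁) :
    ∃ ω : ℝ, 0 < ω ∧ ∀ x : ℝ, 0 < x → ∀ Λ : ℂ → ℂ,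
      Pot (1 / 4) ω A x (T₁ + 10) Λ →
      (∀ s : ℂ, 1 / 2 ≤ s.re → |s.im| ≤ T₁ + 5 → ‖s‖ ≤ T₁ + 10 →
        Real.log ‖Λ s‖ ≤ x * (s.re / 2 + ω)) →
      ∀ t : ℝ, |t| ≤ T₁ + 4 →
        ∫ z in ball (⟨3 / 2, t⟩ : ℂ) (1 - 3 / 2 * δ), |Real.log ‖HH x Λ z‖| ≤ ε₁ * x := by
  have hpi := Real.pi_pos
  set ω : ℝ := ε₁ / (3 * π) with hω
  refine ⟨ω, by positivity, fun x hx Λ h hup t ht => ?_⟩
  have hT0 : 0 ≤ T₁ + 4 := (abs_nonneg _).trans ht
  have h2 : Λ 2 ≠ 0 := h.two (by norm_num) (by linarith)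
  have hcn : ‖(⟨3 / 2, t⟩ : ℂ)‖ ≤ T₁ + 6 := by
    refine (Complex.norm_le_abs_re_add_abs_im _).trans ?_
    simp only
    rw [abs_of_nonneg (by norm_num)]
    linarith
  have hc0 : Λ ⟨3 / 2, t⟩ ≠ 0 := h.ne _ (by norm_num) (by linarith)
  have hωx : 0 ≤ ω * x := by positivity
  obtain ⟨hi, hb⟩ := disc_L1 (HH_diff h.ent x) (c := ⟨3 / 2, t⟩) (r := 1 - 3 / 2 * δ) (M := ω * x)
    (by linarith) (HH_ne.2 hc0) hωx (fun z hz => by
      rw [mem_ball, dist_eq_norm] at hz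
      have h3 := (Complex.abs_re_le_norm (z - ⟨3 / 2, t⟩)).trans hz.le
      have h4 := (Complex.abs_im_le_norm (z - ⟨3 / 2, t⟩)).trans hz.le
      simp only [Complex.sub_re, Complex.sub_im] at h3 h4
      rw [abs_le] at h3 h4
      have h5 := abs_le.1 ht
      by_cases h0 : Λ z = 0
      · have : HH x Λ z = 0 := by unfold HH; rw [h0, zero_mul]
        rw [this, norm_zero, Real.log_zero]
        exact hωx
      · rw [log_HH h0]
        have h6 : ‖z‖ ≤ T₁ + 10 := by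
          calc ‖z‖ = ‖(z - ⟨3 / 2, t⟩) + ⟨3 / 2, t⟩‖ := by rw [sub_add_cancel]
            _ ≤ ‖z - ⟨3 / 2, t⟩‖ + ‖(⟨3 / 2, t⟩ : ℂ)‖ := norm_add_le _ _
            _ ≤ T₁ + 10 := by linarith
        have := hup z (by linarith [h3.1]) (abs_le.2 ⟨by linarith [h4.1], by linarith [h4.2]⟩) h6
        linarith)
  refine hb.trans ?_
  have h7 : -(ω * x) ≤ Real.log ‖HH x Λ ⟨3 / 2, t⟩‖ := by
    rw [log_HH hc0]
    exact (abs_le.1 (h.edge _ (by norm_num) (by linarith))).1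
  have h8 : (1 - 3 / 2 * δ) ^ 2 ≤ 1 := by nlinarith
  have h9 : 2 * (ω * x) - Real.log ‖HH x Λ ⟨3 / 2, t⟩‖ ≤ 3 * (ω * x) := by linarith
  calc π * (1 - 3 / 2 * δ) ^ 2 * (2 * (ω * x) - Real.log ‖HH x Λ ⟨3 / 2, t⟩‖)
      ≤ π * (1 - 3 / 2 * δ) ^ 2 * (3 * (ω * x)) := by gcongr
    _ ≤ π * 1 * (3 * (ω * x)) := by gcongr
    _ = ε₁ * x := by rw [hω]; field_simp

/-- **Few zeros: the potential.** -/
theorem few {T₁ : ℝ} (hT₁ : 0 ≤ T₁) {ε : ℝ} (hA : 0 ≤ A) (hε : 0 < ε) :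
    ∃ δ ω : ℝ, 0 < δ ∧ 0 < ω ∧ ∀ x : ℝ, 0 < x → ∀ Λ : ℂ → ℂ,
      Pot (1 / 4) ω A x (T₁ + 10) Λ → nz Λ (box (1 / 2 + δ) (5 / 2) (T₁ + 5)) ≤ ω * x →
      ∫ z in closedBall (0 : ℂ) T₁, VV x Λ z ≤ ε * x := by
  obtain ⟨δ, ε₁, ω₁, hδ, hδ1, hε₁, hω₁, hm⟩ := main hT₁ hA hε
  obtain ⟨ω₂, hω₂, hd⟩ := few_disc (T₁ := T₁) hδ hδ1 hε₁ hA
  refine ⟨δ, min ω₁ ω₂, hδ, by positivity, fun x hx Λ h hnz => ?_⟩
  refine hm x hx Λ (h.mono le_rfl (min_le_left _ _) le_rfl hx.le) ?_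
  exact hd x hx Λ (h.mono le_rfl (min_le_right _ _) le_rfl hx.le)
    (hnz.trans (mul_le_mul_of_nonneg_right (min_le_right _ _) hx.le))

/-- **Bounds: the potential.** -/
theorem lind {T₁ : ℝ} (hT₁ : 0 ≤ T₁) {ε : ℝ} (hA : 0 ≤ A) (hε : 0 < ε) :
    ∃ ω : ℝ, 0 < ω ∧ ∀ x : ℝ, 0 < x → ∀ Λ : ℂ → ℂ,
      Pot (1 / 4) ω A x (T₁ + 10) Λ →
      (∀ s : ℂ, 1 / 2 ≤ s.re → |s.im| ≤ T₁ + 5 → ‖s‖ ≤ T₁ + 10 →
        Real.log ‖Λ s‖ ≤ x * (s.re / 2 + ω)) →
      ∫ z in closedBall (0 : ℂ) T₁, VV x Λ z ≤ ε * x := by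
  obtain ⟨δ, ε₁, ω₁, hδ, hδ1, hε₁, hω₁, hm⟩ := main hT₁ hA hε
  obtain ⟨ω₂, hω₂, hd⟩ := lind_disc (A := A) (T₁ := T₁) hδ hδ1 hε₁
  refine ⟨min ω₁ ω₂, by positivity, fun x hx Λ h hup => ?_⟩
  refine hm x hx Λ (h.mono le_rfl (min_le_left _ _) le_rfl hx.le) ?_
  exact hd x hx Λ (h.mono le_rfl (min_le_right _ _) le_rfl hx.le) fun s h1 h2 h3 =>
    (hup s h1 h2 h3).trans (mul_le_mul_of_nonneg_left (by
      have := min_le_right ω₁ ω₂; linarith) hx.le)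

/-- **The distribution of the zeros.** -/
theorem dist {g : ℂ → ℝ} (hg : Continuous g) (hgc : HasCompactSupport g) {ε : ℝ} (hε : 0 < ε) :
    ∃ δ M : ℝ, 0 < δ ∧ 0 ≤ M ∧ ∀ x : ℝ, 0 < x → ∀ (Λ : ℂ → ℂ), Differentiable ℂ Λ →
      ∀ z₀ : ℂ, Λ z₀ ≠ 0 →
      ∫ z in closedBall (0 : ℂ) M, VV x Λ z ≤ δ * x →
      |(∑ᶠ u, mu Λ u * g u) - x / (2 * π) * ∫ t : ℝ, g (pt t)| ≤ ε * x := by
  obtain ⟨δ, M, hδ, he⟩ := equid hg hgc hε
  refine ⟨δ, max M 0, hδ, le_max_right _ _, fun x hx Λ hΛ z₀ h0 hV => ?_⟩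
  set k : ℂ → ℂ := fun _ => ((Real.exp (-(x / 4)) : ℝ) : ℂ) with hk
  have hkd : Differentiable ℂ k := differentiable_const _
  have hk0 : ∀ z, k z ≠ 0 := fun z => by
    show ((Real.exp (-(x / 4)) : ℝ) : ℂ) ≠ 0
    exact_mod_cast (Real.exp_pos _).ne'
  have hfd : Differentiable ℂ fun z => Λ z * k z := hΛ.mul hkd
  have h1 := he (fun z => Λ z * k z) hfd z₀ (mul_ne_zero h0 (hk0 z₀)) x hx ?_
  · simp only [mu_mul_ne hΛ hkd hk0] at h1
    exact h1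
  · refine le_trans ?_ hV
    refine le_trans (le_of_eq ?_) (setIntegral_mono_set (VV_int hΛ h0 0 (max M 0))
      (Eventually.of_forall fun z => VV_nonneg x Λ z)
      (closedBall_subset_closedBall (le_max_left _ _)).eventuallyLE)
    refine integral_congr_ae ?_
    have hae : ∀ᵐ z ∂(volume.restrict (closedBall (0 : ℂ) M)), Λ z ≠ 0 :=
      ae_restrict_of_ae (ae_ne hΛ h0)
    filter_upwards [hae] with z hz
    unfold VV
    have : Real.log ‖Λ z * k z‖ = Real.log ‖Λ z‖ - x / 4 := by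
      rw [hk, norm_mul, Complex.norm_real, Real.norm_of_nonneg (Real.exp_pos _).le,
        Real.log_mul (norm_ne_zero_iff.2 hz) (Real.exp_ne_zero _), Real.log_exp]
      ring
    rw [this]
    congr 1
    ring

/-- **The size.** -/
theorem size {T₁ : ℝ} {ε : ℝ} (hε : 0 < ε) :
    ∃ δ : ℝ, 0 < δ ∧ ∀ x : ℝ, 0 < x → ∀ (Λ : ℂ → ℂ), Differentiable ℂ Λ →
      ∀ z₀ : ℂ, Λ z₀ ≠ 0 →
      ∫ z in closedBall (0 : ℂ) (T₁ + 1), VV x Λ z ≤ δ * x →
      ∀ s : ℂ, ‖s‖ ≤ T₁ → Real.log ‖Λ s‖ ≤ x * (U0 s + 1 / 4 + ε) := by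
  have hpi := Real.pi_pos
  set r : ℝ := min 1 ε with hr
  have hr0 : 0 < r := by positivity
  have hr1 : r ≤ 1 := min_le_left _ _
  refine ⟨π * r ^ 2 * (ε / 2), by positivity, fun x hx Λ hΛ z₀ h0 hV s hsT => ?_⟩
  by_cases hz : Λ s = 0
  · rw [hz, norm_zero, Real.log_zero]
    have := U0_nonneg s
    positivity
  have hball : ball s r ⊆ closedBall (0 : ℂ) (T₁ + 1) := by
    intro z hz
    rw [mem_closedBall_zero_iff]
    rw [mem_ball, dist_eq_norm] at hz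
    calc ‖z‖ = ‖(z - s) + s‖ := by rw [sub_add_cancel]
      _ ≤ ‖z - s‖ + ‖s‖ := norm_add_le _ _
      _ ≤ T₁ + 1 := by linarith
  have hiU : IntegrableOn (fun z => x * (U0 z + 1 / 4)) (ball s r) :=
    ((((continuous_U0.add continuous_const).const_mul x).locallyIntegrable).integrableOn_isCompact
        (isCompact_closedBall s r)).mono_set ball_subset_closedBall
  have hVb : IntegrableOn (VV x Λ) (ball s r) := (VV_int hΛ h0 0 (T₁ + 1)).mono_set hball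
  have h3 : ∫ z in ball s r, Real.log ‖Λ z‖ ≤
      π * r ^ 2 * (x * (U0 s + 1 / 4 + ε)) := by
    calc ∫ z in ball s r, Real.log ‖Λ z‖ ≤ ∫ z in ball s r, (VV x Λ z + x * (U0 z + 1 / 4)) := by
          refine integral_mono (intOn_log hΛ h0 s r) (hVb.add hiU) fun z => ?_
          unfold VV
          have := le_abs_self (Real.log ‖Λ z‖ - x * (U0 z + 1 / 4))
          linarith
      _ = (∫ z in ball s r, VV x Λ z) + ∫ z in ball s r, x * (U0 z + 1 / 4) :=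
          integral_add hVb hiU
      _ ≤ π * r ^ 2 * (ε / 2) * x + ∫ z in ball s r, x * (U0 s + 1 / 4 + ε / 2) := by
          refine add_le_add (le_trans (setIntegral_mono_set (VV_int hΛ h0 0 (T₁ + 1))
            (Eventually.of_forall fun z => VV_nonneg x Λ z) hball.eventuallyLE) hV) ?_
          refine setIntegral_mono_on hiU (intConst _ _ _) measurableSet_ball fun z hz => ?_
          refine mul_le_mul_of_nonneg_left ?_ hx.le
          rw [mem_ball, dist_eq_norm] at hz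
          have h4 : |z.re - s.re| ≤ ‖z - s‖ := Complex.abs_re_le_norm (z - s)
          have h5 : r ≤ ε := min_le_right _ _
          unfold U0
          have h6 : |z.re - 1 / 2| ≤ |z.re - s.re| + |s.re - 1 / 2| := by
            have := abs_add_le (z.re - s.re) (s.re - 1 / 2)
            rwa [sub_add_sub_cancel] at this
          linarith
      _ = _ := by
          rw [setIntegral_const, smul_eq_mul, vol_ball_real _ hr0.le]
          ring
  have h4 := le_of_mean hΛ hr0 hz h3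
  refine h4.trans (le_of_eq ?_)
  field_simp

/-- **Few zeros off the line.** -/
theorem off {δ T : ℝ} (hδ : 0 < δ) {ε : ℝ} (hε : 0 < ε) :
    ∃ δ' M : ℝ, 0 < δ' ∧ 0 ≤ M ∧ ∀ x : ℝ, 0 < x → ∀ (Λ : ℂ → ℂ), Differentiable ℂ Λ →
      ∀ z₀ : ℂ, Λ z₀ ≠ 0 →
      ∫ z in closedBall (0 : ℂ) M, VV x Λ z ≤ δ' * x →
      nz Λ {s : ℂ | δ ≤ |s.re - 1 / 2| ∧ ‖s‖ ≤ T} ≤ ε * x := by
  set g : ℂ → ℝ := fun z => min 1 (max 0 (2 / δ * |z.re - 1 / 2| - 1)) *
    max 0 (min 1 (T + 2 - ‖z‖)) with hg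
  have hgcont : Continuous g := by
    rw [hg]
    fun_prop
  have hgnn : ∀ z, 0 ≤ g z := fun z => mul_nonneg (le_min zero_le_one (le_max_left _ _))
    (le_max_left _ _)
  have hgc : HasCompactSupport g := by
    refine HasCompactSupport.of_support_subset_isCompact (isCompact_closedBall (0 : ℂ) (T + 2)) ?_
    intro c hc
    rw [mem_closedBall_zero_iff]
    by_contra h
    refine hc ?_
    rw [hg]
    simp only
    rw [max_eq_left ((min_le_right _ _).trans (by linarith)), mul_zero]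
  have hg1 : ∀ z : ℂ, δ ≤ |z.re - 1 / 2| → ‖z‖ ≤ T → g z = 1 := by
    intro z h1 h2
    have h3 : 1 ≤ 2 / δ * |z.re - 1 / 2| - 1 := by
      have : 2 / δ * δ ≤ 2 / δ * |z.re - 1 / 2| := mul_le_mul_of_nonneg_left h1 (by positivity)
      rw [div_mul_cancel₀ _ hδ.ne'] at this
      linarith
    rw [hg]
    simp only
    rw [min_eq_left (h3.trans (le_max_right _ _)), min_eq_left (by linarith), max_eq_right zero_le_one,
      mul_one]
  have hgl : ∀ t : ℝ, g (pt t) = 0 := by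
    intro t
    rw [hg]
    simp only [pt]
    rw [sub_self, abs_zero, mul_zero, zero_sub, max_eq_left (by norm_num), min_eq_right zero_le_one,
      zero_mul]
  obtain ⟨δ', M, hδ', hM, hd⟩ := dist hgcont hgc hε
  refine ⟨δ', M, hδ', hM, fun x hx Λ hΛ z₀ h0 hV => ?_⟩
  have h1 := hd x hx Λ hΛ z₀ h0 hV
  simp only [hgl, integral_zero, mul_zero, sub_zero] at h1
  have hsub : {s : ℂ | δ ≤ |s.re - 1 / 2| ∧ ‖s‖ ≤ T} ⊆ closedBall 0 (T + 2) := by
    intro s hs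
    rw [mem_closedBall_zero_iff]
    linarith [hs.2]
  refine le_trans (nz_le_finsum hΛ h0 hsub hgnn (fun z hz => (hg1 z hz.1 hz.2).ge) ?_)
    ((le_abs_self _).trans h1)
  intro u hu
  rw [hg]
  simp only
  rw [max_eq_left ((min_le_right _ _).trans (by linarith)), mul_zero]

end Pool.Agent.H465.PT
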