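import Pool.Agent.H465.PT.X
import Pool.Graph.R_pool_sql_team_seeded_3997aac3.Q246.Unram2
import Pool.Graph.R_seed8.Y772.HG.Tot
import Pool.Graph.R_seed8.Y690.EP

/-!
# Hecke L-functions of number fields: the Euler product and the gamma factors
-/

set_option autoImplicit false

open MeasureTheory Metric Set Filter Topology Asymptotics
open scoped Real ENNReal ComplexConjugate
open NumberField IsDedekindDomain

namespace Pool.Agent.H465.PT

open Pool.Agent.H465.EQ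
open Pool.Agent.Y773 (LI GG)

section euler
variable {K : Type} [Field K] [NumberField K] {ψ : Ideal (𝓞 K) →*₀ ℂ}

lemma LI_prod (hψ : ∀ 𝔞, ‖ψ 𝔞‖ ≤ 1) {s : ℂ} (hs : 1 < s.re) :
    HasProd (fun v : HeightOneSpectrum (𝓞 K) =>
      (1 - ψ v.asIdeal * ((Ideal.absNorm v.asIdeal : ℕ) : ℂ) ^ (-s))⁻¹) (LI ψ s) := by
  have hbot : ψ (⊥ : Ideal (𝓞 K)) = 0 := map_zero ψ
  have h1 := Pool.Agent.Y690.hasProd_ideal (R := 𝓞 K)
    (g := fun 𝔞 : Ideal (𝓞 K) => ψ 𝔞 * ((Ideal.absNorm 𝔞 : ℕ) : ℂ) ^ (-s))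
    ⟨by rw [hbot, zero_mul], by
        rw [← Ideal.one_eq_top, map_one, map_one, Nat.cast_one, Complex.one_cpow, one_mul],
      fun I J => by
        simp only [map_mul, Nat.cast_mul]
        rw [Complex.natCast_mul_natCast_cpow]
        ring⟩
    (Pool.Agent.Y772.DK.term_summable (a := fun 𝔞 => ψ 𝔞) (map_zero _) hψ hs)
  exact h1

/-- the bound of the logarithm -/
theorem LI_bound (hψ : ∀ 𝔞, ‖ψ 𝔞‖ ≤ 1) {ϑ : ℝ} (hϑ : 0 < ϑ) {s : ℂ} (hs : 1 + ϑ ≤ s.re) :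
    LI ψ s ≠ 0 ∧ |Real.log ‖LI ψ s‖| ≤ Module.finrank ℚ K * BB ϑ := by
  set B : ℝ := BB ϑ * Module.finrank ℚ K with hB
  have hf : ∀ v : HeightOneSpectrum (𝓞 K),
      (1 - ψ v.asIdeal * ((Ideal.absNorm v.asIdeal : ℕ) : ℂ) ^ (-s))⁻¹ ≠ 0 ∧
      |Real.log ‖(1 - ψ v.asIdeal * ((Ideal.absNorm v.asIdeal : ℕ) : ℂ) ^ (-s))⁻¹‖| ≤
        4 * (Ideal.absNorm v.asIdeal : ℝ) ^ (-(1 + ϑ) : ℝ) := by
    intro v
    set q := Ideal.absNorm v.asIdeal with hq
    have hq2 : 2 ≤ q := two_le_absNorm v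
    have hq0 : (0 : ℝ) < q := by positivity
    have hw : ‖ψ v.asIdeal * ((q : ℕ) : ℂ) ^ (-s)‖ ≤ (q : ℝ) ^ (-(1 + ϑ) : ℝ) := by
      rw [norm_mul, Complex.norm_natCast_cpow_of_pos (by omega)]
      calc ‖ψ v.asIdeal‖ * (q : ℝ) ^ (-s).re ≤ 1 * (q : ℝ) ^ (-s).re := by
            gcongr
            exact hψ _
        _ ≤ _ := by
            rw [one_mul]
            refine Real.rpow_le_rpow_of_exponent_le (by exact_mod_cast (by omega : 1 ≤ q)) ?_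
            rw [Complex.neg_re]
            linarith
    have hhalf : (q : ℝ) ^ (-(1 + ϑ) : ℝ) ≤ 1 / 2 := by
      calc (q : ℝ) ^ (-(1 + ϑ) : ℝ) ≤ (q : ℝ) ^ (-1 : ℝ) :=
            Real.rpow_le_rpow_of_exponent_le (by exact_mod_cast (by omega : 1 ≤ q)) (by linarith)
        _ = (q : ℝ)⁻¹ := Real.rpow_neg_one _
        _ ≤ 1 / 2 := by
            rw [inv_le_comm₀ hq0 (by norm_num)]
            norm_num
            exact_mod_cast hq2
    obtain ⟨a1, a2⟩ := log_one_sub (hw.trans hhalf)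
    refine ⟨inv_ne_zero a1, ?_⟩
    rw [norm_inv, Real.log_inv, abs_neg]
    have : 0 ≤ (q : ℝ) ^ (-(1 + ϑ) : ℝ) := by positivity
    linarith
  have hfin : ∀ G : Finset (HeightOneSpectrum (𝓞 K)),
      Real.exp (-B) ≤ ‖∏ v ∈ G, (1 - ψ v.asIdeal * ((Ideal.absNorm v.asIdeal : ℕ) : ℂ) ^ (-s))⁻¹‖ ∧
      ‖∏ v ∈ G, (1 - ψ v.asIdeal * ((Ideal.absNorm v.asIdeal : ℕ) : ℂ) ^ (-s))⁻¹‖ ≤ Real.exp B := by
    intro G
    have h1 : |Real.log ‖∏ v ∈ G,
        (1 - ψ v.asIdeal * ((Ideal.absNorm v.asIdeal : ℕ) : ℂ) ^ (-s))⁻¹‖| ≤ B := by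
      rw [norm_prod, Real.log_prod fun v _ => norm_ne_zero_iff.2 (hf v).1]
      refine (Finset.abs_sum_le_sum_abs _ _).trans ?_
      exact (Finset.sum_le_sum fun v _ => (hf v).2).trans (sum_places hϑ G)
    have h2 : 0 < ‖∏ v ∈ G, (1 - ψ v.asIdeal * ((Ideal.absNorm v.asIdeal : ℕ) : ℂ) ^ (-s))⁻¹‖ :=
      norm_pos_iff.2 (Finset.prod_ne_zero_iff.2 fun v _ => (hf v).1)
    have h3 := abs_le.1 h1
    exact ⟨(Real.le_log_iff_exp_le h2).1 h3.1, (Real.log_le_iff_le_exp h2).1 h3.2⟩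
  have ht : Tendsto (fun G : Finset (HeightOneSpectrum (𝓞 K)) => ‖∏ v ∈ G, (1 - ψ v.asIdeal *
      ((Ideal.absNorm v.asIdeal : ℕ) : ℂ) ^ (-s))⁻¹‖) atTop (𝓝 ‖LI ψ s‖) :=
    (continuous_norm.tendsto _).comp (LI_prod hψ (by linarith))
  have h1 : Real.exp (-B) ≤ ‖LI ψ s‖ := ge_of_tendsto' ht fun G => (hfin G).1
  have h2 : ‖LI ψ s‖ ≤ Real.exp B := le_of_tendsto' ht fun G => (hfin G).2
  have h3 : 0 < ‖LI ψ s‖ := (Real.exp_pos _).trans_le h1
  refine ⟨norm_pos_iff.1 h3, ?_⟩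
  rw [mul_comm]
  exact abs_le.2 ⟨(Real.le_log_iff_exp_le h3).2 h1, (Real.log_le_iff_le_exp h3).2 h2⟩

end euler

/-! ### gamma factors -/

lemma gr_diff {s : ℂ} (hs : 0 < s.re) : DifferentiableAt ℂ Complex.Gammaℝ s := by
  have h1 : DifferentiableAt ℂ (fun z => ((Complex.Gammaℝ z)⁻¹)⁻¹) s :=
    (Complex.differentiable_Gammaℝ_inv s).inv (inv_ne_zero (Complex.Gammaℝ_ne_zero_of_re_pos hs))
  simpa only [inv_inv] using h1

lemma gr_log (T : ℝ) : ∃ C : ℝ, 0 ≤ C ∧ ∀ s : ℂ, 1 / 2 ≤ s.re → ‖s‖ ≤ T →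
    |Real.log ‖Complex.Gammaℝ s‖| ≤ C := by
  have hK : IsCompact (closedBall (0 : ℂ) T ∩ {s : ℂ | 1 / 2 ≤ s.re}) :=
    (isCompact_closedBall _ _).inter_right (isClosed_le continuous_const Complex.continuous_re)
  have hc : ContinuousOn (fun s => Real.log ‖Complex.Gammaℝ s‖)
      (closedBall (0 : ℂ) T ∩ {s : ℂ | 1 / 2 ≤ s.re}) := by
    intro s hs
    have h1 : (1 / 2 : ℝ) ≤ s.re := hs.2
    have h2 : 0 < s.re := by linarith
    exact (((gr_diff h2).continuousAt.norm).log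
      (norm_ne_zero_iff.2 (Complex.Gammaℝ_ne_zero_of_re_pos h2))).continuousWithinAt
  obtain ⟨C, hC⟩ := hK.exists_bound_of_continuousOn hc
  refine ⟨max C 0, le_max_right _ _, fun s h1 h2 => ?_⟩
  exact (hC s ⟨mem_closedBall_zero_iff.2 h2, h1⟩).trans (le_max_left _ _)

/-- the constant of `gr_log` -/
noncomputable def gT (T : ℝ) : ℝ := (gr_log (T + 1)).choose

lemma gT_nonneg (T : ℝ) : 0 ≤ gT T := (gr_log (T + 1)).choose_spec.1

lemma gT_le {T : ℝ} {s : ℂ} (h1 : 1 / 2 ≤ s.re) (h2 : ‖s‖ ≤ T) {e : ℕ} (he : e ≤ 1) :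
    |Real.log ‖Complex.Gammaℝ (s + e)‖| ≤ gT T := by
  have h3 : (e : ℝ) ≤ 1 := by exact_mod_cast he
  refine (gr_log (T + 1)).choose_spec.2 _ ?_ ?_
  · rw [Complex.add_re, Complex.natCast_re]
    have : (0 : ℝ) ≤ e := by positivity
    linarith
  · refine (norm_add_le _ _).trans ?_
    rw [Complex.norm_natCast]
    linarith

/-- bounds on vertical lines -/
lemma gr_bd : ∃ G : ℝ, 1 ≤ G ∧ (∀ s : ℂ, 1 ≤ s.re → s.re ≤ 5 / 4 → ∀ e : ℕ, e ≤ 1 →
    ‖Complex.Gammaℝ (s + e)‖ ≤ G) ∧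
    ∀ s : ℂ, 1 ≤ s.re → s.re ≤ 5 / 4 → ‖s‖ * ‖s - 1‖ * ‖Complex.Gammaℝ s‖ ≤ G := by
  have hpi := Real.pi_pos
  obtain ⟨C, hC, h⟩ := Pool.Agent.R399.TW.gam_bd (a := 1 / 8) (b := 8) (by norm_num)
  refine ⟨max 1 (max C ((2 * π) ^ 2 * C)), le_max_left _ _, fun s h1 h2 e he => ?_, fun s h1 h2 => ?_⟩
  · refine le_trans ?_ ((le_max_left _ _).trans (le_max_right _ _))
    have h3 : (e : ℝ) ≤ 1 := by exact_mod_cast he
    have h4 : (0 : ℝ) ≤ e := by positivity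
    refine h _ ?_ ?_
    · rw [Complex.add_re, Complex.natCast_re]
      linarith
    · rw [Complex.add_re, Complex.natCast_re]
      linarith
  · refine le_trans ?_ ((le_max_right _ _).trans (le_max_right _ _))
    have hs0 : s ≠ 0 := by
      rintro rfl
      simp at h1
      linarith
    have hs2 : s + 2 ≠ 0 := by
      intro h0
      have := congrArg Complex.re h0
      simp at this
      linarith
    have e1 : s * Complex.Gammaℝ s = 2 * π * Complex.Gammaℝ (s + 2) := by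
      rw [Complex.Gammaℝ_add_two hs0]
      field_simp
    have e2 : (s + 2) * Complex.Gammaℝ (s + 2) = 2 * π * Complex.Gammaℝ (s + 2 + 2) := by
      rw [Complex.Gammaℝ_add_two hs2]
      field_simp
    have h3 : ‖s - 1‖ ≤ ‖s + 2‖ := by
      rw [← sq_le_sq₀ (norm_nonneg _) (norm_nonneg _), ← Complex.normSq_eq_norm_sq,
        ← Complex.normSq_eq_norm_sq, Complex.normSq_apply, Complex.normSq_apply]
      simp only [Complex.sub_re, Complex.sub_im, Complex.one_re, Complex.one_im, Complex.add_re,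
        Complex.add_im, Complex.re_ofNat, Complex.im_ofNat]
      nlinarith
    have h4 := congrArg norm e1
    have h5 := congrArg norm e2
    rw [norm_mul, norm_mul] at h4 h5
    have h6 : ‖(2 * π : ℂ)‖ = 2 * π := by
      rw [norm_mul, Complex.norm_real, Real.norm_of_nonneg hpi.le]
      simp
    rw [h6] at h4 h5
    have h7 : ‖Complex.Gammaℝ (s + 2 + 2)‖ ≤ C := by
      refine h _ ?_ ?_
      · simp only [Complex.add_re, Complex.re_ofNat]
        linarith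
      · simp only [Complex.add_re, Complex.re_ofNat]
        linarith
    calc ‖s‖ * ‖s - 1‖ * ‖Complex.Gammaℝ s‖ = ‖s - 1‖ * (‖s‖ * ‖Complex.Gammaℝ s‖) := by ring
      _ = ‖s - 1‖ * (2 * π * ‖Complex.Gammaℝ (s + 2)‖) := by rw [h4]
      _ ≤ ‖s + 2‖ * (2 * π * ‖Complex.Gammaℝ (s + 2)‖) := by gcongr
      _ = 2 * π * (‖s + 2‖ * ‖Complex.Gammaℝ (s + 2)‖) := by ring
      _ = 2 * π * (2 * π * ‖Complex.Gammaℝ (s + 2 + 2)‖) := by rw [h5]
      _ ≤ 2 * π * (2 * π * C) := by gcongr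
      _ = _ := by ring

/-- the constant of `gr_bd` -/
noncomputable def G₀ : ℝ := gr_bd.choose

/-- the constants of the Hecke L-functions -/
noncomputable def cH (T : ℝ) : ℝ := gT T + |Real.log (1 / 2)| + |Real.log T| + Real.log G₀

lemma G₀_one : 1 ≤ G₀ := gr_bd.choose_spec.1

lemma cH_nonneg (T : ℝ) : 0 ≤ cH T := by
  have := gT_nonneg T
  have := Real.log_nonneg G₀_one
  unfold cH
  positivity

end Pool.Agent.H465.PT
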