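import Pool.Agent.H465.PT.V

/-!
# Families of L-functions: the Lindelöf hypothesis and the zeros
-/

set_option autoImplicit false

open MeasureTheory Metric Set Filter Topology Asymptotics
open scoped Real ENNReal ComplexConjugate

namespace Pool.Agent.H465.PT

open Pool.Agent.H465.EQ

variable {c b : ℝ → ℝ}

lemma pt_ne_one (t : ℝ) : pt t ≠ 1 := by
  intro h
  have := congrArg Complex.re h
  rw [pt_re, Complex.one_re] at this
  norm_num at this

lemma pt_norm {t T : ℝ} (ht : |t| ≤ T) : ‖pt t‖ ≤ T + 1 := by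
  refine (Complex.norm_le_abs_re_add_abs_im _).trans ?_
  rw [pt_re, pt_im, abs_of_pos (by norm_num)]
  linarith

lemma pt_dist (t : ℝ) : 1 / 2 ≤ ‖pt t - 1‖ := by
  have := Complex.abs_re_le_norm (pt t - 1)
  rw [Complex.sub_re, pt_re, Complex.one_re] at this
  refine le_trans ?_ this
  norm_num [abs_of_neg]

/-- the mass of the pole -/
noncomputable def pm (T : ℝ) : ℝ := ∫ u in rh (1 / 2) T, |Real.log ‖u - 1‖|

lemma pm_nonneg (T : ℝ) : 0 ≤ pm T := integral_nonneg fun _ => abs_nonneg _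

lemma pole_int (T : ℝ) : IntegrableOn (fun u : ℂ => |Real.log ‖u - 1‖|) (rh (1 / 2) T) := by
  have hd : Differentiable ℂ fun u : ℂ => u - 1 := differentiable_id.sub_const _
  have h0 : (2 : ℂ) - 1 ≠ 0 := by norm_num
  exact (((locInt hd h0).integrableOn_isCompact (isCompact_closedBall 0 T)).mono_set
    (rh_sub _ _)).abs

section family
variable {ι : Type} {l : Filter ι} {k n : ι → ℕ} {x : ι → ℝ} {Λ L : ι → ℂ → ℂ}

/-- comparison on the line -/
lemma deg_line (hc : ∀ T, 0 ≤ c T) (h : ∀ i, Deg c b (k i) (n i) (x i) (Λ i) (L i))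
    (hA : Tendsto (fun i => x i / n i) l atTop) (T : ℝ) {ε : ℝ} (hε : 0 < ε) :
    ∀ᶠ i in l, ∀ t : ℝ, |t| ≤ T → ∀ y : ℝ,
      (‖L i (pt t)‖ ≤ Real.exp (x i * (1 / 4 - y)) → ‖Λ i (pt t)‖ ≤
          Real.exp (x i * (1 / 2 - (y - ε)))) ∧
      (‖Λ i (pt t)‖ ≤ Real.exp (x i * (1 / 2 - y)) →
        ‖L i (pt t)‖ ≤ Real.exp (x i * (1 / 4 - (y - ε)))) := by
  have hd := dd_nonneg (1 / 2) (T + 1)
  filter_upwards [deg_log hc h hA (T + 1) (show 0 < ε / (1 + dd (1 / 2) (T + 1)) by positivity),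
    deg_small hA one_pos] with i hl hx t ht y
  have hx0 := hx.2
  by_cases h0 : L i (pt t) = 0
  · have h1 : Λ i (pt t) = 0 := by
      obtain ⟨γ, g1, g2, -⟩ := (h i).fac
      rw [g2 (pt t) (by rw [pt_re]; norm_num) (pt_ne_one t), h0, mul_zero, mul_zero]
    rw [h1, h0, norm_zero]
    exact ⟨fun _ => (Real.exp_pos _).le, fun _ => (Real.exp_pos _).le⟩
  · obtain ⟨h1, h2⟩ := hl (pt t) (by rw [pt_re]) (pt_norm ht) (pt_ne_one t) h0
    have h3 : |Real.log ‖pt t - 1‖| ≤ dd (1 / 2) (T + 1) :=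
      dd_le (by norm_num) (pt_dist t) (pt_norm ht)
    set q := ε / (1 + dd (1 / 2) (T + 1)) with hq
    have hq0 : 0 < q := by positivity
    have h4 : q * x i + q * x i * |Real.log ‖pt t - 1‖| ≤ ε * x i := by
      calc q * x i + q * x i * |Real.log ‖pt t - 1‖| ≤
            q * x i + q * x i * dd (1 / 2) (T + 1) := by gcongr
        _ = q * (1 + dd (1 / 2) (T + 1)) * x i := by ring
        _ = ε * x i := by rw [hq, div_mul_cancel₀ _ (by positivity)]
    have h5 := abs_le.1 (h2.trans h4)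
    rw [pt_re] at h5
    rw [← Real.log_le_iff_le_exp (norm_pos_iff.2 h0),
      ← Real.log_le_iff_le_exp (norm_pos_iff.2 h0), ← Real.log_le_iff_le_exp (norm_pos_iff.2 h1),
      ← Real.log_le_iff_le_exp (norm_pos_iff.2 h1)]
    exact ⟨fun h6 => by linarith [h5.2], fun h6 => by linarith [h5.1]⟩

lemma deg_int (h : ∀ i, Deg c b (k i) (n i) (x i) (Λ i) (L i)) (i : ι) (T : ℝ) :
    IntegrableOn (fun u => |Real.log ‖L i u‖|) (rh (1 / 2) T) := by
  obtain ⟨γ, g1, g2, -⟩ := (h i).fac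
  have h2 : Λ i 2 ≠ 0 := (h i).neL (by norm_num)
  -- `log ‖L‖ = log ‖Λ‖ - x re/2 - log ‖γ‖ - k log ‖u - 1‖` outside a null set
  have i1 : IntegrableOn (fun u => Real.log ‖Λ i u‖) (rh (1 / 2) T) :=
    ((locInt (h i).ent h2).integrableOn_isCompact (isCompact_closedBall 0 T)).mono_set (rh_sub _ _)
  have hd : Differentiable ℂ fun u : ℂ => u - 1 := differentiable_id.sub_const _
  have i2 : IntegrableOn (fun u : ℂ => Real.log ‖u - 1‖) (rh (1 / 2) T) :=
    ((locInt hd (show (2 : ℂ) - 1 ≠ 0 by norm_num)).integrableOn_isCompact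
      (isCompact_closedBall 0 T)).mono_set (rh_sub _ _)
  have hK : IsCompact (rh (1 / 2) T) := by
    have : rh (1 / 2) T = closedBall (0 : ℂ) T ∩ {s : ℂ | 1 / 2 ≤ s.re} := by
      ext z
      rw [mem_inter_iff, mem_closedBall_zero_iff]
      exact and_comm
    rw [this]
    exact (isCompact_closedBall _ _).inter_right (isClosed_le continuous_const Complex.continuous_re)
  have i3 : IntegrableOn (fun u : ℂ => x i * (u.re / 2) + Real.log ‖γ u‖) (rh (1 / 2) T) := by
    refine ContinuousOn.integrableOn_compact hK ?_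
    refine ContinuousOn.add (by fun_prop) ?_
    intro s hs
    have h3 : 0 < s.re := by linarith [hs.1]
    exact (((g1 s h3).1.continuousAt.norm).log (norm_ne_zero_iff.2 (g1 s h3).2)).continuousWithinAt
  refine Integrable.abs ?_
  refine ((i1.sub i3).sub (i2.const_mul (k i : ℝ))).congr ?_
  filter_upwards [ae_restrict_of_ae (ae_ne (h i).ent h2), ae_restrict_mem (rh_meas _ _),
    ae_restrict_of_ae (ae_ne hd (show (2 : ℂ) - 1 ≠ 0 by norm_num))] with u hu hur hu1
  have hu0 : 0 < u.re := by linarith [hur.1]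
  have hu1' : u ≠ 1 := sub_ne_zero.1 hu1
  have e := g2 u hu0 hu1'
  have hγ := (g1 u hu0).2
  have hL : L i u ≠ 0 := by
    intro h0
    rw [h0, mul_zero, mul_zero] at e
    exact hu e
  simp only [Pi.sub_apply]
  rw [e, norm_mul, norm_mul, norm_mul, norm_pow, exp_norm,
      Real.log_mul (by have := norm_pos_iff.2 hγ; positivity)
        (by have := norm_pos_iff.2 hu1; have := norm_pos_iff.2 hL; positivity),
      Real.log_mul (Real.exp_ne_zero _) (norm_ne_zero_iff.2 hγ), Real.log_exp,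
      Real.log_mul (by have := norm_pos_iff.2 hu1; positivity) (norm_ne_zero_iff.2 hL), Real.log_pow]
  ring

/-- **The equivalences for families.** -/
theorem deg_tfae (hc : ∀ T, 0 ≤ c T) (hb : ∀ ϑ, 0 ≤ b ϑ)
    (h : ∀ i, Deg c b (k i) (n i) (x i) (Λ i) (L i))
    (hA : Tendsto (fun i => x i / n i) l atTop) :
    List.TFAE [
      ∀ T ε : ℝ, 0 < ε → ∀ᶠ i in l,
        zs (L i) ({ρ : ℂ | |ρ.im| ≤ T ∧ ε ≤ |ρ.re - 1 / 2|}.indicator fun _ => 1) ≤ ε * x i,
      ∀ g : ℂ → ℝ, Continuous g → HasCompactSupport g →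
        Tendsto (fun i => zs (L i) g / x i) l (𝓝 (1 / (2 * π) * ∫ t : ℝ, g (pt t))),
      ∀ T ε : ℝ, 0 < ε → ∀ᶠ i in l, ∀ s : ℂ, 1 / 2 ≤ s.re → ‖s‖ ≤ T → ε ≤ ‖s - 1‖ →
        ‖L i s‖ ≤ Real.exp (x i * ε),
      ∀ T ε : ℝ, 0 < ε → ∀ᶠ i in l, ∀ t : ℝ, |t| ≤ T → ‖L i (pt t)‖ ≤ Real.exp (x i * ε),
      ∀ T ε : ℝ, 0 < ε → ∀ᶠ i in l, ∫ s in rh (1 / 2) T, |Real.log ‖L i s‖| ≤ ε * x i] := by
  have hpi := Real.pi_pos
  have hP := fun T η hη => deg_pot hc hb h hA (ϑ := 1 / 4) (by norm_num) le_rfl T η hη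
  have hx : ∀ᶠ i in l, 0 < x i := (deg_small hA one_pos).mono fun i hi => hi.2
  have key := tfae (A := 1 / 2) (Λ := Λ) (by norm_num) hx hP
  have hent : ∀ i, Differentiable ℂ (Λ i) := fun i => (h i).ent
  have hne : ∀ i, Λ i 2 ≠ 0 := fun i => (h i).neL (by norm_num)
  -- 1
  have e1 : (∀ T ε : ℝ, 0 < ε → ∀ᶠ i in l,
        zs (L i) ({ρ : ℂ | |ρ.im| ≤ T ∧ ε ≤ |ρ.re - 1 / 2|}.indicator fun _ => 1) ≤ ε * x i) ↔
      (∀ δ T ε : ℝ, 0 < δ → 0 < ε → ∀ᶠ i in l,
        nz (Λ i) {s : ℂ | δ ≤ |s.re - 1 / 2| ∧ ‖s‖ ≤ T} ≤ ε * x i) := by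
    constructor
    · intro h1 δ T ε hδ hε
      filter_upwards [h1 T (min δ ε) (lt_min hδ hε), hx] with i hi hxi
      have h2 : min δ ε * x i ≤ ε * x i := mul_le_mul_of_nonneg_right (min_le_right _ _) hxi.le
      refine le_trans ?_ (hi.trans h2)
      have hz : ∀ u, Λ i u = 0 → |u.re| ≤ 1 := fun u hu => by
        have h3 := (h i).strip_zero hu
        exact abs_le.2 ⟨by linarith, by linarith⟩
      rw [(h i).nz_eq, nz_congr (hent i) (S := {ρ : ℂ | |ρ.im| ≤ T ∧ min δ ε ≤ |ρ.re - 1 / 2|})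
        (S' := {ρ : ℂ | (|ρ.im| ≤ T ∧ min δ ε ≤ |ρ.re - 1 / 2|) ∧ |ρ.re| ≤ 1})
        (fun u hu => ⟨fun h4 => ⟨h4, hz u hu⟩, fun h4 => h4.1⟩),
        nz_congr (hent i) (S := {s : ℂ | δ ≤ |s.re - 1 / 2| ∧ ‖s‖ ≤ T})
        (S' := {s : ℂ | (δ ≤ |s.re - 1 / 2| ∧ ‖s‖ ≤ T) ∧ |s.re| ≤ 1})
        (fun u hu => ⟨fun h4 => ⟨h4, hz u hu⟩, fun h4 => h4.1⟩)]
      refine nz_mono (hent i) (hne i) (R := |T| + 1) (fun u hu => ?_) fun u hu => ?_
      · obtain ⟨⟨h3, h4⟩, h5⟩ := hu
        rw [mem_closedBall_zero_iff]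
        refine (Complex.norm_le_abs_re_add_abs_im _).trans ?_
        have := le_abs_self T
        linarith
      · obtain ⟨⟨h3, h4⟩, h5⟩ := hu
        exact ⟨⟨(Complex.abs_im_le_norm u).trans h4, (min_le_left _ _).trans h3⟩, h5⟩
    · intro h1 T ε hε
      filter_upwards [h1 ε (|T| + 1) ε hε hε, hx] with i hi hxi
      refine le_trans ?_ hi
      rw [(h i).nz_eq, nz_congr (hent i) (S := {ρ : ℂ | |ρ.im| ≤ T ∧ ε ≤ |ρ.re - 1 / 2|})
        (S' := {ρ : ℂ | (|ρ.im| ≤ T ∧ ε ≤ |ρ.re - 1 / 2|) ∧ |ρ.re| ≤ 1})]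
      · refine nz_mono (hent i) (hne i) (R := |T| + 1) (fun u hu => ?_) fun u hu => ?_
        · exact mem_closedBall_zero_iff.2 hu.2
        · obtain ⟨⟨h3, h4⟩, h5⟩ := hu
          refine ⟨h4, ?_⟩
          refine (Complex.norm_le_abs_re_add_abs_im _).trans ?_
          have := le_abs_self T
          linarith
      · intro u hu
        have h3 := (h i).strip_zero hu
        constructor
        · intro h4
          exact ⟨h4, abs_le.2 ⟨by linarith, by linarith⟩⟩
        · rintro ⟨h4, -⟩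
          exact h4
  -- 2
  have e2 : (∀ g : ℂ → ℝ, Continuous g → HasCompactSupport g →
        Tendsto (fun i => zs (L i) g / x i) l (𝓝 (1 / (2 * π) * ∫ t : ℝ, g (pt t)))) ↔
      (∀ g : ℂ → ℝ, Continuous g → HasCompactSupport g →
        Tendsto (fun i => (∑ᶠ u, mu (Λ i) u * g u) / x i) l
          (𝓝 (1 / (2 * π) * ∫ t : ℝ, g (pt t)))) := by
    simp_rw [fun i g => (h i).zs_eq g]
  -- 4
  have e4 : (∀ T ε : ℝ, 0 < ε → ∀ᶠ i in l, ∀ t : ℝ, |t| ≤ T → ‖L i (pt t)‖ ≤ Real.exp (x i * ε)) ↔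
      (∀ T ε : ℝ, 0 < ε → ∀ᶠ i in l, ∀ t : ℝ, |t| ≤ T →
        Real.log ‖Λ i (pt t)‖ ≤ x i * (1 / 4 + ε)) := by
    constructor
    · intro h1 T ε hε
      filter_upwards [h1 T (ε / 2) (by positivity), hx,
        deg_line hc h hA T (show 0 < ε / 2 by positivity)] with i hi hxi hl t ht
      have h2 := (hl t ht (1 / 4 - ε / 2)).1 ((hi t ht).trans (le_of_eq (by ring_nf)))
      by_cases h0 : Λ i (pt t) = 0
      · rw [h0, norm_zero, Real.log_zero]
        positivity
      · rw [← Real.log_le_iff_le_exp (norm_pos_iff.2 h0)] at h2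
        refine h2.trans (le_of_eq (by ring))
    · intro h1 T ε hε
      filter_upwards [h1 T (ε / 2) (by positivity), hx,
        deg_line hc h hA T (show 0 < ε / 2 by positivity)] with i hi hxi hl t ht
      have h3 : ‖Λ i (pt t)‖ ≤ Real.exp (x i * (1 / 2 - (1 / 4 - ε / 2))) := by
        by_cases h0 : Λ i (pt t) = 0
        · rw [h0, norm_zero]
          exact (Real.exp_pos _).le
        · rw [← Real.log_le_iff_le_exp (norm_pos_iff.2 h0)]
          exact (hi t ht).trans (le_of_eq (by ring))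
      have h2 := (hl t ht (1 / 4 - ε / 2)).2 h3
      exact h2.trans (le_of_eq (by ring_nf))
  -- 5
  have hVi : ∀ i, ∀ T : ℝ, IntegrableOn (VV (x i) (Λ i)) (rh (1 / 2) T) := fun i T =>
    (VV_int (hent i) (hne i) 0 T).mono_set (rh_sub _ _)
  have hd1 : Differentiable ℂ fun u : ℂ => u - 1 := differentiable_id.sub_const _
  have hae : ∀ i, ∀ᵐ u : ℂ, Λ i u ≠ 0 ∧ u ≠ 1 := fun i => by
    filter_upwards [ae_ne (hent i) (hne i), ae_ne hd1 (show (2 : ℂ) - 1 ≠ 0 by norm_num)] with u h1 h2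
    exact ⟨h1, sub_ne_zero.1 h2⟩
  have hci : ∀ a T : ℝ, IntegrableOn (fun _ : ℂ => a) (rh (1 / 2) T) := fun a T =>
    integrableOn_const ((measure_mono (rh_sub _ _)).trans_lt measure_closedBall_lt_top).ne
  have hL0 : ∀ i, ∀ u : ℂ, 1 / 2 ≤ u.re → u ≠ 1 → Λ i u ≠ 0 → L i u ≠ 0 := by
    intro i u hu h1 hΛ h0
    obtain ⟨γ, g1, g2, -⟩ := (h i).fac
    rw [g2 u (by linarith) h1, h0, mul_zero, mul_zero] at hΛ
    exact hΛ rfl
  have hEi : ∀ a T : ℝ, IntegrableOn (fun u : ℂ => a + a * |Real.log ‖u - 1‖|) (rh (1 / 2) T) :=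
    fun a T => (hci a T).add ((pole_int T).const_mul a)
  have hEint : ∀ a T : ℝ, ∫ u in rh (1 / 2) T, (a + a * |Real.log ‖u - 1‖|) =
      a * ((volume : Measure ℂ).real (rh (1 / 2) T) + pm T) := by
    intro a T
    rw [integral_add (hci a T) ((pole_int T).const_mul a), setIntegral_const, smul_eq_mul,
      integral_const_mul]
    unfold pm
    ring
  have e5 : (∀ T ε : ℝ, 0 < ε → ∀ᶠ i in l, ∫ s in rh (1 / 2) T, |Real.log ‖L i s‖| ≤ ε * x i) ↔
      (∀ T ε : ℝ, 0 ≤ T → 0 < ε → ∀ᶠ i in l, ∫ z in closedBall (0 : ℂ) T,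
        VV (x i) (Λ i) z ≤ ε * x i) := by
    constructor
    · intro h1 T ε hT hε
      set m := (volume : Measure ℂ).real (rh (1 / 2) (T + 1)) + pm (T + 1) with hm
      have hm0 : 0 ≤ m := add_nonneg measureReal_nonneg (pm_nonneg _)
      filter_upwards [h1 (T + 1) (ε / 4) (by positivity), hx,
        deg_log hc h hA (T + 1) (show 0 < ε / (4 * (m + 1)) by positivity)] with i hi hxi hl
      have h2 : ∫ z in closedBall (0 : ℂ) T, VV (x i) (Λ i) z ≤
          2 * ∫ z in rh (1 / 2) (T + 1), VV (x i) (Λ i) z := by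
        have h3 := half (V := VV (x i) (Λ i)) (fun z => VV_nonneg _ _ z)
          (fun z => VV_sym (h i).sym z) T (VV_int (hent i) (hne i) 0 (T + 1))
        have e : closedBall (0 : ℂ) (T + 1) ∩ {z : ℂ | 1 / 2 ≤ z.re} = rh (1 / 2) (T + 1) := by
          ext z
          rw [mem_inter_iff, mem_closedBall_zero_iff]
          exact and_comm
        rwa [e] at h3
      set q := ε / (4 * (m + 1)) with hq
      have h4 : ∫ z in rh (1 / 2) (T + 1), VV (x i) (Λ i) z ≤
          (∫ u in rh (1 / 2) (T + 1), |Real.log ‖L i u‖|) +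
            ∫ u in rh (1 / 2) (T + 1), (q * x i + q * x i * |Real.log ‖u - 1‖|) := by
        rw [← integral_add (deg_int h i _) (hEi _ _)]
        refine integral_mono_ae (hVi i _) ((deg_int h i _).add (hEi _ _)) ?_
        filter_upwards [ae_restrict_of_ae (hae i), ae_restrict_mem (rh_meas _ _)] with u hu hur
        have hF0 := hL0 i u hur.1 hu.2 hu.1
        have h5 := (hl u hur.1 hur.2 hu.2 hF0).2
        rw [VV_right hur.1 hu.1, log_HH hu.1]
        calc |Real.log ‖Λ i u‖ - x i * (u.re / 2)| =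
              |(Real.log ‖Λ i u‖ - x i * (u.re / 2) - Real.log ‖L i u‖) + Real.log ‖L i u‖| := by
                rw [sub_add_cancel]
          _ ≤ _ := by
              refine (abs_add_le _ _).trans ?_
              linarith
      have h7 : ∫ u in rh (1 / 2) (T + 1), (q * x i + q * x i * |Real.log ‖u - 1‖|) ≤
          ε / 4 * x i := by
        rw [hEint, ← hm]
        calc q * x i * m ≤ q * x i * (m + 1) := by gcongr; linarith
          _ = ε / 4 * x i := by rw [hq]; field_simp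
      linarith
    · intro h1 T ε hε
      set T' := |T| + 1 with hT'
      set m := (volume : Measure ℂ).real (rh (1 / 2) T') + pm T' with hm
      have hm0 : 0 ≤ m := add_nonneg measureReal_nonneg (pm_nonneg _)
      filter_upwards [h1 T' (ε / 2) (by positivity) (by positivity), hx,
        deg_log hc h hA T' (show 0 < ε / (2 * (m + 1)) by positivity)] with i hi hxi hl
      set q := ε / (2 * (m + 1)) with hq
      have h6 : ∫ s in rh (1 / 2) T, |Real.log ‖L i s‖| ≤ ∫ u in rh (1 / 2) T', |Real.log ‖L i u‖| := by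
        refine setIntegral_mono_set (deg_int h i _) (Eventually.of_forall fun u => abs_nonneg _) ?_
        refine LE.le.eventuallyLE fun u hu => ?_
        obtain ⟨h7, h8⟩ := hu
        refine ⟨h7, h8.trans ?_⟩
        have := le_abs_self T
        linarith
      have h4 : ∫ u in rh (1 / 2) T', |Real.log ‖L i u‖| ≤
          (∫ z in rh (1 / 2) T', VV (x i) (Λ i) z) +
            ∫ u in rh (1 / 2) T', (q * x i + q * x i * |Real.log ‖u - 1‖|) := by
        rw [← integral_add (hVi i _) (hEi _ _)]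
        refine integral_mono_ae (deg_int h i _) ((hVi i _).add (hEi _ _)) ?_
        filter_upwards [ae_restrict_of_ae (hae i), ae_restrict_mem (rh_meas _ _)] with u hu hur
        have hF0 := hL0 i u hur.1 hu.2 hu.1
        have h5 := (hl u hur.1 hur.2 hu.2 hF0).2
        rw [VV_right hur.1 hu.1, log_HH hu.1]
        calc |Real.log ‖L i u‖| = |(Real.log ‖Λ i u‖ - x i * (u.re / 2)) -
              (Real.log ‖Λ i u‖ - x i * (u.re / 2) - Real.log ‖L i u‖)| := by
                rw [sub_sub_cancel]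
          _ ≤ _ := by
              refine (abs_sub _ _).trans ?_
              linarith
      have h7 : ∫ u in rh (1 / 2) T', (q * x i + q * x i * |Real.log ‖u - 1‖|) ≤ ε / 2 * x i := by
        rw [hEint, ← hm]
        calc q * x i * m ≤ q * x i * (m + 1) := by gcongr; linarith
          _ = ε / 2 * x i := by rw [hq]; field_simp
      have h8 : (∫ z in rh (1 / 2) T', VV (x i) (Λ i) z) ≤
          ∫ z in closedBall (0 : ℂ) T', VV (x i) (Λ i) z :=
        setIntegral_mono_set (VV_int (hent i) (hne i) 0 T')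
          (Eventually.of_forall fun u => VV_nonneg _ _ u) (rh_sub _ _).eventuallyLE
      linarith
  -- 3
  have e34 : (∀ T ε : ℝ, 0 < ε → ∀ᶠ i in l, ∀ s : ℂ, 1 / 2 ≤ s.re → ‖s‖ ≤ T → ε ≤ ‖s - 1‖ →
        ‖L i s‖ ≤ Real.exp (x i * ε)) →
      (∀ T ε : ℝ, 0 < ε → ∀ᶠ i in l, ∀ t : ℝ, |t| ≤ T → ‖L i (pt t)‖ ≤ Real.exp (x i * ε)) := by
    intro h1 T ε hε
    filter_upwards [h1 (T + 1) (min ε (1 / 2)) (by positivity), hx] with i hi hxi t ht
    refine (hi (pt t) (by rw [pt_re]) (pt_norm ht) ((min_le_right _ _).trans (pt_dist t))).trans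
      (Real.exp_le_exp.2 ?_)
    exact mul_le_mul_of_nonneg_left (min_le_left _ _) hxi.le
  have e3 : (∀ T ε : ℝ, 0 < ε → ∀ᶠ i in l, ∀ s : ℂ, 1 / 2 ≤ s.re → ‖s‖ ≤ T →
        Real.log ‖Λ i s‖ ≤ x i * (s.re / 2 + ε)) →
      (∀ T ε : ℝ, 0 < ε → ∀ᶠ i in l, ∀ s : ℂ, 1 / 2 ≤ s.re → ‖s‖ ≤ T → ε ≤ ‖s - 1‖ →
        ‖L i s‖ ≤ Real.exp (x i * ε)) := by
    intro h1 T ε hε
    have hdd := dd_nonneg ε T
    filter_upwards [h1 T (ε / 2) (by positivity), hx,
      deg_log hc h hA T (show 0 < ε / (2 * (1 + dd ε T)) by positivity)] with i hi hxi hl s hs hsT hse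
    by_cases h0 : L i s = 0
    · rw [h0, norm_zero]
      exact (Real.exp_pos _).le
    · have hs1 : s ≠ 1 := by
        rintro rfl
        rw [sub_self, norm_zero] at hse
        linarith
      obtain ⟨h2, h3⟩ := hl s hs hsT hs1 h0
      have h4 : |Real.log ‖s - 1‖| ≤ dd ε T := dd_le hε hse hsT
      set q := ε / (2 * (1 + dd ε T)) with hq
      have hq0 : 0 < q := by positivity
      have h5 : q * x i + q * x i * |Real.log ‖s - 1‖| ≤ ε / 2 * x i := by
        calc q * x i + q * x i * |Real.log ‖s - 1‖| ≤ q * x i + q * x i * dd ε T := by gcongr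
          _ = q * (1 + dd ε T) * x i := by ring
          _ = ε / 2 * x i := by
              rw [hq]
              field_simp
      rw [← Real.log_le_iff_le_exp (norm_pos_iff.2 h0)]
      have h6 := (abs_le.1 (h3.trans h5)).1
      have h7 := hi s hs hsT
      linarith
  have k1 := key.out 0 1
  have k2 := key.out 1 2
  have k3 := key.out 2 3
  have k4 := key.out 3 4
  tfae_have 1 ↔ 2 := e1.trans (k1.trans e2.symm)
  tfae_have 2 ↔ 4 := e2.trans ((k2.trans k3).trans e4.symm)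
  tfae_have 4 ↔ 5 := e4.trans (k4.trans e5.symm)
  tfae_have 3 → 4 := e34
  tfae_have 4 → 3 := fun h1 => e3 (k3.2 (e4.1 h1))
  tfae_finish

end family

end Pool.Agent.H465.PT
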