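import Pool.Agent.H465.PT.AB

/-!
# Families of Hecke L-functions over number fields
-/

set_option autoImplicit false

open MeasureTheory Metric Set Filter Topology Asymptotics
open scoped Real ENNReal ComplexConjugate
open NumberField IsDedekindDomain

namespace Pool.Agent.H465.PT

open Pool.Agent.H465.EQ
open Pool.Agent.Y773 (LI GG)
open Pool.Agent.Y773.G (IsPrimChar)

section
variable {K : Type} [Field K] [NumberField K] {ψ : Ideal (𝓞 K) →*₀ ℂ}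

lemma BB_nonneg' (ϑ : ℝ) : 0 ≤ BB ϑ := BB_nonneg ϑ

/-- the conductor of the L-function -/
lemma cond_eq (𝔣 : Ideal (𝓞 K)) :
    ((Ideal.absNorm 𝔣 * Ideal.absNorm (differentIdeal ℤ (𝓞 K)) : ℕ) : ℝ) =
      |(discr K : ℝ)| * Ideal.absNorm 𝔣 := by
  rw [NumberField.absNorm_differentIdeal (K := K)]
  push_cast
  rw [Nat.cast_natAbs]
  push_cast
  ring

/-- **All primitive characters have the analytic data.** -/
theorem prim_deg {𝔣 : Ideal (𝓞 K)} (hψ : IsPrimChar K 𝔣 ψ) {L : ℂ → ℂ} (hL : IsCont ψ L) :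
    ∃ (k : ℕ) (Λ : ℂ → ℂ), Deg cH BB k (Module.finrank ℚ K)
      (Real.log (|(discr K : ℝ)| * Ideal.absNorm 𝔣)) Λ L := by
  obtain ⟨k, e, Λ, F, h⟩ := hd_all hψ
  refine ⟨k, Λ, ?_⟩
  rw [← cond_eq]
  exact h.deg hL

/-- the L-function exists -/
theorem cont_exists {𝔣 : Ideal (𝓞 K)} (hψ : IsPrimChar K 𝔣 ψ) : ∃ L : ℂ → ℂ, IsCont ψ L := by
  obtain ⟨k, e, Λ, F, h⟩ := hd_all hψ
  refine ⟨fun s => F s / (s - 1) ^ k, fun s hs => ?_, fun s hs => ?_⟩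
  · exact (h.entF s).div ((differentiableAt_id.sub_const _).pow _) (pow_ne_zero _ (sub_ne_zero.2 hs))
  · rw [h.ser s hs, mul_div_cancel_left₀ _ (pow_ne_zero _ (sub_ne_zero.2 (ne_one_of_re hs)))]

lemma cont_of_prod (hψ : ∀ 𝔞, ‖ψ 𝔞‖ ≤ 1) {L : ℂ → ℂ}
    (h1 : ∀ s : ℂ, s ≠ 1 → DifferentiableAt ℂ L s)
    (h2 : ∀ s : ℂ, 1 < s.re → HasProd (fun v : HeightOneSpectrum (𝓞 K) =>
      (1 - ψ v.asIdeal * ((Ideal.absNorm v.asIdeal : ℕ) : ℂ) ^ (-s))⁻¹) (L s)) : IsCont ψ L :=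
  ⟨h1, fun s hs => (h2 s hs).unique (LI_prod hψ hs)⟩

end

end Pool.Agent.H465.PT
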