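import Pool.Agent.H465.PT.BA

/-!
# The law for the leading coefficient at the centre
-/

set_option autoImplicit false

open MeasureTheory Metric Set Filter Topology
open scoped Real ENNReal ComplexConjugate

namespace Pool.Agent.H465.PT

open Pool.Agent.H465.EQ

/-- a bump at the centre -/
noncomputable def bp (δ : ℝ) (z : ℂ) : ℝ := max 0 (min 1 (2 - ‖z - 1 / 2‖ / δ))

lemma bp_cont (δ : ℝ) : Continuous (bp δ) := by
  unfold bp
  fun_prop

lemma bp_nn (δ : ℝ) (z : ℂ) : 0 ≤ bp δ z := le_max_left _ _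

lemma bp_le (δ : ℝ) (z : ℂ) : bp δ z ≤ 1 := max_le zero_le_one (min_le_left _ _)

lemma bp_one {δ : ℝ} (hδ : 0 < δ) {z : ℂ} (h : ‖z - 1 / 2‖ ≤ δ) : 1 ≤ bp δ z := by
  unfold bp
  refine le_max_of_le_right (le_min le_rfl ?_)
  have : ‖z - 1 / 2‖ / δ ≤ 1 := by rw [div_le_one hδ]; exact h
  linarith

lemma bp_zero {δ : ℝ} (hδ : 0 < δ) {z : ℂ} (h : 2 * δ ≤ ‖z - 1 / 2‖) : bp δ z = 0 := by
  unfold bp
  refine max_eq_left ((min_le_right _ _).trans ?_)
  have : 2 ≤ ‖z - 1 / 2‖ / δ := by rw [le_div_iff₀ hδ]; exact h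
  linarith

lemma bp_far {δ : ℝ} (hδ : 0 < δ) {z : ℂ} (h : 2 * δ + 1 < ‖z‖) : bp δ z = 0 := by
  refine bp_zero hδ ?_
  have h1 : ‖z‖ ≤ ‖z - 1 / 2‖ + ‖(1 / 2 : ℂ)‖ := by
    have := norm_add_le (z - 1 / 2) (1 / 2)
    rwa [sub_add_cancel] at this
  have h2 : ‖(1 / 2 : ℂ)‖ = 1 / 2 := by simp
  linarith

lemma bp_comp {δ : ℝ} (hδ : 0 < δ) : HasCompactSupport (bp δ) := by
  refine HasCompactSupport.of_support_subset_isCompact (isCompact_closedBall (0 : ℂ) (2 * δ + 1)) ?_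
  intro c hc
  rw [mem_closedBall_zero_iff]
  by_contra h
  exact hc (bp_far hδ (not_le.1 h))

lemma bp_int {δ : ℝ} (hδ : 0 < δ) : ∫ t : ℝ, bp δ (pt t) ≤ 4 * δ := by
  have h1 : ∀ t : ℝ, bp δ (pt t) ≤ (Icc (-(2 * δ)) (2 * δ)).indicator (fun _ => (1 : ℝ)) t := by
    intro t
    by_cases ht : t ∈ Icc (-(2 * δ)) (2 * δ)
    · rw [indicator_of_mem ht]
      exact bp_le _ _
    · rw [indicator_of_notMem ht]
      refine le_of_eq (bp_zero hδ ?_)
      have h2 : (pt t - 1 / 2 : ℂ) = t * Complex.I := by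
        apply Complex.ext
        · simp [pt]
        · simp [pt]
      rw [h2, norm_mul, Complex.norm_I, mul_one, Complex.norm_real, Real.norm_eq_abs]
      rw [mem_Icc, ← abs_le, not_le] at ht
      exact ht.le
  have hi : Integrable ((Icc (-(2 * δ)) (2 * δ)).indicator (fun _ : ℝ => (1 : ℝ))) := by
    rw [integrable_indicator_iff measurableSet_Icc]
    exact integrableOn_const (by simp)
  refine (integral_mono_of_nonneg (Eventually.of_forall fun t => bp_nn _ _) hi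
    (Eventually.of_forall h1)).trans ?_
  rw [integral_indicator measurableSet_Icc, setIntegral_const, smul_eq_mul, mul_one, Measure.real,
    Real.volume_Icc, ENNReal.toReal_ofReal (by linarith)]
  linarith

/-- few zeros near the centre -/
lemma nz_bump {f : ℂ → ℂ} (hf : Differentiable ℂ f) {z₀ : ℂ} (h0 : f z₀ ≠ 0) {δ x : ℝ}
    (hδ : 0 < δ) (hx : 0 < x)
    (h : |(∑ᶠ u, mu f u * bp δ u) - x / (2 * π) * ∫ t : ℝ, bp δ (pt t)| ≤ δ / 4 * x) :
    nz f (closedBall (1 / 2) δ) ≤ δ * x := by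
  have h1 := nz_le_finsum hf h0 (S := closedBall (1 / 2) δ) (R := 2 * δ + 1) (g := bp δ) ?_
    (bp_nn δ) (fun z hz => bp_one hδ (by rwa [mem_closedBall, dist_eq_norm] at hz))
    (fun z hz => bp_far hδ hz)
  · have h2 := (abs_le.1 h).2
    have h3 := bp_int hδ
    have hpi := Real.pi_gt_three
    have h4 : x / (2 * π) * ∫ t : ℝ, bp δ (pt t) ≤ 3 / 4 * δ * x := by
      calc x / (2 * π) * ∫ t : ℝ, bp δ (pt t) ≤ x / (2 * π) * (4 * δ) := by gcongr
        _ = x * (4 * δ) / (2 * π) := by ring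
        _ ≤ 3 / 4 * δ * x := by
            rw [div_le_iff₀ (by positivity)]
            nlinarith [mul_pos hδ hx]
    linarith
  · intro z hz
    rw [mem_closedBall, dist_eq_norm] at hz
    rw [mem_closedBall_zero_iff]
    have h1 : ‖z‖ ≤ ‖z - 1 / 2‖ + ‖(1 / 2 : ℂ)‖ := by
      have := norm_add_le (z - 1 / 2) (1 / 2)
      rwa [sub_add_cancel] at this
    have h2 : ‖(1 / 2 : ℂ)‖ = 1 / 2 := by simp
    linarith

/-- the order at the centre -/
lemma mu_le_nz {f : ℂ → ℂ} (hf : Differentiable ℂ f) {z₀ : ℂ} (h0 : f z₀ ≠ 0) {δ : ℝ} {c : ℂ}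
    (hδ : 0 < δ) : mu f c ≤ nz f (closedBall c δ) := by
  have h1 : nz f (closedBall c δ) = ∑ u ∈ (fin_zeros hf h0 c δ).toFinset, mu f u := by
    refine nz_eq (fun u hu h1 => ?_) (fun u hu => ?_) hf
    · rw [Set.Finite.mem_toFinset]
      exact ⟨h1, hu⟩
    · rw [Set.Finite.mem_toFinset] at hu
      exact hu.2
  rw [h1]
  by_cases hc : mu f c = 0
  · rw [hc]
    exact Finset.sum_nonneg fun u _ => mu_nonneg _ _
  · refine Finset.single_le_sum (f := fun u => mu f u) (fun u _ => mu_nonneg _ _) ?_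
    rw [Set.Finite.mem_toFinset]
    exact ⟨mu_ne hf hc, mem_closedBall_self hδ.le⟩

/-- **The law for one function.** -/
theorem law_one {f : ℂ → ℂ} (hf : Differentiable ℂ f) {z₀ : ℂ} (h0 : f z₀ ≠ 0) {δ x a ω : ℝ}
    (hδ : 0 < δ) (hδ1 : δ ≤ 1 / 2) (hx : 0 ≤ x)
    (h : ∫ z in closedBall (0 : ℂ) 1, |Real.log ‖f z‖ - x * (U0 z + a)| ≤ ω) :
    |Real.log ‖meromorphicTrailingCoeffAt f (1 / 2)‖ - x * a +
      ∑ᶠ u, mu f u * lk δ (u - 1 / 2)| ≤
      nz f (closedBall (1 / 2) δ) + mu f (1 / 2) * |Real.log δ| + x * δ / 2 + ω / (π * δ ^ 2) := by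
  have hpi := Real.pi_pos
  have h1 := disc_tc hf h0 (1 / 2) hδ
  set S : ℝ := ∑ᶠ u, mu f u * lk δ (u - 1 / 2) with hS
  set N : ℝ := nz f (closedBall (1 / 2) δ) with hN
  set l : ℝ := Real.log ‖meromorphicTrailingCoeffAt f (1 / 2)‖ with hl
  have hsub : ball (1 / 2 : ℂ) δ ⊆ closedBall 0 1 := by
    intro z hz
    rw [mem_ball, dist_eq_norm] at hz
    rw [mem_closedBall_zero_iff]
    have h1 : ‖z‖ ≤ ‖z - 1 / 2‖ + ‖(1 / 2 : ℂ)‖ := by
      have := norm_add_le (z - 1 / 2) (1 / 2)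
      rwa [sub_add_cancel] at this
    have h2 : ‖(1 / 2 : ℂ)‖ = 1 / 2 := by simp
    linarith
  have hiP : IntegrableOn (fun z => Real.log ‖f z‖) (closedBall (0 : ℂ) 1) :=
    (locInt hf h0).integrableOn_isCompact (isCompact_closedBall _ _)
  have hiU : IntegrableOn (fun z => x * (U0 z + a)) (closedBall (0 : ℂ) 1) :=
    (((continuous_U0.add continuous_const).const_mul x).locallyIntegrable.integrableOn_isCompact
      (isCompact_closedBall _ _))
  have h2 : |∫ z in ball (1 / 2 : ℂ) δ, (Real.log ‖f z‖ - x * (U0 z + a))| ≤ ω := by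
    refine (abs_integral_le_integral_abs).trans ?_
    refine le_trans ?_ h
    exact setIntegral_mono_set (hiP.sub hiU).abs (Eventually.of_forall fun z => abs_nonneg _)
      hsub.eventuallyLE
  rw [integral_sub (hiP.mono_set hsub) (hiU.mono_set hsub)] at h2
  have hvol := vol_ball_real (1 / 2) hδ.le
  have h3 : |(∫ z in ball (1 / 2 : ℂ) δ, x * (U0 z + a)) - π * δ ^ 2 * (x * a)| ≤
      π * δ ^ 2 * (x * δ / 2) := by
    have e : (∫ z in ball (1 / 2 : ℂ) δ, x * (U0 z + a)) - π * δ ^ 2 * (x * a) =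
        ∫ z in ball (1 / 2 : ℂ) δ, (x * (U0 z + a) - x * a) := by
      rw [integral_sub (hiU.mono_set hsub) (integrableOn_const measure_ball_lt_top.ne),
        setIntegral_const, hvol, smul_eq_mul]
    rw [e]
    have h4 : ‖∫ z in ball (1 / 2 : ℂ) δ, (x * (U0 z + a) - x * a)‖ ≤
        (x * δ / 2) * (volume : Measure ℂ).real (ball (1 / 2) δ) := by
      refine norm_setIntegral_le_of_norm_le_const measure_ball_lt_top fun z hz => ?_
      rw [mem_ball, dist_eq_norm] at hz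
      have e2 : x * (U0 z + a) - x * a = x * U0 z := by ring
      rw [e2, Real.norm_eq_abs, abs_mul, abs_of_nonneg hx, abs_of_nonneg (U0_nonneg z)]
      have h5 := Complex.abs_re_le_norm (z - 1 / 2)
      have h6 : (z - 1 / 2 : ℂ).re = z.re - 1 / 2 := by simp
      rw [h6] at h5
      unfold U0
      calc x * (|z.re - 1 / 2| / 2) ≤ x * (δ / 2) := by gcongr; linarith
        _ = x * δ / 2 := by ring
    rw [hvol, Real.norm_eq_abs] at h4
    linarith
  have hpd : 0 < π * δ ^ 2 := by positivity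
  have h7 : |π * δ ^ 2 * (l + S + mu f (1 / 2) * Real.log δ - x * a)| ≤
      π * δ ^ 2 * N + π * δ ^ 2 * (x * δ / 2) + ω := by
    rw [abs_le] at h1 h2 h3 ⊢
    constructor <;> linarith [h1.1, h1.2, h2.1, h2.2, h3.1, h3.2]
  rw [abs_mul, abs_of_pos hpd] at h7
  have h8 : |l + S + mu f (1 / 2) * Real.log δ - x * a| ≤ N + x * δ / 2 + ω / (π * δ ^ 2) := by
    have e : π * δ ^ 2 * N + π * δ ^ 2 * (x * δ / 2) + ω =
        π * δ ^ 2 * (N + x * δ / 2 + ω / (π * δ ^ 2)) := by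
      field_simp
    rw [e] at h7
    exact le_of_mul_le_mul_left h7 hpd
  have h9 : |mu f (1 / 2) * Real.log δ| = mu f (1 / 2) * |Real.log δ| := by
    rw [abs_mul, abs_of_nonneg (mu_nonneg _ _)]
  calc |l - x * a + S| = |(l + S + mu f (1 / 2) * Real.log δ - x * a) -
        mu f (1 / 2) * Real.log δ| := by congr 1; ring
    _ ≤ |l + S + mu f (1 / 2) * Real.log δ - x * a| + |mu f (1 / 2) * Real.log δ| := abs_sub _ _
    _ ≤ _ := by rw [h9]; linarith

/-- **The law.** For every `ε` and every small `δ` it holds if the potential is close to the model and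
the zeros are equidistributed. -/
theorem law {δ ε : ℝ} (hδ : 0 < δ) (hδ1 : δ ≤ 1 / 2) (hδε : δ ≤ ε / 4) :
    ∃ κ δ' : ℝ, 0 < κ ∧ 0 < δ' ∧ ∀ (f : ℂ → ℂ) (_ : Differentiable ℂ f) (z₀ : ℂ) (_ : f z₀ ≠ 0)
      (x a : ℝ), 0 < x →
      ∫ z in closedBall (0 : ℂ) 1, |Real.log ‖f z‖ - x * (U0 z + a)| ≤ κ * x →
      |(∑ᶠ u, mu f u * bp δ u) - x / (2 * π) * ∫ t : ℝ, bp δ (pt t)| ≤ δ / 4 * x →
      |(∑ᶠ u, mu f u * bp δ' u) - x / (2 * π) * ∫ t : ℝ, bp δ' (pt t)| ≤ δ' / 4 * x →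
      |Real.log ‖meromorphicTrailingCoeffAt f (1 / 2)‖ - x * a +
        ∑ᶠ u, mu f u * lk δ (u - 1 / 2)| ≤ ε * x ∧ mu f (1 / 2) ≤ ε * x := by
  have hpi := Real.pi_pos
  have hε : 0 < ε := by linarith
  set δ' : ℝ := min ε (ε / (4 * (|Real.log δ| + 1))) with hδ'
  have hδ'0 : 0 < δ' := by positivity
  refine ⟨π * δ ^ 2 * (ε / 4), δ', by positivity, hδ'0, fun f hf z₀ h0 x a hx h1 h2 h3 => ?_⟩
  have h4 := nz_bump hf h0 hδ hx h2
  have h5 := (mu_le_nz hf h0 (c := 1 / 2) hδ'0).trans (nz_bump hf h0 hδ'0 hx h3)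
  have h6 := law_one hf h0 hδ hδ1 hx.le h1
  refine ⟨h6.trans ?_, h5.trans (mul_le_mul_of_nonneg_right (min_le_left _ _) hx.le)⟩
  have e1 : π * δ ^ 2 * (ε / 4) * x / (π * δ ^ 2) = ε / 4 * x := by field_simp
  rw [e1]
  have e2 : mu f (1 / 2) * |Real.log δ| ≤ ε / 4 * x := by
    calc mu f (1 / 2) * |Real.log δ| ≤ (δ' * x) * (|Real.log δ| + 1) := by
          refine mul_le_mul h5 (by linarith) (abs_nonneg _) (by positivity)
      _ ≤ (ε / (4 * (|Real.log δ| + 1)) * x) * (|Real.log δ| + 1) := by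
          gcongr
          exact min_le_right _ _
      _ = ε / 4 * x := by field_simp
  have e3 : δ * x ≤ ε / 4 * x := mul_le_mul_of_nonneg_right hδε hx.le
  have e4 : x * δ / 2 ≤ ε / 8 * x := by
    have : x * δ / 2 = δ * x / 2 := by ring
    rw [this]
    linarith
  have : 0 < ε * x := by positivity
  linarith

end Pool.Agent.H465.PT
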