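import Pool.Agent.H465.EQ.K

/-!
# Propagation of smallness for functions without zeros
-/

set_option autoImplicit false

open MeasureTheory Metric Set Filter Topology
open scoped Real ENNReal

namespace Pool.Agent.H465.PT

open Pool.Agent.H465.EQ

/-- **Propagation of smallness.** -/
theorem prop {r₀ ρ' ρ : ℝ} (h0 : 0 < r₀) (h01 : r₀ ≤ ρ') (h1 : ρ' < ρ) {ε A : ℝ} (hε : 0 < ε)
    (hA : 0 ≤ A) :
    ∃ ω : ℝ, 0 < ω ∧ ω ≤ 1 ∧ ∀ x : ℝ, 0 < x → ∀ (f : ℂ → ℂ) (p : ℂ),
      DifferentiableOn ℂ f (ball p ρ) → (∀ z ∈ ball p ρ, f z ≠ 0) →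
      (∀ z ∈ ball p ρ, Real.log ‖f z‖ ≤ A * x) →
      (∀ z ∈ ball p r₀, Real.log ‖f z‖ ≤ ω * x) → -(ω * x) ≤ Real.log ‖f p‖ →
      ∀ z ∈ closedBall p ρ', |Real.log ‖f z‖| ≤ ε * x := by
  have hρ'0 : 0 < ρ' := h0.trans_le h01
  have hρ0 : 0 < ρ := hρ'0.trans h1
  set r₃ : ℝ := (ρ + ρ') / 2 with hr₃
  have h3a : ρ' < r₃ := by rw [hr₃]; linarith
  have h3b : r₃ < ρ := by rw [hr₃]; linarith
  set r₁ : ℝ := r₀ / 2 with hr₁
  have hr₁0 : 0 < r₁ := by positivity
  have h13 : r₁ < r₃ := by rw [hr₁]; linarith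
  set θ : ℝ := (Real.log ρ' - Real.log r₁) / (Real.log r₃ - Real.log r₁) with hθ
  have hl1 : Real.log r₁ < Real.log ρ' := Real.log_lt_log hr₁0 (by rw [hr₁]; linarith)
  have hl2 : Real.log ρ' < Real.log r₃ := Real.log_lt_log hρ'0 h3a
  have hθ0 : 0 ≤ θ := div_nonneg (by linarith) (by linarith)
  have hθ1 : θ < 1 := by
    rw [hθ, div_lt_one (by linarith)]
    linarith
  set K : ℝ := max 1 (2 * (A + 1) * r₃ / (ρ - r₃)) with hK
  have hK1 : 1 ≤ K := le_max_left _ _
  -- the choice of `ω`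
  obtain ⟨ω, hω0, hω1, hω2⟩ : ∃ ω : ℝ, 0 < ω ∧ ω ≤ min (1 / 4) (ε / 8) ∧
      (4 * ω) ^ (1 - θ) * K ≤ ε / 2 := by
    have h2 : Tendsto (fun ω : ℝ => (4 * ω) ^ (1 - θ) * K) (𝓝[>] 0) (𝓝 0) := by
      have h3 : Tendsto (fun ω : ℝ => (4 * ω) ^ (1 - θ) * K) (𝓝 0) (𝓝 ((4 * 0) ^ (1 - θ) * K)) := by
        refine Tendsto.mul_const _ ?_
        exact ((continuous_const.mul continuous_id).tendsto _).rpow_const
          (Or.inr (by linarith))
      rw [mul_zero, Real.zero_rpow (by linarith), zero_mul] at h3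
      exact h3.mono_left nhdsWithin_le_nhds
    have h4 : ∀ᶠ ω : ℝ in 𝓝[>] 0, (4 * ω) ^ (1 - θ) * K < ε / 2 :=
      h2.eventually (gt_mem_nhds (by positivity))
    have h5 : ∀ᶠ ω : ℝ in 𝓝[>] (0 : ℝ), ω ∈ Ioo (0 : ℝ) (min (1 / 4) (ε / 8)) :=
      Ioo_mem_nhdsGT (by positivity)
    obtain ⟨ω, h6, h7⟩ := (h4.and h5).exists
    exact ⟨ω, h7.1, h7.2.le, h6.le⟩
  have hω4 : ω ≤ 1 / 4 := hω1.trans (min_le_left _ _)
  have hω8 : ω ≤ ε / 8 := hω1.trans (min_le_right _ _)
  refine ⟨ω, hω0, by linarith, fun x hx f p hf hf0 hup hsm hp z hz => ?_⟩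
  obtain ⟨h, hh, hhc, hexp⟩ := log_ball hρ0 hf hf0
  have hcb : p ∈ ball p ρ := mem_ball_self hρ0
  have hfc : 0 < ‖f p‖ := norm_pos_iff.2 (hf0 p hcb)
  have hre : ∀ w ∈ ball p ρ, (h w).re = Real.log ‖f w‖ - Real.log ‖f p‖ := by
    intro w hw
    rw [hexp w hw, norm_mul, Complex.norm_exp, Real.log_mul hfc.ne' (Real.exp_ne_zero _),
      Real.log_exp]
    ring
  have hωx : 0 < ω * x := by positivity
  have hec : |Real.log ‖f p‖| ≤ ω * x := abs_le.2 ⟨hp, hsm p (mem_ball_self h0)⟩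
  -- the translated function
  set k : ℂ → ℂ := fun w => h (p + w) with hk
  have htr : ∀ {r : ℝ} {w : ℂ}, w ∈ ball (0 : ℂ) r → p + w ∈ ball p r := by
    intro r w hw
    rw [mem_ball, dist_eq_norm] at hw ⊢
    simpa using hw
  have hkd : DifferentiableOn ℂ k (ball 0 ρ) :=
    hh.comp ((differentiable_id.const_add p).differentiableOn) fun w hw => htr hw
  have hk0 : k 0 = 0 := by simp [hk, hhc]
  have hM : ∀ w : ℂ, ‖w‖ = r₃ → ‖k w‖ ≤ K * x := by
    intro w hw
    have h1 := Complex.borelCaratheodory_zero (f := k) (M := (A + 1) * x) (R := ρ) (z := w)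
      (by positivity) hkd (fun v hv => ?_) hρ0 (by rw [mem_ball_zero_iff, hw]; exact h3b) hk0
    · rw [hw] at h1
      refine h1.trans ?_
      have e1 : 2 * ((A + 1) * x) * r₃ / (ρ - r₃) = 2 * (A + 1) * r₃ / (ρ - r₃) * x := by ring
      rw [e1]
      exact mul_le_mul_of_nonneg_right (le_max_right _ _) hx.le
    · show (k v).re ≤ (A + 1) * x
      rw [hk]
      simp only
      rw [hre _ (htr hv)]
      have h2 := hup _ (htr hv)
      have h3 := (abs_le.1 hec).1
      nlinarith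
  have hm' : ∀ w : ℂ, ‖w‖ ≤ r₁ → ‖k w‖ ≤ 4 * ω * x := by
    intro w hw
    have hwr : ‖w‖ < r₀ := hw.trans_lt (by rw [hr₁]; linarith)
    have h1 := Complex.borelCaratheodory_zero (f := k) (M := 2 * (ω * x)) (R := r₀) (z := w)
      (by positivity) (hkd.mono (ball_subset_ball (by linarith))) (fun v hv => ?_) h0
      (by rw [mem_ball_zero_iff]; exact hwr) hk0
    · refine h1.trans ?_
      rw [div_le_iff₀ (by linarith)]
      have h4 : ‖w‖ ≤ r₀ - ‖w‖ := by rw [hr₁] at hw; linarith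
      calc 2 * (2 * (ω * x)) * ‖w‖ = 4 * ω * x * ‖w‖ := by ring
        _ ≤ 4 * ω * x * (r₀ - ‖w‖) := mul_le_mul_of_nonneg_left h4 (by positivity)
    · show (k v).re ≤ 2 * (ω * x)
      rw [hk]
      simp only
      rw [hre _ (ball_subset_ball (by linarith) (htr hv))]
      have h2 := hsm _ (htr hv)
      have h3 := (abs_le.1 hec).1
      linarith
  -- the conclusion
  have hkz : ‖k (z - p)‖ ≤ ε / 2 * x := by
    have hzn : ‖z - p‖ ≤ ρ' := by
      rw [mem_closedBall, dist_eq_norm] at hz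
      exact hz
    rcases le_or_gt ‖z - p‖ r₁ with h8 | h8
    · have h2 := hm' (z - p) h8
      nlinarith
    · have h1 := three (h := k) (r₁ := r₁) (r₃ := r₃) (R := ρ) (m := 4 * ω * x) (M := K * x)
        hr₁0 h13 h3b hkd (fun w hw => hm' w hw.le) hM (z := z - p) h8.le (by linarith)
      refine h1.trans ?_
      set t := (Real.log ‖z - p‖ - Real.log r₁) / (Real.log r₃ - Real.log r₁) with ht
      have ht0 : 0 ≤ t := by
        refine div_nonneg ?_ (by linarith)
        have := Real.log_le_log hr₁0 h8.le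
        linarith
      have htθ : t ≤ θ := by
        rw [ht, hθ]
        refine div_le_div_of_nonneg_right ?_ (by linarith)
        have := Real.log_le_log (by linarith) hzn
        linarith
      have e1 : (4 * ω * x) ^ (1 - t) * (K * x) ^ t = (4 * ω) ^ (1 - t) * K ^ t * x := by
        rw [Real.mul_rpow (by positivity) hx.le, Real.mul_rpow (by positivity) hx.le]
        have : x ^ (1 - t) * x ^ t = x := by
          rw [← Real.rpow_add hx]
          simp
        calc (4 * ω) ^ (1 - t) * x ^ (1 - t) * (K ^ t * x ^ t) =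
            (4 * ω) ^ (1 - t) * K ^ t * (x ^ (1 - t) * x ^ t) := by ring
          _ = _ := by rw [this]
      rw [e1]
      refine mul_le_mul_of_nonneg_right ?_ hx.le
      refine le_trans ?_ hω2
      refine mul_le_mul ?_ ?_ (by positivity) (by positivity)
      · exact Real.rpow_le_rpow_of_exponent_ge (by positivity) (by linarith) (by linarith)
      · calc K ^ t ≤ K ^ (1 : ℝ) := Real.rpow_le_rpow_of_exponent_le hK1 (by linarith)
          _ = K := Real.rpow_one _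
  have hzb : z ∈ ball p ρ := closedBall_subset_ball h1 hz
  have h5 := hre z hzb
  have h6 : |(h z).re| ≤ ‖k (z - p)‖ := by
    have : k (z - p) = h z := by simp [hk]
    rw [this]
    exact Complex.abs_re_le_norm _
  have h7 : Real.log ‖f z‖ = (h z).re + Real.log ‖f p‖ := by rw [h5]; ring
  rw [h7]
  calc |(h z).re + Real.log ‖f p‖| ≤ |(h z).re| + |Real.log ‖f p‖| := abs_add_le _ _
    _ ≤ _ := by nlinarith

end Pool.Agent.H465.PT
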