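import Pool.Agent.H465.PT.Z

/-!
# Hecke L-functions of number fields: existence of the analytic data
-/

set_option autoImplicit false

open MeasureTheory Metric Set Filter Topology Asymptotics
open scoped Real ENNReal ComplexConjugate
open NumberField IsDedekindDomain

namespace Pool.Agent.H465.PT

open Pool.Agent.H465.EQ
open Pool.Agent.Y773 (LI GG TPos FEd)
open Pool.Agent.Y773.G (IsPrimChar IsModChar ex)
open Pool.Agent.Q246.Unr (UC Triv)

section
variable {K : Type} [Field K] [NumberField K] {ψ : Ideal (𝓞 K) →*₀ ℂ}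

lemma gam_ne {e : (K →+* ℂ) → ℕ} {s : ℂ} (hs : 0 < s.re) :
    ∏ φ, Complex.Gammaℝ (s + e φ) ≠ 0 := by
  refine Finset.prod_ne_zero_iff.2 fun φ _ => Complex.Gammaℝ_ne_zero_of_re_pos ?_
  rw [Complex.add_re, Complex.natCast_re]
  positivity

lemma GG_ne {e : (K →+* ℂ) → ℕ} {R : ℝ} (hR : 1 ≤ R) {s : ℂ} (hs : 0 < s.re) : GG R e s ≠ 0 := by
  unfold GG
  rw [rpow_exp hR]
  exact mul_ne_zero (Complex.exp_ne_zero _) (gam_ne hs)

lemma GG_diff {e : (K →+* ℂ) → ℕ} {R : ℝ} (hR : 1 ≤ R) {s : ℂ} (hs : 0 < s.re) :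
    DifferentiableAt ℂ (GG R e) s := by
  have h1 : (GG R e : ℂ → ℂ) = fun s => Complex.exp (((Real.log R / 2 : ℝ) : ℂ) * s) *
      ∏ φ, Complex.Gammaℝ (s + e φ) := by
    funext z
    unfold GG
    rw [rpow_exp hR]
  rw [h1]
  refine DifferentiableAt.mul ((differentiableAt_id.const_mul _).cexp) ?_
  refine DifferentiableAt.fun_finsetProd fun φ _ => ?_
  refine (gr_diff ?_).comp s (differentiableAt_id.add_const _)
  simp only [id_eq, Complex.add_re, Complex.natCast_re]
  positivity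

lemma R_one {𝔣 : Ideal (𝓞 K)} (h : 𝔣 ≠ ⊥) :
    (1 : ℝ) ≤ ((Ideal.absNorm 𝔣 * Ideal.absNorm (differentIdeal ℤ (𝓞 K)) : ℕ) : ℝ) := by
  have h4 : Ideal.absNorm 𝔣 * Ideal.absNorm (differentIdeal ℤ (𝓞 K)) ≠ 0 :=
    mul_ne_zero (fun h1 => h (Ideal.absNorm_eq_zero_iff.mp h1))
      (fun h1 => differentIdeal_ne_bot (Ideal.absNorm_eq_zero_iff.mp h1))
  exact_mod_cast Nat.one_le_iff_ne_zero.mpr h4

/-- the exponents are at most `1` -/
lemma ex_le {e : InfinitePlace K → ℕ} (he : ∀ w, e w ≤ 1) (φ : K →+* ℂ) : ex e φ ≤ 1 := by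
  unfold ex
  split_ifs
  · exact he _
  · omega
  · exact le_rfl

/-- **ramified characters** -/
theorem hd_ram {𝔣 : Ideal (𝓞 K)} (hψ : IsPrimChar K 𝔣 ψ) (hf : 𝔣 ≠ ⊤) :
    ∃ (e : (K →+* ℂ) → ℕ) (Λ F : ℂ → ℂ),
      HD ψ 0 e ((Ideal.absNorm 𝔣 * Ideal.absNorm (differentIdeal ℤ (𝓞 K)) : ℕ) : ℝ) Λ F := by
  obtain ⟨e, he⟩ := Pool.Agent.Y772.G.exists_sig hψ.ne_bot hf hψ.supp hψ.ray
  obtain ⟨F, hF, hFs⟩ := Pool.Agent.Y773.G.fe_prim hψ he
  set R : ℝ := ((Ideal.absNorm 𝔣 * Ideal.absNorm (differentIdeal ℤ (𝓞 K)) : ℕ) : ℝ) with hRd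
  have hR : 1 ≤ R := R_one hψ.ne_bot
  obtain ⟨w, hw, hfe⟩ := hF.fe
  have hd1 : ∀ s : ℂ, 0 < s.re → DifferentiableAt ℂ (fun s => GG R (ex e) s * F s) s := fun s hs =>
    (GG_diff hR hs).mul (hF.diff s)
  -- the reflected function
  set P : ℂ → ℂ := fun s => GG R (ex e) s * F s with hP
  set Q : ℂ → ℂ := fun s => w * conj (P (1 - conj s)) with hQ
  have hd2 : ∀ s : ℂ, s.re < 1 → DifferentiableAt ℂ Q s := by
    intro s hs
    have h1 : DifferentiableAt ℂ P (1 - conj s) := hd1 _ (by simp; linarith)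
    have h2 : DifferentiableAt ℂ (fun z => P (1 - z)) (conj s) :=
      DifferentiableAt.comp (conj s) h1 (differentiableAt_id.const_sub 1)
    have h3 := h2.conj_conj
    rw [Complex.conj_conj] at h3
    exact h3.const_mul w
  have hPQ : ∀ s : ℂ, 0 < s.re → s.re < 1 → P s = Q s := by
    intro s h1 h2
    by_cases h3 : s.im = 0
    · -- by continuity
      have c1 : Tendsto (fun t : ℝ => P (s + t * Complex.I)) (𝓝[≠] 0) (𝓝 (P s)) := by
        have : Tendsto (fun t : ℝ => s + t * Complex.I) (𝓝[≠] 0) (𝓝 s) := by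
          have h4 : Continuous fun t : ℝ => s + t * Complex.I := by fun_prop
          have h5 := h4.tendsto 0
          simp only [Complex.ofReal_zero, zero_mul, add_zero] at h5
          exact h5.mono_left nhdsWithin_le_nhds
        exact (hd1 s h1).continuousAt.tendsto.comp this
      have c2 : Tendsto (fun t : ℝ => Q (s + t * Complex.I)) (𝓝[≠] 0) (𝓝 (Q s)) := by
        have : Tendsto (fun t : ℝ => s + t * Complex.I) (𝓝[≠] 0) (𝓝 s) := by
          have h4 : Continuous fun t : ℝ => s + t * Complex.I := by fun_prop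
          have h5 := h4.tendsto 0
          simp only [Complex.ofReal_zero, zero_mul, add_zero] at h5
          exact h5.mono_left nhdsWithin_le_nhds
        exact (hd2 s h2).continuousAt.tendsto.comp this
      refine tendsto_nhds_unique c1 (c2.congr' ?_)
      filter_upwards [self_mem_nhdsWithin] with t ht
      refine (hfe _ ?_).symm
      simp only [Complex.add_im, h3, Complex.mul_im, Complex.ofReal_re, Complex.I_im,
        Complex.ofReal_im, Complex.I_re]
      simpa using ht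
    · exact hfe s h3
  set Λ : ℂ → ℂ := fun s => if 0 < s.re then P s else Q s with hΛ
  have hL1 : ∀ s : ℂ, 0 < s.re → Λ s = P s := fun s hs => if_pos hs
  have hL2 : ∀ s : ℂ, s.re < 1 → Λ s = Q s := by
    intro s hs
    by_cases h : 0 < s.re
    · rw [hL1 s h, hPQ s h hs]
    · exact if_neg h
  have hent : Differentiable ℂ Λ := by
    intro s
    by_cases h : 0 < s.re
    · refine (hd1 s h).congr_of_eventuallyEq ?_
      filter_upwards [(isOpen_lt continuous_const Complex.continuous_re).mem_nhds h] with z hz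
      exact hL1 z hz
    · have h2 : s.re < 1 := by linarith
      refine (hd2 s h2).congr_of_eventuallyEq ?_
      filter_upwards [(isOpen_lt Complex.continuous_re continuous_const).mem_nhds h2] with z hz
      exact hL2 z hz
  have hnorm : ∀ s : ℂ, ‖Q s‖ = ‖P (1 - conj s)‖ := by
    intro s
    rw [hQ]
    simp only
    rw [norm_mul, hw, one_mul, Complex.norm_conj]
  refine ⟨ex e, Λ, F, zero_le_one, ex_le he.sig_le, fun h => absurd h (by norm_num), hR,
    Pool.Agent.Y772.G.mc_le he, hent, hF.diff, fun s hs => ?_, fun s hs => ?_, fun s => ?_, ?_,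
    fun s hs => ?_⟩
  · rw [hFs s hs, pow_zero, one_mul]
  · rw [hL1 s hs, pow_zero, one_mul]
  · rcases lt_or_ge s.re 1 with h | h
    · rw [hL2 s h, hnorm, hL1 _ (by rw [re_conj_sub]; linarith)]
    · rw [hL1 s (by linarith), hL2 _ (by rw [re_conj_sub]; linarith), hnorm]
      simp
  · -- growth
    obtain ⟨C₁, hC₁⟩ := hF.vert (-1) 2
    have hcomp : IsCompact ((Icc (-1 : ℝ) 2) ×ℂ (Icc (-1 : ℝ) 1)) := isCompact_Icc.reProdIm isCompact_Icc
    obtain ⟨C₂, hC₂⟩ := hcomp.exists_bound_of_continuousOn (f := Λ) hent.continuous.continuousOn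
    refine ⟨max C₁ C₂, 0, fun s h1 h2 => ?_⟩
    rw [pow_zero, mul_one]
    rcases le_or_gt 1 |s.im| with h3 | h3
    · refine le_trans ?_ (le_max_left _ _)
      rcases lt_or_ge 0 s.re with h | h
      · rw [hL1 s h]
        exact hC₁ s h1 h2 h3
      · rw [hL2 s (by linarith), hnorm]
        refine hC₁ _ ?_ ?_ ?_
        · rw [re_conj_sub]; linarith
        · rw [re_conj_sub]; linarith
        · simpa using h3
    · refine le_trans (hC₂ s ?_) (le_max_right _ _)
      rw [Complex.mem_reProdIm]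
      rw [abs_lt] at h3
      exact ⟨⟨h1, h2⟩, ⟨h3.1.le, h3.2.le⟩⟩
  · exact Pool.Agent.Y772.G.nv_prim Pool.Agent.Y773.G.t_ent hψ hf hs (hF.diff.analyticAt s) hFs

/-! ### unramified characters -/

/-- there is an embedding with exponent `0` -/
lemma ex_zero : ∃ φ : K →+* ℂ, ex (fun _ => 0) φ = 0 := by
  obtain ⟨w⟩ : Nonempty (InfinitePlace K) := inferInstance
  refine ⟨w.embedding, ?_⟩
  unfold ex
  split_ifs with h1 h2
  · rfl
  · rfl
  · exact absurd (by rw [InfinitePlace.mk_embedding]) h2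

lemma Rd_one : (1 : ℝ) ≤ (Ideal.absNorm (differentIdeal ℤ (𝓞 K)) : ℝ) := by
  have h := R_one (K := K) (𝔣 := ⊤) (by rw [Ne, eq_comm]; exact bot_ne_top)
  rw [Ideal.absNorm_top, one_mul] at h
  exact h

/-- the entire function `(s - 1)^k L(s, ψ)` -/
theorem uc_ext {e : InfinitePlace K → ℕ} (h : UC e ψ) {k : ℕ} (hk : k ≤ 1)
    (hk1 : k = 1 → ∃ φ : K →+* ℂ, ex e φ = 0) {U : ℂ → ℂ} (hU : Differentiable ℂ U)
    (hUs : ∀ s : ℂ, 1 < s.re → U s = (s * (s - 1)) ^ k *
      (GG (Ideal.absNorm (differentIdeal ℤ (𝓞 K)) : ℝ) (ex e) s * LI ψ s)) :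
    ∃ F : ℂ → ℂ, Differentiable ℂ F ∧ (∀ s : ℂ, 1 < s.re → F s = (s - 1) ^ k * LI ψ s) ∧
      (∀ s : ℂ, 0 < s.re → U s = s ^ k *
        GG (Ideal.absNorm (differentIdeal ℤ (𝓞 K)) : ℝ) (ex e) s * F s) ∧
      (k = 1 → F (-2) = 0) := by
  classical
  set R : ℝ := (Ideal.absNorm (differentIdeal ℤ (𝓞 K)) : ℝ) with hRd
  have hR : 1 ≤ R := Rd_one
  have hpi : (2 * π : ℂ) ≠ 0 := two_pi_ne
  -- the inverse of `s^k ∏ Γ`
  obtain ⟨P, hPd, hP1, hP2⟩ : ∃ P : ℂ → ℂ, Differentiable ℂ P ∧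
      (∀ s : ℂ, 0 < s.re → P s * (s ^ k * ∏ φ, Complex.Gammaℝ (s + ex e φ)) = 1) ∧
      (k = 1 → P (-2) = 0) := by
    have hinv : ∀ m : ℕ, Differentiable ℂ fun s : ℂ => (Complex.Gammaℝ (s + m))⁻¹ := fun m =>
      Complex.differentiable_Gammaℝ_inv.comp (differentiable_id.add_const _)
    rcases Nat.eq_zero_or_pos k with hk0 | hk0
    · refine ⟨fun s => ∏ φ, (Complex.Gammaℝ (s + ex e φ))⁻¹,
        Differentiable.fun_finsetProd fun φ _ => hinv _, fun s hs => ?_, fun h1 => by omega⟩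
      rw [hk0, pow_zero, one_mul, ← Finset.prod_mul_distrib]
      refine Finset.prod_eq_one fun φ _ => inv_mul_cancel₀ ?_
      refine Complex.Gammaℝ_ne_zero_of_re_pos ?_
      rw [Complex.add_re, Complex.natCast_re]
      positivity
    · have hk1' : k = 1 := le_antisymm hk hk0
      obtain ⟨φ₀, hφ₀⟩ := hk1 hk1'
      refine ⟨fun s => (2 * π : ℂ)⁻¹ * (Complex.Gammaℝ (s + 2))⁻¹ *
        ∏ φ ∈ Finset.univ.erase φ₀, (Complex.Gammaℝ (s + ex e φ))⁻¹, ?_, fun s hs => ?_, fun _ => ?_⟩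
      · refine Differentiable.mul (Differentiable.const_mul ?_ _)
          (Differentiable.fun_finsetProd fun φ _ => hinv _)
        have := hinv 2
        simpa using this
      · have hs0 : s ≠ 0 := by
          rintro rfl
          simp at hs
        have hg : Complex.Gammaℝ s ≠ 0 := Complex.Gammaℝ_ne_zero_of_re_pos hs
        have hg2 : Complex.Gammaℝ (s + 2) ≠ 0 := Complex.Gammaℝ_ne_zero_of_re_pos (by
          simp only [Complex.add_re, Complex.re_ofNat]; linarith)
        have e1 : 2 * π * Complex.Gammaℝ (s + 2) = s * Complex.Gammaℝ s := by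
          rw [Complex.Gammaℝ_add_two hs0]
          field_simp
        have e2 : (∏ φ ∈ Finset.univ.erase φ₀, (Complex.Gammaℝ (s + ex e φ))⁻¹) *
            ∏ φ ∈ Finset.univ.erase φ₀, Complex.Gammaℝ (s + ex e φ) = 1 := by
          rw [← Finset.prod_mul_distrib]
          refine Finset.prod_eq_one fun φ _ => inv_mul_cancel₀ ?_
          refine Complex.Gammaℝ_ne_zero_of_re_pos ?_
          rw [Complex.add_re, Complex.natCast_re]
          positivity
        rw [hk1', pow_one, ← Finset.mul_prod_erase _ _ (Finset.mem_univ φ₀), hφ₀, Nat.cast_zero,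
          add_zero]
        calc (2 * π : ℂ)⁻¹ * (Complex.Gammaℝ (s + 2))⁻¹ *
              (∏ φ ∈ Finset.univ.erase φ₀, (Complex.Gammaℝ (s + ex e φ))⁻¹) *
              (s * (Complex.Gammaℝ s * ∏ φ ∈ Finset.univ.erase φ₀, Complex.Gammaℝ (s + ex e φ))) =
              (2 * π : ℂ)⁻¹ * (Complex.Gammaℝ (s + 2))⁻¹ * (s * Complex.Gammaℝ s) *
              ((∏ φ ∈ Finset.univ.erase φ₀, (Complex.Gammaℝ (s + ex e φ))⁻¹) *
              ∏ φ ∈ Finset.univ.erase φ₀, Complex.Gammaℝ (s + ex e φ)) := by ring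
          _ = 1 := by
              rw [e2, ← e1, mul_one]
              field_simp
      · have : (Complex.Gammaℝ (-2 + 2))⁻¹ = 0 := by
          rw [neg_add_cancel, inv_eq_zero]
          rw [Complex.Gammaℝ_eq_zero_iff]
          exact ⟨0, by simp⟩
        simp only
        rw [this, mul_zero, zero_mul]
  set E : ℂ → ℂ := fun s => Complex.exp (-(((Real.log R / 2 : ℝ) : ℂ) * s)) with hE
  have hEd : Differentiable ℂ E := (differentiable_id.const_mul _).neg.cexp
  have hEG : ∀ s : ℂ, 0 < s.re → E s * P s * (s ^ k * GG R (ex e) s) = 1 := by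
    intro s hs
    unfold GG
    rw [rpow_exp hR, hE]
    simp only
    calc Complex.exp (-(((Real.log R / 2 : ℝ) : ℂ) * s)) * P s *
          (s ^ k * (Complex.exp (((Real.log R / 2 : ℝ) : ℂ) * s) *
            ∏ φ, Complex.Gammaℝ (s + ex e φ))) =
          (Complex.exp (-(((Real.log R / 2 : ℝ) : ℂ) * s)) *
            Complex.exp (((Real.log R / 2 : ℝ) : ℂ) * s)) *
          (P s * (s ^ k * ∏ φ, Complex.Gammaℝ (s + ex e φ))) := by ring
      _ = 1 := by rw [hP1 s hs, ← Complex.exp_add, neg_add_cancel, Complex.exp_zero, mul_one]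
  refine ⟨fun s => E s * P s * U s, (hEd.mul hPd).mul hU, fun s hs => ?_, fun s hs => ?_, fun h1 => ?_⟩
  · have h1 := hEG s (by linarith)
    simp only
    rw [hUs s hs, mul_pow]
    linear_combination ((s - 1) ^ k * LI ψ s) * h1
  · have h1 := hEG s hs
    linear_combination (-U s) * h1
  · simp only
    rw [hP2 h1, mul_zero, zero_mul]

end

end Pool.Agent.H465.PT
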