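import Pool.Agent.H465.PT.AA
import Pool.Graph.R_seed8.Y772.NZ.Zeta

/-!
# Hecke L-functions of number fields: unramified characters
-/

set_option autoImplicit false

open MeasureTheory Metric Set Filter Topology Asymptotics
open scoped Real ENNReal ComplexConjugate
open NumberField IsDedekindDomain

namespace Pool.Agent.H465.PT

open Pool.Agent.H465.EQ
open Pool.Agent.Y773 (LI GG TPos FEd)
open Pool.Agent.Y773.G (IsPrimChar IsModChar ex)
open Pool.Agent.Q246.Unr (UC Triv)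
open Pool.Agent.Y772.NZ (one one_ne one_norm)
open Pool.Agent.Y772.NV (ab sq NVData nv)

section
variable {K : Type} [Field K] [NumberField K] {ψ : Ideal (𝓞 K) →*₀ ℂ} {e : InfinitePlace K → ℕ}

lemma triv_one (h : Triv ψ) : ψ = one K := by
  ext 𝔞
  by_cases h0 : 𝔞 = 0
  · rw [h0, map_zero, map_zero]
  · rw [h 𝔞 h0, one_ne K h0]

lemma one_triv : Triv (one K) := fun 𝔞 h => one_ne K h

lemma one_uc : UC (fun _ : InfinitePlace K => 0) (one K) where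
  he := fun _ => Nat.zero_le _
  cpx := fun _ _ => rfl
  ne := fun 𝔞 h => by rw [one_ne K h]; exact one_ne_zero
  sig := fun x hx => by
    have h1 : Ideal.span {x} ≠ (0 : Ideal (𝓞 K)) := by
      rw [Ideal.zero_eq_bot, Ne, Ideal.span_singleton_eq_bot]
      exact hx
    rw [one_ne K h1]
    exact (Pool.Agent.Y772.G.sg_zero _).symm

/-- the Dedekind zeta function -/
lemma one_data : ∃ Λ F : ℂ → ℂ, Differentiable ℂ Λ ∧ Differentiable ℂ F ∧
    (∀ s : ℂ, 1 < s.re → F s = (s - 1) * LI (one K) s) ∧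
    (∀ s : ℂ, 0 < s.re → Λ s = s ^ 1 * GG (Ideal.absNorm (differentIdeal ℤ (𝓞 K)) : ℝ)
      (ex (fun _ : InfinitePlace K => 0)) s * F s) ∧ F (-2) = 0 ∧
    (∀ s : ℂ, ‖Λ (1 - conj s)‖ = ‖Λ s‖) ∧
    ∃ (C : ℝ) (m : ℕ), ∀ s : ℂ, -1 ≤ s.re → s.re ≤ 2 → ‖Λ s‖ ≤ C * (1 + ‖s‖) ^ m := by
  obtain ⟨U, w, hU, hw, hs, hfe, hg⟩ := (one_uc (K := K)).fe
  rw [if_pos one_triv] at hs
  obtain ⟨F, hF, h1, h2, h3⟩ := uc_ext one_uc le_rfl (fun _ => ex_zero) hU hs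
  obtain ⟨C, -, hC⟩ := hg (-1) 2
  refine ⟨U, F, hU, hF, fun s hs => by rw [h1 s hs, pow_one], h2, h3 rfl, fun s => ?_, C, 2, hC⟩
  rw [hfe s, norm_mul, hw, one_mul, Complex.norm_conj]

lemma uc_data (h : UC e ψ) (hT : ¬ Triv ψ) : ∃ Λ F : ℂ → ℂ, Differentiable ℂ Λ ∧
    Differentiable ℂ F ∧ (∀ s : ℂ, 1 < s.re → F s = LI ψ s) ∧
    (∀ s : ℂ, 0 < s.re → Λ s = s ^ 0 * GG (Ideal.absNorm (differentIdeal ℤ (𝓞 K)) : ℝ)
      (ex e) s * F s) ∧
    (∀ s : ℂ, ‖Λ (1 - conj s)‖ = ‖Λ s‖) ∧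
    ∃ (C : ℝ) (m : ℕ), ∀ s : ℂ, -1 ≤ s.re → s.re ≤ 2 → ‖Λ s‖ ≤ C * (1 + ‖s‖) ^ m := by
  obtain ⟨U, w, hU, hw, hs, hfe, hg⟩ := h.fe
  rw [if_neg hT] at hs
  obtain ⟨F, hF, h1, h2, h3⟩ := uc_ext h zero_le_one (fun h => absurd h (by norm_num)) hU hs
  obtain ⟨C, -, hC⟩ := hg (-1) 2
  refine ⟨U, F, hU, hF, fun s hs => by rw [h1 s hs, pow_zero, one_mul], h2, fun s => ?_, C, 2, hC⟩
  rw [hfe s, norm_mul, hw, one_mul, Complex.norm_conj]

lemma uc_pole (h : UC e ψ) : ∃ G : ℂ → ℂ, Differentiable ℂ G ∧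
    ∀ s : ℂ, 1 < s.re → G s = (s - 1) * LI ψ s := by
  by_cases hT : Triv ψ
  · rw [triv_one hT]
    obtain ⟨-, F, -, h1, h2, -⟩ := one_data (K := K)
    exact ⟨F, h1, h2⟩
  · obtain ⟨-, F, -, h1, h2, -⟩ := uc_data h hT
    refine ⟨fun s => (s - 1) * F s, (differentiable_id.sub_const _).mul h1, fun s hs => ?_⟩
    simp only
    rw [h2 s hs]

lemma ab_eq (h : UC e ψ) : ab ψ = one K := by
  ext 𝔞
  by_cases h0 : 𝔞 = 0
  · rw [h0, map_zero, map_zero]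
  · rw [one_ne K h0]
    have h1 : ab ψ 𝔞 = ψ 𝔞 * conj (ψ 𝔞) := rfl
    rw [h1, Complex.mul_conj, Complex.normSq_eq_norm_sq, h.norm_one h0]
    simp

lemma sq_uc (h : UC e ψ) : UC (fun _ : InfinitePlace K => 0) (sq ψ) where
  he := fun _ => Nat.zero_le _
  cpx := fun _ _ => rfl
  ne := fun 𝔞 h0 => by
    have h1 : sq ψ 𝔞 = ψ 𝔞 * ψ 𝔞 := rfl
    rw [h1]
    exact mul_ne_zero (h.ne 𝔞 h0) (h.ne 𝔞 h0)
  sig := fun x hx => by
    have h1 : sq ψ (Ideal.span {x}) = ψ (Ideal.span {x}) * ψ (Ideal.span {x}) := rfl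
    rw [Pool.Agent.Y772.G.sg_zero, h1, h.sig x hx, ← pow_two,
      Pool.Agent.Y772.G.sg_sq e (by exact_mod_cast hx)]

/-- the data for the non-vanishing on the line `Re s = 1` -/
lemma uc_nvdata (h : UC e ψ) : NVData ψ where
  unit 𝔞 := by
    by_cases h0 : 𝔞 = 0
    · left
      rw [h0, map_zero]
    · exact Or.inr (h.norm_one h0)
  pab := by
    rw [ab_eq h]
    obtain ⟨-, F, -, h1, h2, -, h3, -⟩ := one_data (K := K)
    exact ⟨F, h1, h2, h3⟩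
  peta := uc_pole h
  psq := uc_pole (sq_uc h)
  psq' := by
    by_cases hT : Triv (sq ψ)
    · left
      intro 𝔞
      rw [triv_one hT, ab_eq h]
    · right
      obtain ⟨-, F, -, h1, h2, -⟩ := uc_data (sq_uc h) hT
      exact ⟨F, h1, h2⟩

/-- **unramified characters** -/
theorem hd_unr (h : UC e ψ) (hT : ¬ Triv ψ) : ∃ Λ F : ℂ → ℂ,
    HD ψ 0 (ex e) (Ideal.absNorm (differentIdeal ℤ (𝓞 K)) : ℝ) Λ F := by
  obtain ⟨Λ, F, h1, h2, h3, h4, h5, h6⟩ := uc_data h hT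
  refine ⟨Λ, F, zero_le_one, ex_le h.he, fun h => absurd h (by norm_num), Rd_one, h.norm_le_one, h1,
    h2, fun s hs => by rw [h3 s hs, pow_zero, one_mul], h4, h5, h6, fun s hs => ?_⟩
  exact nv Pool.Agent.Y772.DK.t_dirK (uc_nvdata h) hs (h2.analyticAt s) (Eventually.of_forall h3)

/-- **the trivial character** -/
theorem hd_one : ∃ Λ F : ℂ → ℂ,
    HD (one K) 1 (ex (fun _ : InfinitePlace K => 0))
      (Ideal.absNorm (differentIdeal ℤ (𝓞 K)) : ℝ) Λ F := by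
  obtain ⟨Λ, F, h1, h2, h3, h4, -, h5, h6⟩ := one_data (K := K)
  refine ⟨Λ, F, le_rfl, ex_le fun _ => Nat.zero_le _, fun _ => ex_zero, Rd_one, one_norm K, h1,
    h2, fun s hs => by rw [h3 s hs, pow_one], h4, h5, h6, fun s hs => ?_⟩
  by_cases hs1 : s = 1
  · -- the residue
    subst hs1
    obtain ⟨g, hg, hg1, hgz⟩ := Pool.Agent.Y772.NZ.near_one K
    have t1 : Tendsto (fun x : ℝ => F ((1 + x : ℝ) : ℂ)) (𝓝[>] 0) (𝓝 (F 1)) := by
      have hc : Continuous fun x : ℝ => F ((1 + x : ℝ) : ℂ) := h2.continuous.comp (by fun_prop)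
      have := hc.tendsto 0
      simp only [add_zero, Complex.ofReal_one] at this
      exact this.mono_left nhdsWithin_le_nhds
    have hto : Tendsto (fun x : ℝ => ((1 + x : ℝ) : ℂ)) (𝓝[>] 0) (𝓝 1) := by
      have hc : Continuous fun x : ℝ => ((1 + x : ℝ) : ℂ) := by fun_prop
      have := hc.tendsto 0
      simp only [add_zero, Complex.ofReal_one] at this
      exact this.mono_left nhdsWithin_le_nhds
    have t2 : Tendsto (fun x : ℝ => g ((1 + x : ℝ) : ℂ)) (𝓝[>] 0) (𝓝 (g 1)) :=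
      hg.continuousAt.tendsto.comp hto
    have t3 : (fun x : ℝ => F ((1 + x : ℝ) : ℂ)) =ᶠ[𝓝[>] 0] fun x : ℝ => g ((1 + x : ℝ) : ℂ) := by
      filter_upwards [hto.eventually hgz, self_mem_nhdsWithin] with x hx hx0
      have hx0' : (0 : ℝ) < x := hx0
      have hre : 1 < (((1 + x : ℝ) : ℂ)).re := by
        rw [Complex.ofReal_re]; linarith
      have hne : ((1 + x : ℝ) : ℂ) - 1 ≠ 0 := sub_ne_zero.2 (ne_one_of_re hre)
      rw [h3 _ hre, hx hre, mul_div_cancel₀ _ hne]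
    have h7 := tendsto_nhds_unique (t1.congr' t3) t2
    rw [h7]
    exact hg1
  · -- the other points of the line
    set H : ℂ → ℂ := fun z => F z / (z - 1) with hH
    have hHa : AnalyticAt ℂ H s :=
      (h2.analyticAt s).div (analyticAt_id.sub analyticAt_const) (sub_ne_zero.2 hs1)
    have h7 : H s ≠ 0 := by
      refine nv Pool.Agent.Y772.DK.t_dirK (uc_nvdata (one_uc (K := K))) hs hHa
        (Eventually.of_forall fun z hz => ?_)
      have hne : z - 1 ≠ 0 := sub_ne_zero.2 (ne_one_of_re hz)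
      rw [hH]
      simp only
      rw [h3 z hz, mul_div_cancel_left₀ _ hne]
    intro h0
    apply h7
    rw [hH]
    simp only
    rw [h0, zero_div]

/-- **All primitive characters.** -/
theorem hd_all {𝔣 : Ideal (𝓞 K)} (hψ : IsPrimChar K 𝔣 ψ) : ∃ (k : ℕ) (e : (K →+* ℂ) → ℕ)
    (Λ F : ℂ → ℂ),
    HD ψ k e ((Ideal.absNorm 𝔣 * Ideal.absNorm (differentIdeal ℤ (𝓞 K)) : ℕ) : ℝ) Λ F := by
  by_cases hf : 𝔣 = ⊤
  · subst hf
    have hR : ((Ideal.absNorm (⊤ : Ideal (𝓞 K)) * Ideal.absNorm (differentIdeal ℤ (𝓞 K)) : ℕ) : ℝ) =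
        (Ideal.absNorm (differentIdeal ℤ (𝓞 K)) : ℝ) := by
      rw [Ideal.absNorm_top, one_mul]
    rw [hR]
    by_cases hT : Triv ψ
    · rw [triv_one hT]
      obtain ⟨Λ, F, h⟩ := hd_one (K := K)
      exact ⟨1, _, Λ, F, h⟩
    · obtain ⟨e, he, hc, hsig⟩ := Pool.Agent.Y772.G.t_sig K ⊤ ψ hψ.ne_bot hψ.ray
      have huc : UC e ψ := ⟨he, hc, fun 𝔞 h0 => (hψ.supp 𝔞 h0).2 (by
        rw [Ideal.isCoprime_iff_sup_eq]; simp), fun x hx => hsig x hx (by simp)⟩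
      obtain ⟨Λ, F, h⟩ := hd_unr huc hT
      exact ⟨0, _, Λ, F, h⟩
  · obtain ⟨e, Λ, F, h⟩ := hd_ram hψ hf
    exact ⟨0, e, Λ, F, h⟩

end

end Pool.Agent.H465.PT
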