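import Pool.Agent.H465.PT.A

/-!
# Functions with few zeros in a disc
-/

set_option autoImplicit false

open MeasureTheory Metric Set Filter Topology
open scoped Real ENNReal

namespace Pool.Agent.H465.PT

open Pool.Agent.H465.EQ

lemma order_ne_top {f : ℂ → ℂ} (hf : Differentiable ℂ f) {z₀ : ℂ} (h0 : f z₀ ≠ 0) (u : ℂ) :
    analyticOrderAt f u ≠ ⊤ := by
  intro h
  rw [analyticOrderAt_eq_top] at h
  have h1 : AnalyticOnNhd ℂ f univ := fun z _ => hf.analyticAt z
  have h2 := h1.eq_of_eventuallyEq (g := fun _ => 0) (fun z _ => analyticAt_const) (z₀ := u)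
    h
  exact h0 (congr_fun h2 z₀)

lemma factor_one {f : ℂ → ℂ} (hf : Differentiable ℂ f) {z₀ : ℂ} (h0 : f z₀ ≠ 0) (u : ℂ) :
    ∃ g : ℂ → ℂ, Differentiable ℂ g ∧ g u ≠ 0 ∧
      ∀ z, f z = (z - u) ^ (analyticOrderNatAt f u) * g z := by
  set n := analyticOrderNatAt f u with hn
  obtain ⟨g₀, hg₀, hg₀u, hev⟩ :=
    (hf.analyticAt u).analyticOrderAt_ne_top.1 (order_ne_top hf h0 u)
  rw [← hn] at hev
  classical
  set g : ℂ → ℂ := fun z => if z = u then g₀ u else f z / (z - u) ^ n with hg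
  have hgu : g u = g₀ u := by simp [hg]
  have hgz : ∀ z, z ≠ u → g z = f z / (z - u) ^ n := fun z hz => by simp [hg, hz]
  have hgev : g =ᶠ[𝓝 u] g₀ := by
    filter_upwards [hev] with z hz
    by_cases hzu : z = u
    · rw [hzu, hgu]
    · rw [hgz z hzu, hz, smul_eq_mul, mul_comm, mul_div_assoc,
        div_self (pow_ne_zero _ (sub_ne_zero.2 hzu)), mul_one]
  refine ⟨g, fun z => ?_, by rw [hgu]; exact hg₀u, fun z => ?_⟩
  · by_cases hzu : z = u
    · rw [hzu]
      exact hg₀.differentiableAt.congr_of_eventuallyEq hgev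
    · have h1 : g =ᶠ[𝓝 z] fun w => f w / (w - u) ^ n := by
        filter_upwards [isOpen_ne.mem_nhds hzu] with w hw
        exact hgz w hw
      refine DifferentiableAt.congr_of_eventuallyEq ?_ h1
      exact (hf z).div (((differentiableAt_id).sub_const u).pow n)
        (pow_ne_zero _ (sub_ne_zero.2 hzu))
  · by_cases hzu : z = u
    · have := hev.self_of_nhds
      rw [hzu, hgu, this]
      simp only [smul_eq_mul]
    · rw [hgz z hzu, mul_div_cancel₀ _ (pow_ne_zero _ (sub_ne_zero.2 hzu))]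

/-- the factors `(z - u) ^ n_u` -/
noncomputable def PP (f : ℂ → ℂ) (Z : Finset ℂ) (z : ℂ) : ℂ :=
  ∏ u ∈ Z, (z - u) ^ (analyticOrderNatAt f u)

lemma PP_diff (f : ℂ → ℂ) (Z : Finset ℂ) : Differentiable ℂ (PP f Z) := by
  unfold PP
  exact Differentiable.fun_finsetProd fun u _ => (differentiable_id.sub_const u).pow _

lemma PP_ne {f : ℂ → ℂ} {Z : Finset ℂ} {z : ℂ} (hz : z ∉ Z) : PP f Z z ≠ 0 := by
  unfold PP
  refine Finset.prod_ne_zero_iff.2 fun u hu => pow_ne_zero _ (sub_ne_zero.2 ?_)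
  rintro rfl
  exact hz hu

theorem factor {f : ℂ → ℂ} (hf : Differentiable ℂ f) {z₀ : ℂ} (h0 : f z₀ ≠ 0) (Z : Finset ℂ) :
    ∃ g : ℂ → ℂ, Differentiable ℂ g ∧ (∀ u ∈ Z, g u ≠ 0) ∧ ∀ z, f z = PP f Z z * g z := by
  induction Z using Finset.induction_on with
  | empty => exact ⟨f, hf, by simp, fun z => by simp [PP]⟩
  | insert u Z hu ih =>
    obtain ⟨g, hg, hg0, hfg⟩ := ih
    have hgz : g z₀ ≠ 0 := fun h => h0 (by rw [hfg, h, mul_zero])
    obtain ⟨k, hk, hku, hgk⟩ := factor_one hg hgz u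
    have hord : analyticOrderNatAt g u = analyticOrderNatAt f u := by
      have h1 : f = fun z => PP f Z z * g z := funext hfg
      have h2 : analyticOrderAt f u = analyticOrderAt g u := by
        have h3 : analyticOrderAt (PP f Z) u = 0 :=
          ((PP_diff f Z).analyticAt u).analyticOrderAt_eq_zero.2 (PP_ne hu)
        have h4 := analyticOrderAt_mul (f := PP f Z) (g := g)
          ((PP_diff f Z).analyticAt u) (hg.analyticAt u)
        rw [h3, zero_add] at h4
        rw [← h4]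
        conv_lhs => rw [h1]
        rfl
      unfold analyticOrderNatAt
      rw [h2]
    refine ⟨k, hk, ?_, fun z => ?_⟩
    · intro w hw
      rw [Finset.mem_insert] at hw
      rcases hw with rfl | hw
      · exact hku
      · intro h
        exact hg0 w hw (by rw [hgk, h, mul_zero])
    · rw [hfg z, hgk z, hord]
      unfold PP
      rw [Finset.prod_insert hu]
      ring

/-- the zeros in a disc -/
lemma fin_zeros {f : ℂ → ℂ} (hf : Differentiable ℂ f) {z₀ : ℂ} (h0 : f z₀ ≠ 0) (c : ℂ) (r : ℝ) :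
    {u : ℂ | f u = 0 ∧ u ∈ closedBall c r}.Finite := by
  refine (finite_zeros hf h0 (‖c‖ + r)).subset fun u hu => ⟨hu.1, ?_⟩
  rw [mem_closedBall_zero_iff]
  have := hu.2
  rw [mem_closedBall, dist_eq_norm] at this
  calc ‖u‖ = ‖(u - c) + c‖ := by rw [sub_add_cancel]
    _ ≤ ‖u - c‖ + ‖c‖ := norm_add_le _ _
    _ ≤ ‖c‖ + r := by linarith

/-- the number of zeros in a disc, with multiplicity -/
noncomputable def nz (f : ℂ → ℂ) (S : Set ℂ) : ℝ := ∑ᶠ u ∈ S, mu f u

lemma nz_eq {f : ℂ → ℂ} {S : Set ℂ} {Z : Finset ℂ} (h : ∀ u ∈ S, f u = 0 → u ∈ Z)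
    (h' : ∀ u ∈ Z, u ∈ S) (hf : Differentiable ℂ f) : nz f S = ∑ u ∈ Z, mu f u := by
  unfold nz
  refine finsum_mem_eq_sum_of_inter_support_eq _ ?_
  ext u
  simp only [mem_inter_iff, Finset.mem_coe, Function.mem_support]
  constructor
  · rintro ⟨h1, h2⟩
    exact ⟨h u h1 (mu_ne hf h2), h2⟩
  · rintro ⟨h1, h2⟩
    exact ⟨h' u h1, h2⟩

/-- the mass of the logarithm -/
noncomputable def lmass (r : ℝ) : ℝ := ∫ w in closedBall (0 : ℂ) r, |Real.log ‖w‖|

lemma intOn_log_id (c : ℂ) (r : ℝ) : IntegrableOn (fun w : ℂ => |Real.log ‖w‖|) (closedBall c r) :=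
  ((locInt (f := fun z : ℂ => z) differentiable_id (z₀ := 1) one_ne_zero).integrableOn_isCompact
    (isCompact_closedBall _ _)).abs

lemma lmass_nonneg (r : ℝ) : 0 ≤ lmass r := integral_nonneg fun _ => abs_nonneg _

lemma lmass_shift {c u : ℂ} {r R : ℝ} (h : ‖c - u‖ + r ≤ R) :
    IntegrableOn (fun z : ℂ => |Real.log ‖z - u‖|) (ball c r) ∧
    ∫ z in ball c r, |Real.log ‖z - u‖| ≤ lmass R := by
  have hi : Integrable fun z : ℂ => (closedBall (0 : ℂ) R).indicator (fun w => |Real.log ‖w‖|) (z - u) := by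
    have h1 : Integrable ((closedBall (0 : ℂ) R).indicator (fun w => |Real.log ‖w‖|)) := by
      rw [integrable_indicator_iff measurableSet_closedBall]
      exact intOn_log_id _ _
    exact h1.comp_sub_right u
  have hle : ∀ z ∈ ball c r, |Real.log ‖z - u‖| =
      (closedBall (0 : ℂ) R).indicator (fun w => |Real.log ‖w‖|) (z - u) := by
    intro z hz
    rw [indicator_of_mem]
    rw [mem_closedBall_zero_iff]
    rw [mem_ball, dist_eq_norm] at hz
    calc ‖z - u‖ = ‖(z - c) + (c - u)‖ := by rw [sub_add_sub_cancel]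
      _ ≤ ‖z - c‖ + ‖c - u‖ := norm_add_le _ _
      _ ≤ R := by linarith
  refine ⟨(hi.integrableOn (s := ball c r)).congr_fun (fun z hz => (hle z hz).symm)
    measurableSet_ball, ?_⟩
  rw [setIntegral_congr_fun measurableSet_ball hle]
  refine (setIntegral_le_integral hi (Eventually.of_forall fun z =>
    indicator_nonneg (fun w _ => abs_nonneg _) _)).trans ?_
  rw [integral_sub_right_eq_self (fun z => (closedBall (0 : ℂ) R).indicator
    (fun w => |Real.log ‖w‖|) z) u, integral_indicator measurableSet_closedBall]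
  exact le_rfl

lemma log_PP {f : ℂ → ℂ} {Z : Finset ℂ} {z : ℂ} (hz : z ∉ Z) :
    Real.log ‖PP f Z z‖ = ∑ u ∈ Z, mu f u * Real.log ‖z - u‖ := by
  unfold PP mu
  rw [norm_prod, Real.log_prod fun u hu => ?_]
  · refine Finset.sum_congr rfl fun u _ => ?_
    rw [norm_pow, Real.log_pow]
  · rw [norm_pow]
    refine pow_ne_zero _ (norm_ne_zero_iff.2 (sub_ne_zero.2 ?_))
    rintro rfl
    exact hz hu

lemma PP_L1 {f : ℂ → ℂ} {Z : Finset ℂ} {c c' : ℂ} {r ρ R : ℝ} (hZ : ∀ u ∈ Z, u ∈ closedBall c' ρ)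
    (h : ‖c - c'‖ + r + ρ ≤ R) :
    IntegrableOn (fun z => |Real.log ‖PP f Z z‖|) (ball c r) ∧
    ∫ z in ball c r, |Real.log ‖PP f Z z‖| ≤ (∑ u ∈ Z, mu f u) * lmass R := by
  have hz0 : ∃ z₀, z₀ ∉ Z := Infinite.exists_notMem_finset Z
  obtain ⟨z₀, hz₀⟩ := hz0
  have hi : IntegrableOn (fun z => |Real.log ‖PP f Z z‖|) (ball c r) :=
    (((locInt (PP_diff f Z) (PP_ne hz₀)).integrableOn_isCompact
      (isCompact_closedBall c r)).mono_set ball_subset_closedBall).abs
  have hu : ∀ u ∈ Z, ‖c - u‖ + r ≤ R := by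
    intro u hu
    have h1 := hZ u hu
    rw [mem_closedBall, dist_eq_norm] at h1
    calc ‖c - u‖ + r = ‖(c - c') + (c' - u)‖ + r := by rw [sub_add_sub_cancel]
      _ ≤ ‖c - c'‖ + ‖c' - u‖ + r := by gcongr; exact norm_add_le _ _
      _ ≤ R := by rw [norm_sub_rev c' u]; linarith
  refine ⟨hi, ?_⟩
  calc ∫ z in ball c r, |Real.log ‖PP f Z z‖|
      ≤ ∫ z in ball c r, ∑ u ∈ Z, mu f u * |Real.log ‖z - u‖| := by
        refine integral_mono_ae hi ?_ ?_
        · exact integrable_finsetSum _ fun u h' => ((lmass_shift (hu u h')).1).const_mul _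
        · have : ∀ᵐ z ∂(volume.restrict (ball c r)), z ∉ (Z : Set ℂ) :=
            ae_restrict_of_ae (Set.Countable.ae_notMem Z.countable_toSet _)
          filter_upwards [this] with z hz
          rw [log_PP (by simpa using hz)]
          refine (Finset.abs_sum_le_sum_abs _ _).trans (le_of_eq ?_)
          refine Finset.sum_congr rfl fun u _ => ?_
          rw [abs_mul, abs_of_nonneg (mu_nonneg _ _)]
    _ = ∑ u ∈ Z, mu f u * ∫ z in ball c r, |Real.log ‖z - u‖| := by
        rw [integral_finsetSum _ fun u h' => ((lmass_shift (hu u h')).1).const_mul _]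
        refine Finset.sum_congr rfl fun u _ => ?_
        rw [integral_const_mul]
    _ ≤ ∑ u ∈ Z, mu f u * lmass R :=
        Finset.sum_le_sum fun u h' => mul_le_mul_of_nonneg_left (lmass_shift (hu u h')).2
          (mu_nonneg _ _)
    _ = _ := by rw [Finset.sum_mul]

/-- a point where the logarithm is not small -/
lemma good_point {g : ℂ → ℂ} (hg : Differentiable ℂ g) {z₀ : ℂ} (h0 : g z₀ ≠ 0) {c : ℂ} {r a : ℝ}
    (hr : 0 < r) (h : ∫ z in ball c r, |Real.log ‖g z‖| ≤ a) :
    ∃ p ∈ ball c r, g p ≠ 0 ∧ |Real.log ‖g p‖| ≤ a / (π * r ^ 2) := by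
  have hpi := Real.pi_pos
  by_contra hcon
  push Not at hcon
  have hi : IntegrableOn (fun z => |Real.log ‖g z‖|) (ball c r) :=
    (((locInt hg h0).integrableOn_isCompact
      (isCompact_closedBall c r)).mono_set ball_subset_closedBall).abs
  have hV : (volume : Measure ℂ).real (ball c r) = π * r ^ 2 := vol_ball_real c hr.le
  have h1 : ∫ z in ball c r, (|Real.log ‖g z‖| - a / (π * r ^ 2)) ≤ 0 := by
    rw [integral_sub hi (integrableOn_const (measure_ball_lt_top.ne)), setIntegral_const, hV,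
      smul_eq_mul, mul_div_cancel₀ _ (by positivity)]
    linarith
  have hi2 : IntegrableOn (fun z => |Real.log ‖g z‖| - a / (π * r ^ 2)) (ball c r) :=
    hi.sub (integrableOn_const (measure_ball_lt_top.ne))
  have hpos : ∀ᵐ z ∂(volume.restrict (ball c r)), 0 < |Real.log ‖g z‖| - a / (π * r ^ 2) := by
    have hae : ∀ᵐ z ∂(volume.restrict (ball c r)), g z ≠ 0 := ae_restrict_of_ae (ae_ne hg h0)
    filter_upwards [hae, ae_restrict_mem measurableSet_ball] with z hz hzb
    have := hcon z hzb hz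
    linarith
  have h2 : 0 < ∫ z in ball c r, (|Real.log ‖g z‖| - a / (π * r ^ 2)) := by
    rw [integral_pos_iff_support_of_nonneg_ae (hpos.mono fun z hz => hz.le) hi2]
    have h3 : volume.restrict (ball c r) (Function.support fun z => |Real.log ‖g z‖| -
        a / (π * r ^ 2)) = volume.restrict (ball c r) univ := by
      refine measure_congr ?_
      filter_upwards [hpos] with z hz
      have : z ∈ (Function.support fun z => |Real.log ‖g z‖| - a / (π * r ^ 2)) :=
        Function.mem_support.2 hz.ne'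
      exact propext ⟨fun _ => trivial, fun _ => this⟩
    rw [h3, Measure.restrict_apply_univ]
    exact measure_ball_pos _ _ hr
  linarith

end Pool.Agent.H465.PT
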