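import Pool.Agent.H465.PT.G

/-!
# The leading coefficient of an entire function at a zero
-/

set_option autoImplicit false

open MeasureTheory Metric Set Filter Topology
open scoped Real ENNReal ComplexConjugate

namespace Pool.Agent.H465.PT

open Pool.Agent.H465.EQ

/-- Jensen's formula with the leading coefficient -/
lemma jensen_tc {f : ℂ → ℂ} (hf : Differentiable ℂ f) (c : ℂ) {r : ℝ} (hr : 0 < r) :
    Real.circleAverage (Real.log ‖f ·‖) c r =
      ∑ᶠ u, mu f u * lk r (u - c) + mu f c * Real.log r +
        Real.log ‖meromorphicTrailingCoeffAt f c‖ := by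
  have h1 : MeromorphicOn f (closedBall c |r|) := fun z _ => (hf.analyticAt z).meromorphicAt
  rw [MeromorphicOn.circleAverage_log_norm hr.ne' h1]
  rw [abs_of_pos hr, divisor_eq_mu hf (mem_closedBall_self hr.le)]
  congr 2
  refine finsum_congr fun u => ?_
  by_cases hu : u ∈ closedBall c r
  · rw [divisor_eq_mu hf hu]
    by_cases huc : u = c
    · subst huc
      simp [lk]
    · rw [lk_near (sub_ne_zero.2 huc) (by rwa [mem_closedBall, dist_eq_norm] at hu),
        norm_sub_rev c u]
  · rw [Function.locallyFinsuppWithin.apply_eq_zero_of_notMem _ hu]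
    rw [lk_far hr.le]
    · simp
    · rw [mem_closedBall, dist_eq_norm, not_le] at hu
      exact hu.le

/-- integration over a disc by circles -/
lemma polar_ball {h : ℂ → ℝ} (hhm : Measurable h) (c : ℂ) (r : ℝ) :
    ∫⁻ z in ball c r, ENNReal.ofReal (h z) =
      ∫⁻ x in Ioo (0 : ℝ) r, ENNReal.ofReal x *
        ∫⁻ y in Ioo (-π) π, ENNReal.ofReal (h (circleMap c x y)) := by
  have e1 : ∫⁻ z in ball c r, ENNReal.ofReal (h z) =
      ∫⁻ z, (ball (0 : ℂ) r).indicator (fun z => ENNReal.ofReal (h (c + z))) z := by
    rw [← lintegral_indicator measurableSet_ball,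
      ← lintegral_add_left_eq_self _ c]
    refine lintegral_congr fun z => ?_
    by_cases hz : z ∈ ball (0 : ℂ) r
    · have hz' : c + z ∈ ball c r := by
        rw [mem_ball, dist_eq_norm] at hz ⊢
        simpa using hz
      rw [indicator_of_mem hz', indicator_of_mem hz]
    · have hz' : c + z ∉ ball c r := by
        intro h'
        apply hz
        rw [mem_ball, dist_eq_norm] at h' ⊢
        simpa using h'
      rw [indicator_of_notMem hz', indicator_of_notMem hz]
  rw [e1, ← Complex.lintegral_comp_polarCoord_symm]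
  have hF : Measurable fun p : ℝ × ℝ => ENNReal.ofReal p.1 •
      (ball (0 : ℂ) r).indicator (fun z => ENNReal.ofReal (h (c + z)))
        (Complex.polarCoord.symm p) := by
    have h1 : Measurable fun p : ℝ × ℝ => Complex.polarCoord.symm p := by
      have : (fun p : ℝ × ℝ => Complex.polarCoord.symm p) =
          fun p : ℝ × ℝ => (p.1 : ℂ) * (Real.cos p.2 + Real.sin p.2 * Complex.I) := by
        funext p
        rw [Complex.polarCoord_symm_apply]
      rw [this]
      fun_prop
    have h2 : Measurable ((ball (0 : ℂ) r).indicator (fun z => ENNReal.ofReal (h (c + z)))) := by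
      refine Measurable.indicator ?_ measurableSet_ball
      exact ENNReal.measurable_ofReal.comp (hhm.comp (measurable_const.add measurable_id))
    have h3 : Measurable fun p : ℝ × ℝ => ENNReal.ofReal p.1 :=
      ENNReal.measurable_ofReal.comp measurable_fst
    exact h3.mul (h2.comp h1)
  rw [show polarCoord.target = Ioi (0 : ℝ) ×ˢ Ioo (-π) π from rfl, Measure.volume_eq_prod,
    setLIntegral_prod _ hF.aemeasurable]
  have e3 : Ioo (0 : ℝ) r = Iio r ∩ Ioi (0 : ℝ) := by
    ext x; simp [and_comm]
  rw [e3, ← Measure.restrict_restrict measurableSet_Iio, ← lintegral_indicator measurableSet_Iio]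
  refine setLIntegral_congr_fun measurableSet_Ioi fun x hx => ?_
  rw [mem_Ioi] at hx
  by_cases hxr : x < r
  · rw [indicator_of_mem (show x ∈ Iio r from hxr)]
    have e2 : ∀ y : ℝ, (ball (0 : ℂ) r).indicator (fun z => ENNReal.ofReal (h (c + z)))
        (Complex.polarCoord.symm (x, y)) = ENNReal.ofReal (h (circleMap c x y)) := by
      intro y
      rw [indicator_of_mem, polar_eq]
      rw [mem_ball_zero_iff, Complex.norm_polarCoord_symm, abs_of_pos hx]
      exact hxr
    simp only [e2, smul_eq_mul]
    have hmc : Measurable fun y : ℝ => ENNReal.ofReal (h (circleMap c x y)) :=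
      ENNReal.measurable_ofReal.comp (hhm.comp (continuous_circleMap c x).measurable)
    rw [lintegral_const_mul _ hmc]
  · rw [indicator_of_notMem (show x ∉ Iio r from hxr)]
    have e2 : ∀ y : ℝ, (ball (0 : ℂ) r).indicator (fun z => ENNReal.ofReal (h (c + z)))
        (Complex.polarCoord.symm (x, y)) = 0 := by
      intro y
      rw [indicator_of_notMem]
      rw [mem_ball_zero_iff, Complex.norm_polarCoord_symm, abs_of_pos hx]
      exact hxr
    simp only [e2, smul_eq_mul, mul_zero, lintegral_zero]

lemma kk_le {r₁ r₂ : ℝ} (h1 : 0 < r₁) (h2 : r₁ ≤ r₂) (w : ℂ) :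
    kk r₁ r₂ w ≤ Real.log (r₂ / r₁) := by
  have h3 : 0 ≤ Real.log (r₂ / r₁) := Real.log_nonneg (by rw [le_div_iff₀ h1]; linarith)
  rcases le_or_gt r₂ ‖w‖ with h | h
  · rw [kk_far h1 h2 h]
    exact h3
  by_cases hw : w = 0
  · subst hw
    simp [kk, lk, h3]
  have hw' : 0 < ‖w‖ := norm_pos_iff.2 hw
  unfold kk
  rw [lk_near hw h.le]
  rcases le_or_gt ‖w‖ r₁ with h' | h'
  · have h20 : 0 < r₂ := h1.trans_le h2
    rw [lk_near hw h', ← Real.log_div (by positivity) (by positivity)]
    refine le_of_eq ?_
    congr 1
    field_simp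
  · have h20 : 0 < r₂ := h1.trans_le h2
    rw [lk_far h1.le h'.le, sub_zero]
    refine Real.log_le_log (by positivity) ?_
    rw [div_eq_mul_inv]
    gcongr

/-- **The mean of `log ‖f‖` over a disc and the leading coefficient at the centre.** -/
theorem disc_tc {f : ℂ → ℂ} (hf : Differentiable ℂ f) {z₀ : ℂ} (h0 : f z₀ ≠ 0) (c : ℂ) {δ : ℝ}
    (hδ : 0 < δ) :
    |(∫ z in ball c δ, Real.log ‖f z‖) - π * δ ^ 2 * (Real.log ‖meromorphicTrailingCoeffAt f c‖ +
      ∑ᶠ u, mu f u * lk δ (u - c) + mu f c * Real.log δ)| ≤
        π * δ ^ 2 * nz f (closedBall c δ) := by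
  have hpi := Real.pi_pos
  set B : ℝ := Real.log ‖meromorphicTrailingCoeffAt f c‖ + ∑ᶠ u, mu f u * lk δ (u - c) +
    mu f c * Real.log δ with hB
  set N : ℝ := nz f (closedBall c δ) with hN
  have hN0 : 0 ≤ N := nz_nonneg _ _
  obtain ⟨K, hK⟩ := (isCompact_closedBall c δ).exists_bound_of_continuousOn
    (f := f) hf.continuous.continuousOn
  set M : ℝ := Real.log (max K 1) with hM
  have hle : ∀ z ∈ closedBall c δ, Real.log ‖f z‖ ≤ M := by
    intro z hz
    by_cases h1 : f z = 0
    · rw [h1, norm_zero, Real.log_zero]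
      exact Real.log_nonneg (le_max_right _ _)
    · exact Real.log_le_log (norm_pos_iff.2 h1) ((hK z hz).trans (le_max_left _ _))
  have hmeas : Measurable fun z => Real.log ‖f z‖ :=
    Real.measurable_log.comp (hf.continuous.norm.measurable)
  set h : ℂ → ℝ := fun z => M - Real.log ‖f z‖ with hh
  have hhm : Measurable h := measurable_const.sub hmeas
  -- the finite set of the zeros
  have hfin := fin_zeros hf h0 c δ
  set Z : Finset ℂ := hfin.toFinset with hZ
  have hNZ : N = ∑ u ∈ Z, mu f u := by
    refine nz_eq (fun u hu h1 => ?_) (fun u hu => ?_) hf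
    · rw [hZ, Set.Finite.mem_toFinset]
      exact ⟨h1, hu⟩
    · rw [hZ, Set.Finite.mem_toFinset] at hu
      exact hu.2
  have hsum : ∀ x : ℝ, 0 < x → x ≤ δ → ∑ᶠ u, mu f u * lk x (u - c) = ∑ u ∈ Z, mu f u * lk x (u - c) := by
    intro x hx hxδ
    refine finsum_eq_sum_of_support_subset _ fun u hu => ?_
    rw [Function.mem_support] at hu
    rw [hZ, Finset.mem_coe, Set.Finite.mem_toFinset]
    refine ⟨mu_ne hf (left_ne_zero_of_mul hu), ?_⟩
    by_contra hcon
    rw [mem_closedBall, dist_eq_norm, not_le] at hcon
    exact right_ne_zero_of_mul hu (lk_far hx.le (by linarith))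
  -- the circle means
  have hphi : ∀ x : ℝ, 0 < x → x < δ →
      M - B ≤ M - Real.circleAverage (Real.log ‖f ·‖) c x ∧
      x * (M - Real.circleAverage (Real.log ‖f ·‖) c x) ≤ x * (M - B) + N * (δ - x) := by
    intro x hx hxδ
    have e := jensen_tc hf c hx
    have hlog : 0 ≤ Real.log (δ / x) := Real.log_nonneg (by rw [le_div_iff₀ hx]; linarith)
    have hdiff : B - Real.circleAverage (Real.log ‖f ·‖) c x =
        ∑ u ∈ Z, mu f u * kk x δ (u - c) + mu f c * Real.log (δ / x) := by
      rw [e, hB, hsum x hx hxδ.le, hsum δ hδ le_rfl, Real.log_div hδ.ne' hx.ne']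
      have : ∑ u ∈ Z, mu f u * kk x δ (u - c) = ∑ u ∈ Z, mu f u * lk δ (u - c) -
          ∑ u ∈ Z, mu f u * lk x (u - c) := by
        rw [← Finset.sum_sub_distrib]
        refine Finset.sum_congr rfl fun u _ => ?_
        unfold kk
        ring
      rw [this]
      ring
    have h1 : 0 ≤ B - Real.circleAverage (Real.log ‖f ·‖) c x := by
      rw [hdiff]
      have : 0 ≤ ∑ u ∈ Z, mu f u * kk x δ (u - c) := Finset.sum_nonneg fun u _ =>
        mul_nonneg (mu_nonneg _ _) (kk_nonneg hx hxδ.le _)
      have := mul_nonneg (mu_nonneg f c) hlog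
      linarith
    have h2 : B - Real.circleAverage (Real.log ‖f ·‖) c x ≤ N * Real.log (δ / x) := by
      rw [hdiff, hNZ, Finset.sum_mul]
      by_cases hc : c ∈ Z
      · have e1 : ∑ u ∈ Z, mu f u * kk x δ (u - c) = ∑ u ∈ Z.erase c, mu f u * kk x δ (u - c) := by
          rw [← Finset.add_sum_erase _ _ hc]
          simp [kk, lk]
        rw [e1, ← Finset.add_sum_erase (a := c) (f := fun u => mu f u * Real.log (δ / x)) _ hc,
          add_comm]
        refine add_le_add_right (Finset.sum_le_sum fun u _ => ?_) _
        exact mul_le_mul_of_nonneg_left (kk_le hx hxδ.le _) (mu_nonneg _ _)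
      · have hm : mu f c = 0 := by
          by_contra h1
          apply hc
          rw [hZ, Set.Finite.mem_toFinset]
          exact ⟨mu_ne hf h1, mem_closedBall_self hδ.le⟩
        rw [hm, zero_mul, add_zero]
        exact Finset.sum_le_sum fun u _ =>
          mul_le_mul_of_nonneg_left (kk_le hx hxδ.le _) (mu_nonneg _ _)
    refine ⟨by linarith, ?_⟩
    have h3 : x * Real.log (δ / x) ≤ δ - x := by
      have h4 : Real.log (δ / x) ≤ δ / x - 1 := Real.log_le_sub_one_of_pos (by positivity)
      calc x * Real.log (δ / x) ≤ x * (δ / x - 1) := mul_le_mul_of_nonneg_left h4 hx.le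
        _ = δ - x := by field_simp
    have h5 : x * (B - Real.circleAverage (Real.log ‖f ·‖) c x) ≤ N * (δ - x) := by
      calc x * (B - Real.circleAverage (Real.log ‖f ·‖) c x) ≤ x * (N * Real.log (δ / x)) :=
            mul_le_mul_of_nonneg_left h2 hx.le
        _ = N * (x * Real.log (δ / x)) := by ring
        _ ≤ _ := mul_le_mul_of_nonneg_left h3 hN0
    nlinarith
  have hvol : (volume : Measure ℝ).real (Ioo (-π) π) = 2 * π := by
    rw [Measure.real, Real.volume_Ioo, ENNReal.toReal_ofReal (by linarith)]
    ring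
  -- the integral over a circle
  have hinner : ∀ x : ℝ, 0 < x → x < δ →
      0 ≤ M - Real.circleAverage (Real.log ‖f ·‖) c x ∧
      ENNReal.ofReal x * ∫⁻ y in Ioo (-π) π, ENNReal.ofReal (h (circleMap c x y)) =
        ENNReal.ofReal (2 * π * (x * (M - Real.circleAverage (Real.log ‖f ·‖) c x))) := by
    intro x hx hxδ
    obtain ⟨hi1, hi2⟩ := circ_integral hf c x
    have hi0 : IntegrableOn (fun _ : ℝ => M) (Ioo (-π) π) := integrableOn_const (by simp)
    have hi3 : IntegrableOn (fun θ => h (circleMap c x θ)) (Ioo (-π) π) := hi0.sub hi1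
    have hnn : 0 ≤ᵐ[volume.restrict (Ioo (-π) π)] fun θ => h (circleMap c x θ) := by
      refine (ae_restrict_iff' measurableSet_Ioo).2 (Eventually.of_forall fun θ _ => ?_)
      have : circleMap c x θ ∈ closedBall c δ := by
        rw [mem_closedBall, dist_eq_norm, circleMap_sub_center, norm_circleMap_zero,
          abs_of_pos hx]
        exact hxδ.le
      have := hle _ this
      simp only [hh, Pi.zero_apply]
      linarith
    have e : ∫ θ in Ioo (-π) π, h (circleMap c x θ) =
        2 * π * (M - Real.circleAverage (Real.log ‖f ·‖) c x) := by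
      rw [hh]
      simp only
      rw [integral_sub hi0 hi1, hi2, setIntegral_const, hvol, smul_eq_mul]
      ring
    have h1 := integral_nonneg_of_ae hnn
    rw [e] at h1
    have h2 : 0 ≤ M - Real.circleAverage (Real.log ‖f ·‖) c x := by
      by_contra hcon
      push Not at hcon
      nlinarith
    refine ⟨h2, ?_⟩
    rw [← ofReal_integral_eq_lintegral_ofReal hi3 hnn, e, ← ENNReal.ofReal_mul hx.le]
    congr 1
    ring
  have hup : ∫⁻ z in ball c δ, ENNReal.ofReal (h z) ≤
      ENNReal.ofReal (π * δ ^ 2 * (M - B) + π * δ ^ 2 * N) := by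
    rw [polar_ball hhm]
    calc ∫⁻ x in Ioo (0 : ℝ) δ, ENNReal.ofReal x *
          ∫⁻ y in Ioo (-π) π, ENNReal.ofReal (h (circleMap c x y))
        ≤ ∫⁻ x in Ioo (0 : ℝ) δ, ENNReal.ofReal (2 * π * (x * (M - B) + N * (δ - x))) := by
          refine setLIntegral_mono' measurableSet_Ioo fun x hx => ?_
          rw [(hinner x hx.1 hx.2).2]
          refine ENNReal.ofReal_le_ofReal ?_
          exact mul_le_mul_of_nonneg_left (hphi x hx.1 hx.2).2 (by positivity)
      _ = ENNReal.ofReal (π * δ ^ 2 * (M - B) + π * δ ^ 2 * N) := by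
          rw [← ofReal_integral_eq_lintegral_ofReal]
          · congr 1
            rw [integral_const_mul, ← integral_Ioc_eq_integral_Ioo,
              ← intervalIntegral.integral_of_le hδ.le]
            have e1 : ∫ x in (0 : ℝ)..δ, (x * (M - B) + N * (δ - x)) =
                ∫ x in (0 : ℝ)..δ, ((M - B - N) * x + N * δ) := by
              refine intervalIntegral.integral_congr fun x _ => ?_
              ring
            rw [e1, intervalIntegral.integral_add
                (Continuous.intervalIntegrable (by fun_prop) _ _)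
                (Continuous.intervalIntegrable (by fun_prop) _ _),
              intervalIntegral.integral_const_mul, integral_id, intervalIntegral.integral_const]
            simp only [smul_eq_mul]
            ring
          · refine (Continuous.integrableOn_Icc (a := 0) (b := δ) ?_).mono_set Ioo_subset_Icc_self
            fun_prop
          · refine (ae_restrict_iff' measurableSet_Ioo).2 (Eventually.of_forall fun x hx => ?_)
            have h1 := (hphi x hx.1 hx.2).2
            have h2 := mul_nonneg hx.1.le (hinner x hx.1 hx.2).1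
            simp only [Pi.zero_apply]
            have : 0 ≤ x * (M - B) + N * (δ - x) := by linarith
            positivity
  have hlo : ENNReal.ofReal (π * δ ^ 2 * (M - B)) ≤ ∫⁻ z in ball c δ, ENNReal.ofReal (h z) := by
    rcases le_or_gt (M - B) 0 with hneg | hpos
    · rw [ENNReal.ofReal_of_nonpos (mul_nonpos_of_nonneg_of_nonpos (by positivity) hneg)]
      exact bot_le
    rw [polar_ball hhm]
    calc ENNReal.ofReal (π * δ ^ 2 * (M - B)) =
          ∫⁻ x in Ioo (0 : ℝ) δ, ENNReal.ofReal (2 * π * (x * (M - B))) := by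
          rw [← ofReal_integral_eq_lintegral_ofReal]
          · congr 1
            rw [integral_const_mul, ← integral_Ioc_eq_integral_Ioo,
              ← intervalIntegral.integral_of_le hδ.le, intervalIntegral.integral_mul_const,
              integral_id]
            ring
          · refine (Continuous.integrableOn_Icc (a := 0) (b := δ) ?_).mono_set Ioo_subset_Icc_self
            fun_prop
          · refine (ae_restrict_iff' measurableSet_Ioo).2 (Eventually.of_forall fun x hx => ?_)
            have := hx.1
            simp only [Pi.zero_apply]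
            positivity
      _ ≤ ∫⁻ x in Ioo (0 : ℝ) δ, ENNReal.ofReal x *
          ∫⁻ y in Ioo (-π) π, ENNReal.ofReal (h (circleMap c x y)) := by
          refine setLIntegral_mono' measurableSet_Ioo fun x hx => ?_
          rw [(hinner x hx.1 hx.2).2]
          refine ENNReal.ofReal_le_ofReal ?_
          refine mul_le_mul_of_nonneg_left ?_ (by positivity)
          exact mul_le_mul_of_nonneg_left (hphi x hx.1 hx.2).1 hx.1.le
  have hnn : 0 ≤ᵐ[volume.restrict (ball c δ)] h := by
    refine (ae_restrict_iff' measurableSet_ball).2 (Eventually.of_forall fun z hz => ?_)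
    have := hle z (ball_subset_closedBall hz)
    simp only [hh, Pi.zero_apply]
    linarith
  have hlog : IntegrableOn (fun z => Real.log ‖f z‖) (ball c δ) := intOn_log hf h0 c δ
  have hcint : IntegrableOn (fun _ : ℂ => M) (ball c δ) := integrableOn_const measure_ball_lt_top.ne
  have hint : IntegrableOn h (ball c δ) := hcint.sub hlog
  have e1 : ∫ z in ball c δ, h z = M * (π * δ ^ 2) - ∫ z in ball c δ, Real.log ‖f z‖ := by
    rw [hh]
    simp only
    rw [integral_sub hcint hlog, setIntegral_const, vol_ball_real c hδ.le, smul_eq_mul]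
    ring
  rw [← ofReal_integral_eq_lintegral_ofReal hint hnn] at hup hlo
  have hI0 : 0 ≤ ∫ z in ball c δ, h z := integral_nonneg_of_ae hnn
  have hlo' : π * δ ^ 2 * (M - B) ≤ ∫ z in ball c δ, h z := by
    by_contra hcon
    push Not at hcon
    have h1 : 0 < π * δ ^ 2 * (M - B) := lt_of_le_of_lt hI0 hcon
    exact absurd hlo (not_le.2 ((ENNReal.ofReal_lt_ofReal_iff h1).2 hcon))
  have hup' : ∫ z in ball c δ, h z ≤ π * δ ^ 2 * (M - B) + π * δ ^ 2 * N := by
    rcases hI0.eq_or_lt with h1 | h1
    · rw [← h1] at hlo' ⊢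
      by_contra hcon
      push Not at hcon
      -- the integral vanishes: then the upper bound follows from the circle means
      have h2 : ∀ x : ℝ, 0 < x → x < δ → 0 ≤ x * (M - B) + N * (δ - x) := fun x hx hxδ =>
        (mul_nonneg hx.le (hinner x hx hxδ).1).trans (hphi x hx hxδ).2
      have h3 := h2 (δ / 2) (by positivity) (by linarith)
      have h4 : 0 ≤ M - B + N := by
        have : δ / 2 * (M - B) + N * (δ - δ / 2) = δ / 2 * (M - B + N) := by ring
        rw [this] at h3
        by_contra h5
        push Not at h5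
        nlinarith
      have : π * δ ^ 2 * (M - B) + π * δ ^ 2 * N = π * δ ^ 2 * (M - B + N) := by ring
      rw [this] at hcon
      have : 0 ≤ π * δ ^ 2 * (M - B + N) := by positivity
      linarith
    · have h2 := (ENNReal.ofReal_le_ofReal_iff' .. ).1 hup
      rcases h2 with h2 | h2
      · exact h2
      · linarith
  rw [e1] at hlo' hup'
  rw [abs_le]
  constructor <;> nlinarith

end Pool.Agent.H465.PT
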