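import Pool.Agent.H465.PT.N

/-!
# Families of elliptic curves over number fields
-/

set_option autoImplicit false

open MeasureTheory Metric Set Filter Topology Asymptotics
open scoped Real ENNReal ComplexConjugate
open NumberField IsDedekindDomain

namespace Pool.Agent.H465.PT

open Pool.Agent.H465.EQ

section
variable {K : Type} [Field K] [NumberField K] {a b : 𝓞 K} {A : ℝ} {F : ℂ → ℂ}

lemma HasseWeil.nz_strip (h : HasseWeil K a b A F) {w : ℂ} (hw : ‖w‖ = 1)
    (hfe : ∀ s : ℂ, 0 < s.re → s.re < 2 →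
      completed (Module.finrank ℚ K) A F s = w * completed (Module.finrank ℚ K) A F (2 - s))
    (S : Set ℂ) :
    nz (LL (Module.finrank ℚ K) A F w) S = nz (LL (Module.finrank ℚ K) A F w)
      {u | u ∈ S ∧ -1 / 2 < u.re ∧ u.re < 3 / 2} := by
  have h1 := h.nz_LL hw hfe {ρ : ℂ | ρ - 1 / 2 ∈ S}
  rw [zsum_strip_set, h.nz_LL hw hfe] at h1
  have e1 : {u : ℂ | u + 1 / 2 ∈ {ρ : ℂ | ρ - 1 / 2 ∈ S}} = S := by
    ext u
    simp
  have e2 : {u : ℂ | u + 1 / 2 ∈ {ρ : ℂ | ρ ∈ {ρ : ℂ | ρ - 1 / 2 ∈ S} ∧ 0 < ρ.re ∧ ρ.re < 2}} =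
      {u | u ∈ S ∧ -1 / 2 < u.re ∧ u.re < 3 / 2} := by
    ext u
    have hre := half_re u
    simp only [mem_setOf_eq, hre, add_sub_cancel_right]
    constructor
    · rintro ⟨h2, h3, h4⟩
      exact ⟨h2, by linarith, by linarith⟩
    · rintro ⟨h2, h3, h4⟩
      exact ⟨h2, by linarith, by linarith⟩
  rw [e1, e2] at h1
  exact h1.symm

end

/-- translation of integrals -/
lemma int_half (f : ℂ → ℝ) (S : Set ℂ) (hS : MeasurableSet S) :
    ∫ s in S, f s = ∫ u in {u : ℂ | u + 1 / 2 ∈ S}, f (u + 1 / 2) := by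
  have hS' : MeasurableSet {u : ℂ | u + 1 / 2 ∈ S} :=
    (measurable_id.add_const (1 / 2 : ℂ)) hS
  rw [← integral_indicator hS, ← integral_indicator hS', ← integral_add_right_eq_self _ (1 / 2 : ℂ)]
  congr 1

/-- the right half disc -/
def rh (c T : ℝ) : Set ℂ := {s : ℂ | c ≤ s.re ∧ ‖s‖ ≤ T}

lemma rh_meas (c T : ℝ) : MeasurableSet (rh c T) :=
  (measurableSet_le measurable_const Complex.measurable_re).inter
    (measurableSet_le measurable_norm measurable_const)

lemma rh_sub (c T : ℝ) : rh c T ⊆ closedBall 0 T := fun _ hs => mem_closedBall_zero_iff.2 hs.2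

section family
variable {ι : Type} {l : Filter ι} {K : ι → Type} [∀ i, Field (K i)] [∀ i, NumberField (K i)]
  {a b : ∀ i, 𝓞 (K i)} {A : ι → ℝ} {F : ι → ℂ → ℂ} {w : ι → ℂ}

lemma ev_small (hA : Tendsto (fun i => Real.log (A i) / Module.finrank ℚ (K i)) l atTop)
    {δ : ℝ} (hδ : 0 < δ) : ∀ᶠ i in l, (Module.finrank ℚ (K i) : ℝ) ≤ δ * Real.log (A i) ∧
      0 < Real.log (A i) := by
  filter_upwards [hA.eventually_ge_atTop (1 / δ), hA.eventually_gt_atTop 0] with i h1 h2
  have hn : (0 : ℝ) < Module.finrank ℚ (K i) := by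
    exact_mod_cast (Module.finrank_pos (R := ℚ) (M := K i))
  have h3 : 0 < Real.log (A i) := by
    by_contra hc
    exact absurd h2 (not_lt.2 (div_nonpos_of_nonpos_of_nonneg (not_lt.1 hc) hn.le))
  rw [le_div_iff₀ hn, div_mul_eq_mul_div, one_mul, div_le_iff₀ hδ] at h1
  exact ⟨by linarith, h3⟩

lemma ev_pot (h : ∀ i, HasseWeil (K i) (a i) (b i) (A i) (F i))
    (hw : ∀ i, ‖w i‖ = 1) (hfe : ∀ i, ∀ s : ℂ, 0 < s.re → s.re < 2 →
      completed (Module.finrank ℚ (K i)) (A i) (F i) s =
        w i * completed (Module.finrank ℚ (K i)) (A i) (F i) (2 - s))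
    (hA : Tendsto (fun i => Real.log (A i) / Module.finrank ℚ (K i)) l atTop) {ϑ : ℝ}
    (hϑ : 0 < ϑ) (hϑ1 : ϑ ≤ 1 / 4)
    (T η : ℝ) (hη : 0 < η) : ∀ᶠ i in l, Pot ϑ η (1 / 2) (Real.log (A i)) T
      (LL (Module.finrank ℚ (K i)) (A i) (F i) (w i)) := by
  obtain ⟨δ, hδ, hp⟩ := pot_of hϑ hϑ1 T hη
  filter_upwards [ev_small hA hδ] with i hi
  exact hp (K i) (a i) (b i) (A i) (F i) (h i) hi.1 (w i) (hw i) (hfe i)

lemma ev_log (h : ∀ i, HasseWeil (K i) (a i) (b i) (A i) (F i))
    (hA : Tendsto (fun i => Real.log (A i) / Module.finrank ℚ (K i)) l atTop)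
    (T : ℝ) {ε : ℝ} (hε : 0 < ε) : ∀ᶠ i in l, ∀ u : ℂ, 1 / 2 ≤ u.re → ‖u‖ ≤ T →
      F i (u + 1 / 2) ≠ 0 →
      |Real.log ‖LL (Module.finrank ℚ (K i)) (A i) (F i) (w i) u‖ -
        Real.log (A i) * (u.re / 2) - Real.log ‖F i (u + 1 / 2)‖| ≤ ε * Real.log (A i) := by
  obtain ⟨C, hC, hgl⟩ := gc_log (T + 1)
  filter_upwards [ev_small hA (show 0 < ε / (C + 1) by positivity)] with i hi u hu huT h0
  have h1 : ‖u + 1 / 2‖ ≤ T + 1 := by
    refine (norm_add_le _ _).trans ?_
    have : ‖(1 / 2 : ℂ)‖ ≤ 1 := by norm_num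
    linarith
  refine ((h i).log_LL hgl hu h1 h0).trans ?_
  have hx := hi.2
  calc (Module.finrank ℚ (K i) : ℝ) * C ≤ ε / (C + 1) * Real.log (A i) * C := by
        gcongr
        exact hi.1
    _ ≤ ε / (C + 1) * Real.log (A i) * (C + 1) := by
        gcongr
        linarith
    _ = ε * Real.log (A i) := by field_simp

/-- **The equivalences for families.** -/
theorem hw_tfae (h : ∀ i, HasseWeil (K i) (a i) (b i) (A i) (F i))
    (hA : Tendsto (fun i => Real.log (A i) / Module.finrank ℚ (K i)) l atTop) :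
    List.TFAE [
      ∀ T ε : ℝ, 0 < ε → ∀ᶠ i in l,
        NF.zsum (F i) ({ρ : ℂ | |ρ.im| ≤ T ∧ ε ≤ |ρ.re - 1|}.indicator fun _ => 1) ≤
          ε * Real.log (A i),
      ∀ g : ℂ → ℝ, Continuous g → HasCompactSupport g →
        Tendsto (fun i => NF.zsum (F i) g / Real.log (A i)) l
          (𝓝 (1 / (2 * π) * ∫ t : ℝ, g (NF.p1 t))),
      ∀ T ε : ℝ, 0 < ε → ∀ᶠ i in l, ∀ s : ℂ, 1 ≤ s.re → ‖s‖ ≤ T →
        ‖F i s‖ ≤ Real.exp (ε * Real.log (A i)),
      ∀ T ε : ℝ, 0 < ε → ∀ᶠ i in l, ∀ t : ℝ, |t| ≤ T →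
        ‖F i (NF.p1 t)‖ ≤ Real.exp (ε * Real.log (A i)),
      ∀ T ε : ℝ, 0 < ε → ∀ᶠ i in l, ∫ s in rh 1 T, |Real.log ‖F i s‖| ≤ ε * Real.log (A i)] := by
  have hpi := Real.pi_pos
  choose w hw hfe using fun i => (h i).fe
  set Λ : ι → ℂ → ℂ := fun i => LL (Module.finrank ℚ (K i)) (A i) (F i) (w i) with hΛ
  have hP := fun T η hη => ev_pot h hw hfe hA (ϑ := 1 / 4) (by norm_num) le_rfl T η hη
  have hx : ∀ᶠ i in l, 0 < Real.log (A i) := (ev_small hA one_pos).mono fun i hi => hi.2
  have key := tfae (A := 1 / 2) (Λ := Λ) (by norm_num) hx hP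
  have hent : ∀ i, Differentiable ℂ (Λ i) := fun i => LL_diff (h i).pos (h i).entire (hfe i)
  have hne : ∀ i, Λ i 2 ≠ 0 := by
    intro i h0
    have h1 := ((h i).LL_zero (w := w i) (u := 2) (by norm_num)).1 h0
    exact (h i).ne (s := 2 + 1 / 2) (by norm_num) h1
  have hzero : ∀ i, ∀ u : ℂ, 1 / 2 ≤ u.re → (Λ i u = 0 ↔ F i (u + 1 / 2) = 0) := fun i u hu =>
    (h i).LL_zero (w := w i) (by linarith)
  -- 1
  have e1 : (∀ T ε : ℝ, 0 < ε → ∀ᶠ i in l,
        NF.zsum (F i) ({ρ : ℂ | |ρ.im| ≤ T ∧ ε ≤ |ρ.re - 1|}.indicator fun _ => 1) ≤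
          ε * Real.log (A i)) ↔
      (∀ δ T ε : ℝ, 0 < δ → 0 < ε → ∀ᶠ i in l,
        nz (Λ i) {s : ℂ | δ ≤ |s.re - 1 / 2| ∧ ‖s‖ ≤ T} ≤ ε * Real.log (A i)) := by
    constructor
    · intro h1 δ T ε hδ hε
      filter_upwards [h1 T (min δ ε) (lt_min hδ hε), hx] with i hi hxi
      have h2 : min δ ε * Real.log (A i) ≤ ε * Real.log (A i) :=
        mul_le_mul_of_nonneg_right (min_le_right _ _) hxi.le
      refine le_trans ?_ (hi.trans h2)
      rw [zsum_strip_set, (h i).nz_LL (hw i) (hfe i), (h i).nz_strip (hw i) (hfe i)]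
      refine nz_mono (hent i) (hne i) (R := |T| + 5) (fun u hu => ?_) fun u hu => ?_
      · obtain ⟨⟨h3, h4⟩, h5, h6⟩ := hu
        have hre := half_re u
        rw [hre] at h5 h6
        rw [mem_closedBall_zero_iff]
        refine (Complex.norm_le_abs_re_add_abs_im _).trans ?_
        have h7 : |u.re| ≤ 2 := abs_le.2 ⟨by linarith, by linarith⟩
        have h8 : |u.im| ≤ |T| := by
          have : (u + 1 / 2).im = u.im := by simp
          rw [this] at h3
          exact h3.trans (le_abs_self _)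
        linarith
      · obtain ⟨⟨h3, h4⟩, h5, h6⟩ := hu
        have hre := half_re u
        have him : (u + 1 / 2).im = u.im := by simp
        refine ⟨⟨?_, ?_⟩, by rw [hre]; linarith, by rw [hre]; linarith⟩
        · rw [him]
          exact (Complex.abs_im_le_norm u).trans h4
        · rw [hre]
          refine (min_le_left _ _).trans (h3.trans (le_of_eq ?_))
          congr 1
          ring
    · intro h1 T ε hε
      filter_upwards [h1 ε (|T| + 5) ε hε hε, hx] with i hi hxi
      refine le_trans ?_ hi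
      rw [zsum_strip_set, (h i).nz_LL (hw i) (hfe i)]
      refine nz_mono (hent i) (hne i) (R := |T| + 5) (fun u hu => ?_) fun u hu => ?_
      · exact mem_closedBall_zero_iff.2 hu.2
      · obtain ⟨⟨h3, h4⟩, h5, h6⟩ := hu
        have hre := half_re u
        have him : (u + 1 / 2).im = u.im := by simp
        rw [hre] at h4 h5 h6
        rw [him] at h3
        refine ⟨?_, ?_⟩
        · refine h4.trans (le_of_eq ?_)
          congr 1
          ring
        · refine (Complex.norm_le_abs_re_add_abs_im _).trans ?_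
          have h7 : |u.re| ≤ 2 := abs_le.2 ⟨by linarith, by linarith⟩
          have h8 : |u.im| ≤ |T| := h3.trans (le_abs_self _)
          linarith
  -- 2
  have e2 : (∀ g : ℂ → ℝ, Continuous g → HasCompactSupport g →
        Tendsto (fun i => NF.zsum (F i) g / Real.log (A i)) l
          (𝓝 (1 / (2 * π) * ∫ t : ℝ, g (NF.p1 t)))) ↔
      (∀ g : ℂ → ℝ, Continuous g → HasCompactSupport g →
        Tendsto (fun i => (∑ᶠ u, mu (Λ i) u * g u) / Real.log (A i)) l
          (𝓝 (1 / (2 * π) * ∫ t : ℝ, g (pt t)))) := by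
    constructor
    · intro h1 g hg hgc
      have h2 := h1 (fun u => g (u - 1 / 2)) (hg.comp (continuous_id.sub continuous_const))
        (hgc.comp_homeomorph (Homeomorph.addRight (-(1 / 2) : ℂ)))
      have e3 : ∫ t : ℝ, (fun u : ℂ => g (u - 1 / 2)) (NF.p1 t) = ∫ t : ℝ, g (pt t) := by
        rw [← NF.int_shift (fun u : ℂ => g (u - 1 / 2))]
        simp only [add_sub_cancel_right]
      rw [e3] at h2
      refine h2.congr fun i => ?_
      rw [(h i).zsum_LL (hw i) (hfe i)]
      simp only [add_sub_cancel_right]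
      rfl
    · intro h1 g hg hgc
      have h2 := h1 (fun u => g (u + 1 / 2)) (NF.cont_shift hg) (NF.comp_shift hgc)
      rw [NF.int_shift g] at h2
      refine h2.congr fun i => ?_
      rw [(h i).zsum_LL (hw i) (hfe i)]
  -- 3
  have n1 : ∀ {T : ℝ} {u : ℂ}, ‖u‖ ≤ T → ‖u + 1 / 2‖ ≤ T + 1 := by
    intro T u hu
    refine (norm_add_le _ _).trans ?_
    have : ‖(1 / 2 : ℂ)‖ ≤ 1 := by norm_num
    linarith
  have n2 : ∀ {T : ℝ} {s : ℂ}, ‖s‖ ≤ T → ‖s - 1 / 2‖ ≤ T + 1 := by
    intro T u hu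
    refine (norm_sub_le _ _).trans ?_
    have : ‖(1 / 2 : ℂ)‖ ≤ 1 := by norm_num
    linarith
  have e3 : (∀ T ε : ℝ, 0 < ε → ∀ᶠ i in l, ∀ s : ℂ, 1 ≤ s.re → ‖s‖ ≤ T →
        ‖F i s‖ ≤ Real.exp (ε * Real.log (A i))) ↔
      (∀ T ε : ℝ, 0 < ε → ∀ᶠ i in l, ∀ s : ℂ, 1 / 2 ≤ s.re → ‖s‖ ≤ T →
        Real.log ‖Λ i s‖ ≤ Real.log (A i) * (s.re / 2 + ε)) := by
    constructor
    · intro h1 T ε hε
      filter_upwards [h1 (T + 1) (ε / 2) (by positivity), hx,
        ev_log (w := w) h hA T (show 0 < ε / 2 by positivity)] with i hi hxi hl u hu huT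
      by_cases h0 : F i (u + 1 / 2) = 0
      · rw [(hzero i u hu).2 h0, norm_zero, Real.log_zero]
        have : 0 ≤ u.re := by linarith
        positivity
      · have h2 := hi (u + 1 / 2) (by rw [half_re]; linarith) (n1 huT)
        rw [← Real.log_le_iff_le_exp (norm_pos_iff.2 h0)] at h2
        have h3 := (abs_le.1 (hl u hu huT h0)).2
        simp only [hΛ]
        linarith
    · intro h1 T ε hε
      filter_upwards [h1 (T + 1) (ε / 2) (by positivity), hx,
        ev_log (w := w) h hA (T + 1) (show 0 < ε / 2 by positivity)] with i hi hxi hl s hs hsT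
      by_cases h0 : F i s = 0
      · rw [h0, norm_zero]
        exact (Real.exp_pos _).le
      · rw [← Real.log_le_iff_le_exp (norm_pos_iff.2 h0)]
        have hre : (s - 1 / 2).re = s.re - 1 / 2 := by simp
        have h2 := hi (s - 1 / 2) (by rw [hre]; linarith) (n2 hsT)
        have h3 := (abs_le.1 (hl (s - 1 / 2) (by rw [hre]; linarith) (n2 hsT)
          (by rwa [sub_add_cancel]))).1
        rw [sub_add_cancel] at h3
        simp only [hΛ] at h2
        linarith
  -- 4
  have ep : ∀ t : ℝ, pt t + 1 / 2 = NF.p1 t := by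
    intro t
    apply Complex.ext
    · simp [pt, NF.p1]; norm_num
    · simp [pt, NF.p1]
  have hpt : ∀ {t T : ℝ}, |t| ≤ T → ‖pt t‖ ≤ T + 1 := by
    intro t T ht
    refine (Complex.norm_le_abs_re_add_abs_im _).trans ?_
    simp only [pt]
    rw [abs_of_pos (by norm_num)]
    linarith
  have hre : ∀ t : ℝ, (pt t).re = 1 / 2 := fun t => rfl
  have e4 : (∀ T ε : ℝ, 0 < ε → ∀ᶠ i in l, ∀ t : ℝ, |t| ≤ T →
        ‖F i (NF.p1 t)‖ ≤ Real.exp (ε * Real.log (A i))) ↔
      (∀ T ε : ℝ, 0 < ε → ∀ᶠ i in l, ∀ t : ℝ, |t| ≤ T →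
        Real.log ‖Λ i (pt t)‖ ≤ Real.log (A i) * (1 / 4 + ε)) := by
    constructor
    · intro h1 T ε hε
      filter_upwards [h1 T (ε / 2) (by positivity), hx,
        ev_log (w := w) h hA (T + 1) (show 0 < ε / 2 by positivity)] with i hi hxi hl t ht
      by_cases h0 : F i (pt t + 1 / 2) = 0
      · rw [(hzero i (pt t) (hre t).ge).2 h0, norm_zero, Real.log_zero]
        positivity
      · have h2 := hi t ht
        rw [← ep, ← Real.log_le_iff_le_exp (norm_pos_iff.2 h0)] at h2
        have h3 := (abs_le.1 (hl (pt t) (hre t).ge (hpt ht) h0)).2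
        rw [hre] at h3
        simp only [hΛ]
        linarith
    · intro h1 T ε hε
      filter_upwards [h1 T (ε / 2) (by positivity), hx,
        ev_log (w := w) h hA (T + 1) (show 0 < ε / 2 by positivity)] with i hi hxi hl t ht
      rw [← ep]
      by_cases h0 : F i (pt t + 1 / 2) = 0
      · rw [h0, norm_zero]
        exact (Real.exp_pos _).le
      · rw [← Real.log_le_iff_le_exp (norm_pos_iff.2 h0)]
        have h2 := hi t ht
        have h3 := (abs_le.1 (hl (pt t) (hre t).ge (hpt ht) h0)).1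
        rw [hre] at h3
        simp only [hΛ] at h2
        linarith
  -- 5
  have hFi : ∀ i, ∀ T : ℝ, IntegrableOn (fun u => |Real.log ‖F i (u + 1 / 2)‖|) (rh (1 / 2) T) := by
    intro i T
    have hd : Differentiable ℂ fun u => F i (u + 1 / 2) :=
      (h i).entire.comp (differentiable_id.add_const _)
    have h0 : F i ((2 : ℂ) + 1 / 2) ≠ 0 := (h i).ne (by norm_num)
    exact (((locInt hd h0).integrableOn_isCompact (isCompact_closedBall 0 T)).mono_set
      (rh_sub _ _)).abs
  have hVi : ∀ i, ∀ T : ℝ, IntegrableOn (VV (Real.log (A i)) (Λ i)) (rh (1 / 2) T) := by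
    intro i T
    exact (VV_int (hent i) (hne i) 0 T).mono_set (rh_sub _ _)
  have hae : ∀ i, ∀ᵐ u : ℂ, Λ i u ≠ 0 := fun i => ae_ne (hent i) (hne i)
  have hcl : ∀ T : ℝ, IntegrableOn (fun _ : ℂ => T) (rh (1 / 2) T) := fun T =>
    integrableOn_const ((measure_mono (rh_sub _ _)).trans_lt measure_closedBall_lt_top).ne
  have hci : ∀ c T : ℝ, IntegrableOn (fun _ : ℂ => c) (rh (1 / 2) T) := fun c T =>
    integrableOn_const ((measure_mono (rh_sub _ _)).trans_lt measure_closedBall_lt_top).ne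
  have e5 : (∀ T ε : ℝ, 0 < ε → ∀ᶠ i in l, ∫ s in rh 1 T, |Real.log ‖F i s‖| ≤
        ε * Real.log (A i)) ↔
      (∀ T ε : ℝ, 0 ≤ T → 0 < ε → ∀ᶠ i in l, ∫ z in closedBall (0 : ℂ) T,
        VV (Real.log (A i)) (Λ i) z ≤ ε * Real.log (A i)) := by
    constructor
    · intro h1 T ε hT hε
      set m := (volume : Measure ℂ).real (rh (1 / 2) (T + 1)) with hm
      have hm0 : 0 ≤ m := measureReal_nonneg
      filter_upwards [h1 (T + 2) (ε / 4) (by positivity), hx,
        ev_log (w := w) h hA (T + 1) (show 0 < ε / (4 * (m + 1)) by positivity)] with i hi hxi hl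
      have h2 : ∫ z in closedBall (0 : ℂ) T, VV (Real.log (A i)) (Λ i) z ≤
          2 * ∫ z in rh (1 / 2) (T + 1), VV (Real.log (A i)) (Λ i) z := by
        have h3 := half (V := VV (Real.log (A i)) (Λ i)) (fun z => VV_nonneg _ _ z)
          (fun z => VV_sym (LL_sym (h i).norm_conj (h i).pos (hw i) (hfe i)) z) T
          (VV_int (hent i) (hne i) 0 (T + 1))
        have e : closedBall (0 : ℂ) (T + 1) ∩ {z : ℂ | 1 / 2 ≤ z.re} = rh (1 / 2) (T + 1) := by
          ext z
          rw [mem_inter_iff, mem_closedBall_zero_iff]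
          exact and_comm
        rwa [e] at h3
      have h4 : ∫ z in rh (1 / 2) (T + 1), VV (Real.log (A i)) (Λ i) z ≤
          (∫ u in rh (1 / 2) (T + 1), |Real.log ‖F i (u + 1 / 2)‖|) +
            ∫ _u in rh (1 / 2) (T + 1), ε / (4 * (m + 1)) * Real.log (A i) := by
        rw [← integral_add (hFi i _) (hci _ _)]
        refine integral_mono_ae (hVi i _) ((hFi i _).add (hci _ _)) ?_
        filter_upwards [ae_restrict_of_ae (hae i), ae_restrict_mem (rh_meas _ _)] with u hu hur
        have hF0 : F i (u + 1 / 2) ≠ 0 := fun h0 => hu ((hzero i u hur.1).2 h0)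
        have h5 := hl u hur.1 hur.2 hF0
        rw [VV_right hur.1 hu, log_HH hu]
        simp only [hΛ]
        calc |Real.log ‖LL (Module.finrank ℚ (K i)) (A i) (F i) (w i) u‖ -
              Real.log (A i) * (u.re / 2)| =
              |(Real.log ‖LL (Module.finrank ℚ (K i)) (A i) (F i) (w i) u‖ -
              Real.log (A i) * (u.re / 2) - Real.log ‖F i (u + 1 / 2)‖) +
                Real.log ‖F i (u + 1 / 2)‖| := by rw [sub_add_cancel]
          _ ≤ _ := by
              refine (abs_add_le _ _).trans ?_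
              linarith
      have h6 : (∫ u in rh (1 / 2) (T + 1), |Real.log ‖F i (u + 1 / 2)‖|) ≤
          ∫ s in rh 1 (T + 2), |Real.log ‖F i s‖| := by
        rw [int_half (fun s => |Real.log ‖F i s‖|) (rh 1 (T + 2)) (rh_meas _ _)]
        refine setIntegral_mono_set ?_ (Eventually.of_forall fun u => abs_nonneg _) ?_
        · refine (hFi i (T + 3)).mono_set fun u hu => ?_
          obtain ⟨h7, h8⟩ := hu
          rw [half_re] at h7
          refine ⟨by linarith, ?_⟩
          have := n2 h8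
          rw [add_sub_cancel_right] at this
          linarith
        · refine LE.le.eventuallyLE fun u hu => ?_
          refine ⟨?_, ?_⟩
          · rw [half_re]
            linarith [hu.1]
          · have := n1 hu.2
            linarith
      have h7 : ∫ _u in rh (1 / 2) (T + 1), ε / (4 * (m + 1)) * Real.log (A i) ≤
          ε / 4 * Real.log (A i) := by
        rw [setIntegral_const, smul_eq_mul, ← hm]
        calc m * (ε / (4 * (m + 1)) * Real.log (A i)) ≤
              (m + 1) * (ε / (4 * (m + 1)) * Real.log (A i)) := by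
              gcongr
              linarith
          _ = ε / 4 * Real.log (A i) := by field_simp
      linarith
    · intro h1 T ε hε
      set T' := |T| + 1 with hT'
      set m := (volume : Measure ℂ).real (rh (1 / 2) T') with hm
      have hm0 : 0 ≤ m := measureReal_nonneg
      filter_upwards [h1 T' (ε / 2) (by positivity) (by positivity), hx,
        ev_log (w := w) h hA T' (show 0 < ε / (2 * (m + 1)) by positivity)] with i hi hxi hl
      have h6 : ∫ s in rh 1 T, |Real.log ‖F i s‖| ≤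
          ∫ u in rh (1 / 2) T', |Real.log ‖F i (u + 1 / 2)‖| := by
        rw [int_half _ _ (rh_meas _ _)]
        refine setIntegral_mono_set (hFi i _) (Eventually.of_forall fun u => abs_nonneg _) ?_
        refine LE.le.eventuallyLE fun u hu => ?_
        obtain ⟨h7, h8⟩ := hu
        rw [half_re] at h7
        refine ⟨by linarith, ?_⟩
        have := n2 h8
        rw [add_sub_cancel_right] at this
        have := le_abs_self T
        linarith
      have h4 : ∫ u in rh (1 / 2) T', |Real.log ‖F i (u + 1 / 2)‖| ≤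
          (∫ z in rh (1 / 2) T', VV (Real.log (A i)) (Λ i) z) +
            ∫ _u in rh (1 / 2) T', ε / (2 * (m + 1)) * Real.log (A i) := by
        rw [← integral_add (hVi i _) (hci _ _)]
        refine integral_mono_ae (hFi i _) ((hVi i _).add (hci _ _)) ?_
        filter_upwards [ae_restrict_of_ae (hae i), ae_restrict_mem (rh_meas _ _)] with u hu hur
        have hF0 : F i (u + 1 / 2) ≠ 0 := fun h0 => hu ((hzero i u hur.1).2 h0)
        have h5 := hl u hur.1 hur.2 hF0
        rw [VV_right hur.1 hu, log_HH hu]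
        simp only [hΛ]
        calc |Real.log ‖F i (u + 1 / 2)‖| = |(Real.log ‖LL (Module.finrank ℚ (K i)) (A i) (F i)
                (w i) u‖ - Real.log (A i) * (u.re / 2)) -
              (Real.log ‖LL (Module.finrank ℚ (K i)) (A i) (F i) (w i) u‖ -
              Real.log (A i) * (u.re / 2) - Real.log ‖F i (u + 1 / 2)‖)| := by
                rw [sub_sub_cancel]
          _ ≤ _ := by
              refine (abs_sub _ _).trans ?_
              linarith
      have h7 : ∫ _u in rh (1 / 2) T', ε / (2 * (m + 1)) * Real.log (A i) ≤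
          ε / 2 * Real.log (A i) := by
        rw [setIntegral_const, smul_eq_mul, ← hm]
        calc m * (ε / (2 * (m + 1)) * Real.log (A i)) ≤
              (m + 1) * (ε / (2 * (m + 1)) * Real.log (A i)) := by
              gcongr
              linarith
          _ = ε / 2 * Real.log (A i) := by field_simp
      have h8 : (∫ z in rh (1 / 2) T', VV (Real.log (A i)) (Λ i) z) ≤
          ∫ z in closedBall (0 : ℂ) T', VV (Real.log (A i)) (Λ i) z :=
        setIntegral_mono_set (VV_int (hent i) (hne i) 0 T')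
          (Eventually.of_forall fun u => VV_nonneg _ _ u) (rh_sub _ _).eventuallyLE
      linarith
  have k1 := key.out 0 1
  have k2 := key.out 1 2
  have k3 := key.out 2 3
  have k4 := key.out 3 4
  tfae_have 1 ↔ 2 := e1.trans (k1.trans e2.symm)
  tfae_have 2 ↔ 3 := e2.trans (k2.trans e3.symm)
  tfae_have 3 ↔ 4 := e3.trans (k3.trans e4.symm)
  tfae_have 4 ↔ 5 := e4.trans (k4.trans e5.symm)
  tfae_finish

end family

end Pool.Agent.H465.PT
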