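import Pool.Agent.H465.PT.B

/-!
# Functions with few zeros in a disc: the estimate
-/

set_option autoImplicit false

open MeasureTheory Metric Set Filter Topology
open scoped Real ENNReal

namespace Pool.Agent.H465.PT

open Pool.Agent.H465.EQ

lemma intOn_log {g : ℂ → ℂ} (hg : Differentiable ℂ g) {z₀ : ℂ} (h0 : g z₀ ≠ 0) (c : ℂ) (r : ℝ) :
    IntegrableOn (fun z => Real.log ‖g z‖) (ball c r) :=
  ((locInt hg h0).integrableOn_isCompact (isCompact_closedBall c r)).mono_set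
    ball_subset_closedBall

lemma intConst (a : ℝ) (c : ℂ) (r : ℝ) : IntegrableOn (fun _ : ℂ => a) (ball c r) :=
  integrableOn_const (measure_ball_lt_top.ne)

/-- the upper bound from the mean -/
lemma le_of_mean {g : ℂ → ℂ} (hg : Differentiable ℂ g) {s : ℂ} {r a : ℝ} (hr : 0 < r)
    (h0 : g s ≠ 0) (h : ∫ z in ball s r, Real.log ‖g z‖ ≤ a) :
    Real.log ‖g s‖ ≤ a / (π * r ^ 2) := by
  have hpi := Real.pi_pos
  rw [le_div_iff₀ (by positivity), mul_comm]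
  exact (sub_mean hg hr h0).trans h

/-- **Functions with few zeros in a disc.** -/
theorem disc {r₀ ρ' ρ : ℝ} (h0 : 0 < r₀) (h01 : r₀ ≤ ρ') (h1 : ρ' < ρ) {ε A : ℝ} (hε : 0 < ε)
    (hA : 0 ≤ A) :
    ∃ ω : ℝ, 0 < ω ∧ ω ≤ 1 ∧ ∀ x : ℝ, 0 < x → ∀ (f : ℂ → ℂ) (z₀ c : ℂ), Differentiable ℂ f →
      f z₀ ≠ 0 → (∀ z ∈ closedBall c ρ, Real.log ‖f z‖ ≤ A * x) →
      nz f (closedBall c ρ) ≤ ω * x → (∫ z in ball c r₀, |Real.log ‖f z‖| ≤ ω * x) →
      ∃ (Z : Finset ℂ) (g : ℂ → ℂ), (∀ u ∈ Z, u ∈ closedBall c ρ) ∧ (∑ u ∈ Z, mu f u ≤ ω * x) ∧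
        Differentiable ℂ g ∧ (∀ z ∈ closedBall c ρ, g z ≠ 0) ∧ (∀ z, f z = PP f Z z * g z) ∧
        ∀ z ∈ closedBall c ρ', |Real.log ‖g z‖| ≤ ε * x := by
  have hpi := Real.pi_pos
  have hρ'0 : 0 < ρ' := h0.trans_le h01
  have hρ0 : 0 < ρ := hρ'0.trans h1
  set κ : ℝ := (ρ - ρ') / 4 with hκ
  have hκ0 : 0 < κ := by rw [hκ]; linarith
  have hκρ : ρ = ρ' + 4 * κ := by rw [hκ]; ring
  set C₁ : ℝ := lmass (2 * ρ) with hC₁
  have hC₁0 : 0 ≤ C₁ := lmass_nonneg _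
  set A' : ℝ := A + C₁ / (π * κ ^ 2) with hA'
  have hA'0 : 0 ≤ A' := by positivity
  obtain ⟨ω₁, hω₁0, hω₁1, hprop⟩ := prop (r₀ := r₀ / 4) (ρ' := ρ' + κ) (ρ := ρ - 2 * κ)
    (by positivity) (by linarith) (by linarith) hε hA'0
  set τ : ℝ := min (r₀ / 4) κ with hτ
  have hτ0 : 0 < τ := by positivity
  have hτ1 : τ ≤ r₀ / 4 := min_le_left _ _
  have hτ2 : τ ≤ κ := min_le_right _ _
  set ω : ℝ := min 1 (ω₁ * (π * τ ^ 2) / (1 + C₁)) with hω
  have hω0 : 0 < ω := by positivity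
  have hω1 : ω ≤ 1 := min_le_left _ _
  have hωC : (1 + C₁) * ω ≤ ω₁ * (π * τ ^ 2) := by
    have : ω ≤ ω₁ * (π * τ ^ 2) / (1 + C₁) := min_le_right _ _
    rw [le_div_iff₀ (by positivity)] at this
    linarith
  refine ⟨ω, hω0, hω1, fun x hx f z₀ c hf hf0 hup hnz hL1 => ?_⟩
  have hfin := fin_zeros hf hf0 c ρ
  set Z : Finset ℂ := hfin.toFinset with hZ
  have hZc : ∀ u ∈ Z, u ∈ closedBall c ρ := fun u hu => ((Finite.mem_toFinset _).1 hu).2
  have hZs : ∑ u ∈ Z, mu f u ≤ ω * x := by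
    rw [← nz_eq (S := closedBall c ρ) (Z := Z)
      (fun u h1 h2 => (Finite.mem_toFinset hfin).2 ⟨h2, h1⟩) hZc hf]
    exact hnz
  obtain ⟨g, hg, hgZ, hfg⟩ := factor hf hf0 Z
  have hgne : ∀ z ∈ closedBall c ρ, g z ≠ 0 := by
    intro z hz h
    by_cases hzZ : z ∈ Z
    · exact hgZ z hzZ h
    · exact hzZ ((Finite.mem_toFinset _).2 ⟨by rw [hfg, h, mul_zero], hz⟩)
  have hg0 : g z₀ ≠ 0 := fun h => hf0 (by rw [hfg, h, mul_zero])
  have hm0 : 0 ≤ ∑ u ∈ Z, mu f u := Finset.sum_nonneg fun u _ => mu_nonneg _ _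
  refine ⟨Z, g, hZc, hZs, hg, hgne, hfg, ?_⟩
  -- almost everywhere
  have hae : ∀ B : Set ℂ, ∀ᵐ z ∂(volume.restrict B), Real.log ‖f z‖ =
      Real.log ‖PP f Z z‖ + Real.log ‖g z‖ := by
    intro B
    have h2 : ∀ᵐ z ∂(volume.restrict B), z ∉ (Z : Set ℂ) :=
      ae_restrict_of_ae (Set.Countable.ae_notMem Z.countable_toSet _)
    have h3 : ∀ᵐ z ∂(volume.restrict B), g z ≠ 0 := ae_restrict_of_ae (ae_ne hg hg0)
    filter_upwards [h2, h3] with z hz hgz
    rw [hfg z, norm_mul, Real.log_mul (norm_ne_zero_iff.2 (PP_ne (by simpa using hz)))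
      (norm_ne_zero_iff.2 hgz)]
  -- the upper bound
  have hup' : ∀ s ∈ ball c (ρ - κ), Real.log ‖g s‖ ≤ A' * x := by
    intro s hs
    have hsub : ball s κ ⊆ closedBall c ρ := by
      intro z hz
      rw [mem_ball, dist_eq_norm] at hz hs
      rw [mem_closedBall, dist_eq_norm]
      calc ‖z - c‖ = ‖(z - s) + (s - c)‖ := by rw [sub_add_sub_cancel]
        _ ≤ ‖z - s‖ + ‖s - c‖ := norm_add_le _ _
        _ ≤ ρ := by linarith
    have hsρ : s ∈ closedBall c ρ := by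
      rw [mem_ball, dist_eq_norm] at hs
      rw [mem_closedBall, dist_eq_norm]
      linarith
    obtain ⟨hPi, hPb⟩ := PP_L1 (f := f) (Z := Z) (c := s) (c' := c) (r := κ) (ρ := ρ)
      (R := 2 * ρ) hZc (by rw [mem_ball, dist_eq_norm] at hs; linarith)
    have h2 : ∫ z in ball s κ, Real.log ‖g z‖ ≤ ∫ z in ball s κ, (A * x + |Real.log ‖PP f Z z‖|) := by
      refine integral_mono_ae (intOn_log hg hg0 s κ)
        ((intConst _ _ _).add hPi) ?_
      filter_upwards [hae (ball s κ), ae_restrict_mem measurableSet_ball] with z hz hzb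
      have h3 := hup z (hsub hzb)
      have h4 := neg_abs_le (Real.log ‖PP f Z z‖)
      linarith
    have h3 : ∫ z in ball s κ, (A * x + |Real.log ‖PP f Z z‖|) ≤
        π * κ ^ 2 * (A * x) + C₁ * x := by
      rw [integral_add (intConst _ _ _) hPi, setIntegral_const,
        vol_ball_real _ hκ0.le, smul_eq_mul]
      have h5 : (∑ u ∈ Z, mu f u) * lmass (2 * ρ) ≤ C₁ * x := by
        rw [mul_comm]
        exact mul_le_mul_of_nonneg_left (hZs.trans (by nlinarith)) hC₁0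
      linarith
    have h4 := le_of_mean hg hκ0 (hgne s hsρ) (h2.trans h3)
    refine h4.trans (le_of_eq ?_)
    rw [hA']
    field_simp
  -- the mass of `log g`
  obtain ⟨hPi, hPb⟩ := PP_L1 (f := f) (Z := Z) (c := c) (c' := c) (r := r₀) (ρ := ρ)
      (R := 2 * ρ) hZc (by rw [sub_self, norm_zero]; linarith)
  have hmass : ∫ z in ball c r₀, |Real.log ‖g z‖| ≤ (1 + C₁) * ω * x := by
    have h2 : ∫ z in ball c r₀, |Real.log ‖g z‖| ≤
        ∫ z in ball c r₀, (|Real.log ‖f z‖| + |Real.log ‖PP f Z z‖|) := by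
      refine integral_mono_ae (intOn_log hg hg0 c r₀).abs ((intOn_log hf hf0 c r₀).abs.add hPi) ?_
      filter_upwards [hae (ball c r₀)] with z hz
      have h3 : Real.log ‖g z‖ = Real.log ‖f z‖ - Real.log ‖PP f Z z‖ := by rw [hz]; ring
      rw [h3]
      exact abs_sub _ _
    rw [integral_add (intOn_log hf hf0 c r₀).abs hPi] at h2
    have h5 : (∑ u ∈ Z, mu f u) * lmass (2 * ρ) ≤ C₁ * (ω * x) := by
      rw [mul_comm]
      exact mul_le_mul_of_nonneg_left hZs hC₁0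
    linarith
  have hr2 : (0 : ℝ) < r₀ / 2 := by positivity
  have hsm : ∀ s ∈ ball c (r₀ / 2), Real.log ‖g s‖ ≤ ω₁ * x := by
    intro s hs
    have hsub : ball s (r₀ / 2) ⊆ ball c r₀ := by
      intro z hz
      rw [mem_ball, dist_eq_norm] at hz hs ⊢
      calc ‖z - c‖ = ‖(z - s) + (s - c)‖ := by rw [sub_add_sub_cancel]
        _ ≤ ‖z - s‖ + ‖s - c‖ := norm_add_le _ _
        _ < r₀ := by linarith
    have hsρ : s ∈ closedBall c ρ := by
      rw [mem_ball, dist_eq_norm] at hs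
      rw [mem_closedBall, dist_eq_norm]
      linarith
    have h2 : ∫ z in ball s (r₀ / 2), Real.log ‖g z‖ ≤ (1 + C₁) * ω * x := by
      refine le_trans ?_ hmass
      refine (integral_mono (intOn_log hg hg0 s _) (intOn_log hg hg0 s _).abs
        fun z => le_abs_self _).trans ?_
      exact setIntegral_mono_set (intOn_log hg hg0 c r₀).abs
        (Eventually.of_forall fun z => abs_nonneg _) hsub.eventuallyLE
    have h3 := le_of_mean hg hr2 (hgne s hsρ) h2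
    refine h3.trans ?_
    rw [div_le_iff₀ (by positivity)]
    calc (1 + C₁) * ω * x ≤ ω₁ * (π * τ ^ 2) * x := mul_le_mul_of_nonneg_right hωC hx.le
      _ ≤ ω₁ * (π * (r₀ / 2) ^ 2) * x := by gcongr; linarith
      _ = _ := by ring
  -- the point
  obtain ⟨p, hp, hgp, hpl⟩ := good_point hg hg0 (c := c) (r := τ) (a := (1 + C₁) * ω * x) hτ0
    (le_trans (setIntegral_mono_set (intOn_log hg hg0 c r₀).abs
        (Eventually.of_forall fun z => abs_nonneg _)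
        (ball_subset_ball (by linarith)).eventuallyLE) hmass)
  have hpl' : |Real.log ‖g p‖| ≤ ω₁ * x := by
    refine hpl.trans ?_
    rw [div_le_iff₀ (by positivity)]
    calc (1 + C₁) * ω * x ≤ ω₁ * (π * τ ^ 2) * x := mul_le_mul_of_nonneg_right hωC hx.le
      _ = _ := by ring
  have hpc : ‖p - c‖ < τ := by rwa [mem_ball, dist_eq_norm] at hp
  have hsubp : ∀ {r : ℝ} {z : ℂ}, z ∈ ball p r → z ∈ ball c (r + τ) := by
    intro r z hz
    rw [mem_ball, dist_eq_norm] at hz ⊢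
    calc ‖z - c‖ = ‖(z - p) + (p - c)‖ := by rw [sub_add_sub_cancel]
      _ ≤ ‖z - p‖ + ‖p - c‖ := norm_add_le _ _
      _ < r + τ := by linarith
  intro z hz
  refine hprop x hx g p hg.differentiableOn (fun w hw => hgne w ?_) (fun w hw => hup' w ?_)
    (fun w hw => hsm w ?_) ?_ z ?_
  · exact ball_subset_closedBall (ball_subset_ball (by linarith) (hsubp hw))
  · exact ball_subset_ball (by linarith) (hsubp hw)
  · exact ball_subset_ball (by linarith) (hsubp hw)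
  · exact (abs_le.1 hpl').1
  · rw [mem_closedBall, dist_eq_norm] at hz ⊢
    calc ‖z - p‖ = ‖(z - c) - (p - c)‖ := by rw [sub_sub_sub_cancel_right]
      _ ≤ ‖z - c‖ + ‖p - c‖ := norm_sub_le _ _
      _ ≤ ρ' + κ := by linarith

/-- **The mass in the larger disc.** -/
theorem disc_mass {r₀ ρ' ρ : ℝ} (h0 : 0 < r₀) (h01 : r₀ ≤ ρ') (h1 : ρ' < ρ) {ε A : ℝ} (hε : 0 < ε)
    (hA : 0 ≤ A) :
    ∃ ω : ℝ, 0 < ω ∧ ω ≤ 1 ∧ ∀ x : ℝ, 0 < x → ∀ (f : ℂ → ℂ) (z₀ c : ℂ), Differentiable ℂ f →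
      f z₀ ≠ 0 → (∀ z ∈ closedBall c ρ, Real.log ‖f z‖ ≤ A * x) →
      nz f (closedBall c ρ) ≤ ω * x → (∫ z in ball c r₀, |Real.log ‖f z‖| ≤ ω * x) →
      ∫ z in ball c ρ', |Real.log ‖f z‖| ≤ ε * x := by
  have hpi := Real.pi_pos
  have hρ'0 : 0 < ρ' := h0.trans_le h01
  have hρ0 : 0 < ρ := hρ'0.trans h1
  set C₁ : ℝ := lmass (2 * ρ) with hC₁
  have hC₁0 : 0 ≤ C₁ := lmass_nonneg _
  set ε₁ : ℝ := ε / (2 * (π * ρ' ^ 2)) with hε₁
  obtain ⟨ω₁, hω₁0, hω₁1, hd⟩ := disc h0 h01 h1 (ε := ε₁) (by positivity) hA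
  set ω : ℝ := min ω₁ (ε / (2 * (C₁ + 1))) with hω
  have hωC : C₁ * ω ≤ ε / 2 := by
    have h2 : ω ≤ ε / (2 * (C₁ + 1)) := min_le_right _ _
    calc C₁ * ω ≤ (C₁ + 1) * (ε / (2 * (C₁ + 1))) := by gcongr; linarith
      _ = ε / 2 := by field_simp
  refine ⟨ω, by positivity, (min_le_left _ _).trans hω₁1, fun x hx f z₀ c hf hf0 hup hnz hL1 => ?_⟩
  have hωx : ω * x ≤ ω₁ * x := mul_le_mul_of_nonneg_right (min_le_left _ _) hx.le
  -- the number of zeros is at most `ω x`, not only `ω₁ x`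
  have hfin := fin_zeros hf hf0 c ρ
  obtain ⟨Z, g, hZc, -, hg, hgne, hfg, hsm⟩ := hd x hx f z₀ c hf hf0 hup (hnz.trans hωx)
    (hL1.trans hωx)
  have hg0 : g z₀ ≠ 0 := fun h => hf0 (by rw [hfg, h, mul_zero])
  have hZs : ∑ u ∈ Z, mu f u ≤ ω * x := by
    have hsub : ∀ u ∈ closedBall c ρ, f u = 0 → u ∈ Z := by
      intro u hu hfu
      by_contra hZu
      rw [hfg, mul_eq_zero] at hfu
      rcases hfu with h2 | h2
      · exact PP_ne hZu h2
      · exact hgne u hu h2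
    rw [← nz_eq (S := closedBall c ρ) hsub hZc hf]
    exact hnz
  obtain ⟨hPi, hPb⟩ := PP_L1 (f := f) (Z := Z) (c := c) (c' := c) (r := ρ') (ρ := ρ)
      (R := 2 * ρ) hZc (by rw [sub_self, norm_zero]; linarith)
  calc ∫ z in ball c ρ', |Real.log ‖f z‖|
      ≤ ∫ z in ball c ρ', (|Real.log ‖PP f Z z‖| + ε₁ * x) := by
        refine integral_mono_ae (intOn_log hf hf0 c ρ').abs
          (hPi.add (intConst _ _ _)) ?_
        have h2 : ∀ᵐ z ∂(volume.restrict (ball c ρ')), z ∉ (Z : Set ℂ) :=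
          ae_restrict_of_ae (Set.Countable.ae_notMem Z.countable_toSet _)
        have h3 : ∀ᵐ z ∂(volume.restrict (ball c ρ')), g z ≠ 0 := ae_restrict_of_ae (ae_ne hg hg0)
        filter_upwards [h2, h3, ae_restrict_mem measurableSet_ball] with z hz hgz hzb
        rw [hfg z, norm_mul, Real.log_mul (norm_ne_zero_iff.2 (PP_ne (by simpa using hz)))
          (norm_ne_zero_iff.2 hgz)]
        refine (abs_add_le _ _).trans ?_
        have := hsm z (ball_subset_closedBall hzb)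
        linarith
    _ = (∫ z in ball c ρ', |Real.log ‖PP f Z z‖|) + π * ρ' ^ 2 * (ε₁ * x) := by
        rw [integral_add hPi (intConst _ _ _), setIntegral_const,
          vol_ball_real _ hρ'0.le, smul_eq_mul]
    _ ≤ C₁ * (ω * x) + π * ρ' ^ 2 * (ε₁ * x) := by
        have h5 : (∑ u ∈ Z, mu f u) * lmass (2 * ρ) ≤ C₁ * (ω * x) := by
          rw [mul_comm]
          exact mul_le_mul_of_nonneg_left hZs hC₁0
        linarith
    _ ≤ ε / 2 * x + ε / 2 * x := by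
        have e1 : π * ρ' ^ 2 * (ε₁ * x) = ε / 2 * x := by rw [hε₁]; field_simp
        have e2 : C₁ * (ω * x) ≤ ε / 2 * x := by nlinarith
        linarith
    _ = ε * x := by ring

end Pool.Agent.H465.PT
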