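import Pool.Agent.H465.PT.C

/-!
# Potentials
-/

set_option autoImplicit false

open MeasureTheory Metric Set Filter Topology
open scoped Real ENNReal ComplexConjugate

namespace Pool.Agent.H465.PT

open Pool.Agent.H465.EQ

/-- `Λ` is a completed L-function, `x` the logarithm of the conductor, and `1 + e` the point from
which on the finite part is small compared to the conductor -/
structure Pot (e η A x T : ℝ) (Λ : ℂ → ℂ) : Prop where
  ent : Differentiable ℂ Λ
  sym : ∀ s : ℂ, ‖Λ (1 - conj s)‖ = ‖Λ s‖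
  up : ∀ s : ℂ, 1 / 2 ≤ s.re → ‖s‖ ≤ T → Real.log ‖Λ s‖ ≤ x * (s.re / 2 + A)
  ne : ∀ s : ℂ, 1 + e ≤ s.re → ‖s‖ ≤ T → Λ s ≠ 0
  edge : ∀ s : ℂ, 1 + e ≤ s.re → ‖s‖ ≤ T → |Real.log ‖Λ s‖ - x * (s.re / 2)| ≤ η * x

variable {e η A x T : ℝ} {Λ : ℂ → ℂ}

lemma Pot.mono {e' η' T' : ℝ} (h : Pot e η A x T Λ) (he : e ≤ e') (hη : η ≤ η') (hT : T' ≤ T)
    (hx : 0 ≤ x) : Pot e' η' A x T' Λ :=
  ⟨h.ent, h.sym, fun s h1 h2 => h.up s h1 (h2.trans hT), fun s h1 h2 => h.ne s (by linarith)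
    (h2.trans hT), fun s h1 h2 => (h.edge s (by linarith) (h2.trans hT)).trans
      (mul_le_mul_of_nonneg_right hη hx)⟩

/-- the finite part -/
noncomputable def HH (x : ℝ) (Λ : ℂ → ℂ) (s : ℂ) : ℂ := Λ s * Complex.exp (-(x / 2 : ℝ) * s)

lemma HH_diff (h : Differentiable ℂ Λ) (x : ℝ) : Differentiable ℂ (HH x Λ) :=
  h.mul ((differentiable_id.const_mul _).cexp)

lemma HH_ne {s : ℂ} : HH x Λ s ≠ 0 ↔ Λ s ≠ 0 := by
  unfold HH
  simp [Complex.exp_ne_zero]

lemma log_HH {s : ℂ} (h : Λ s ≠ 0) : Real.log ‖HH x Λ s‖ = Real.log ‖Λ s‖ - x * (s.re / 2) := by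
  unfold HH
  rw [norm_mul, Complex.norm_exp, Real.log_mul (norm_ne_zero_iff.2 h) (Real.exp_ne_zero _),
    Real.log_exp]
  have : (-((x / 2 : ℝ) : ℂ) * s).re = -(x * (s.re / 2)) := by
    rw [← Complex.ofReal_neg, Complex.re_ofReal_mul]
    ring
  rw [this]
  ring

/-- the distance to the model -/
noncomputable def VV (x : ℝ) (Λ : ℂ → ℂ) (z : ℂ) : ℝ := |Real.log ‖Λ z‖ - x * (U0 z + 1 / 4)|

lemma VV_nonneg (x : ℝ) (Λ : ℂ → ℂ) (z : ℂ) : 0 ≤ VV x Λ z := abs_nonneg _

lemma U0_right {z : ℂ} (h : 1 / 2 ≤ z.re) : U0 z + 1 / 4 = z.re / 2 := by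
  unfold U0
  rw [abs_of_nonneg (by linarith)]
  ring

lemma VV_right {z : ℂ} (h : 1 / 2 ≤ z.re) (h0 : Λ z ≠ 0) : VV x Λ z = |Real.log ‖HH x Λ z‖| := by
  unfold VV
  rw [U0_right h, log_HH h0]

lemma VV_sym (h : ∀ s : ℂ, ‖Λ (1 - conj s)‖ = ‖Λ s‖) (z : ℂ) :
    VV x Λ (1 - conj z) = VV x Λ z := by
  unfold VV
  rw [h, U0_sym]

lemma VV_int (hΛ : Differentiable ℂ Λ) {z₀ : ℂ} (h0 : Λ z₀ ≠ 0) (c : ℂ) (r : ℝ) :
    IntegrableOn (VV x Λ) (closedBall c r) := intOn_pot hΛ h0 x r c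

/-- the upper bound on both sides -/
lemma Pot.up' (h : Pot e η A x T Λ) {s : ℂ} (hT : ‖s‖ ≤ T - 1) :
    Real.log ‖Λ s‖ ≤ x * (U0 s + 1 / 4 + A) := by
  rcases le_or_gt (1 / 2) s.re with h1 | h1
  · rw [U0_right h1]
    exact h.up s h1 (by linarith)
  · have h2 := h.up (1 - conj s) (by rw [re_conj_sub]; linarith)
      ((norm_conj_sub s).trans (by linarith))
    rw [h.sym, ← U0_right (by rw [re_conj_sub]; linarith), U0_sym] at h2
    exact h2

lemma Pot.two (h : Pot e η A x T Λ) (he : e ≤ 1) (hT : 2 ≤ T) : Λ 2 ≠ 0 := by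
  refine h.ne 2 ?_ ?_
  · simp only [Complex.re_ofNat]
    linarith
  · simpa using hT

lemma Pot.upH (h : Pot e η A x T Λ) (hx : 0 ≤ x) (hA : 0 ≤ A) {s : ℂ} (hs : 1 / 2 ≤ s.re)
    (hT : ‖s‖ ≤ T) : Real.log ‖HH x Λ s‖ ≤ A * x := by
  by_cases h0 : Λ s = 0
  · have : HH x Λ s = 0 := by unfold HH; rw [h0, zero_mul]
    rw [this, norm_zero, Real.log_zero]
    positivity
  · rw [log_HH h0]
    have := h.up s hs hT
    linarith

/-- covering -/
lemma cover {V : ℂ → ℝ} (hV0 : ∀ z, 0 ≤ V z) {S : Set ℂ} (hS : MeasurableSet S)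
    (hSf : volume S ≠ ⊤) {ι : Type} (I : Finset ι) (B : ι → Set ℂ)
    (hB : ∀ i ∈ I, MeasurableSet (B i)) (hi : ∀ i ∈ I, IntegrableOn V (B i))
    (hVS : IntegrableOn V S) {a : ℝ} (ha : 0 ≤ a)
    (h : ∀ z ∈ S, V z ≤ a ∨ ∃ i ∈ I, z ∈ B i) :
    ∫ z in S, V z ≤ (volume : Measure ℂ).real S * a + ∑ i ∈ I, ∫ z in B i, V z := by
  have hind : ∀ i ∈ I, Integrable ((B i).indicator V) := by
    intro i hi'
    rw [integrable_indicator_iff (hB i hi')]
    exact hi i hi'
  have hsum0 : ∀ z, 0 ≤ ∑ i ∈ I, (B i).indicator V z := fun z =>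
    Finset.sum_nonneg fun i _ => indicator_nonneg (fun w _ => hV0 w) z
  calc ∫ z in S, V z ≤ ∫ z in S, (a + ∑ i ∈ I, (B i).indicator V z) := by
        refine setIntegral_mono_on hVS ?_ hS fun z hz => ?_
        · exact (integrableOn_const hSf).add (integrable_finsetSum _ hind).integrableOn
        · rcases h z hz with h1 | ⟨i, hi1, hi2⟩
          · linarith [hsum0 z]
          · have := Finset.single_le_sum (f := fun i => (B i).indicator V z)
              (fun i _ => indicator_nonneg (fun w _ => hV0 w) z) hi1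
            simp only [indicator_of_mem hi2] at this
            linarith
    _ = (∫ _z in S, a) + ∫ z in S, ∑ i ∈ I, (B i).indicator V z :=
        integral_add (integrableOn_const hSf) (integrable_finsetSum _ hind).integrableOn
    _ ≤ (volume : Measure ℂ).real S * a + ∑ i ∈ I, ∫ z in B i, V z := by
        refine add_le_add ?_ ?_
        · rw [setIntegral_const, smul_eq_mul]
        · refine (setIntegral_le_integral (integrable_finsetSum _ hind)
            (Eventually.of_forall fun z => hsum0 z)).trans ?_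
          rw [integral_finsetSum _ hind]
          refine Finset.sum_le_sum fun i hi' => ?_
          rw [integral_indicator (hB i hi')]

/-- the reflection -/
noncomputable def rfl' (z : ℂ) : ℂ := 1 - conj z

lemma rfl_mp : MeasurePreserving rfl' (volume : Measure ℂ) volume := by
  have h1 : MeasurePreserving (fun z : ℂ => conj z) (volume : Measure ℂ) volume :=
    Complex.conjLIE.measurePreserving
  have h2 : MeasurePreserving (fun z : ℂ => 1 - z) (volume : Measure ℂ) volume :=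
    Measure.measurePreserving_sub_left volume 1
  exact h2.comp h1

lemma rfl_emb : MeasurableEmbedding rfl' := by
  have h1 : MeasurableEmbedding (fun z : ℂ => conj z) :=
    Complex.conjLIE.toHomeomorph.measurableEmbedding
  have h2 : MeasurableEmbedding (fun z : ℂ => 1 - z) := (Homeomorph.subLeft (1 : ℂ)).measurableEmbedding
  exact h2.comp h1

lemma rfl_rfl (z : ℂ) : rfl' (rfl' z) = z := by
  unfold rfl'
  simp

/-- the integral over the disc from the right half -/
lemma half {V : ℂ → ℝ} (hV0 : ∀ z, 0 ≤ V z) (hsym : ∀ z, V (rfl' z) = V z) (T : ℝ)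
    (hi : IntegrableOn V (closedBall 0 (T + 1))) :
    ∫ z in closedBall (0 : ℂ) T, V z ≤
      2 * ∫ z in closedBall (0 : ℂ) (T + 1) ∩ {z : ℂ | 1 / 2 ≤ z.re}, V z := by
  set S₁ : Set ℂ := closedBall (0 : ℂ) T ∩ {z : ℂ | 1 / 2 ≤ z.re} with hS₁
  set S₂ : Set ℂ := closedBall (0 : ℂ) T ∩ {z : ℂ | 1 / 2 ≤ z.re}ᶜ with hS₂
  set S : Set ℂ := closedBall (0 : ℂ) (T + 1) ∩ {z : ℂ | 1 / 2 ≤ z.re} with hS
  have hm : MeasurableSet {z : ℂ | 1 / 2 ≤ z.re} :=
    measurableSet_le measurable_const Complex.measurable_re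
  have hsub : closedBall (0 : ℂ) T ⊆ closedBall 0 (T + 1) := closedBall_subset_closedBall (by linarith)
  have hi0 : IntegrableOn V (closedBall (0 : ℂ) T) := hi.mono_set hsub
  have hiS : IntegrableOn V S := hi.mono_set inter_subset_left
  have e1 : ∫ z in closedBall (0 : ℂ) T, V z = (∫ z in S₁, V z) + ∫ z in S₂, V z := by
    rw [hS₁, hS₂]
    exact (integral_inter_add_sdiff hm hi0).symm
  have e2 : ∫ z in S₁, V z ≤ ∫ z in S, V z :=
    setIntegral_mono_set hiS (Eventually.of_forall hV0)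
      (Eventually.of_forall fun z (hz : z ∈ S₁) => (⟨hsub hz.1, hz.2⟩ : z ∈ S))
  have e3 : ∫ z in S₂, V z ≤ ∫ z in S, V z := by
    have h1 : S₂ ⊆ rfl' ⁻¹' S := by
      intro z hz
      have h2 := hz.1
      have h3 := hz.2
      rw [mem_closedBall_zero_iff] at h2
      have h3 : z.re < 1 / 2 := not_le.1 h3
      refine ⟨?_, ?_⟩
      · rw [mem_closedBall_zero_iff]
        exact (norm_conj_sub z).trans (by linarith)
      · show 1 / 2 ≤ (1 - conj z).re
        rw [re_conj_sub]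
        linarith
    have h4 : ∫ z in rfl' ⁻¹' S, V z = ∫ z in S, V z := by
      rw [← rfl_mp.setIntegral_preimage_emb rfl_emb V S]
      exact setIntegral_congr_fun (rfl_emb.measurable (measurableSet_closedBall.inter hm))
        fun z _ => (hsym z).symm
    have h5 : IntegrableOn V (rfl' ⁻¹' S) := by
      have := (rfl_mp.integrableOn_comp_preimage rfl_emb (f := V) (s := S)).2 hiS
      refine this.congr_fun (fun z _ => hsym z) (rfl_emb.measurable (measurableSet_closedBall.inter hm))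
    rw [← h4]
    exact setIntegral_mono_set h5 (Eventually.of_forall hV0) h1.eventuallyLE
  linarith

end Pool.Agent.H465.PT
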