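import Pool.Agent.H465.PT.D

/-!
# The potential near the line
-/

set_option autoImplicit false

open MeasureTheory Metric Set Filter Topology
open scoped Real ENNReal ComplexConjugate

namespace Pool.Agent.H465.PT

open Pool.Agent.H465.EQ

variable {A : ℝ}

lemma HH_mass_eq {x : ℝ} {Λ : ℂ → ℂ} (hΛ : Differentiable ℂ Λ) {z₀ : ℂ} (h0 : Λ z₀ ≠ 0) {c : ℂ}
    {r : ℝ} (h : ∀ z ∈ ball c r, 1 / 2 ≤ z.re) :
    ∫ z in ball c r, VV x Λ z = ∫ z in ball c r, |Real.log ‖HH x Λ z‖| := by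
  refine integral_congr_ae ?_
  have hae : ∀ᵐ z ∂(volume.restrict (ball c r)), Λ z ≠ 0 := ae_restrict_of_ae (ae_ne hΛ h0)
  filter_upwards [hae, ae_restrict_mem measurableSet_ball] with z hz hzb
  exact VV_right (h z hzb) hz

/-- **From the discs on the right to the whole disc.** -/
theorem main {T₁ : ℝ} (hT₁ : 0 ≤ T₁) {ε : ℝ} (hA : 0 ≤ A) (hε : 0 < ε) :
    ∃ δ ε₁ ω : ℝ, 0 < δ ∧ δ ≤ 1 / 10 ∧ 0 < ε₁ ∧ 0 < ω ∧ ∀ x : ℝ, 0 < x → ∀ Λ : ℂ → ℂ,
      Pot (1 / 4) ω A x (T₁ + 10) Λ →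
      (∀ t : ℝ, |t| ≤ T₁ + 4 →
        ∫ z in ball (⟨3 / 2, t⟩ : ℂ) (1 - 3 / 2 * δ), |Real.log ‖HH x Λ z‖| ≤ ε₁ * x) →
      ∫ z in closedBall (0 : ℂ) T₁, VV x Λ z ≤ ε * x := by
  have hpi := Real.pi_pos
  set M₀ : ℝ := T₁ + 6 + A with hM₀
  have hM₀0 : 0 < M₀ := by rw [hM₀]; linarith
  set P : ℝ := (2 * (T₁ + 1) + 5) * 25 * π * (2 * M₀ + (T₁ + 6)) with hP
  have hP0 : 0 < P := by positivity
  set δ : ℝ := min (1 / 10) (ε / (8 * P)) with hδdef
  have hδ : 0 < δ := by positivity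
  have hδ1 : δ ≤ 1 / 10 := min_le_left _ _
  have hδP : δ * P ≤ ε / 8 := by
    have : δ ≤ ε / (8 * P) := min_le_right _ _
    calc δ * P ≤ ε / (8 * P) * P := mul_le_mul_of_nonneg_right this hP0.le
      _ = ε / 8 := by field_simp
  set V₁ : ℝ := π * (T₁ + 1) ^ 2 with hV₁
  have hV₁0 : 0 < V₁ := by positivity
  set K : ℕ := ⌈(T₁ + 2) / δ⌉₊ with hK
  have hK1 : (T₁ + 2) / δ ≤ K := Nat.le_ceil _
  have hK2 : (K : ℝ) < (T₁ + 2) / δ + 1 := Nat.ceil_lt_add_one (by positivity)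
  have hKδ : (K : ℝ) * δ ≤ (T₁ + 2) + δ := by
    have := mul_le_mul_of_nonneg_right hK2.le hδ.le
    have e : ((T₁ + 2) / δ + 1) * δ = (T₁ + 2) + δ := by field_simp
    linarith
  set ε₁ : ℝ := min (π * δ ^ 2 / 4) (ε / (8 * (2 * K + 1))) with hε₁
  have hε₁0 : 0 < ε₁ := by positivity
  set ω : ℝ := ε / (8 * V₁) with hω
  have hω0 : 0 < ω := by positivity
  refine ⟨δ, ε₁, ω, hδ, hδ1, hε₁0, hω0, fun x hx Λ h hm => ?_⟩
  have h2 : Λ 2 ≠ 0 := h.two (by norm_num) (by linarith)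
  have h2' : HH x Λ 2 ≠ 0 := HH_ne.2 h2
  have hHd : Differentiable ℂ (HH x Λ) := HH_diff h.ent x
  set T₂ : ℝ := T₁ + 1 with hT₂
  set S : Set ℂ := closedBall (0 : ℂ) T₂ ∩ {z : ℂ | 1 / 2 ≤ z.re} with hS
  set I₀ : Finset ℤ := Finset.Icc (-(K : ℤ)) K with hI₀
  have hcI : ∀ k ∈ I₀, |(k : ℝ) * δ| ≤ T₁ + 3 := by
    intro k hk
    rw [hI₀, Finset.mem_Icc] at hk
    have h3 : |(k : ℝ)| ≤ K := by
      rw [abs_le]
      exact ⟨by exact_mod_cast hk.1, by exact_mod_cast hk.2⟩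
    rw [abs_mul, abs_of_pos hδ]
    have := mul_le_mul_of_nonneg_right h3 hδ.le
    linarith
  -- the points
  have hpt : ∀ k : ℤ, ∃ p : ℂ, k ∈ I₀ → p ∈ ball (⟨1 / 2 + 3 * δ, k * δ⟩ : ℂ) δ ∧ Λ p ≠ 0 ∧
      0 ≤ Real.log ‖Λ p‖ := by
    intro k
    by_cases hk : k ∈ I₀
    swap
    · exact ⟨0, fun h' => absurd h' hk⟩
    have hsub : ball (⟨1 / 2 + 3 * δ, k * δ⟩ : ℂ) δ ⊆ ball (⟨3 / 2, k * δ⟩ : ℂ) (1 - 3 / 2 * δ) := by
      intro z hz
      rw [mem_ball, dist_eq_norm] at hz ⊢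
      have e1 : (⟨1 / 2 + 3 * δ, k * δ⟩ : ℂ) - ⟨3 / 2, k * δ⟩ = ((3 * δ - 1 : ℝ) : ℂ) := by
        apply Complex.ext
        · simp only [Complex.sub_re, Complex.ofReal_re]; ring
        · simp only [Complex.sub_im, Complex.ofReal_im]; ring
      calc ‖z - ⟨3 / 2, k * δ⟩‖ = ‖(z - ⟨1 / 2 + 3 * δ, k * δ⟩) +
            ((⟨1 / 2 + 3 * δ, k * δ⟩ : ℂ) - ⟨3 / 2, k * δ⟩)‖ := by rw [sub_add_sub_cancel]
        _ ≤ ‖z - ⟨1 / 2 + 3 * δ, k * δ⟩‖ +
            ‖(⟨1 / 2 + 3 * δ, k * δ⟩ : ℂ) - ⟨3 / 2, k * δ⟩‖ := norm_add_le _ _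
        _ < δ + (1 - 3 * δ) := by
            rw [e1, Complex.norm_real, Real.norm_eq_abs, abs_of_neg (by linarith)]
            linarith
        _ ≤ 1 - 3 / 2 * δ := by linarith
    have h3 : ∫ z in ball (⟨1 / 2 + 3 * δ, k * δ⟩ : ℂ) δ, |Real.log ‖HH x Λ z‖| ≤ ε₁ * x := by
      refine le_trans ?_ (hm (k * δ) (by linarith [hcI k hk]))
      exact setIntegral_mono_set (intOn_log hHd h2' _ _).abs
        (Eventually.of_forall fun z => abs_nonneg _) hsub.eventuallyLE
    obtain ⟨p, hp, hp0, hpl⟩ := good_point hHd h2' hδ h3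
    have hΛp : Λ p ≠ 0 := HH_ne.1 hp0
    refine ⟨p, fun _ => ⟨hp, hΛp, ?_⟩⟩
    have h4 : ε₁ * x / (π * δ ^ 2) ≤ x / 4 := by
      rw [div_le_iff₀ (by positivity)]
      calc ε₁ * x ≤ π * δ ^ 2 / 4 * x := mul_le_mul_of_nonneg_right (min_le_left _ _) hx.le
        _ = _ := by ring
    have h5 := (abs_le.1 (hpl.trans h4)).1
    rw [log_HH hΛp] at h5
    have h6 : 1 / 2 ≤ p.re := by
      rw [mem_ball, dist_eq_norm] at hp
      have := (Complex.abs_re_le_norm (p - ⟨1 / 2 + 3 * δ, k * δ⟩)).trans_lt hp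
      simp only [Complex.sub_re] at this
      rw [abs_lt] at this
      linarith [this.1]
    nlinarith
  choose p hp using hpt
  have hpn : ∀ k ∈ I₀, ‖p k‖ ≤ T₁ + 4 := by
    intro k hk
    have h3 := (hp k hk).1
    rw [mem_ball, dist_eq_norm] at h3
    have h4 : ‖(⟨1 / 2 + 3 * δ, k * δ⟩ : ℂ)‖ ≤ (1 / 2 + 3 * δ) + (K * δ) := by
      refine (Complex.norm_le_abs_re_add_abs_im _).trans ?_
      simp only
      rw [abs_of_pos (by positivity), abs_mul, abs_of_pos hδ]
      rw [hI₀, Finset.mem_Icc] at hk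
      have h3 : |(k : ℝ)| ≤ K := by
        rw [abs_le]
        exact ⟨by exact_mod_cast hk.1, by exact_mod_cast hk.2⟩
      have := mul_le_mul_of_nonneg_right h3 hδ.le
      linarith
    calc ‖p k‖ = ‖(p k - ⟨1 / 2 + 3 * δ, k * δ⟩) + ⟨1 / 2 + 3 * δ, k * δ⟩‖ := by
          rw [sub_add_cancel]
      _ ≤ ‖p k - ⟨1 / 2 + 3 * δ, k * δ⟩‖ + ‖(⟨1 / 2 + 3 * δ, k * δ⟩ : ℂ)‖ := norm_add_le _ _
      _ ≤ T₁ + 4 := by linarith
  have hVi : ∀ (c : ℂ) (r : ℝ), IntegrableOn (VV x Λ) (ball c r) := fun c r =>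
    (VV_int h.ent h2 c r).mono_set ball_subset_closedBall
  -- the discs at the line
  have hdisc : ∀ k ∈ I₀, ∫ z in ball (p k) (5 * δ), VV x Λ z ≤
      π * (5 * δ) ^ 2 * (2 * M₀ + (T₁ + 6)) * x := by
    intro k hk
    have hsub : ∀ z ∈ ball (p k) (5 * δ), ‖z‖ ≤ T₁ + 5 := by
      intro z hz
      rw [mem_ball, dist_eq_norm] at hz
      calc ‖z‖ = ‖(z - p k) + p k‖ := by rw [sub_add_cancel]
        _ ≤ ‖z - p k‖ + ‖p k‖ := norm_add_le _ _
        _ ≤ T₁ + 5 := by linarith [hpn k hk]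
    obtain ⟨hi, hb⟩ := disc_L1 h.ent (c := p k) (r := 5 * δ) (M := M₀ * x) (by positivity)
      (hp k hk).2.1 (by positivity)
      (fun z hz => by
        refine (h.up' (by linarith [hsub z hz])).trans ?_
        have := U0_le (hsub z hz)
        rw [mul_comm]
        exact mul_le_mul_of_nonneg_right (by rw [hM₀]; linarith) hx.le)
    have hiU : IntegrableOn (fun z => x * (U0 z + 1 / 4)) (ball (p k) (5 * δ)) :=
      ((((continuous_U0.add continuous_const).const_mul x).locallyIntegrable).integrableOn_isCompact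
        (isCompact_closedBall (p k) (5 * δ))).mono_set ball_subset_closedBall
    have h3 := (hp k hk).2.2
    have h4 : ∫ z in ball (p k) (5 * δ), x * (U0 z + 1 / 4) ≤ π * (5 * δ) ^ 2 * (x * (T₁ + 6)) := by
      calc ∫ z in ball (p k) (5 * δ), x * (U0 z + 1 / 4) ≤
          ∫ z in ball (p k) (5 * δ), x * (T₁ + 6) := by
            refine setIntegral_mono_on hiU (intConst _ _ _) measurableSet_ball fun z hz => ?_
            refine mul_le_mul_of_nonneg_left ?_ (by linarith)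
            have := U0_le (hsub z hz)
            linarith
        _ = _ := by rw [setIntegral_const, smul_eq_mul, vol_ball_real _ (by positivity)]
    calc ∫ z in ball (p k) (5 * δ), VV x Λ z ≤
        ∫ z in ball (p k) (5 * δ), (|Real.log ‖Λ z‖| + x * (U0 z + 1 / 4)) := by
          refine setIntegral_mono_on (hVi _ _) (hi.abs.add hiU) measurableSet_ball fun z _ => ?_
          refine (abs_sub _ _).trans ?_
          rw [abs_of_nonneg (show 0 ≤ x * (U0 z + 1 / 4) from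
            mul_nonneg (by linarith) (by linarith [U0_nonneg z]))]
      _ = (∫ z in ball (p k) (5 * δ), |Real.log ‖Λ z‖|) +
          ∫ z in ball (p k) (5 * δ), x * (U0 z + 1 / 4) := integral_add hi.abs hiU
      _ ≤ π * (5 * δ) ^ 2 * (2 * (M₀ * x) - Real.log ‖Λ (p k)‖) +
          π * (5 * δ) ^ 2 * (x * (T₁ + 6)) := add_le_add hb h4
      _ ≤ π * (5 * δ) ^ 2 * (2 * (M₀ * x)) +
          π * (5 * δ) ^ 2 * (x * (T₁ + 6)) := by
          gcongr
          linarith
      _ = _ := by ring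
  -- the discs on the right
  have hright : ∀ k ∈ I₀, ∫ z in ball (⟨3 / 2, k * δ⟩ : ℂ) (1 - 3 / 2 * δ), VV x Λ z ≤ ε₁ * x := by
    intro k hk
    rw [HH_mass_eq h.ent h2 fun z hz => ?_]
    · exact hm _ (by linarith [hcI k hk])
    · rw [mem_ball, dist_eq_norm] at hz
      have := (Complex.abs_re_le_norm (z - ⟨3 / 2, k * δ⟩)).trans_lt hz
      simp only [Complex.sub_re] at this
      rw [abs_lt] at this
      linarith [this.1]
  -- the covering
  set I : Finset (ℤ × Bool) := I₀ ×ˢ Finset.univ with hI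
  set B : ℤ × Bool → Set ℂ := fun i => if i.2 then ball (p i.1) (5 * δ) else
    ball (⟨3 / 2, i.1 * δ⟩ : ℂ) (1 - 3 / 2 * δ) with hB
  have hBt : ∀ k : ℤ, B (k, true) = ball (p k) (5 * δ) := fun k => by simp [hB]
  have hBf : ∀ k : ℤ, B (k, false) = ball (⟨3 / 2, k * δ⟩ : ℂ) (1 - 3 / 2 * δ) := fun k => by
    simp [hB]
  have hmS : MeasurableSet S :=
    measurableSet_closedBall.inter (measurableSet_le measurable_const Complex.measurable_re)
  have hSf : volume S ≠ ⊤ :=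
    ((measure_mono inter_subset_left).trans_lt measure_closedBall_lt_top).ne
  have hcov := cover (V := VV x Λ) (VV_nonneg x Λ) hmS hSf I B (fun i _ => by
      rcases i with ⟨k, b⟩
      cases b
      · rw [hBf]; exact measurableSet_ball
      · rw [hBt]; exact measurableSet_ball) (fun i _ => by
      rcases i with ⟨k, b⟩
      cases b
      · rw [hBf]; exact hVi _ _
      · rw [hBt]; exact hVi _ _) ((VV_int h.ent h2 0 T₂).mono_set inter_subset_left)
      (a := ω * x) (by positivity) (by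
      rintro z ⟨hz, hzr⟩
      rw [mem_closedBall_zero_iff] at hz
      have hzr' : 1 / 2 ≤ z.re := hzr
      rcases le_or_gt (5 / 4) z.re with h5 | h5
      · left
        unfold VV
        rw [U0_right hzr']
        exact h.edge z (by linarith) (by linarith)
      · right
        set k : ℤ := ⌊z.im / δ⌋ with hk
        have hk1 : (k : ℝ) ≤ z.im / δ := Int.floor_le _
        have hk2 : z.im / δ < k + 1 := Int.lt_floor_add_one _
        have hk1' : (k : ℝ) * δ ≤ z.im := by rwa [le_div_iff₀ hδ] at hk1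
        have hk2' : z.im < (k + 1) * δ := by rwa [div_lt_iff₀ hδ] at hk2
        have him := (Complex.abs_im_le_norm z).trans hz
        rw [abs_le] at him
        have hkI : k ∈ I₀ := by
          rw [hI₀, Finset.mem_Icc]
          have hd1 : T₂ / δ ≤ (T₁ + 2) / δ - 1 := by
            rw [le_sub_iff_add_le, ← sub_nonneg]
            have : (T₁ + 2) / δ - (T₂ / δ + 1) = (1 - δ) / δ := by rw [hT₂]; field_simp; ring
            rw [this]
            exact div_nonneg (by linarith) hδ.le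
          constructor
          · have h5 : -(K : ℝ) ≤ k := by
              have h6 : -(T₂ / δ) ≤ z.im / δ := by
                rw [← neg_div]
                exact div_le_div_of_nonneg_right him.1 hδ.le
              linarith
            exact_mod_cast h5
          · have h5 : (k : ℝ) ≤ K := by
              have h6 : z.im / δ ≤ T₂ / δ := div_le_div_of_nonneg_right him.2 hδ.le
              linarith
            exact_mod_cast h5
        have h8 : |z.im - k * δ| ≤ δ := by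
          rw [abs_le]; constructor <;> linarith
        have h10 := sq_le_sq' (by linarith [(abs_le.1 h8).1]) (abs_le.1 h8).2
        rcases le_or_gt (1 / 2 + 2 * δ) z.re with h6 | h6
        · refine ⟨(k, false), Finset.mem_product.2 ⟨hkI, Finset.mem_univ _⟩, ?_⟩
          rw [hBf, mem_ball, dist_eq_norm, Complex.norm_def, Complex.normSq_apply]
          rw [Real.sqrt_lt' (by linarith)]
          simp only [Complex.sub_re, Complex.sub_im]
          have h7 : |z.re - 3 / 2| ≤ 1 - 2 * δ := by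
            rw [abs_le]; constructor <;> linarith
          have h9 := sq_le_sq' (by linarith [(abs_le.1 h7).1]) (abs_le.1 h7).2
          nlinarith
        · refine ⟨(k, true), Finset.mem_product.2 ⟨hkI, Finset.mem_univ _⟩, ?_⟩
          have h7 := (hp k hkI).1
          rw [mem_ball, dist_eq_norm] at h7
          have hre := (Complex.abs_re_le_norm (p k - ⟨1 / 2 + 3 * δ, k * δ⟩)).trans_lt h7
          have him' := (Complex.abs_im_le_norm (p k - ⟨1 / 2 + 3 * δ, k * δ⟩)).trans_lt h7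
          simp only [Complex.sub_re, Complex.sub_im] at hre him'
          rw [abs_lt] at hre him'
          rw [hBt, mem_ball, dist_eq_norm, Complex.norm_def, Complex.normSq_apply]
          rw [Real.sqrt_lt' (by linarith)]
          simp only [Complex.sub_re, Complex.sub_im]
          have h11 : |z.re - (p k).re| ≤ 4 * δ := by
            rw [abs_le]; constructor <;> linarith [hre.1, hre.2]
          have h12 : |z.im - (p k).im| ≤ 2 * δ := by
            rw [abs_le]; constructor <;> linarith [him'.1, him'.2]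
          have h13 := sq_le_sq' (by linarith [(abs_le.1 h11).1]) (abs_le.1 h11).2
          have h14 := sq_le_sq' (by linarith [(abs_le.1 h12).1]) (abs_le.1 h12).2
          nlinarith)
  have hsum : ∑ i ∈ I, ∫ z in B i, VV x Λ z =
      ∑ k ∈ I₀, ((∫ z in ball (p k) (5 * δ), VV x Λ z) +
        ∫ z in ball (⟨3 / 2, k * δ⟩ : ℂ) (1 - 3 / 2 * δ), VV x Λ z) := by
    rw [hI, Finset.sum_product]
    refine Finset.sum_congr rfl fun k _ => ?_
    rw [Fintype.sum_bool, hBt, hBf]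
  have hcard : ((I₀.card : ℕ) : ℝ) = 2 * K + 1 := by
    rw [hI₀, Int.card_Icc]
    have : ((K : ℤ) + 1 - -(K : ℤ)).toNat = 2 * K + 1 := by omega
    rw [this]
    push_cast
    ring
  have hsum2 : ∑ i ∈ I, ∫ z in B i, VV x Λ z ≤
      (2 * K + 1) * (π * (5 * δ) ^ 2 * (2 * M₀ + (T₁ + 6)) * x + ε₁ * x) := by
    rw [hsum, ← hcard, ← nsmul_eq_mul, ← Finset.sum_const]
    exact Finset.sum_le_sum fun k hk => add_le_add (hdisc k hk) (hright k hk)
  have hvol : (volume : Measure ℂ).real S ≤ V₁ := by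
    calc (volume : Measure ℂ).real S ≤ (volume : Measure ℂ).real (closedBall (0 : ℂ) T₂) :=
          measureReal_mono inter_subset_left measure_closedBall_lt_top.ne
      _ = V₁ := by
          rw [Measure.real, Complex.volume_closedBall, ENNReal.toReal_mul,
            ← ENNReal.ofReal_pow (by linarith), ENNReal.toReal_ofReal (by positivity)]
          simp only [ENNReal.coe_toReal, NNReal.coe_real_pi]
          rw [hV₁, hT₂]
          ring
  have hhalf := half (V := VV x Λ) (VV_nonneg x Λ) (fun z => VV_sym h.sym z) T₁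
    (VV_int h.ent h2 0 (T₁ + 1))
  have e1 : (volume : Measure ℂ).real S * (ω * x) ≤ ε / 8 * x := by
    calc (volume : Measure ℂ).real S * (ω * x) ≤ V₁ * (ω * x) :=
          mul_le_mul_of_nonneg_right hvol (by positivity)
      _ = ε / 8 * x := by rw [hω]; field_simp
  have e2 : (2 * (K : ℝ) + 1) * (π * (5 * δ) ^ 2 * (2 * M₀ + (T₁ + 6)) * x) ≤ ε / 8 * x := by
    have e3 : (2 * (K : ℝ) + 1) * δ ≤ 2 * (T₁ + 1) + 5 := by nlinarith
    have e4 : (2 * (K : ℝ) + 1) * (π * (5 * δ) ^ 2 * (2 * M₀ + (T₁ + 6)) * x) =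
        ((2 * (K : ℝ) + 1) * δ) * (25 * π * (2 * M₀ + (T₁ + 6))) * δ * x := by ring
    rw [e4]
    refine mul_le_mul_of_nonneg_right ?_ hx.le
    calc ((2 * (K : ℝ) + 1) * δ) * (25 * π * (2 * M₀ + (T₁ + 6))) * δ ≤
        (2 * (T₁ + 1) + 5) * (25 * π * (2 * M₀ + (T₁ + 6))) * δ := by gcongr
      _ = δ * P := by rw [hP]; ring
      _ ≤ ε / 8 := hδP
  have e5 : (2 * (K : ℝ) + 1) * (ε₁ * x) ≤ ε / 8 * x := by
    have : ε₁ ≤ ε / (8 * (2 * K + 1)) := min_le_right _ _
    calc (2 * (K : ℝ) + 1) * (ε₁ * x) ≤ (2 * (K : ℝ) + 1) * (ε / (8 * (2 * K + 1)) * x) := by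
          gcongr
      _ = _ := by field_simp
  have e6 : (2 * (K : ℝ) + 1) * (π * (5 * δ) ^ 2 * (2 * M₀ + (T₁ + 6)) * x + ε₁ * x) =
      (2 * (K : ℝ) + 1) * (π * (5 * δ) ^ 2 * (2 * M₀ + (T₁ + 6)) * x) +
      (2 * (K : ℝ) + 1) * (ε₁ * x) := by ring
  nlinarith

end Pool.Agent.H465.PT
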