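import Pool.Agent.H465.PT.F

/-!
# Equivalences for families
-/

set_option autoImplicit false

open MeasureTheory Metric Set Filter Topology
open scoped Real ENNReal ComplexConjugate

namespace Pool.Agent.H465.PT

open Pool.Agent.H465.EQ

variable {A : ℝ}

/-- **From the line to the half plane.** -/
theorem line {ε : ℝ} (hε : 0 < ε) (hA : 0 ≤ A) : ∃ L ω : ℝ, 0 < L ∧ 0 < ω ∧
    ∀ (x T₁ : ℝ) (Λ : ℂ → ℂ), 0 < x → Pot (1 / 4) ω A x (T₁ + L + 5) Λ →
      (∀ t : ℝ, |t| ≤ T₁ + L → Real.log ‖Λ (pt t)‖ ≤ x * (1 / 4 + ω)) →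
      ∀ s : ℂ, 1 / 2 ≤ s.re → |s.im| ≤ T₁ → ‖s‖ ≤ T₁ + L + 5 →
        Real.log ‖Λ s‖ ≤ x * (s.re / 2 + ε) := by
  set κ : ℝ := ε / 2 with hκ
  have hκ0 : 0 < κ := by positivity
  set L : ℝ := 2 + A / κ with hL
  have hL0 : 0 < L := by positivity
  have hL1 : A ≤ κ * (L ^ 2 - 1) := by
    have h1 : A / κ ≤ L ^ 2 - 1 := by
      have h2 : 0 ≤ A / κ := by positivity
      rw [hL]
      nlinarith
    rw [div_le_iff₀ hκ0] at h1
    linarith
  refine ⟨L, κ, hL0, hκ0, fun x T₁ Λ hx h hl s hs hsi hsn => ?_⟩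
  rcases le_or_gt (5 / 4) s.re with h5 | h5
  · have h6 := (abs_le.1 (h.edge s (by linarith) hsn)).2
    have : κ * x ≤ x * ε := by rw [hκ]; nlinarith
    linarith
  by_cases h0 : Λ s = 0
  · rw [h0, norm_zero, Real.log_zero]
    positivity
  have hT1 : 0 ≤ T₁ := (abs_nonneg _).trans hsi
  set G : ℂ → ℂ := fun z => HH x Λ z * Complex.exp (((κ * x : ℝ) : ℂ) * (z - s) ^ 2) with hG
  have hGd : Differentiable ℂ G :=
    (HH_diff h.ent x).mul (((differentiable_id.sub_const s).pow 2).const_mul _).cexp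
  have hGn : ∀ z : ℂ, ‖G z‖ = ‖HH x Λ z‖ *
      Real.exp (κ * x * ((z.re - s.re) ^ 2 - (z.im - s.im) ^ 2)) := by
    intro z
    rw [hG]
    simp only
    rw [norm_mul, Complex.norm_exp]
    congr 2
    rw [Complex.re_ofReal_mul]
    congr 1
    simp [sq, Complex.mul_re]
  have hHle : ∀ z : ℂ, ∀ a : ℝ, Real.log ‖HH x Λ z‖ ≤ a * x → ‖HH x Λ z‖ ≤ Real.exp (a * x) := by
    intro z a ha
    by_cases hz : HH x Λ z = 0
    · rw [hz, norm_zero]
      exact (Real.exp_pos _).le
    · rwa [← Real.log_le_iff_le_exp (norm_pos_iff.2 hz)]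
  set U : Set ℂ := Ioo (1 / 2 : ℝ) (5 / 4) ×ℂ Ioo (s.im - L) (s.im + L) with hU
  have hUb : Bornology.IsBounded U := (Metric.isBounded_Ioo _ _).reProdIm (Metric.isBounded_Ioo _ _)
  have hcl : closure U = Icc (1 / 2 : ℝ) (5 / 4) ×ℂ Icc (s.im - L) (s.im + L) := by
    rw [hU, Complex.closure_reProdIm, closure_Ioo (by norm_num), closure_Ioo (by linarith)]
  have hbd : ∀ z ∈ closure U, ‖z‖ ≤ T₁ + L + 5 ∧ |z.im| ≤ T₁ + L ∧ (z.re - s.re) ^ 2 ≤ 1 := by
    intro z hz
    rw [hcl, Complex.mem_reProdIm] at hz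
    obtain ⟨⟨h1, h2⟩, h3, h4⟩ := hz
    have h5' := abs_le.1 hsi
    have h6 : |z.im| ≤ T₁ + L := abs_le.2 ⟨by linarith [h5'.1], by linarith [h5'.2]⟩
    refine ⟨?_, h6, by nlinarith⟩
    refine (Complex.norm_le_abs_re_add_abs_im _).trans ?_
    rw [abs_of_nonneg (by linarith)]
    linarith
  have key : ‖G s‖ ≤ Real.exp (2 * κ * x) := by
    refine Complex.norm_le_of_forall_mem_frontier_norm_le hUb hGd.diffContOnCl ?_
      (z := s) ?_
    · intro z hz
      have hzc : z ∈ closure U := frontier_subset_closure hz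
      obtain ⟨hz1, hz2, hz3⟩ := hbd z hzc
      have hf1 : frontier (Ioo (1 / 2 : ℝ) (5 / 4)) = {1 / 2, 5 / 4} := frontier_Ioo (by norm_num)
      have hf2 : frontier (Ioo (s.im - L) (s.im + L)) = {s.im - L, s.im + L} :=
        frontier_Ioo (by linarith)
      have hc1 : closure (Ioo (1 / 2 : ℝ) (5 / 4)) = Icc (1 / 2) (5 / 4) :=
        closure_Ioo (by norm_num)
      have hc2 : closure (Ioo (s.im - L) (s.im + L)) = Icc (s.im - L) (s.im + L) :=
        closure_Ioo (by linarith)
      rw [hU, Complex.frontier_reProdIm, hc1, hc2, hf1, hf2] at hz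
      rw [hGn]
      rcases hz with hz | hz
      · rw [Complex.mem_reProdIm] at hz
        obtain ⟨⟨h1, h2⟩, h3⟩ := hz
        have h4 : (z.im - s.im) ^ 2 = L ^ 2 := by
          rcases h3 with h3 | h3
          · rw [h3]; ring
          · rw [h3]; ring
        have h6 := hHle z A (h.upH hx.le hA h1 hz1)
        rw [h4]
        calc ‖HH x Λ z‖ * Real.exp (κ * x * ((z.re - s.re) ^ 2 - L ^ 2)) ≤
            Real.exp (A * x) * Real.exp (κ * x * (1 - L ^ 2)) := by
              refine mul_le_mul h6 (Real.exp_le_exp.2 ?_) (Real.exp_pos _).le (Real.exp_pos _).le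
              exact mul_le_mul_of_nonneg_left (by linarith) (by positivity)
          _ = Real.exp (A * x + κ * x * (1 - L ^ 2)) := (Real.exp_add _ _).symm
          _ ≤ Real.exp (2 * κ * x) := by
              refine Real.exp_le_exp.2 ?_
              have : A * x ≤ κ * (L ^ 2 - 1) * x := mul_le_mul_of_nonneg_right hL1 hx.le
              have : 0 ≤ κ * x := by positivity
              nlinarith
      · rw [Complex.mem_reProdIm] at hz
        obtain ⟨h3, h1, h2⟩ := hz
        have h6 : ‖HH x Λ z‖ ≤ Real.exp (κ * x) := by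
          refine hHle z κ ?_
          by_cases hz0 : Λ z = 0
          · have : HH x Λ z = 0 := by unfold HH; rw [hz0, zero_mul]
            rw [this, norm_zero, Real.log_zero]
            positivity
          rw [log_HH hz0]
          rcases h3 with h3 | h3
          · have h7 := hl z.im hz2
            have h8 : pt z.im = z := by
              apply Complex.ext
              · simp only [pt]; rw [h3]
              · simp only [pt]
            rw [h8] at h7
            rw [h3]
            linarith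
          · have h7 := (abs_le.1 (h.edge z (by rw [h3]; norm_num) hz1)).2
            exact h7
        calc ‖HH x Λ z‖ * Real.exp (κ * x * ((z.re - s.re) ^ 2 - (z.im - s.im) ^ 2)) ≤
            Real.exp (κ * x) * Real.exp (κ * x * 1) := by
              refine mul_le_mul h6 (Real.exp_le_exp.2 ?_) (Real.exp_pos _).le (Real.exp_pos _).le
              refine mul_le_mul_of_nonneg_left ?_ (by positivity)
              have := sq_nonneg (z.im - s.im)
              linarith
          _ = Real.exp (κ * x + κ * x * 1) := (Real.exp_add _ _).symm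
          _ = _ := by congr 1; ring
    · rw [hcl, Complex.mem_reProdIm]
      exact ⟨⟨hs, h5.le⟩, by linarith, by linarith⟩
  rw [hGn] at key
  simp only [sub_self, ne_eq, OfNat.ofNat_ne_zero, not_false_eq_true, zero_pow, mul_zero,
    Real.exp_zero, mul_one] at key
  rw [← Real.log_le_iff_le_exp (norm_pos_iff.2 (HH_ne.2 h0)), log_HH h0] at key
  have : 2 * κ = ε := by rw [hκ]; ring
  rw [this] at key
  linarith

/-- **The equivalences.** -/
theorem tfae {ι : Type} {l : Filter ι} {x : ι → ℝ} {Λ : ι → ℂ → ℂ} (hA : 0 ≤ A)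
    (hx : ∀ᶠ i in l, 0 < x i)
    (hP : ∀ T η : ℝ, 0 < η → ∀ᶠ i in l, Pot (1 / 4) η A (x i) T (Λ i)) :
    List.TFAE [
      ∀ δ T ε : ℝ, 0 < δ → 0 < ε → ∀ᶠ i in l, nz (Λ i) {s : ℂ | δ ≤ |s.re - 1 / 2| ∧ ‖s‖ ≤ T} ≤
        ε * x i,
      ∀ g : ℂ → ℝ, Continuous g → HasCompactSupport g →
        Tendsto (fun i => (∑ᶠ u, mu (Λ i) u * g u) / x i) l (𝓝 (1 / (2 * π) * ∫ t : ℝ, g (pt t))),
      ∀ T ε : ℝ, 0 < ε → ∀ᶠ i in l, ∀ s : ℂ, 1 / 2 ≤ s.re → ‖s‖ ≤ T →
        Real.log ‖Λ i s‖ ≤ x i * (s.re / 2 + ε),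
      ∀ T ε : ℝ, 0 < ε → ∀ᶠ i in l, ∀ t : ℝ, |t| ≤ T →
        Real.log ‖Λ i (pt t)‖ ≤ x i * (1 / 4 + ε),
      ∀ T ε : ℝ, 0 ≤ T → 0 < ε → ∀ᶠ i in l, ∫ z in closedBall (0 : ℂ) T, VV (x i) (Λ i) z ≤
        ε * x i] := by
  have hpi := Real.pi_pos
  tfae_have 1 → 5 := by
    intro h T ε hT hε
    obtain ⟨δ, ω, hδ, hω, hf⟩ := few hT hA hε
    filter_upwards [hx, hP (T + 10) ω hω, hP 10 1 one_pos,
      h δ (|1 / 2 + δ| + |5 / 2| + |T + 5|) ω hδ hω] with i hi hPi hPi' hn
    refine hf (x i) hi (Λ i) hPi (le_trans ?_ hn)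
    have h2 : Λ i 2 ≠ 0 := hPi'.two (by norm_num) (by norm_num)
    refine nz_mono hPi.ent h2 (R := |1 / 2 + δ| + |5 / 2| + |T + 5|) (fun s hs => ?_) fun s hs => ?_
    · rw [mem_closedBall_zero_iff]
      exact hs.2
    · refine ⟨?_, ?_⟩
      · have := hs.1
        exact (by linarith : δ ≤ s.re - 1 / 2).trans (le_abs_self _)
      · exact mem_closedBall_zero_iff.1 (box_sub hs)
  tfae_have 5 → 2 := by
    intro h g hg hgc
    rw [Metric.tendsto_nhds]
    intro ε hε
    obtain ⟨δ, M, hδ, hM, hd⟩ := dist hg hgc (ε := ε / 2) (by positivity)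
    filter_upwards [hx, hP 10 1 one_pos, h M δ hM hδ] with i hi hPi hV
    have h2 : Λ i 2 ≠ 0 := hPi.two (by norm_num) (by norm_num)
    have h3 := hd (x i) hi (Λ i) hPi.ent 2 h2 hV
    rw [Real.dist_eq]
    have e : (∑ᶠ u, mu (Λ i) u * g u) / x i - 1 / (2 * π) * ∫ t : ℝ, g (pt t) =
        ((∑ᶠ u, mu (Λ i) u * g u) - x i / (2 * π) * ∫ t : ℝ, g (pt t)) / x i := by
      field_simp
    rw [e, abs_div, abs_of_pos hi, div_lt_iff₀ hi]
    have : ε / 2 * x i < ε * x i := by
      have : 0 < ε * x i := by positivity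
      linarith
    linarith
  tfae_have 2 → 1 := by
    intro h δ T ε hδ hε
    set g : ℂ → ℝ := fun z => min 1 (max 0 (2 / δ * |z.re - 1 / 2| - 1)) *
      max 0 (min 1 (T + 2 - ‖z‖)) with hg
    have hgcont : Continuous g := by
      rw [hg]
      fun_prop
    have hgnn : ∀ z, 0 ≤ g z := fun z => mul_nonneg (le_min zero_le_one (le_max_left _ _))
      (le_max_left _ _)
    have hg0 : ∀ z : ℂ, T + 2 < ‖z‖ → g z = 0 := by
      intro z hz
      rw [hg]
      simp only
      rw [max_eq_left ((min_le_right _ _).trans (by linarith)), mul_zero]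
    have hgc : HasCompactSupport g := by
      refine HasCompactSupport.of_support_subset_isCompact (isCompact_closedBall (0 : ℂ) (T + 2)) ?_
      intro c hc
      rw [mem_closedBall_zero_iff]
      by_contra h
      exact hc (hg0 c (not_le.1 h))
    have hg1 : ∀ z : ℂ, δ ≤ |z.re - 1 / 2| → ‖z‖ ≤ T → g z = 1 := by
      intro z h1 h2
      have h3 : 1 ≤ 2 / δ * |z.re - 1 / 2| - 1 := by
        have : 2 / δ * δ ≤ 2 / δ * |z.re - 1 / 2| := mul_le_mul_of_nonneg_left h1 (by positivity)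
        rw [div_mul_cancel₀ _ hδ.ne'] at this
        linarith
      rw [hg]
      simp only
      rw [min_eq_left (h3.trans (le_max_right _ _)), min_eq_left (by linarith),
        max_eq_right zero_le_one, mul_one]
    have hgl : ∀ t : ℝ, g (pt t) = 0 := by
      intro t
      rw [hg]
      simp only [pt]
      rw [sub_self, abs_zero, mul_zero, zero_sub, max_eq_left (by norm_num),
        min_eq_right zero_le_one, zero_mul]
    have h1 := h g hgcont hgc
    simp only [hgl, integral_zero, mul_zero] at h1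
    have h2 := h1.eventually (gt_mem_nhds hε)
    filter_upwards [h2, hx, hP 10 1 one_pos] with i h3 hi hPi
    have h4 : Λ i 2 ≠ 0 := hPi.two (by norm_num) (by norm_num)
    rw [div_lt_iff₀ hi] at h3
    refine le_trans (nz_le_finsum hPi.ent h4 (R := T + 2) (fun s hs => ?_) hgnn
      (fun z hz => (hg1 z hz.1 hz.2).ge) hg0) h3.le
    rw [mem_closedBall_zero_iff]
    linarith [hs.2]
  tfae_have 5 → 3 := by
    intro h T ε hε
    obtain ⟨δ, hδ, hd⟩ := size (T₁ := max T 0) hε
    filter_upwards [hx, hP 10 1 one_pos, h (max T 0 + 1) δ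
      (by have := le_max_right T 0; linarith) hδ] with i hi hPi hV s hs hsT
    have h2 : Λ i 2 ≠ 0 := hPi.two (by norm_num) (by norm_num)
    have h3 := hd (x i) hi (Λ i) hPi.ent 2 h2 hV s (hsT.trans (le_max_left _ _))
    rwa [U0_right hs] at h3
  tfae_have 3 → 4 := by
    intro h T ε hε
    filter_upwards [h (T + 1) ε hε] with i hi t ht
    have h3 := hi (pt t) (by simp [pt]) ?_
    · have : (pt t).re = 1 / 2 := rfl
      rw [this] at h3
      linarith
    · refine (Complex.norm_le_abs_re_add_abs_im _).trans ?_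
      simp only [pt]
      rw [abs_of_pos (by norm_num)]
      linarith
  tfae_have 4 → 5 := by
    intro h T ε hT hε
    obtain ⟨ω, hω, hl⟩ := lind (A := A) hT hA hε
    obtain ⟨L, ω', hL, hω', hline⟩ := line hω hA
    filter_upwards [hx, hP (T + 10) ω hω, hP (T + 5 + L + 5) ω' hω',
      h (T + 5 + L) ω' hω'] with i hi hPi hPi' h4
    refine hl (x i) hi (Λ i) hPi fun s h1 h2 h3 => ?_
    exact hline (x i) (T + 5) (Λ i) hi hPi' h4 s h1 h2 (by linarith)
  tfae_finish

end Pool.Agent.H465.PT
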