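import Pool.Agent.H465.PT.G
import Pool.Graph.R_seed8.W165.CE.Euler

/-!
# Elliptic curves over number fields: the region of absolute convergence
-/

set_option autoImplicit false

open MeasureTheory Metric Set Filter Topology
open scoped Real ENNReal ComplexConjugate
open NumberField IsDedekindDomain

namespace Pool.Agent.H465.PT

open Pool.Agent.H921R2.TatePole (below nm_eq below_le_nm card_above nm)

section
variable {K : Type} [Field K] [NumberField K]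

/-- the number of affine points of `y² = x³ + a x + b` modulo `v` -/
noncomputable def points (a b : 𝓞 K) (v : HeightOneSpectrum (𝓞 K)) : ℕ :=
  Nat.card {P : (𝓞 K ⧸ v.asIdeal) × (𝓞 K ⧸ v.asIdeal) //
    P.2 ^ 2 = P.1 ^ 3 + Ideal.Quotient.mk v.asIdeal a * P.1 + Ideal.Quotient.mk v.asIdeal b}

/-- the Euler eulerFactor `(1 - c q^(-s) + e q^(-2 s))⁻¹` -/
noncomputable def eulerFactor (c e : ℤ) (q : ℕ) (s : ℂ) : ℂ :=
  (1 - (c : ℂ) * (q : ℂ) ^ (-s) + (e : ℂ) * (q : ℂ) ^ (-(2 * s)))⁻¹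

/-- the possible Euler factors of an elliptic curve at a place with `q` residue classes:
good reduction (`e = q`, `c² ≤ 4 q`) or bad reduction (`e = 0`, `c = 0, 1, -1`) -/
def Possible (c e : ℤ) (q : ℕ) : Prop := (e = q ∧ c ^ 2 ≤ 4 * (q : ℤ)) ∨ (e = 0 ∧ c ^ 2 ≤ 1)

/-- `1 - c_v T + e_v T²` are the local polynomials of `y² = x³ + a x + b`: determined by the number of
points if `v` does not divide `2 (4 a³ + 27 b²)`, and possible for an elliptic curve at the other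
places -/
structure IsLocal (a b : 𝓞 K) (c e : HeightOneSpectrum (𝓞 K) → ℤ) : Prop where
  good : ∀ v : HeightOneSpectrum (𝓞 K), 2 * (4 * a ^ 3 + 27 * b ^ 2) ∉ v.asIdeal →
    c v = (Ideal.absNorm v.asIdeal : ℤ) - points a b v ∧ e v = Ideal.absNorm v.asIdeal
  bad : ∀ v : HeightOneSpectrum (𝓞 K), 2 * (4 * a ^ 3 + 27 * b ^ 2) ∈ v.asIdeal →
    Possible (c v) (e v) (Ideal.absNorm v.asIdeal)

/-- Hasse's bound -/
lemma IsLocal.possible {a b : 𝓞 K} {c e : HeightOneSpectrum (𝓞 K) → ℤ} (h : IsLocal a b c e)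
    (v : HeightOneSpectrum (𝓞 K)) : Possible (c v) (e v) (Ideal.absNorm v.asIdeal) := by
  by_cases hv : 2 * (4 * a ^ 3 + 27 * b ^ 2) ∈ v.asIdeal
  · exact h.bad v hv
  obtain ⟨hc, he⟩ := h.good v hv
  refine Or.inl ⟨he, ?_⟩
  classical
  have hmax : v.asIdeal.IsMaximal := v.isPrime.isMaximal v.ne_bot
  let _ : Field (𝓞 K ⧸ v.asIdeal) := Ideal.Quotient.field v.asIdeal
  have : Finite (𝓞 K ⧸ v.asIdeal) := Ideal.finiteQuotientOfFreeOfNeBot v.asIdeal v.ne_bot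
  let _ : Fintype (𝓞 K ⧸ v.asIdeal) := Fintype.ofFinite _
  have hE : ringChar (𝓞 K ⧸ v.asIdeal) ≠ 2 := by
    intro h2
    apply hv
    have h3 : ((2 : ℕ) : 𝓞 K ⧸ v.asIdeal) = 0 := by
      rw [← h2]
      exact ringChar.Nat.cast_ringChar
    have h4 : (2 : 𝓞 K) ∈ v.asIdeal := by
      rw [← Ideal.Quotient.eq_zero_iff_mem, map_ofNat]
      exact_mod_cast h3
    exact Ideal.mul_mem_right _ _ h4
  have hcard : Ideal.absNorm v.asIdeal = Fintype.card (𝓞 K ⧸ v.asIdeal) := by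
    rw [Ideal.absNorm_apply, Submodule.cardQuot_apply, Nat.card_eq_fintype_card]
  have h4 := W165.CE.hasse hE (Ideal.Quotient.mk v.asIdeal a) (Ideal.Quotient.mk v.asIdeal b)
  have h5 : |((c v : ℤ) : ℝ)| ≤ 2 * Real.sqrt (Ideal.absNorm v.asIdeal) := by
    rw [hc, hcard]
    unfold points
    push_cast at h4 ⊢
    exact h4
  have h6 : ((c v : ℤ) : ℝ) ^ 2 ≤ 4 * (Ideal.absNorm v.asIdeal : ℝ) := by
    rw [← sq_abs]
    calc |((c v : ℤ) : ℝ)| ^ 2 ≤ (2 * Real.sqrt (Ideal.absNorm v.asIdeal)) ^ 2 := by gcongr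
      _ = 4 * (Ideal.absNorm v.asIdeal : ℝ) := by
        rw [mul_pow, Real.sq_sqrt (by positivity)]
        norm_num
  exact_mod_cast h6

end

lemma root_norm {t u : ℝ} (h : t ^ 2 ≤ 4 * u) {α β : ℂ} (h1 : α + β = t) (h2 : α * β = u) :
    ‖α‖ ^ 2 = u := by
  have h3 : α ^ 2 - t * α + u = 0 := by rw [← h1, ← h2]; ring
  have hre := congrArg Complex.re h3
  have him := congrArg Complex.im h3
  simp [sq, Complex.mul_re, Complex.mul_im] at hre him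
  rw [← Complex.normSq_eq_norm_sq, Complex.normSq_apply]
  have h4 : α.im * (2 * α.re - t) = 0 := by linarith
  rcases mul_eq_zero.1 h4 with h5 | h5
  · rw [h5] at hre ⊢
    nlinarith [sq_nonneg (2 * α.re - t)]
  · have h6 : t = 2 * α.re := by linarith
    rw [h6] at hre
    nlinarith

lemma roots_le {c e : ℤ} {q : ℕ} (hq : 1 ≤ q) (h : Possible c e q) :
    ∃ α β : ℂ, α + β = c ∧ α * β = e ∧ ‖α‖ ≤ Real.sqrt q ∧ ‖β‖ ≤ Real.sqrt q := by
  obtain ⟨α, β, h1, h2⟩ := W165.CE.exists_roots' (c : ℂ) (e : ℂ)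
  have hq1 : 1 ≤ Real.sqrt q := by
    rw [Real.one_le_sqrt]
    exact_mod_cast hq
  rcases h with ⟨he, hc⟩ | ⟨he, hc⟩
  · refine ⟨α, β, h1, h2, ?_, ?_⟩
    · refine Real.le_sqrt_of_sq_le (le_of_eq ?_)
      refine root_norm (t := c) (u := q) ?_ (β := β) (by rw [h1]; simp) (by rw [h2, he]; simp)
      exact_mod_cast hc
    · refine Real.le_sqrt_of_sq_le (le_of_eq ?_)
      refine root_norm (t := c) (u := q) ?_ (β := α) (by rw [add_comm, h1]; simp)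
        (by rw [mul_comm, h2, he]; simp)
      exact_mod_cast hc
  · refine ⟨(c : ℂ), 0, by simp, by simp [he], ?_, by simp⟩
    refine le_trans ?_ hq1
    rw [Complex.norm_intCast]
    have : |c| ≤ 1 := by
      rw [← sq_le_one_iff_abs_le_one]
      exact hc
    exact_mod_cast this

lemma log_one_sub {w : ℂ} (h : ‖w‖ ≤ 1 / 2) : 1 - w ≠ 0 ∧ |Real.log ‖1 - w‖| ≤ 2 * ‖w‖ := by
  have h0 := norm_nonneg w
  have h1 : 1 - ‖w‖ ≤ ‖1 - w‖ := by
    have := norm_sub_norm_le (1 : ℂ) w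
    rwa [norm_one] at this
  have h2 : ‖1 - w‖ ≤ 1 + ‖w‖ := by
    have := norm_sub_le (1 : ℂ) w
    rwa [norm_one] at this
  have h3 : 0 < ‖1 - w‖ := by linarith
  refine ⟨norm_pos_iff.1 h3, ?_⟩
  rw [abs_le]
  constructor
  · have h4 : Real.log (1 - ‖w‖) ≤ Real.log ‖1 - w‖ := Real.log_le_log (by linarith) h1
    have h5 : -(2 * ‖w‖) ≤ Real.log (1 - ‖w‖) := by
      have h6 := Real.one_sub_inv_le_log_of_pos (show 0 < 1 - ‖w‖ by linarith)
      have h7 : (1 - ‖w‖)⁻¹ ≤ 1 + 2 * ‖w‖ := by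
        rw [inv_le_comm₀ (by linarith) (by linarith), ← one_div, div_le_iff₀ (by linarith)]
        nlinarith
      linarith
    linarith
  · have h4 : Real.log ‖1 - w‖ ≤ ‖1 - w‖ - 1 := Real.log_le_sub_one_of_pos h3
    linarith

/-- one Euler eulerFactor -/
lemma eulerFactor_bound {ϑ : ℝ} (hϑ : 0 < ϑ) {c e : ℤ} {q : ℕ} (hq : 2 ≤ q) (h : Possible c e q)
    {s : ℂ} (hs : 3 / 2 + ϑ ≤ s.re) :
    eulerFactor c e q s ≠ 0 ∧ |Real.log ‖eulerFactor c e q s‖| ≤ 4 * (q : ℝ) ^ (-(1 + ϑ) : ℝ) := by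
  obtain ⟨α, β, h1, h2, hα, hβ⟩ := roots_le (by omega) h
  have hq0 : (0 : ℝ) < q := by positivity
  set X : ℂ := (q : ℂ) ^ (-s) with hX
  have hXn : ‖X‖ = (q : ℝ) ^ (-s.re) := by
    rw [hX, Complex.norm_natCast_cpow_of_pos (by omega)]
    simp
  have hX2 : (q : ℂ) ^ (-(2 * s)) = X ^ 2 := by
    rw [hX, ← Complex.cpow_nat_mul]
    congr 1
    push_cast
    ring
  have e1 : 1 - (c : ℂ) * X + (e : ℂ) * X ^ 2 = (1 - α * X) * (1 - β * X) := by
    rw [← h1, ← h2]; ring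
  have hb : ∀ γ : ℂ, ‖γ‖ ≤ Real.sqrt q → ‖γ * X‖ ≤ (q : ℝ) ^ (-(1 + ϑ) : ℝ) := by
    intro γ hγ
    rw [norm_mul, hXn]
    calc ‖γ‖ * (q : ℝ) ^ (-s.re) ≤ Real.sqrt q * (q : ℝ) ^ (-s.re) := by gcongr
      _ = (q : ℝ) ^ (1 / 2 + -s.re) := by
          rw [Real.sqrt_eq_rpow, ← Real.rpow_add hq0]
      _ ≤ _ := Real.rpow_le_rpow_of_exponent_le (by exact_mod_cast (by omega : 1 ≤ q))
          (by linarith)
  have hhalf : (q : ℝ) ^ (-(1 + ϑ) : ℝ) ≤ 1 / 2 := by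
    calc (q : ℝ) ^ (-(1 + ϑ) : ℝ) ≤ (q : ℝ) ^ (-1 : ℝ) :=
          Real.rpow_le_rpow_of_exponent_le (by exact_mod_cast (by omega : 1 ≤ q)) (by linarith)
      _ = (q : ℝ)⁻¹ := Real.rpow_neg_one _
      _ ≤ 1 / 2 := by
          rw [inv_le_comm₀ hq0 (by norm_num)]
          norm_num
          exact_mod_cast hq
  obtain ⟨a1, a2⟩ := log_one_sub ((hb α hα).trans hhalf)
  obtain ⟨b1, b2⟩ := log_one_sub ((hb β hβ).trans hhalf)
  unfold eulerFactor
  rw [hX2, e1]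
  refine ⟨inv_ne_zero (mul_ne_zero a1 b1), ?_⟩
  rw [norm_inv, Real.log_inv, abs_neg, norm_mul,
    Real.log_mul (norm_ne_zero_iff.2 a1) (norm_ne_zero_iff.2 b1)]
  refine (abs_add_le _ _).trans ?_
  linarith [hb α hα, hb β hβ]

/-- the constant -/
noncomputable def BB (ϑ : ℝ) : ℝ := 4 * ∑' p : Nat.Primes, ((p : ℕ) : ℝ) ^ (-(1 + ϑ) : ℝ)

lemma BB_nonneg (ϑ : ℝ) : 0 ≤ BB ϑ := by
  unfold BB
  have : 0 ≤ ∑' p : Nat.Primes, ((p : ℕ) : ℝ) ^ (-(1 + ϑ) : ℝ) := tsum_nonneg fun p => by positivity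
  linarith

section
variable {K : Type} [Field K] [NumberField K]

lemma sum_places {ϑ : ℝ} (hϑ : 0 < ϑ) (G : Finset (HeightOneSpectrum (𝓞 K))) :
    ∑ v ∈ G, 4 * (Ideal.absNorm v.asIdeal : ℝ) ^ (-(1 + ϑ) : ℝ) ≤ BB ϑ * Module.finrank ℚ K := by
  classical
  have hsum : Summable fun p : Nat.Primes => ((p : ℕ) : ℝ) ^ (-(1 + ϑ) : ℝ) :=
    Nat.Primes.summable_rpow.2 (by linarith)
  have h1 : ∀ v ∈ G, (Ideal.absNorm v.asIdeal : ℝ) ^ (-(1 + ϑ) : ℝ) ≤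
      ((below v : ℕ) : ℝ) ^ (-(1 + ϑ) : ℝ) := by
    intro v _
    refine Real.rpow_le_rpow_of_nonpos ?_ ?_ ?_
    · exact_mod_cast (below v).2.pos
    · exact_mod_cast below_le_nm v
    · linarith
  calc ∑ v ∈ G, 4 * (Ideal.absNorm v.asIdeal : ℝ) ^ (-(1 + ϑ) : ℝ)
      ≤ ∑ v ∈ G, 4 * ((below v : ℕ) : ℝ) ^ (-(1 + ϑ) : ℝ) :=
        Finset.sum_le_sum fun v hv => mul_le_mul_of_nonneg_left (h1 v hv) (by norm_num)
    _ = ∑ p ∈ G.image below, ∑ v ∈ G with below v = p, 4 * ((below v : ℕ) : ℝ) ^ (-(1 + ϑ) : ℝ) :=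
        (Finset.sum_fiberwise_of_maps_to (fun v hv => Finset.mem_image_of_mem _ hv) _).symm
    _ ≤ ∑ p ∈ G.image below, (Module.finrank ℚ K : ℝ) * (4 * ((p : ℕ) : ℝ) ^ (-(1 + ϑ) : ℝ)) := by
        refine Finset.sum_le_sum fun p _ => ?_
        have h2 : ∑ v ∈ G with below v = p, 4 * ((below v : ℕ) : ℝ) ^ (-(1 + ϑ) : ℝ) =
            ((G.filter (below · = p)).card : ℝ) * (4 * ((p : ℕ) : ℝ) ^ (-(1 + ϑ) : ℝ)) := by
          rw [← nsmul_eq_mul, ← Finset.sum_const]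
          exact Finset.sum_congr rfl fun v hv => by rw [(Finset.mem_filter.1 hv).2]
        rw [h2]
        refine mul_le_mul_of_nonneg_right ?_ (by positivity)
        exact_mod_cast card_above p _ fun v hv => (Finset.mem_filter.1 hv).2
    _ = (Module.finrank ℚ K : ℝ) * (4 * ∑ p ∈ G.image below, ((p : ℕ) : ℝ) ^ (-(1 + ϑ) : ℝ)) := by
        rw [← Finset.mul_sum, Finset.mul_sum (Finset.image below G) _ 4]
    _ ≤ (Module.finrank ℚ K : ℝ) * BB ϑ := by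
        refine mul_le_mul_of_nonneg_left ?_ (by positivity)
        unfold BB
        refine mul_le_mul_of_nonneg_left ?_ (by norm_num)
        exact hsum.sum_le_tsum _ fun p _ => by positivity
    _ = _ := mul_comm _ _

lemma two_le_absNorm (v : HeightOneSpectrum (𝓞 K)) : 2 ≤ Ideal.absNorm v.asIdeal :=
  Pool.Agent.H921R2.TatePole.two_le_nm v

/-- the product to the right -/
theorem euler_bound {ϑ : ℝ} (hϑ : 0 < ϑ) {a b : 𝓞 K} {c e : HeightOneSpectrum (𝓞 K) → ℤ}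
    (h : IsLocal a b c e) {s F : ℂ} (hs : 3 / 2 + ϑ ≤ s.re)
    (hF : HasProd (fun v : HeightOneSpectrum (𝓞 K) =>
      eulerFactor (c v) (e v) (Ideal.absNorm v.asIdeal) s) F) :
    F ≠ 0 ∧ |Real.log ‖F‖| ≤ BB ϑ * Module.finrank ℚ K := by
  set B : ℝ := BB ϑ * Module.finrank ℚ K with hB
  have hfin : ∀ G : Finset (HeightOneSpectrum (𝓞 K)),
      Real.exp (-B) ≤ ‖∏ v ∈ G, eulerFactor (c v) (e v) (Ideal.absNorm v.asIdeal) s‖ ∧
      ‖∏ v ∈ G, eulerFactor (c v) (e v) (Ideal.absNorm v.asIdeal) s‖ ≤ Real.exp B := by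
    intro G
    have hf := fun v : HeightOneSpectrum (𝓞 K) =>
      eulerFactor_bound hϑ (two_le_absNorm v) (h.possible v) hs
    have h1 : |Real.log ‖∏ v ∈ G, eulerFactor (c v) (e v) (Ideal.absNorm v.asIdeal) s‖| ≤ B := by
      rw [norm_prod, Real.log_prod fun v _ => norm_ne_zero_iff.2 (hf v).1]
      refine (Finset.abs_sum_le_sum_abs _ _).trans ?_
      exact (Finset.sum_le_sum fun v _ => (hf v).2).trans (sum_places hϑ G)
    have h2 : 0 < ‖∏ v ∈ G, eulerFactor (c v) (e v) (Ideal.absNorm v.asIdeal) s‖ :=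
      norm_pos_iff.2 (Finset.prod_ne_zero_iff.2 fun v _ => (hf v).1)
    have h3 := abs_le.1 h1
    exact ⟨(Real.le_log_iff_exp_le h2).1 h3.1, (Real.log_le_iff_le_exp h2).1 h3.2⟩
  have ht : Tendsto (fun G => ‖∏ v ∈ G, eulerFactor (c v) (e v) (Ideal.absNorm v.asIdeal) s‖) atTop
      (𝓝 ‖F‖) := (continuous_norm.tendsto _).comp hF
  have h1 : Real.exp (-B) ≤ ‖F‖ := ge_of_tendsto' ht fun G => (hfin G).1
  have h2 : ‖F‖ ≤ Real.exp B := le_of_tendsto' ht fun G => (hfin G).2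
  have h3 : 0 < ‖F‖ := (Real.exp_pos _).trans_le h1
  refine ⟨norm_pos_iff.1 h3, abs_le.2 ⟨?_, ?_⟩⟩
  · exact (Real.le_log_iff_exp_le h3).2 h1
  · exact (Real.log_le_iff_le_exp h3).2 h2

end

end Pool.Agent.H465.PT
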