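import Pool.Agent.H465.PT.H
import Pool.Agent.H465.NF.D

/-!
# Elliptic curves over number fields: the completed L-function
-/

set_option autoImplicit false

open MeasureTheory Metric Set Filter Topology Asymptotics
open scoped Real ENNReal ComplexConjugate
open NumberField IsDedekindDomain

namespace Pool.Agent.H465.PT

open Pool.Agent.H465.EQ

/-- `A^(s/2) ((2π)^(-s) Γ(s))^n F(s)` -/
noncomputable def completed (n : ℕ) (A : ℝ) (F : ℂ → ℂ) (s : ℂ) : ℂ :=
  (A : ℂ) ^ (s / 2) * ((2 * π : ℂ) ^ (-s) * Complex.Gamma s) ^ n * F s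

/-- `F` is the entire continuation of the L-function of `y² = x³ + a x + b` over `K`, with the
functional equation of Hasse and Weil; `A` is the conductor -/
structure HasseWeil (K : Type) [Field K] [NumberField K] (a b : 𝓞 K) (A : ℝ) (F : ℂ → ℂ) :
    Prop where
  nonsingular : 4 * a ^ 3 + 27 * b ^ 2 ≠ 0
  euler : ∃ c e : HeightOneSpectrum (𝓞 K) → ℤ, IsLocal a b c e ∧ ∀ s : ℂ, 3 / 2 < s.re →
    HasProd (fun v : HeightOneSpectrum (𝓞 K) =>
      eulerFactor (c v) (e v) (Ideal.absNorm v.asIdeal) s) (F s)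
  entire : Differentiable ℂ F
  growth : ∃ B : ℝ, ∀ s : ℂ, 0 < s.re → s.re < 2 → ‖F s‖ ≤ Real.exp (B * Real.exp |s.im|)
  pos : 0 < A
  fe : ∃ w : ℂ, ‖w‖ = 1 ∧ ∀ s : ℂ, 0 < s.re → s.re < 2 →
    completed (Module.finrank ℚ K) A F s = w * completed (Module.finrank ℚ K) A F (2 - s)

/-- the gamma factor -/
noncomputable def gc (s : ℂ) : ℂ := (2 * π : ℂ) ^ (-s) * Complex.Gamma s

lemma two_pi_ne : (2 * π : ℂ) ≠ 0 := by
  have : (2 * π : ℝ) ≠ 0 := by positivity
  exact_mod_cast this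

lemma gc_diff {s : ℂ} (hs : 0 < s.re) : DifferentiableAt ℂ gc s := by
  unfold gc
  refine DifferentiableAt.mul ?_ ?_
  · exact (differentiableAt_id.neg).const_cpow (Or.inl two_pi_ne)
  · refine Complex.differentiableAt_Gamma _ fun m h => ?_
    rw [h] at hs
    simp at hs
    have : (0 : ℝ) ≤ m := Nat.cast_nonneg m
    linarith

lemma gc_ne {s : ℂ} (hs : 0 < s.re) : gc s ≠ 0 := by
  unfold gc
  refine mul_ne_zero ?_ (Complex.Gamma_ne_zero_of_re_pos hs)
  rw [Ne, Complex.cpow_eq_zero_iff]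
  exact fun h => two_pi_ne h.1

lemma gc_conj (s : ℂ) : gc (conj s) = conj (gc s) := by
  unfold gc
  rw [map_mul, Complex.Gamma_conj]
  congr 1
  have h1 : (2 * π : ℂ) = ((2 * π : ℝ) : ℂ) := by push_cast; rfl
  have h2 : (((2 * π : ℝ) : ℂ)).arg ≠ π := by
    rw [Complex.arg_ofReal_of_nonneg (by positivity)]
    exact Real.pi_pos.ne
  rw [h1, ← map_neg, Complex.cpow_conj _ _ h2, Complex.conj_ofReal]

lemma gc_eq (s : ℂ) : gc s = Complex.Gammaℝ s * Complex.Gammaℝ (s + 1) / 2 := by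
  rw [Complex.Gammaℝ_mul_Gammaℝ_add_one, Complex.Gammaℂ_def]
  unfold gc
  ring

lemma gc_bd : ∃ C : ℝ, 1 ≤ C ∧ ∀ s : ℂ, 1 / 8 ≤ s.re → s.re ≤ 2 → ‖gc s‖ ≤ C := by
  obtain ⟨C, hC, h⟩ := Pool.Agent.R399.TW.gam_bd (a := 1 / 8) (b := 3) (by norm_num)
  refine ⟨max 1 (C * C), le_max_left _ _, fun s h1 h2 => ?_⟩
  refine le_trans ?_ (le_max_right _ _)
  rw [gc_eq, norm_div, norm_mul]
  have h3 := h s h1 (by linarith)
  have h4 := h (s + 1) (by simp; linarith) (by simp; linarith)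
  have h5 : ‖(2 : ℂ)‖ = 2 := by simp
  rw [h5, div_le_iff₀ (by norm_num)]
  have h6 : ‖Complex.Gammaℝ s‖ * ‖Complex.Gammaℝ (s + 1)‖ ≤ C * C :=
    mul_le_mul h3 h4 (norm_nonneg _) hC
  have h7 : 0 ≤ C * C := by positivity
  linarith

lemma gc_log (T : ℝ) : ∃ C : ℝ, 0 ≤ C ∧ ∀ s : ℂ, 1 ≤ s.re → ‖s‖ ≤ T → |Real.log ‖gc s‖| ≤ C := by
  have hK : IsCompact (closedBall (0 : ℂ) T ∩ {s : ℂ | 1 ≤ s.re}) :=
    (isCompact_closedBall _ _).inter_right (isClosed_le continuous_const Complex.continuous_re)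
  have hc : ContinuousOn (fun s => Real.log ‖gc s‖) (closedBall (0 : ℂ) T ∩ {s : ℂ | 1 ≤ s.re}) := by
    intro s hs
    have h1 : (1 : ℝ) ≤ s.re := hs.2
    have h2 : 0 < s.re := by linarith
    exact (((gc_diff h2).continuousAt.norm).log (norm_ne_zero_iff.2 (gc_ne h2))).continuousWithinAt
  obtain ⟨C, hC⟩ := hK.exists_bound_of_continuousOn hc
  refine ⟨max C 0, le_max_right _ _, fun s h1 h2 => ?_⟩
  exact (hC s ⟨mem_closedBall_zero_iff.2 h2, h1⟩).trans (le_max_left _ _)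

section
variable {n : ℕ} {A : ℝ} {F : ℂ → ℂ}

lemma completed_gc (s : ℂ) : completed n A F s = (A : ℂ) ^ (s / 2) * gc s ^ n * F s := rfl

lemma A_norm (hA : 0 < A) (s : ℂ) : ‖(A : ℂ) ^ (s / 2)‖ = A ^ (s.re / 2) := by
  rw [Complex.norm_cpow_eq_rpow_re_of_pos hA]
  congr 1
  simp

lemma completed_norm (hA : 0 < A) (s : ℂ) : ‖completed n A F s‖ = A ^ (s.re / 2) * ‖gc s‖ ^ n * ‖F s‖ := by
  rw [completed_gc, norm_mul, norm_mul, norm_pow, A_norm hA]

lemma completed_diff (hA : 0 < A) (hF : Differentiable ℂ F) {s : ℂ} (hs : 0 < s.re) :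
    DifferentiableAt ℂ (completed n A F) s := by
  have h1 : (A : ℂ) ≠ 0 := by exact_mod_cast hA.ne'
  refine DifferentiableAt.mul (DifferentiableAt.mul ?_ ((gc_diff hs).pow n)) (hF s)
  exact (differentiableAt_id.div_const 2).const_cpow (Or.inl h1)

/-- the entire completed function -/
noncomputable def Lam (n : ℕ) (A : ℝ) (F : ℂ → ℂ) (w s : ℂ) : ℂ :=
  if 0 < s.re then completed n A F s else w * completed n A F (2 - s)

lemma Lam_pos {w s : ℂ} (hs : 0 < s.re) : Lam n A F w s = completed n A F s := if_pos hs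

lemma Lam_lt {w : ℂ} (hfe : ∀ s : ℂ, 0 < s.re → s.re < 2 →
    completed n A F s = w * completed n A F (2 - s)) {s : ℂ} (hs : s.re < 2) :
    Lam n A F w s = w * completed n A F (2 - s) := by
  unfold Lam
  by_cases h : 0 < s.re
  · rw [if_pos h, hfe s h hs]
  · rw [if_neg h]

lemma Lam_diff (hA : 0 < A) (hF : Differentiable ℂ F) {w : ℂ} (hfe : ∀ s : ℂ, 0 < s.re → s.re < 2 →
    completed n A F s = w * completed n A F (2 - s)) : Differentiable ℂ (Lam n A F w) := by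
  intro s
  by_cases h : 0 < s.re
  · have h1 : Lam n A F w =ᶠ[𝓝 s] completed n A F := by
      filter_upwards [(isOpen_lt continuous_const Complex.continuous_re).mem_nhds h] with z hz
      exact Lam_pos hz
    exact (completed_diff hA hF h).congr_of_eventuallyEq h1
  · have h2 : s.re < 2 := by linarith
    have h1 : Lam n A F w =ᶠ[𝓝 s] fun z => w * completed n A F (2 - z) := by
      filter_upwards [(isOpen_lt Complex.continuous_re continuous_const).mem_nhds h2] with z hz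
      exact Lam_lt hfe hz
    refine DifferentiableAt.congr_of_eventuallyEq ?_ h1
    have h3 : DifferentiableAt ℂ (completed n A F) (2 - s) :=
      completed_diff hA hF (by simp; linarith)
    exact (DifferentiableAt.comp s h3 (differentiableAt_id.const_sub 2)).const_mul w

lemma Lam_sym {w : ℂ} (hw : ‖w‖ = 1) (hfe : ∀ s : ℂ, 0 < s.re → s.re < 2 →
    completed n A F s = w * completed n A F (2 - s)) (s : ℂ) :
    ‖Lam n A F w (2 - s)‖ = ‖Lam n A F w s‖ := by
  by_cases h : s.re < 2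
  · rw [Lam_lt hfe h, Lam_pos (by simp; linarith), norm_mul, hw, one_mul]
  · have h1 : (2 - s).re < 2 := by simp; linarith
    rw [Lam_lt hfe h1, Lam_pos (by linarith : 0 < s.re), norm_mul, hw, one_mul, sub_sub_cancel]

/-- the normalized function -/
noncomputable def LL (n : ℕ) (A : ℝ) (F : ℂ → ℂ) (w s : ℂ) : ℂ :=
  ((Real.exp (-(Real.log A / 4)) : ℝ) : ℂ) * Lam n A F w (s + 1 / 2)

lemma half_re (s : ℂ) : (s + 1 / 2).re = s.re + 1 / 2 := by simp

lemma LL_diff (hA : 0 < A) (hF : Differentiable ℂ F) {w : ℂ} (hfe : ∀ s : ℂ, 0 < s.re → s.re < 2 →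
    completed n A F s = w * completed n A F (2 - s)) : Differentiable ℂ (LL n A F w) :=
  ((Lam_diff hA hF hfe).comp (differentiable_id.add_const _)).const_mul _

lemma LL_norm (w s : ℂ) : ‖LL n A F w s‖ = Real.exp (-(Real.log A / 4)) *
    ‖Lam n A F w (s + 1 / 2)‖ := by
  unfold LL
  rw [norm_mul, Complex.norm_real, Real.norm_of_nonneg (Real.exp_pos _).le]

lemma LL_right (hA : 0 < A) {w s : ℂ} (hs : -1 / 2 < s.re) : ‖LL n A F w s‖ =
    A ^ (s.re / 2) * ‖gc (s + 1 / 2)‖ ^ n * ‖F (s + 1 / 2)‖ := by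
  rw [LL_norm, Lam_pos (by rw [half_re]; linarith), completed_norm hA, half_re,
    ← mul_assoc, ← mul_assoc]
  congr 2
  have h1 : Real.exp (-(Real.log A / 4)) = A ^ (-(1 / 4) : ℝ) := by
    rw [Real.rpow_def_of_pos hA]
    congr 1
    ring
  rw [h1, ← Real.rpow_add hA]
  congr 1
  ring

lemma LL_sym (hc : ∀ s : ℂ, ‖F (conj s)‖ = ‖F s‖) (hA : 0 < A) {w : ℂ} (hw : ‖w‖ = 1)
    (hfe : ∀ s : ℂ, 0 < s.re → s.re < 2 → completed n A F s = w * completed n A F (2 - s)) (s : ℂ) :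
    ‖LL n A F w (1 - conj s)‖ = ‖LL n A F w s‖ := by
  have key : ∀ z : ℂ, ‖Lam n A F w (conj z)‖ = ‖Lam n A F w z‖ := by
    have h1 : ∀ z : ℂ, 0 < z.re → ‖Lam n A F w (conj z)‖ = ‖Lam n A F w z‖ := by
      intro z hz
      rw [Lam_pos hz, Lam_pos (by simpa using hz), completed_norm hA, completed_norm hA, hc, gc_conj,
        Complex.norm_conj, Complex.conj_re]
    intro z
    by_cases hz : 0 < z.re
    · exact h1 z hz
    · rw [← Lam_sym hw hfe z, ← Lam_sym hw hfe (conj z)]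
      have h2 : 2 - conj z = conj (2 - z) := by
        rw [map_sub, map_ofNat]
      rw [h2]
      exact h1 _ (by simp; linarith)
  rw [LL_norm, LL_norm]
  congr 1
  have h3 : 1 - conj s + 1 / 2 = 2 - conj (s + 1 / 2) := by
    rw [map_add]
    have : conj (1 / 2 : ℂ) = 1 / 2 := by
      rw [map_div₀, map_one, map_ofNat]
    rw [this]
    ring
  rw [h3, Lam_sym hw hfe, key]

end

end Pool.Agent.H465.PT
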