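import Pool.Agent.H465.PT.I

/-!
# Elliptic curves over number fields: the potential
-/

set_option autoImplicit false

open MeasureTheory Metric Set Filter Topology Asymptotics
open scoped Real ENNReal ComplexConjugate
open NumberField IsDedekindDomain

namespace Pool.Agent.H465.PT

open Pool.Agent.H465.EQ

lemma eulerFactor_conj (c e : ℤ) (q : ℕ) (s : ℂ) :
    eulerFactor c e q (conj s) = conj (eulerFactor c e q s) := by
  have hq : ((q : ℂ)).arg ≠ π := by
    rw [show ((q : ℂ)) = ((q : ℝ) : ℂ) by simp, Complex.arg_ofReal_of_nonneg (by positivity)]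
    exact Real.pi_pos.ne
  have h1 : ∀ z : ℂ, (q : ℂ) ^ (conj z) = conj ((q : ℂ) ^ z) := by
    intro z
    rw [Complex.cpow_conj _ _ hq]
    simp
  unfold eulerFactor
  rw [map_inv₀, map_add, map_sub, map_mul, map_mul, ← h1, ← h1]
  simp [map_ofNat]

section
variable {K : Type} [Field K] [NumberField K] {a b : 𝓞 K} {A : ℝ} {F : ℂ → ℂ}

lemma HasseWeil.ne (h : HasseWeil K a b A F) {s : ℂ} (hs : 3 / 2 < s.re) : F s ≠ 0 := by
  obtain ⟨c, e, hl, he⟩ := h.euler
  exact (euler_bound (ϑ := s.re - 3 / 2) (by linarith) hl (by linarith) (he s hs)).1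

lemma HasseWeil.conj_eq (h : HasseWeil K a b A F) (s : ℂ) : F (conj s) = conj (F s) := by
  obtain ⟨c, e, hl, he⟩ := h.euler
  have h1 : ∀ z : ℂ, 3 / 2 < z.re → F (conj z) = conj (F z) := by
    intro z hz
    have h2 := he (conj z) (by simpa using hz)
    have h3 := (he z hz).map (starRingEnd ℂ) Complex.continuous_conj
    refine h2.unique ?_
    convert h3 using 1
    funext v
    exact eulerFactor_conj _ _ _ _
  have hd : Differentiable ℂ fun z => conj (F (conj z)) := by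
    intro z
    have h3 := (h.entire (conj z)).conj_conj
    rw [Complex.conj_conj] at h3
    exact h3
  have h4 : AnalyticOnNhd ℂ F univ := fun z _ => h.entire.analyticAt z
  have h5 : AnalyticOnNhd ℂ (fun z => conj (F (conj z))) univ := fun z _ => hd.analyticAt z
  have h6 : F =ᶠ[𝓝 2] fun z => conj (F (conj z)) := by
    filter_upwards [(isOpen_lt continuous_const Complex.continuous_re).mem_nhds
      (show (3 / 2 : ℝ) < (2 : ℂ).re by norm_num)] with z hz
    rw [h1 z hz]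
    simp
  have h7 := congr_fun (h4.eq_of_eventuallyEq h5 h6) (conj s)
  simp only [Complex.conj_conj] at h7
  exact h7

lemma HasseWeil.norm_conj (h : HasseWeil K a b A F) (s : ℂ) : ‖F (conj s)‖ = ‖F s‖ := by
  rw [h.conj_eq, Complex.norm_conj]

/-- the bound in the strip -/
lemma HasseWeil.strip {ϑ : ℝ} (hϑ : 0 < ϑ) (hϑ1 : ϑ ≤ 1 / 4) {C : ℝ} (hC : 1 ≤ C)
    (hg : ∀ s : ℂ, 1 / 8 ≤ s.re → s.re ≤ 2 → ‖gc s‖ ≤ C) (h : HasseWeil K a b A F) {w : ℂ}
    (hw : ‖w‖ = 1) (hfe : ∀ s : ℂ, 0 < s.re → s.re < 2 →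
      completed (Module.finrank ℚ K) A F s = w * completed (Module.finrank ℚ K) A F (2 - s))
    {s : ℂ} (h1 : 1 / 2 - ϑ ≤ s.re) (h2 : s.re ≤ 3 / 2 + ϑ) :
    ‖Lam (Module.finrank ℚ K) A F w s‖ ≤ A ^ ((3 / 2 + ϑ) / 2) * C ^ (Module.finrank ℚ K) *
      Real.exp (BB ϑ * Module.finrank ℚ K) := by
  have hpi := Real.pi_gt_three
  set n := Module.finrank ℚ K with hn
  obtain ⟨c, e, hl, he⟩ := h.euler
  have hright : ∀ z : ℂ, z.re = 3 / 2 + ϑ → ‖Lam n A F w z‖ ≤ A ^ ((3 / 2 + ϑ) / 2) * C ^ n *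
      Real.exp (BB ϑ * n) := by
    intro z hz
    rw [Lam_pos (by linarith), completed_norm h.pos, hz]
    obtain ⟨h3, h4⟩ := euler_bound hϑ hl (s := z) (by linarith) (he z (by linarith))
    have h5 : ‖F z‖ ≤ Real.exp (BB ϑ * n) :=
      (Real.log_le_iff_le_exp (norm_pos_iff.2 h3)).1 (abs_le.1 h4).2
    have h6 : ‖gc z‖ ^ n ≤ C ^ n :=
      pow_le_pow_left₀ (norm_nonneg _) (hg z (by linarith) (by linarith)) n
    have h7 : 0 ≤ A ^ ((3 / 2 + ϑ) / 2) := Real.rpow_nonneg h.pos.le _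
    exact mul_le_mul (mul_le_mul_of_nonneg_left h6 h7) h5 (norm_nonneg _) (by positivity)
  refine PhragmenLindelof.vertical_strip (a := 1 / 2 - ϑ) (b := 3 / 2 + ϑ)
    (Lam_diff h.pos h.entire hfe).diffContOnCl ?_ (fun z hz => ?_) hright h1 h2
  · refine ⟨1, ?_, ?_⟩
    · rw [lt_div_iff₀ (by linarith)]
      linarith
    obtain ⟨B, hB⟩ := h.growth
    refine ⟨B, IsBigO.of_bound (max 1 A * C ^ n) ?_⟩
    refine Filter.Eventually.filter_mono inf_le_right ?_
    rw [eventually_principal]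
    intro z hz
    have hz1 : 1 / 2 - ϑ < z.re := hz.1
    have hz2 : z.re < 3 / 2 + ϑ := hz.2
    rw [Lam_pos (by linarith), completed_norm h.pos, Real.norm_of_nonneg (Real.exp_pos _).le,
      one_mul]
    have h3 := hB z (by linarith) (by linarith)
    have h6 : ‖gc z‖ ^ n ≤ C ^ n :=
      pow_le_pow_left₀ (norm_nonneg _) (hg z (by linarith) (by linarith)) n
    have h7 : A ^ (z.re / 2) ≤ max 1 A := by
      rcases le_or_gt 1 A with h8 | h8
      · calc A ^ (z.re / 2) ≤ A ^ (1 : ℝ) := Real.rpow_le_rpow_of_exponent_le h8 (by linarith)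
          _ = A := Real.rpow_one _
          _ ≤ _ := le_max_right _ _
      · exact (Real.rpow_le_one h.pos.le h8.le (by linarith)).trans (le_max_left _ _)
    exact mul_le_mul (mul_le_mul h7 h6 (by positivity) (by positivity)) h3 (norm_nonneg _)
      (by positivity)
  · rw [← Lam_sym hw hfe]
    exact hright _ (by simp; linarith)

/-- **The potential.** -/
theorem pot_of {ϑ : ℝ} (hϑ : 0 < ϑ) (hϑ1 : ϑ ≤ 1 / 4) (T : ℝ) {η : ℝ} (hη : 0 < η) :
    ∃ δ : ℝ, 0 < δ ∧ ∀ (K : Type) [Field K] [NumberField K] (a b : 𝓞 K) (A : ℝ) (F : ℂ → ℂ),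
      HasseWeil K a b A F → (Module.finrank ℚ K : ℝ) ≤ δ * Real.log A → ∀ w : ℂ, ‖w‖ = 1 →
      (∀ s : ℂ, 0 < s.re → s.re < 2 →
        completed (Module.finrank ℚ K) A F s = w * completed (Module.finrank ℚ K) A F (2 - s)) →
      Pot ϑ η (1 / 2) (Real.log A) T (LL (Module.finrank ℚ K) A F w) := by
  obtain ⟨C, hC, hg⟩ := gc_bd
  obtain ⟨C₁, hC₁, hgl⟩ := gc_log (T + 1)
  have hlC : 0 ≤ Real.log C := Real.log_nonneg hC
  have hBB := BB_nonneg ϑ
  set δ : ℝ := min (min η (1 / 2) / (C₁ + BB ϑ + 1)) (1 / (8 * (Real.log C + BB ϑ + 1))) with hδ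
  refine ⟨δ, by positivity, fun K _ _ a b A F h hn w hw hfe => ?_⟩
  set n := Module.finrank ℚ K with hndef
  set x := Real.log A with hx
  have hn1 : (1 : ℝ) ≤ n := by exact_mod_cast (Module.finrank_pos (R := ℚ) (M := K))
  have hδ0 : 0 < δ := by positivity
  have hx0 : 0 < x := by
    by_contra hcon
    push Not at hcon
    have : δ * x ≤ 0 := mul_nonpos_of_nonneg_of_nonpos hδ0.le hcon
    linarith
  have e1 : (n : ℝ) * (C₁ + BB ϑ) ≤ min η (1 / 2) * x := by
    have h1 : (n : ℝ) * (C₁ + BB ϑ + 1) ≤ min η (1 / 2) * x := by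
      calc (n : ℝ) * (C₁ + BB ϑ + 1) ≤ δ * x * (C₁ + BB ϑ + 1) := by gcongr
        _ ≤ (min η (1 / 2) / (C₁ + BB ϑ + 1)) * x * (C₁ + BB ϑ + 1) := by
            gcongr
            exact min_le_left _ _
        _ = _ := by field_simp
    linarith
  have e2 : (n : ℝ) * (Real.log C + BB ϑ) ≤ x / 8 := by
    have h1 : (n : ℝ) * (Real.log C + BB ϑ + 1) ≤ x / 8 := by
      calc (n : ℝ) * (Real.log C + BB ϑ + 1) ≤ δ * x * (Real.log C + BB ϑ + 1) := by gcongr
        _ ≤ (1 / (8 * (Real.log C + BB ϑ + 1))) * x * (Real.log C + BB ϑ + 1) := by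
            gcongr
            exact min_le_right _ _
        _ = _ := by field_simp
    linarith
  obtain ⟨c, e, hl, he⟩ := h.euler
  have hedge : ∀ s : ℂ, 1 + ϑ ≤ s.re → ‖s‖ ≤ T → LL n A F w s ≠ 0 ∧
      |Real.log ‖LL n A F w s‖ - x * (s.re / 2)| ≤ min η (1 / 2) * x := by
    intro s hs hsT
    have hre := half_re s
    obtain ⟨h3, h4⟩ := euler_bound hϑ hl (s := s + 1 / 2) (by linarith) (he _ (by linarith))
    have hg0 : gc (s + 1 / 2) ≠ 0 := gc_ne (by linarith)
    have hn0 : ‖s + 1 / 2‖ ≤ T + 1 := by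
      refine (norm_add_le _ _).trans ?_
      have : ‖(1 / 2 : ℂ)‖ ≤ 1 := by norm_num
      linarith
    have h5 := hgl (s + 1 / 2) (by linarith) hn0
    have hA := Real.rpow_pos_of_pos h.pos (s.re / 2)
    have hnorm := LL_right (n := n) (F := F) h.pos (w := w) (s := s) (by linarith)
    have hgn : (0 : ℝ) < ‖gc (s + 1 / 2)‖ ^ n := by
      have := norm_pos_iff.2 hg0
      positivity
    refine ⟨?_, ?_⟩
    · rw [← norm_pos_iff, hnorm]
      have := norm_pos_iff.2 h3
      positivity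
    · rw [hnorm, Real.log_mul (by positivity) (norm_pos_iff.2 h3).ne', Real.log_mul hA.ne' hgn.ne',
        Real.log_rpow h.pos, Real.log_pow]
      have h6 : s.re / 2 * Real.log A + n * Real.log ‖gc (s + 1 / 2)‖ +
          Real.log ‖F (s + 1 / 2)‖ - x * (s.re / 2) =
          n * Real.log ‖gc (s + 1 / 2)‖ + Real.log ‖F (s + 1 / 2)‖ := by
        rw [hx]; ring
      rw [h6]
      refine (abs_add_le _ _).trans ?_
      rw [abs_mul, abs_of_nonneg (show (0 : ℝ) ≤ n by positivity)]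
      have h7 : (n : ℝ) * |Real.log ‖gc (s + 1 / 2)‖| ≤ n * C₁ := by gcongr
      linarith
  refine ⟨LL_diff h.pos h.entire hfe, LL_sym h.norm_conj h.pos hw hfe, fun s hs hsT => ?_,
    fun s hs hsT => (hedge s hs hsT).1, fun s hs hsT => (hedge s hs hsT).2.trans
      (mul_le_mul_of_nonneg_right (min_le_left _ _) hx0.le)⟩
  rcases le_or_gt (1 + ϑ) s.re with h1 | h1
  · have h2 := (abs_le.1 (hedge s h1 hsT).2).2
    have h3 : min η (1 / 2) * x ≤ 1 / 2 * x := mul_le_mul_of_nonneg_right (min_le_right _ _) hx0.le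
    linarith
  · by_cases h0 : LL n A F w s = 0
    · rw [h0, norm_zero, Real.log_zero]
      have : 0 ≤ s.re := by linarith
      positivity
    have hre := half_re s
    have h2 := h.strip hϑ hϑ1 hC hg hw hfe (s := s + 1 / 2) (by linarith) (by linarith)
    have h3 : Real.log ‖LL n A F w s‖ ≤ -(x / 4) + ((3 / 2 + ϑ) / 2 * x + n * Real.log C +
        BB ϑ * n) := by
      have h4 : ‖LL n A F w s‖ ≤ Real.exp (-(x / 4)) * (A ^ ((3 / 2 + ϑ) / 2) * C ^ n *
          Real.exp (BB ϑ * n)) := by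
        rw [LL_norm]
        exact mul_le_mul_of_nonneg_left h2 (Real.exp_pos _).le
      have hA := Real.rpow_pos_of_pos h.pos ((3 / 2 + ϑ) / 2)
      have hC0 : 0 < C := by linarith
      have h5 := Real.log_le_log (norm_pos_iff.2 h0) h4
      rw [Real.log_mul (Real.exp_ne_zero _) (by positivity), Real.log_exp,
        Real.log_mul (by positivity) (Real.exp_ne_zero _), Real.log_exp,
        Real.log_mul hA.ne' (by positivity), Real.log_rpow h.pos, Real.log_pow] at h5
      exact h5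
    nlinarith

end

end Pool.Agent.H465.PT
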