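import Pool.Agent.H465.PT.G
import Pool.Agent.H465.PT.J

/-!
# Elliptic curves over number fields: the zeros
-/

set_option autoImplicit false

open MeasureTheory Metric Set Filter Topology Asymptotics
open scoped Real ENNReal ComplexConjugate
open NumberField IsDedekindDomain

namespace Pool.Agent.H465.PT

open Pool.Agent.H465.EQ Pool.Agent.H465.NF

section
variable {n : ℕ} {A : ℝ} {F : ℂ → ℂ}

lemma order_completed (hA : 0 < A) (hF : Differentiable ℂ F) {s : ℂ} (hs : 0 < s.re) :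
    analyticOrderAt (completed n A F) s = analyticOrderAt F s := by
  have hAc : (A : ℂ) ≠ 0 := by exact_mod_cast hA.ne'
  have hk : AnalyticAt ℂ (fun z => (A : ℂ) ^ (z / 2) * gc z ^ n) s := by
    have hd : DifferentiableOn ℂ (fun z => (A : ℂ) ^ (z / 2) * gc z ^ n) {z : ℂ | 0 < z.re} := by
      intro z hz
      refine DifferentiableAt.differentiableWithinAt ?_
      exact ((differentiableAt_id.div_const 2).const_cpow (Or.inl hAc)).mul ((gc_diff hz).pow n)
    exact hd.analyticAt ((isOpen_lt continuous_const Complex.continuous_re).mem_nhds hs)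
  have h1 : analyticOrderAt (fun z => (A : ℂ) ^ (z / 2) * gc z ^ n) s = 0 := by
    refine hk.analyticOrderAt_eq_zero.2 (mul_ne_zero ?_ (pow_ne_zero _ (gc_ne hs)))
    rw [Ne, Complex.cpow_eq_zero_iff]
    exact fun h => hAc h.1
  have h2 := analyticOrderAt_mul hk (hF.analyticAt s)
  rw [h1, zero_add] at h2
  exact h2

lemma order_const_mul {f : ℂ → ℂ} (hf : Differentiable ℂ f) {c : ℂ} (hc : c ≠ 0) (s : ℂ) :
    analyticOrderAt (fun z => c * f z) s = analyticOrderAt f s := by
  have h1 : analyticOrderAt (fun _ : ℂ => c) s = 0 :=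
    analyticAt_const.analyticOrderAt_eq_zero.2 hc
  have h2 := analyticOrderAt_mul (f := fun _ : ℂ => c) (g := f) (z₀ := s) analyticAt_const
    (hf.analyticAt s)
  rw [h1, zero_add] at h2
  exact h2

end

section
variable {K : Type} [Field K] [NumberField K] {a b : 𝓞 K} {A : ℝ} {F : ℂ → ℂ}

lemma HasseWeil.Lam_ne (h : HasseWeil K a b A F) {w : ℂ} (hw : ‖w‖ = 1)
    (hfe : ∀ s : ℂ, 0 < s.re → s.re < 2 →
      completed (Module.finrank ℚ K) A F s = w * completed (Module.finrank ℚ K) A F (2 - s))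
    {s : ℂ} (hs : ¬ (0 < s.re ∧ s.re < 2)) : Lam (Module.finrank ℚ K) A F w s ≠ 0 := by
  have key : ∀ z : ℂ, 2 ≤ z.re → Lam (Module.finrank ℚ K) A F w z ≠ 0 := by
    intro z hz
    have h1 := h.ne (s := z) (by linarith)
    have h2 := gc_ne (s := z) (by linarith)
    rw [← norm_pos_iff, Lam_pos (by linarith), completed_norm h.pos]
    have h3 := norm_pos_iff.2 h1
    have h4 := norm_pos_iff.2 h2
    have h5 := Real.rpow_pos_of_pos h.pos (z.re / 2)
    positivity
  rcases le_or_gt 2 s.re with h1 | h1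
  · exact key s h1
  · have h2 : s.re ≤ 0 := by
      by_contra h2
      exact hs ⟨not_le.1 h2, h1⟩
    rw [← norm_pos_iff, ← Lam_sym hw hfe]
    exact norm_pos_iff.2 (key _ (by simp; linarith))

open Classical in
/-- the multiplicities -/
lemma HasseWeil.mu_LL (h : HasseWeil K a b A F) {w : ℂ} (hw : ‖w‖ = 1)
    (hfe : ∀ s : ℂ, 0 < s.re → s.re < 2 →
      completed (Module.finrank ℚ K) A F s = w * completed (Module.finrank ℚ K) A F (2 - s))
    (u : ℂ) : mu (LL (Module.finrank ℚ K) A F w) u =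
      if 0 < (u + 1 / 2).re ∧ (u + 1 / 2).re < 2 then (analyticOrderNatAt F (u + 1 / 2) : ℝ)
      else 0 := by
  set n := Module.finrank ℚ K
  have hc : ((Real.exp (-(Real.log A / 4)) : ℝ) : ℂ) ≠ 0 := by
    exact_mod_cast (Real.exp_pos _).ne'
  split_ifs with hs
  · have h1 : analyticOrderNatAt (LL n A F w) u = analyticOrderNatAt (Lam n A F w) (u + 1 / 2) := by
      have h2 := order_shift (LL n A F w) u
      have h3 : (fun z => LL n A F w (z - 1 / 2)) =
          fun z => ((Real.exp (-(Real.log A / 4)) : ℝ) : ℂ) * Lam n A F w z := by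
        funext z
        unfold LL
        rw [sub_add_cancel]
      rw [h3] at h2
      rw [← h2]
      unfold analyticOrderNatAt
      rw [order_const_mul (Lam_diff h.pos h.entire hfe) hc]
    unfold mu
    rw [h1]
    congr 1
    unfold analyticOrderNatAt
    rw [← order_completed (n := n) h.pos h.entire hs.1]
    congr 1
    refine analyticOrderAt_congr ?_
    filter_upwards [(isOpen_lt continuous_const Complex.continuous_re).mem_nhds hs.1] with z hz
    exact Lam_pos hz
  · have h1 : LL n A F w u ≠ 0 := by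
      unfold LL
      exact mul_ne_zero hc (h.Lam_ne hw hfe hs)
    unfold mu analyticOrderNatAt
    rw [((LL_diff h.pos h.entire hfe).analyticAt u).analyticOrderAt_eq_zero.2 h1]
    simp

/-- the sum over the zeros -/
lemma HasseWeil.zsum_LL (h : HasseWeil K a b A F) {w : ℂ} (hw : ‖w‖ = 1)
    (hfe : ∀ s : ℂ, 0 < s.re → s.re < 2 →
      completed (Module.finrank ℚ K) A F s = w * completed (Module.finrank ℚ K) A F (2 - s))
    (g : ℂ → ℝ) :
    NF.zsum F g = ∑ᶠ u, mu (LL (Module.finrank ℚ K) A F w) u * g (u + 1 / 2) := by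
  classical
  unfold NF.zsum
  rw [← finsum_comp_equiv (Equiv.addRight (1 / 2 : ℂ))]
  refine finsum_congr fun u => ?_
  have e0 : (Equiv.addRight (1 / 2 : ℂ)) u = u + 1 / 2 := rfl
  rw [e0, h.mu_LL hw hfe]
  split_ifs
  · rfl
  · rw [zero_mul]

/-- the number of zeros -/
lemma HasseWeil.nz_LL (h : HasseWeil K a b A F) {w : ℂ} (hw : ‖w‖ = 1)
    (hfe : ∀ s : ℂ, 0 < s.re → s.re < 2 →
      completed (Module.finrank ℚ K) A F s = w * completed (Module.finrank ℚ K) A F (2 - s))
    (S : Set ℂ) :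
    NF.zsum F (S.indicator fun _ => 1) = nz (LL (Module.finrank ℚ K) A F w) {u | u + 1 / 2 ∈ S} := by
  classical
  rw [h.zsum_LL hw hfe]
  unfold nz
  refine finsum_congr fun u => ?_
  by_cases hu : u + 1 / 2 ∈ S
  · rw [indicator_of_mem hu, mul_one, finsum_eq_if, if_pos (show u ∈ {u : ℂ | u + 1 / 2 ∈ S} from hu)]
  · rw [indicator_of_notMem hu, mul_zero, finsum_eq_if,
      if_neg (show ¬ u ∈ {u : ℂ | u + 1 / 2 ∈ S} from hu)]

/-- only the zeros with `0 < Re ρ < 2` count -/
lemma zsum_strip (F : ℂ → ℂ) {g g' : ℂ → ℝ} (h : ∀ ρ : ℂ, 0 < ρ.re → ρ.re < 2 → g ρ = g' ρ) :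
    NF.zsum F g = NF.zsum F g' := by
  classical
  unfold NF.zsum
  refine finsum_congr fun ρ => ?_
  split_ifs with h1
  · rw [h ρ h1.1 h1.2]
  · rfl

lemma zsum_strip_set (F : ℂ → ℂ) (S : Set ℂ) :
    NF.zsum F (S.indicator fun _ => 1) =
      NF.zsum F ({ρ : ℂ | ρ ∈ S ∧ 0 < ρ.re ∧ ρ.re < 2}.indicator fun _ => 1) := by
  classical
  refine zsum_strip F fun ρ h1 h2 => ?_
  by_cases h : ρ ∈ S
  · rw [indicator_of_mem h, indicator_of_mem (show ρ ∈ {ρ : ℂ | ρ ∈ S ∧ 0 < ρ.re ∧ ρ.re < 2} from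
      ⟨h, h1, h2⟩)]
  · rw [indicator_of_notMem h, indicator_of_notMem (fun h' => h h'.1)]

/-- the logarithm on the right of the line -/
lemma HasseWeil.log_LL (h : HasseWeil K a b A F) {T C : ℝ}
    (hg : ∀ s : ℂ, 1 ≤ s.re → ‖s‖ ≤ T → |Real.log ‖gc s‖| ≤ C) {w u : ℂ} (hu : 1 / 2 ≤ u.re)
    (huT : ‖u + 1 / 2‖ ≤ T) (h0 : F (u + 1 / 2) ≠ 0) :
    |Real.log ‖LL (Module.finrank ℚ K) A F w u‖ - Real.log A * (u.re / 2) -
      Real.log ‖F (u + 1 / 2)‖| ≤ Module.finrank ℚ K * C := by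
  have hA := Real.rpow_pos_of_pos h.pos (u.re / 2)
  have hre := half_re u
  have hg0 : gc (u + 1 / 2) ≠ 0 := gc_ne (by linarith)
  have hgn : (0 : ℝ) < ‖gc (u + 1 / 2)‖ ^ (Module.finrank ℚ K) := by
    have := norm_pos_iff.2 hg0
    positivity
  rw [LL_right h.pos (by linarith), Real.log_mul (by positivity) (norm_pos_iff.2 h0).ne',
    Real.log_mul hA.ne' hgn.ne', Real.log_rpow h.pos, Real.log_pow]
  have h6 : u.re / 2 * Real.log A + (Module.finrank ℚ K : ℝ) * Real.log ‖gc (u + 1 / 2)‖ +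
      Real.log ‖F (u + 1 / 2)‖ - Real.log A * (u.re / 2) - Real.log ‖F (u + 1 / 2)‖ =
      Module.finrank ℚ K * Real.log ‖gc (u + 1 / 2)‖ := by
    ring
  rw [h6, abs_mul, abs_of_nonneg (show (0 : ℝ) ≤ Module.finrank ℚ K by positivity)]
  exact mul_le_mul_of_nonneg_left (hg _ (by linarith) huT) (by positivity)

lemma HasseWeil.LL_zero (h : HasseWeil K a b A F) {w u : ℂ} (hu : -1 / 2 < u.re) :
    LL (Module.finrank ℚ K) A F w u = 0 ↔ F (u + 1 / 2) = 0 := by
  have hre := half_re u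
  have h1 := LL_right (n := Module.finrank ℚ K) (F := F) h.pos (w := w) hu
  have hA := Real.rpow_pos_of_pos h.pos (u.re / 2)
  have hg0 : gc (u + 1 / 2) ≠ 0 := gc_ne (by linarith)
  have hgn : (0 : ℝ) < ‖gc (u + 1 / 2)‖ ^ (Module.finrank ℚ K) := by
    have := norm_pos_iff.2 hg0
    positivity
  constructor
  · intro h2
    rw [h2, norm_zero] at h1
    by_contra h3
    have := norm_pos_iff.2 h3
    have : 0 < A ^ (u.re / 2) * ‖gc (u + 1 / 2)‖ ^ (Module.finrank ℚ K) * ‖F (u + 1 / 2)‖ := by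
      positivity
    linarith
  · intro h2
    rw [h2, norm_zero, mul_zero] at h1
    exact norm_eq_zero.1 h1

end

end Pool.Agent.H465.PT
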