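import Pool.Agent.H465.PT.F

/-!
# Bounds in the strip: propagation of subconvexity
-/

set_option autoImplicit false

open MeasureTheory Metric Set Filter Topology
open scoped Real ENNReal ComplexConjugate

namespace Pool.Agent.H465.PT

open Pool.Agent.H465.EQ

/-- the convexity bound in the strip `-η ≤ Re s ≤ 1 + η`, and the potential outside -/
structure St (η x T : ℝ) (Λ : ℂ → ℂ) : Prop where
  pot : Pot η η (1 / 2) x T Λ
  le : ∀ s : ℂ, -η ≤ s.re → s.re ≤ 1 + η → ‖Λ s‖ ≤ Real.exp (x * (1 / 2 + η))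

variable {η x T : ℝ} {Λ : ℂ → ℂ}

lemma St.mono {η' T' : ℝ} (h : St η x T Λ) (hη : η ≤ η') (hT : T' ≤ T) (hx : 0 ≤ x)
    (hle : ∀ s : ℂ, -η' ≤ s.re → s.re ≤ 1 + η' → ‖Λ s‖ ≤ Real.exp (x * (1 / 2 + η'))) :
    St η' x T' Λ := ⟨h.pot.mono hη hη hT hx, hle⟩

/-- a point of the line -/
lemma pt_re (t : ℝ) : (pt t).re = 1 / 2 := rfl

lemma pt_im (t : ℝ) : (pt t).im = t := rfl

/-- **From an interval of the line to a disc.** -/
theorem bump (h : St η x T Λ) (hη : 0 ≤ η) (hx : 0 < x) {t₀ r c : ℝ} (hr : 0 < r) (hr1 : r ≤ 1 / 4)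
    (hc : 0 ≤ c) (hl : ∀ t : ℝ, |t - t₀| ≤ r → ‖Λ (pt t)‖ ≤ Real.exp (x * (1 / 2 - c))) :
    ∀ z ∈ ball (⟨1 / 2 + r / 4, t₀⟩ : ℂ) (r / 8),
      ‖Λ z‖ ≤ Real.exp (x * (1 / 2 - (3 / 8 * c - η))) := by
  intro z hz
  have hΛd := h.pot.ent
  set γ : ℝ := x * c / r ^ 2 with hγ
  have hγ0 : 0 ≤ γ := by positivity
  set G : ℂ → ℂ := fun w => Λ w * Complex.exp ((γ : ℂ) * ((r : ℂ) - (w - pt t₀)) ^ 2) with hG
  have hGd : Differentiable ℂ G := by
    refine hΛd.mul (Differentiable.cexp (Differentiable.const_mul ?_ _))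
    exact ((differentiable_const _).sub (differentiable_id.sub_const _)).pow 2
  have hGn : ∀ w : ℂ, ‖G w‖ = ‖Λ w‖ *
      Real.exp (γ * ((r - (w.re - 1 / 2)) ^ 2 - (w.im - t₀) ^ 2)) := by
    intro w
    rw [hG]
    simp only
    rw [norm_mul, Complex.norm_exp]
    congr 2
    rw [Complex.re_ofReal_mul]
    congr 1
    simp only [sq, Complex.mul_re, Complex.sub_re, Complex.sub_im, Complex.ofReal_re,
      Complex.ofReal_im, pt_re, pt_im]
    ring
  set U : Set ℂ := Ioo (1 / 2 : ℝ) (1 / 2 + r) ×ℂ Ioo (t₀ - r) (t₀ + r) with hU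
  have hUb : Bornology.IsBounded U := (Metric.isBounded_Ioo _ _).reProdIm (Metric.isBounded_Ioo _ _)
  have hcl : closure U = Icc (1 / 2 : ℝ) (1 / 2 + r) ×ℂ Icc (t₀ - r) (t₀ + r) := by
    rw [hU, Complex.closure_reProdIm, closure_Ioo (by linarith), closure_Ioo (by linarith)]
  rw [mem_ball, dist_eq_norm] at hz
  have hzr := (Complex.abs_re_le_norm (z - ⟨1 / 2 + r / 4, t₀⟩)).trans_lt hz
  have hzi := (Complex.abs_im_le_norm (z - ⟨1 / 2 + r / 4, t₀⟩)).trans_lt hz
  simp only [Complex.sub_re, Complex.sub_im] at hzr hzi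
  rw [abs_lt] at hzr hzi
  have hzc : z ∈ closure U := by
    rw [hcl, Complex.mem_reProdIm]
    exact ⟨⟨by linarith [hzr.1], by linarith [hzr.2]⟩, ⟨by linarith [hzi.1], by linarith [hzi.2]⟩⟩
  have key : ‖G z‖ ≤ Real.exp (x * (1 / 2 + η)) := by
    refine Complex.norm_le_of_forall_mem_frontier_norm_le hUb hGd.diffContOnCl ?_ hzc
    intro w hw
    have hf1 : frontier (Ioo (1 / 2 : ℝ) (1 / 2 + r)) = {1 / 2, 1 / 2 + r} :=
      frontier_Ioo (by linarith)
    have hf2 : frontier (Ioo (t₀ - r) (t₀ + r)) = {t₀ - r, t₀ + r} := frontier_Ioo (by linarith)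
    have hc1 : closure (Ioo (1 / 2 : ℝ) (1 / 2 + r)) = Icc (1 / 2) (1 / 2 + r) :=
      closure_Ioo (by linarith)
    have hc2 : closure (Ioo (t₀ - r) (t₀ + r)) = Icc (t₀ - r) (t₀ + r) :=
      closure_Ioo (by linarith)
    rw [hU, Complex.frontier_reProdIm, hc1, hc2, hf1, hf2] at hw
    rw [hGn]
    have hstrip : 1 / 2 ≤ w.re → w.re ≤ 1 / 2 + r → ‖Λ w‖ ≤ Real.exp (x * (1 / 2 + η)) :=
      fun h1 h2 => h.le w (by linarith) (by linarith)
    have hone : (r - (w.re - 1 / 2)) ^ 2 - (w.im - t₀) ^ 2 ≤ 0 → 1 / 2 ≤ w.re →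
        w.re ≤ 1 / 2 + r → ‖Λ w‖ * Real.exp (γ * ((r - (w.re - 1 / 2)) ^ 2 - (w.im - t₀) ^ 2)) ≤
          Real.exp (x * (1 / 2 + η)) := by
      intro h1 h2 h3
      have h4 : Real.exp (γ * ((r - (w.re - 1 / 2)) ^ 2 - (w.im - t₀) ^ 2)) ≤ 1 := by
        rw [Real.exp_le_one_iff]
        exact mul_nonpos_of_nonneg_of_nonpos hγ0 h1
      calc ‖Λ w‖ * Real.exp (γ * ((r - (w.re - 1 / 2)) ^ 2 - (w.im - t₀) ^ 2)) ≤
            Real.exp (x * (1 / 2 + η)) * 1 :=
            mul_le_mul (hstrip h2 h3) h4 (Real.exp_pos _).le (Real.exp_pos _).le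
        _ = _ := mul_one _
    rcases hw with hw | hw
    · rw [Complex.mem_reProdIm] at hw
      obtain ⟨⟨h1, h2⟩, h3⟩ := hw
      refine hone ?_ h1 h2
      have h4 : (w.im - t₀) ^ 2 = r ^ 2 := by
        rcases h3 with h3 | h3
        · rw [h3]; ring
        · rw [h3]; ring
      rw [h4]
      nlinarith
    · rw [Complex.mem_reProdIm] at hw
      obtain ⟨h3, h1, h2⟩ := hw
      rcases h3 with h3 | h3
      · have hwp : w = pt w.im := by
          apply Complex.ext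
          · rw [pt_re]; exact h3
          · rw [pt_im]
        have h4 := hl w.im (abs_le.2 ⟨by linarith, by linarith⟩)
        rw [← hwp] at h4
        rw [h3]
        calc ‖Λ w‖ * Real.exp (γ * ((r - (1 / 2 - 1 / 2)) ^ 2 - (w.im - t₀) ^ 2)) ≤
              Real.exp (x * (1 / 2 - c)) * Real.exp (x * c) := by
              refine mul_le_mul h4 (Real.exp_le_exp.2 ?_) (Real.exp_pos _).le (Real.exp_pos _).le
              have h5 : γ * r ^ 2 = x * c := by rw [hγ]; field_simp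
              have h6 : γ * ((r - (1 / 2 - 1 / 2)) ^ 2 - (w.im - t₀) ^ 2) ≤ γ * r ^ 2 :=
                mul_le_mul_of_nonneg_left (by nlinarith [sq_nonneg (w.im - t₀)]) hγ0
              linarith
          _ = Real.exp (x * (1 / 2)) := by rw [← Real.exp_add]; congr 1; ring
          _ ≤ _ := Real.exp_le_exp.2 (by nlinarith)
      · have h3' : w.re = 1 / 2 + r := h3
        refine hone ?_ (by rw [h3']; linarith) h3'.le
        rw [h3']
        have := sq_nonneg (w.im - t₀)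
        nlinarith
  rw [hGn] at key
  have h5 : (3 / 8) * r ^ 2 ≤ (r - (z.re - 1 / 2)) ^ 2 - (z.im - t₀) ^ 2 := by
    have h6 : 5 / 8 * r ≤ r - (z.re - 1 / 2) := by linarith [hzr.2]
    have h7 : (5 / 8 * r) ^ 2 ≤ (r - (z.re - 1 / 2)) ^ 2 := by
      apply pow_le_pow_left₀ (by positivity) h6
    have h8 : (z.im - t₀) ^ 2 ≤ (r / 8) ^ 2 := sq_le_sq' (by linarith [hzi.1]) (by linarith [hzi.2])
    nlinarith
  have h9 : x * c * (3 / 8) ≤ γ * ((r - (z.re - 1 / 2)) ^ 2 - (z.im - t₀) ^ 2) := by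
    calc x * c * (3 / 8) = γ * ((3 / 8) * r ^ 2) := by rw [hγ]; field_simp
      _ ≤ _ := mul_le_mul_of_nonneg_left h5 hγ0
  have h10 : ‖Λ z‖ * Real.exp (x * c * (3 / 8)) ≤ Real.exp (x * (1 / 2 + η)) :=
    (mul_le_mul_of_nonneg_left (Real.exp_le_exp.2 h9) (norm_nonneg _)).trans key
  rw [← le_div_iff₀ (Real.exp_pos _), ← Real.exp_sub] at h10
  refine h10.trans (le_of_eq ?_)
  congr 1
  ring

/-- the discs in the strip -/
lemma St.le' (h : St η x T Λ) (hη : 0 ≤ η) {a : ℂ} {r : ℝ} (h1 : r ≤ a.re) (h2 : a.re ≤ 1 - r)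
    {z : ℂ} (hz : ‖z - a‖ ≤ r) : ‖Λ z‖ ≤ Real.exp (x * (1 / 2 + η)) := by
  have h3 := (Complex.abs_re_le_norm (z - a)).trans hz
  rw [Complex.sub_re, abs_le] at h3
  exact h.le z (by linarith [h3.1]) (by linarith [h3.2])

/-- **Propagation by one step.** -/
theorem step (h : St η x T Λ) (hη : 0 ≤ η) (hx : 0 < x) {z₀ : ℂ} (h0 : Λ z₀ ≠ 0) {a : ℂ} {r c : ℝ}
    (hr : 0 < r)
    (h1 : 6 * r ≤ a.re) (h2 : a.re ≤ 1 - 6 * r)
    (hc : ∀ z ∈ ball a r, ‖Λ z‖ ≤ Real.exp (x * (1 / 2 - c))) :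
    ∀ z ∈ ball a (2 * r), ‖Λ z‖ ≤ Real.exp (x * (1 / 2 - (c / 16 - η))) := by
  intro z hz
  by_cases hz0 : Λ z = 0
  · rw [hz0, norm_zero]
    exact (Real.exp_pos _).le
  have hpi := Real.pi_pos
  rw [mem_ball, dist_eq_norm] at hz
  have hlog : ∀ {w : ℂ} {A : ℝ}, Λ w ≠ 0 → ‖Λ w‖ ≤ Real.exp A → Real.log ‖Λ w‖ ≤ A := by
    intro w A hw h'
    rwa [Real.log_le_iff_le_exp (norm_pos_iff.2 hw)]
  have hsub : ∀ w ∈ ball z (4 * r), Λ w ≠ 0 → Real.log ‖Λ w‖ ≤ x * (1 / 2 + η) := by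
    intro w hw hw0
    rw [mem_ball, dist_eq_norm] at hw
    refine hlog hw0 (h.le' hη h1 h2 ?_)
    calc ‖w - a‖ = ‖(w - z) + (z - a)‖ := by rw [sub_add_sub_cancel]
      _ ≤ ‖w - z‖ + ‖z - a‖ := norm_add_le _ _
      _ ≤ 6 * r := by linarith
  have hsub2 : ball a r ⊆ ball z (4 * r) := by
    intro w hw
    rw [mem_ball, dist_eq_norm] at hw ⊢
    calc ‖w - z‖ = ‖(w - a) - (z - a)‖ := by rw [sub_sub_sub_cancel_right]
      _ ≤ ‖w - a‖ + ‖z - a‖ := norm_sub_le _ _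
      _ < 4 * r := by linarith
  have hind : IntegrableOn ((ball a r).indicator fun _ => (c + η) * x) (ball z (4 * r)) := by
    refine IntegrableOn.indicator (intConst _ _ _) measurableSet_ball
  have h3 : ∫ w in ball z (4 * r), Real.log ‖Λ w‖ ≤ ∫ w in ball z (4 * r),
      (x * (1 / 2 + η) - (ball a r).indicator (fun _ => (c + η) * x) w) := by
    refine integral_mono_ae (intOn_log h.pot.ent h0 z (4 * r)) ((intConst _ _ _).sub hind) ?_
    filter_upwards [ae_restrict_of_ae (ae_ne h.pot.ent h0), ae_restrict_mem measurableSet_ball] with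
      w hw hwb
    by_cases hwa : w ∈ ball a r
    · rw [indicator_of_mem hwa]
      have := hlog hw (hc w hwa)
      linarith
    · rw [indicator_of_notMem hwa, sub_zero]
      exact hsub w hwb hw
  have h4 : ∫ w in ball z (4 * r), (x * (1 / 2 + η) - (ball a r).indicator (fun _ => (c + η) * x) w)
      = π * (4 * r) ^ 2 * (x * (1 / 2 + η)) - π * r ^ 2 * ((c + η) * x) := by
    rw [integral_sub (intConst _ _ _) hind, setIntegral_const, vol_ball_real _ (by positivity),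
      smul_eq_mul, setIntegral_indicator measurableSet_ball, inter_eq_self_of_subset_right hsub2,
      setIntegral_const, vol_ball_real _ hr.le, smul_eq_mul]
  have h5 := le_of_mean h.pot.ent (show 0 < 4 * r by positivity) hz0 (h3.trans h4.le)
  have h6 : (π * (4 * r) ^ 2 * (x * (1 / 2 + η)) - π * r ^ 2 * ((c + η) * x)) /
      (π * (4 * r) ^ 2) = x * (1 / 2 + η) - (c + η) * x / 16 := by
    field_simp
    ring
  rw [h6] at h5
  rw [← Real.log_le_iff_le_exp (norm_pos_iff.2 hz0)]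
  refine h5.trans ?_
  nlinarith [mul_nonneg hη hx.le]

/-- **Propagation.** -/
theorem spread (h : St η x T Λ) (hη : 0 ≤ η) (hx : 0 < x) {z₀ : ℂ} (h0 : Λ z₀ ≠ 0) {a : ℂ} {r c : ℝ}
    (hr : 0 < r) (h1 : 6 * r ≤ a.re) (h2 : a.re ≤ 1 - 6 * r)
    (hc : ∀ z ∈ ball a r, ‖Λ z‖ ≤ Real.exp (x * (1 / 2 - c))) (n : ℕ) :
    ∀ b : ℂ, 6 * r ≤ b.re → b.re ≤ 1 - 6 * r → ‖b - a‖ ≤ n * r →
      ∀ z ∈ ball b r, ‖Λ z‖ ≤ Real.exp (x * (1 / 2 - (c / 16 ^ n - 2 * η))) := by
  induction n with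
  | zero =>
    intro b _ _ hb z hz
    have hba : b = a := by
      rw [Nat.cast_zero, zero_mul] at hb
      exact sub_eq_zero.1 (norm_le_zero_iff.1 hb)
    rw [hba] at hz
    refine (hc z hz).trans (Real.exp_le_exp.2 ?_)
    rw [pow_zero, div_one]
    nlinarith [mul_nonneg hη hx.le]
  | succ n ih =>
    intro b hb1 hb2 hb z hz
    set θ : ℝ := n / (n + 1) with hθ
    have hn : (0 : ℝ) < n + 1 := by positivity
    have hθ0 : 0 ≤ θ := by positivity
    have hθ1 : θ ≤ 1 := by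
      rw [hθ, div_le_one hn]
      linarith
    set b' : ℂ := a + (θ : ℂ) * (b - a) with hb'
    have hre : b'.re = (1 - θ) * a.re + θ * b.re := by
      rw [hb', Complex.add_re, Complex.re_ofReal_mul, Complex.sub_re]
      ring
    have h3 : 6 * r ≤ b'.re := by
      rw [hre]
      nlinarith
    have h4 : b'.re ≤ 1 - 6 * r := by
      rw [hre]
      nlinarith
    have h5 : ‖b' - a‖ ≤ n * r := by
      have : b' - a = (θ : ℂ) * (b - a) := by rw [hb']; ring
      rw [this, norm_mul, Complex.norm_real, Real.norm_of_nonneg hθ0]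
      calc θ * ‖b - a‖ ≤ θ * (((n + 1 : ℕ) : ℝ) * r) := mul_le_mul_of_nonneg_left hb hθ0
        _ = n * r := by
            rw [hθ]
            push_cast
            field_simp
    have h6 : ‖b - b'‖ ≤ r := by
      have : b - b' = ((1 - θ : ℝ) : ℂ) * (b - a) := by
        rw [hb']
        push_cast
        ring
      rw [this, norm_mul, Complex.norm_real, Real.norm_of_nonneg (by linarith)]
      calc (1 - θ) * ‖b - a‖ ≤ (1 - θ) * (((n + 1 : ℕ) : ℝ) * r) :=
            mul_le_mul_of_nonneg_left hb (by linarith)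
        _ = r := by
            rw [hθ]
            push_cast
            field_simp
            ring
    have h7 := step h hη hx h0 hr h3 h4 (ih b' h3 h4 h5) z ?_
    · refine h7.trans (Real.exp_le_exp.2 ?_)
      have e : c / 16 ^ (n + 1) = c / 16 ^ n / 16 := by
        rw [pow_succ, div_div]
      rw [e]
      nlinarith [mul_nonneg hη hx.le]
    · rw [mem_ball, dist_eq_norm] at hz ⊢
      calc ‖z - b'‖ = ‖(z - b) + (b - b')‖ := by rw [sub_add_sub_cancel]
        _ ≤ ‖z - b‖ + ‖b - b'‖ := norm_add_le _ _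
        _ < 2 * r := by linarith

/-- **Zeros give a gain.** -/
theorem jens (h : St η x T Λ) (hη : 0 ≤ η) {z₀ : ℂ} (h0 : Λ z₀ ≠ 0) {a : ℂ} {r : ℝ}
    (hr : 0 < r) (h1 : 8 * r ≤ a.re) (h2 : a.re ≤ 1 - 8 * r) :
    ∀ z ∈ ball a r, ‖Λ z‖ ≤ Real.exp (x * (1 / 2 + η) - nz Λ (closedBall a r)) := by
  have hfin := fin_zeros h.pot.ent h0 a r
  set Z : Finset ℂ := hfin.toFinset with hZ
  have hZc : ∀ u ∈ Z, u ∈ closedBall a r := fun u hu => ((Finite.mem_toFinset _).1 hu).2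
  obtain ⟨g, hg, -, hfg⟩ := factor h.pot.ent h0 Z
  set N : ℕ := ∑ u ∈ Z, analyticOrderNatAt Λ u with hN
  have hNn : nz Λ (closedBall a r) = N := by
    rw [nz_eq (S := closedBall a r) (Z := Z)
      (fun u h1 h2 => (Finite.mem_toFinset hfin).2 ⟨h2, h1⟩) hZc h.pot.ent, hN]
    push_cast
    rfl
  have hP : ∀ z : ℂ, ‖PP Λ Z z‖ = ∏ u ∈ Z, ‖z - u‖ ^ (analyticOrderNatAt Λ u) := by
    intro z
    unfold PP
    rw [norm_prod]
    exact Finset.prod_congr rfl fun u _ => norm_pow _ _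
  have hlow : ∀ z : ℂ, ‖z - a‖ = 8 * r → (7 * r) ^ N ≤ ‖PP Λ Z z‖ := by
    intro z hz
    rw [hP, hN, ← Finset.prod_pow_eq_pow_sum]
    refine Finset.prod_le_prod (fun u _ => by positivity) fun u hu => ?_
    refine pow_le_pow_left₀ (by positivity) ?_ _
    have h3 := hZc u hu
    rw [mem_closedBall, dist_eq_norm] at h3
    have h4 : ‖z - a‖ ≤ ‖z - u‖ + ‖u - a‖ := by
      calc ‖z - a‖ = ‖(z - u) + (u - a)‖ := by rw [sub_add_sub_cancel]
        _ ≤ _ := norm_add_le _ _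
    linarith
  have hupp : ∀ z ∈ ball a r, ‖PP Λ Z z‖ ≤ (2 * r) ^ N := by
    intro z hz
    rw [mem_ball, dist_eq_norm] at hz
    rw [hP, hN, ← Finset.prod_pow_eq_pow_sum]
    refine Finset.prod_le_prod (fun u _ => by positivity) fun u hu => ?_
    refine pow_le_pow_left₀ (norm_nonneg _) ?_ _
    have h3 := hZc u hu
    rw [mem_closedBall, dist_eq_norm] at h3
    calc ‖z - u‖ = ‖(z - a) - (u - a)‖ := by rw [sub_sub_sub_cancel_right]
      _ ≤ ‖z - a‖ + ‖u - a‖ := norm_sub_le _ _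
      _ ≤ 2 * r := by linarith
  have hgb : ∀ z ∈ closure (ball a (8 * r)), ‖g z‖ ≤ Real.exp (x * (1 / 2 + η)) / (7 * r) ^ N := by
    intro z hz
    refine Complex.norm_le_of_forall_mem_frontier_norm_le isBounded_ball hg.diffContOnCl ?_ hz
    intro w hw
    rw [frontier_ball _ (by positivity)] at hw
    have hw' : ‖w - a‖ = 8 * r := by rwa [mem_sphere, dist_eq_norm] at hw
    rw [le_div_iff₀ (by positivity)]
    have h3 := h.le' hη h1 h2 hw'.le
    rw [hfg, norm_mul] at h3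
    calc ‖g w‖ * (7 * r) ^ N ≤ ‖g w‖ * ‖PP Λ Z w‖ :=
          mul_le_mul_of_nonneg_left (hlow w hw') (norm_nonneg _)
      _ ≤ _ := by rw [mul_comm]; exact h3
  intro z hz
  have hz8 : z ∈ closure (ball a (8 * r)) := subset_closure (ball_subset_ball (by linarith) hz)
  rw [hfg z, norm_mul, hNn, Real.exp_sub]
  have h3 := hgb z hz8
  have h4 := hupp z hz
  calc ‖PP Λ Z z‖ * ‖g z‖ ≤ (2 * r) ^ N * (Real.exp (x * (1 / 2 + η)) / (7 * r) ^ N) :=
        mul_le_mul h4 h3 (norm_nonneg _) (by positivity)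
    _ = Real.exp (x * (1 / 2 + η)) / (7 / 2) ^ N := by
        rw [mul_pow, mul_pow, div_pow]
        field_simp
    _ ≤ Real.exp (x * (1 / 2 + η)) / Real.exp N := by
        refine div_le_div_of_nonneg_left (Real.exp_pos _).le (Real.exp_pos _) ?_
        rw [← Real.exp_one_pow]
        refine pow_le_pow_left₀ (Real.exp_pos _).le ?_ _
        linarith [Real.exp_one_lt_three]

/-- the discs covering a rectangle -/
theorem pigeon {S : Set ℂ} (hS : IsCompact S) {r : ℝ} (hr : 0 < r) : ∃ (J : Finset ℂ),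
    (∀ a ∈ J, a ∈ S) ∧ ∀ (f : ℂ → ℂ), Differentiable ℂ f → ∀ z₀ : ℂ, f z₀ ≠ 0 →
      nz f S ≤ ∑ a ∈ J, nz f (closedBall a r) := by
  classical
  obtain ⟨t, ht, htf, hcov⟩ := hS.finite_cover_balls hr
  refine ⟨htf.toFinset, fun a ha => ht ((Finite.mem_toFinset _).1 ha), fun f hf z₀ h0 => ?_⟩
  obtain ⟨R, hR⟩ := hS.isBounded.subset_closedBall 0
  set R' : ℝ := R + r with hR'
  have hball : ∀ a ∈ htf.toFinset, closedBall a r ⊆ closedBall (0 : ℂ) R' := by
    intro a ha z hz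
    have h1 := hR (ht ((Finite.mem_toFinset _).1 ha))
    rw [mem_closedBall_zero_iff] at h1 ⊢
    rw [mem_closedBall, dist_eq_norm] at hz
    calc ‖z‖ = ‖(z - a) + a‖ := by rw [sub_add_cancel]
      _ ≤ ‖z - a‖ + ‖a‖ := norm_add_le _ _
      _ ≤ R' := by linarith
  have hSR : S ⊆ closedBall (0 : ℂ) R' := hR.trans (closedBall_subset_closedBall (by linarith))
  rw [nz_filter hf h0 hSR]
  have e1 : ∑ a ∈ htf.toFinset, nz f (closedBall a r) = ∑ a ∈ htf.toFinset,
      ∑ u ∈ (finite_zeros hf h0 R').toFinset, if u ∈ closedBall a r then mu f u else 0 := by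
    refine Finset.sum_congr rfl fun a ha => ?_
    rw [nz_filter hf h0 (hball a ha), Finset.sum_filter]
  rw [e1, Finset.sum_comm, Finset.sum_filter]
  refine Finset.sum_le_sum fun u _ => ?_
  split_ifs with huS
  · obtain ⟨a, ha, hua⟩ : ∃ a ∈ t, u ∈ ball a r := by
      have := hcov huS
      simpa using this
    have h2 := Finset.single_le_sum (f := fun a => if u ∈ closedBall a r then mu f u else 0)
      (fun a _ => by
        split_ifs
        · exact mu_nonneg _ _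
        · exact le_rfl) ((Finite.mem_toFinset htf).2 ha)
    simp only [if_pos (ball_subset_closedBall hua)] at h2
    exact h2
  · exact Finset.sum_nonneg fun a _ => by
      split_ifs
      · exact mu_nonneg _ _
      · exact le_rfl

end Pool.Agent.H465.PT
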