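import Pool.Agent.H465.PT.Q

/-!
# Few zeros away from the edges: the potential is maximal
-/

set_option autoImplicit false

open MeasureTheory Metric Set Filter Topology
open scoped Real ENNReal ComplexConjugate

namespace Pool.Agent.H465.PT

open Pool.Agent.H465.EQ

/-- **Pointwise bound from the mean**, for functions without zeros -/
theorem harm_pt {g : ℂ → ℂ} (hg : Differentiable ℂ g) {c : ℂ} {r a : ℝ} (hr : 0 < r) (ha : 0 < a)
    (h0 : ∀ z ∈ ball c r, g z ≠ 0) (h : ∫ z in ball c r, |Real.log ‖g z‖| ≤ a) :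
    |Real.log ‖g c‖| ≤ 64 * a / r ^ 2 := by
  have hpi := Real.pi_pos
  have hgc : g c ≠ 0 := h0 c (mem_ball_self hr)
  have hsubint : ∀ {w : ℂ} {s : ℝ}, ball w s ⊆ ball c r →
      ∫ z in ball w s, |Real.log ‖g z‖| ≤ a := by
    intro w s hs
    refine le_trans (setIntegral_mono_set (intOn_log hg hgc c r).abs
        (Eventually.of_forall fun z => abs_nonneg _) hs.eventuallyLE) h
  set M : ℝ := a / (π * (r / 2) ^ 2) with hM
  have hM0 : 0 < M := by positivity
  have hup : ∀ w ∈ ball c (r / 2), Real.log ‖g w‖ ≤ M := by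
    intro w hw
    have hsub : ball w (r / 2) ⊆ ball c r := by
      intro z hz
      rw [mem_ball, dist_eq_norm] at hz hw ⊢
      calc ‖z - c‖ = ‖(z - w) + (w - c)‖ := by rw [sub_add_sub_cancel]
        _ ≤ ‖z - w‖ + ‖w - c‖ := norm_add_le _ _
        _ < r := by linarith
    have hwr : w ∈ ball c r := ball_subset_ball (by linarith) hw
    refine le_of_mean hg (by positivity) (h0 w hwr) ?_
    refine le_trans ?_ (hsubint hsub)
    exact integral_mono (intOn_log hg hgc w _) (intOn_log hg hgc w _).abs fun z => le_abs_self _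
  obtain ⟨p, hp, hp0, hpl⟩ := good_point hg hgc (c := c) (r := r / 8) (a := a) (by positivity)
    (hsubint (ball_subset_ball (by linarith)))
  rw [mem_ball, dist_eq_norm] at hp
  set b : ℝ := a / (π * (r / 8) ^ 2) with hb
  have hb0 : 0 < b := by positivity
  have hsubp : ball p (r / 4) ⊆ ball c (r / 2) := by
    intro z hz
    rw [mem_ball, dist_eq_norm] at hz ⊢
    calc ‖z - c‖ = ‖(z - p) + (p - c)‖ := by rw [sub_add_sub_cancel]
      _ ≤ ‖z - p‖ + ‖p - c‖ := norm_add_le _ _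
      _ < r / 2 := by linarith
  obtain ⟨k, hk, hkp, hexp⟩ := log_ball (f := g) (c := p) (r := r / 4) (by positivity)
    hg.differentiableOn (fun z hz => h0 z (ball_subset_ball (by linarith) (hsubp hz)))
  have hre : ∀ w ∈ ball p (r / 4), (k w).re = Real.log ‖g w‖ - Real.log ‖g p‖ := by
    intro w hw
    rw [hexp w hw, norm_mul, Complex.norm_exp, Real.log_mul (norm_pos_iff.2 hp0).ne'
      (Real.exp_ne_zero _), Real.log_exp]
    ring
  have htr : ∀ {s : ℝ} {w : ℂ}, w ∈ ball (0 : ℂ) s → p + w ∈ ball p s := by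
    intro s w hw
    rw [mem_ball, dist_eq_norm] at hw ⊢
    simpa using hw
  have hcp : ‖c - p‖ ≤ r / 8 := by rw [norm_sub_rev]; exact hp.le
  have h1 := Complex.borelCaratheodory_zero (f := fun w => k (p + w)) (M := M + b) (R := r / 4)
      (z := c - p) (by positivity)
      (hk.comp ((differentiable_id.const_add p).differentiableOn) fun w hw => htr hw)
      (fun v hv => by
        show (k (p + v)).re ≤ M + b
        rw [hre _ (htr hv)]
        have h2 := hup _ (hsubp (htr hv))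
        have h3 := (abs_le.1 hpl).1
        linarith) (by positivity)
      (by rw [mem_ball_zero_iff]; linarith) (by simp [hkp])
  have h2 : ‖k c‖ ≤ 2 * (M + b) := by
    rw [add_sub_cancel] at h1
    refine h1.trans ?_
    rw [div_le_iff₀ (by linarith)]
    exact mul_le_mul_of_nonneg_left (by linarith) (by positivity)
  have hcb : c ∈ ball p (r / 4) := by
    rw [mem_ball, dist_eq_norm]
    linarith
  have h3 := hre c hcb
  have h4 := (Complex.abs_re_le_norm (k c)).trans h2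
  have h5 : |Real.log ‖g c‖| ≤ b + 2 * (M + b) := by
    have : Real.log ‖g c‖ = Real.log ‖g p‖ + (k c).re := by rw [h3]; ring
    rw [this]
    exact (abs_add_le _ _).trans (add_le_add hpl h4)
  refine h5.trans ?_
  have h6 : b + 2 * (M + b) = 200 * a / (π * r ^ 2) := by
    rw [hM, hb]
    field_simp
    ring
  rw [h6, div_le_div_iff₀ (by positivity) (by positivity)]
  have h7 : (200 : ℝ) ≤ 64 * π := by linarith [Real.pi_gt_d2]
  have h8 : 0 < a * r ^ 2 := by positivity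
  nlinarith

/-- the function with the factor `exp (-x / 2)` -/
noncomputable def FF (x : ℝ) (Λ : ℂ → ℂ) (z : ℂ) : ℂ := ((Real.exp (-(x / 2)) : ℝ) : ℂ) * Λ z

section
variable {η x T : ℝ} {Λ : ℂ → ℂ}

lemma FF_diff (h : Differentiable ℂ Λ) (x : ℝ) : Differentiable ℂ (FF x Λ) := h.const_mul _

lemma FF_ne {z : ℂ} : FF x Λ z ≠ 0 ↔ Λ z ≠ 0 := by
  unfold FF
  have : ((Real.exp (-(x / 2)) : ℝ) : ℂ) ≠ 0 := by exact_mod_cast (Real.exp_pos _).ne'
  simp [this]

lemma FF_norm (z : ℂ) : ‖FF x Λ z‖ = Real.exp (-(x / 2)) * ‖Λ z‖ := by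
  unfold FF
  rw [norm_mul, Complex.norm_real, Real.norm_of_nonneg (Real.exp_pos _).le]

lemma log_FF {z : ℂ} (h : Λ z ≠ 0) : Real.log ‖FF x Λ z‖ = Real.log ‖Λ z‖ - x / 2 := by
  rw [FF_norm, Real.log_mul (Real.exp_ne_zero _) (norm_ne_zero_iff.2 h), Real.log_exp]
  ring

lemma FF_le {z : ℂ} {a : ℝ} (ha : 0 ≤ a) (h : ‖Λ z‖ ≤ Real.exp (x / 2 + a)) :
    Real.log ‖FF x Λ z‖ ≤ a := by
  by_cases h0 : Λ z = 0
  · have : FF x Λ z = 0 := by unfold FF; rw [h0, mul_zero]
    rw [this, norm_zero, Real.log_zero]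
    exact ha
  · rw [log_FF h0]
    rw [← Real.log_le_iff_le_exp (norm_pos_iff.2 h0)] at h
    linarith

/-- the crude bound -/
lemma crude (h : St η x T Λ) (hη : η ≤ 1 / 4) (hx : 0 < x) {τ : ℝ} (hT : |τ| + 6 ≤ T) :
    ∫ z in ball (⟨1 / 2, τ⟩ : ℂ) 1, |Real.log ‖FF x Λ z‖| ≤ 120 * x := by
  have hpi := Real.pi_pos
  have hpn : ‖(⟨2, τ⟩ : ℂ)‖ ≤ 2 + |τ| := by
    refine (Complex.norm_le_abs_re_add_abs_im _).trans ?_
    simp
  have hp0 : Λ ⟨2, τ⟩ ≠ 0 := h.pot.ne _ (by simp only; linarith) (by linarith)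
  obtain ⟨hi, hb⟩ := disc_L1 (FF_diff h.pot.ent x) (c := ⟨2, τ⟩) (r := 5 / 2) (M := 3 * x)
    (by norm_num) (FF_ne.2 hp0) (by positivity) (fun z hz => by
      rw [mem_ball, dist_eq_norm] at hz
      by_cases hz0 : Λ z = 0
      · have : FF x Λ z = 0 := by unfold FF; rw [hz0, mul_zero]
        rw [this, norm_zero, Real.log_zero]
        positivity
      rw [log_FF hz0]
      have hzn : ‖z‖ ≤ T - 1 := by
        calc ‖z‖ = ‖(z - ⟨2, τ⟩) + ⟨2, τ⟩‖ := by rw [sub_add_cancel]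
          _ ≤ ‖z - ⟨2, τ⟩‖ + ‖(⟨2, τ⟩ : ℂ)‖ := norm_add_le _ _
          _ ≤ T - 1 := by linarith
      have h1 := h.pot.up' hzn
      have h2 : U0 z ≤ 2 := by
        have h3 := (Complex.abs_re_le_norm (z - ⟨2, τ⟩)).trans hz.le
        simp only [Complex.sub_re] at h3
        unfold U0
        rw [abs_le] at h3
        have : |z.re - 1 / 2| ≤ 4 := abs_le.2 ⟨by linarith [h3.1], by linarith [h3.2]⟩
        linarith
      nlinarith)
  have hlow : 0 ≤ Real.log ‖FF x Λ ⟨2, τ⟩‖ := by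
    rw [log_FF hp0]
    have h1 := (abs_le.1 (h.pot.edge ⟨2, τ⟩ (by simp only; linarith) (by linarith))).1
    simp only at h1
    nlinarith
  have hsub : ball (⟨1 / 2, τ⟩ : ℂ) 1 ⊆ ball (⟨2, τ⟩ : ℂ) (5 / 2) := by
    intro z hz
    rw [mem_ball, dist_eq_norm] at hz ⊢
    have e1 : (⟨1 / 2, τ⟩ : ℂ) - ⟨2, τ⟩ = ((-(3 / 2) : ℝ) : ℂ) := by
      apply Complex.ext
      · simp only [Complex.sub_re, Complex.ofReal_re]; norm_num
      · simp only [Complex.sub_im, Complex.ofReal_im]; ring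
    calc ‖z - ⟨2, τ⟩‖ = ‖(z - ⟨1 / 2, τ⟩) + ((⟨1 / 2, τ⟩ : ℂ) - ⟨2, τ⟩)‖ := by
          rw [sub_add_sub_cancel]
      _ ≤ ‖z - ⟨1 / 2, τ⟩‖ + ‖(⟨1 / 2, τ⟩ : ℂ) - ⟨2, τ⟩‖ := norm_add_le _ _
      _ < 5 / 2 := by
          rw [e1, Complex.norm_real, Real.norm_eq_abs, abs_neg, abs_of_pos (by norm_num)]
          linarith
  refine le_trans (setIntegral_mono_set hi.abs
        (Eventually.of_forall fun z => abs_nonneg _) hsub.eventuallyLE) (hb.trans ?_)
  have h3 : π ≤ 3.15 := Real.pi_lt_d2.le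
  calc π * (5 / 2) ^ 2 * (2 * (3 * x) - Real.log ‖FF x Λ ⟨2, τ⟩‖) ≤
        π * (5 / 2) ^ 2 * (2 * (3 * x)) := by
        gcongr
        linarith
    _ ≤ 3.15 * (5 / 2) ^ 2 * (2 * (3 * x)) := by gcongr
    _ ≤ 120 * x := by nlinarith

/-- near the right edge -/
lemma right_edge (h : St η x T Λ) (hη0 : 0 ≤ η) {δ : ℝ} (hδ : 0 < δ) (hδ1 : δ ≤ 1 / 20) (hη : η ≤ δ)
    (hx : 0 < x) {z : ℂ} (hz : z.re = 1 - 3 * δ) (hT : |z.im| + 6 ≤ T) :
    ∫ w in ball z δ, |Real.log ‖FF x Λ w‖| ≤ 1500 * δ ^ 3 * x := by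
  have hpi := Real.pi_pos
  set p : ℂ := ⟨1 + 2 * δ, z.im⟩ with hp
  have hpn : ‖p‖ ≤ 2 + |z.im| := by
    refine (Complex.norm_le_abs_re_add_abs_im _).trans ?_
    rw [hp]
    simp only
    rw [abs_of_pos (by linarith)]
    linarith
  have hp0 : Λ p ≠ 0 := h.pot.ne _ (by rw [hp]; simp only; linarith) (by linarith)
  obtain ⟨hi, hb⟩ := disc_L1 (FF_diff h.pot.ent x) (c := p) (r := 6 * δ) (M := 6 * δ * x)
    (by positivity) (FF_ne.2 hp0) (by positivity) (fun w hw => by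
      rw [mem_ball, dist_eq_norm] at hw
      have h3 := (Complex.abs_re_le_norm (w - p)).trans hw.le
      rw [hp] at h3
      simp only [Complex.sub_re] at h3
      rw [abs_le] at h3
      rcases le_or_gt w.re (1 + η) with h4 | h4
      · refine FF_le (by positivity) ((h.le w (by linarith [h3.1]) h4).trans
          (Real.exp_le_exp.2 ?_))
        nlinarith
      · have hwn : ‖w‖ ≤ T := by
          calc ‖w‖ = ‖(w - p) + p‖ := by rw [sub_add_cancel]
            _ ≤ ‖w - p‖ + ‖p‖ := norm_add_le _ _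
            _ ≤ T := by linarith
        have hw0 := h.pot.ne w h4.le hwn
        have h5 := (abs_le.1 (h.pot.edge w h4.le hwn)).2
        rw [log_FF hw0]
        nlinarith [h3.2])
  have hlow : 0 ≤ Real.log ‖FF x Λ p‖ := by
    rw [log_FF hp0]
    have h1 := (abs_le.1 (h.pot.edge p (by rw [hp]; simp only; linarith) (by linarith))).1
    have h2 : p.re = 1 + 2 * δ := by rw [hp]
    rw [h2] at h1
    nlinarith
  have hsub : ball z δ ⊆ ball p (6 * δ) := by
    intro w hw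
    rw [mem_ball, dist_eq_norm] at hw ⊢
    have e1 : z - p = ((-(5 * δ) : ℝ) : ℂ) := by
      apply Complex.ext
      · rw [Complex.sub_re, Complex.ofReal_re, hz, hp]; ring
      · rw [Complex.sub_im, Complex.ofReal_im, hp]; ring
    calc ‖w - p‖ = ‖(w - z) + (z - p)‖ := by rw [sub_add_sub_cancel]
      _ ≤ ‖w - z‖ + ‖z - p‖ := norm_add_le _ _
      _ < 6 * δ := by
          rw [e1, Complex.norm_real, Real.norm_eq_abs, abs_neg, abs_of_pos (by positivity)]
          linarith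
  refine le_trans (setIntegral_mono_set hi.abs
        (Eventually.of_forall fun z => abs_nonneg _) hsub.eventuallyLE) (hb.trans ?_)
  have h3 : π ≤ 3.15 := Real.pi_lt_d2.le
  have h4 : 0 < δ ^ 3 * x := by positivity
  calc π * (6 * δ) ^ 2 * (2 * (6 * δ * x) - Real.log ‖FF x Λ p‖) ≤
        π * (6 * δ) ^ 2 * (2 * (6 * δ * x)) := by
        gcongr
        linarith
    _ ≤ 3.15 * (6 * δ) ^ 2 * (2 * (6 * δ * x)) := by gcongr
    _ = 3.15 * 432 * (δ ^ 3 * x) := by ring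
    _ ≤ 1500 * (δ ^ 3 * x) := mul_le_mul_of_nonneg_right (by norm_num) h4.le
    _ = _ := by ring

lemma FF_sym (h : ∀ s : ℂ, ‖Λ (1 - conj s)‖ = ‖Λ s‖) (z : ℂ) :
    |Real.log ‖FF x Λ (rfl' z)‖| = |Real.log ‖FF x Λ z‖| := by
  rw [FF_norm, FF_norm]
  unfold rfl'
  rw [h]

lemma int_rfl {V : ℂ → ℝ} (hV : ∀ z, V (rfl' z) = V z) (z : ℂ) (r : ℝ) :
    ∫ w in ball z r, V w = ∫ w in ball (rfl' z) r, V w := by
  rw [← rfl_mp.setIntegral_preimage_emb rfl_emb V (ball (rfl' z) r)]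
  have h1 : rfl' ⁻¹' (ball (rfl' z) r) = ball z r := by
    ext w
    rw [mem_preimage, mem_ball, mem_ball, dist_eq_norm, dist_eq_norm]
    have : rfl' w - rfl' z = -conj (w - z) := by
      unfold rfl'
      rw [map_sub]
      ring
    rw [this, norm_neg, Complex.norm_conj]
  rw [h1]
  exact setIntegral_congr_fun measurableSet_ball fun w _ => (hV w).symm

/-- near both edges -/
lemma both_edges (h : St η x T Λ) (hη0 : 0 ≤ η) {δ : ℝ} (hδ : 0 < δ) (hδ1 : δ ≤ 1 / 20) (hη : η ≤ δ)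
    (hx : 0 < x) {z : ℂ} (hz : z.re = 1 - 3 * δ ∨ z.re = 3 * δ) (hT : |z.im| + 6 ≤ T) :
    ∫ w in ball z δ, |Real.log ‖FF x Λ w‖| ≤ 1500 * δ ^ 3 * x := by
  rcases hz with hz | hz
  · exact right_edge h hη0 hδ hδ1 hη hx hz hT
  · rw [int_rfl (V := fun w => |Real.log ‖FF x Λ w‖|) (FF_sym h.pot.sym)]
    refine right_edge h hη0 hδ hδ1 hη hx ?_ ?_
    · unfold rfl'
      rw [re_conj_sub, hz]
    · unfold rfl'
      have : (1 - conj z).im = z.im := by simp
      rw [this]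
      exact hT

end

lemma cos_re' (w : ℂ) : (Complex.cos w).re = Real.cos w.re * Real.cosh w.im := by
  rw [Complex.cos_eq]
  simp [Complex.cos_ofReal_re, Complex.cosh_ofReal_re]

/-- the rectangle -/
def rect (δ t₀ H : ℝ) : Set ℂ := {z : ℂ | δ ≤ z.re ∧ z.re ≤ 1 - δ ∧ |z.im - t₀| ≤ H}

end Pool.Agent.H465.PT
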