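import Pool.Agent.H465.PT.R

/-!
# Few zeros away from the edges: the main estimate
-/

set_option autoImplicit false

open MeasureTheory Metric Set Filter Topology
open scoped Real ENNReal ComplexConjugate

namespace Pool.Agent.H465.PT

open Pool.Agent.H465.EQ

lemma le_cosh (y : ℝ) (hy : 0 ≤ y) : y / 2 ≤ Real.cosh y := by
  rw [Real.cosh_eq]
  have h1 := Real.add_one_le_exp y
  have h2 := Real.exp_pos (-y)
  linarith

lemma cos_ge {y : ℝ} (hy : |y| ≤ 1) : Real.cos 1 ≤ Real.cos y := by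
  rw [← Real.cos_abs y]
  exact Real.cos_le_cos_of_nonneg_of_le_pi (abs_nonneg _) (by linarith [Real.pi_gt_three]) hy

/-- **The barrier.** -/
theorem barrier {g : ℂ → ℂ} (hg : Differentiable ℂ g) {δ H t₀ a A κ : ℝ} (hδ0 : 0 < δ) (hδ : δ ≤ 1 / 20)
    (hH : 1 ≤ H) (ha : 0 ≤ a) (hκ : 0 ≤ κ)
    (hne : ∀ z ∈ rect δ t₀ (H + 1), g z ≠ 0)
    (hv : ∀ z : ℂ, (z.re = 1 - 3 * δ ∨ z.re = 3 * δ) → |z.im - t₀| ≤ H → |Real.log ‖g z‖| ≤ a)
    (hh : ∀ z : ℂ, 3 * δ ≤ z.re → z.re ≤ 1 - 3 * δ → |z.im - t₀| = H → |Real.log ‖g z‖| ≤ A)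
    (hA : A ≤ κ * (Real.cos 1 * Real.cosh (2 * H))) :
    ∀ z ∈ ball (⟨1 / 2, t₀⟩ : ℂ) (1 / 4), -(a + 3 * κ) ≤ Real.log ‖g z‖ := by
  intro z hz
  set c₀ : ℂ := ⟨1 / 2, t₀⟩ with hc₀
  set U : Set ℂ := Ioo (3 * δ) (1 - 3 * δ) ×ℂ Ioo (t₀ - H) (t₀ + H) with hU
  have hUb : Bornology.IsBounded U := (Metric.isBounded_Ioo _ _).reProdIm (Metric.isBounded_Ioo _ _)
  have hne1 : 3 * δ ≠ 1 - 3 * δ := by
    intro h
    linarith
  have hcl : closure U = Icc (3 * δ) (1 - 3 * δ) ×ℂ Icc (t₀ - H) (t₀ + H) := by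
    rw [hU, Complex.closure_reProdIm, closure_Ioo hne1, closure_Ioo (by linarith)]
  have hclR : ∀ w ∈ closure U, w ∈ rect δ t₀ (H + 1) := by
    intro w hw
    rw [hcl, Complex.mem_reProdIm] at hw
    obtain ⟨⟨h1, h2⟩, h3, h4⟩ := hw
    exact ⟨by linarith, by linarith, abs_le.2 ⟨by linarith, by linarith⟩⟩
  set G : ℂ → ℂ := fun w => (g w)⁻¹ * Complex.exp (-(κ : ℂ) * Complex.cos (2 * (w - c₀))) with hG
  have hGd : DiffContOnCl ℂ G U := by
    refine DifferentiableOn.diffContOnCl ?_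
    refine DifferentiableOn.mul (hg.differentiableOn.inv fun w hw => hne w (hclR w hw)) ?_
    refine Differentiable.differentiableOn ?_
    exact (((((differentiable_id.sub_const c₀).const_mul 2)).ccos).const_mul (-(κ : ℂ))).cexp
  have hGn : ∀ w : ℂ, g w ≠ 0 → ‖G w‖ = Real.exp (-Real.log ‖g w‖ -
      κ * (Real.cos (2 * (w.re - 1 / 2)) * Real.cosh (2 * (w.im - t₀)))) := by
    intro w hw
    have e1 : (-(κ : ℂ) * Complex.cos (2 * (w - c₀))).re =
        -(κ * (Real.cos (2 * (w.re - 1 / 2)) * Real.cosh (2 * (w.im - t₀)))) := by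
      rw [← Complex.ofReal_neg, Complex.re_ofReal_mul, cos_re']
      have e2 : (2 * (w - c₀)).re = 2 * (w.re - 1 / 2) := by simp [hc₀]
      have e3 : (2 * (w - c₀)).im = 2 * (w.im - t₀) := by simp [hc₀]
      rw [e2, e3]
      ring
    rw [hG]
    simp only
    rw [norm_mul, norm_inv, Complex.norm_exp, e1, sub_eq_add_neg (-Real.log ‖g w‖), Real.exp_add,
      Real.exp_neg (Real.log ‖g w‖), Real.exp_log (norm_pos_iff.2 hw)]
  have hcos : ∀ w : ℂ, 3 * δ ≤ w.re → w.re ≤ 1 - 3 * δ →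
      Real.cos 1 ≤ Real.cos (2 * (w.re - 1 / 2)) := by
    intro w h1 h2
    exact cos_ge (abs_le.2 ⟨by linarith, by linarith⟩)
  have hc1 : 0 < Real.cos 1 := Real.cos_one_pos
  rw [mem_ball, dist_eq_norm] at hz
  have hzr := (Complex.abs_re_le_norm (z - c₀)).trans_lt hz
  have hzi := (Complex.abs_im_le_norm (z - c₀)).trans_lt hz
  rw [hc₀] at hzr hzi
  simp only [Complex.sub_re, Complex.sub_im] at hzr hzi
  rw [abs_lt] at hzr hzi
  have hzc : z ∈ closure U := by
    rw [hcl, Complex.mem_reProdIm]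
    exact ⟨⟨by linarith [hzr.1], by linarith [hzr.2]⟩, ⟨by linarith [hzi.1], by linarith [hzi.2]⟩⟩
  have key : ‖G z‖ ≤ Real.exp a := by
    refine Complex.norm_le_of_forall_mem_frontier_norm_le hUb hGd ?_ hzc
    intro w hw
    have hwc : w ∈ closure U := frontier_subset_closure hw
    have hf1 : frontier (Ioo (3 * δ) (1 - 3 * δ)) = {3 * δ, 1 - 3 * δ} :=
      frontier_Ioo (by linarith)
    have hf2 : frontier (Ioo (t₀ - H) (t₀ + H)) = {t₀ - H, t₀ + H} := frontier_Ioo (by linarith)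
    have hc1' : closure (Ioo (3 * δ) (1 - 3 * δ)) = Icc (3 * δ) (1 - 3 * δ) := closure_Ioo hne1
    have hc2' : closure (Ioo (t₀ - H) (t₀ + H)) = Icc (t₀ - H) (t₀ + H) :=
      closure_Ioo (by linarith)
    rw [hU, Complex.frontier_reProdIm, hc1', hc2', hf1, hf2] at hw
    rw [hGn w (hne w (hclR w hwc))]
    refine Real.exp_le_exp.2 ?_
    rw [hcl, Complex.mem_reProdIm] at hwc
    obtain ⟨⟨h1, h2⟩, h3, h4⟩ := hwc
    have h5 := hcos w h1 h2
    have h6 := Real.one_le_cosh (2 * (w.im - t₀))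
    have h7 : 0 ≤ κ * (Real.cos (2 * (w.re - 1 / 2)) * Real.cosh (2 * (w.im - t₀))) :=
      mul_nonneg hκ (mul_nonneg (by linarith) (by linarith))
    rcases hw with hw | hw
    · rw [Complex.mem_reProdIm] at hw
      obtain ⟨-, h8⟩ := hw
      have h9 : |w.im - t₀| = H := by
        rcases h8 with h8 | h8
        · rw [h8, sub_sub_cancel_left, abs_neg, abs_of_nonneg (by linarith)]
        · rw [h8, add_sub_cancel_left, abs_of_nonneg (by linarith)]
      have h10 := (abs_le.1 (hh w h1 h2 h9)).1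
      have h11 : Real.cosh (2 * (w.im - t₀)) = Real.cosh (2 * H) := by
        rw [← Real.cosh_abs, abs_mul, h9, abs_of_pos (by norm_num : (0 : ℝ) < 2)]
      have h12 : κ * (Real.cos 1 * Real.cosh (2 * H)) ≤
          κ * (Real.cos (2 * (w.re - 1 / 2)) * Real.cosh (2 * (w.im - t₀))) := by
        rw [h11]
        have := Real.cosh_pos (2 * H)
        gcongr
      linarith
    · rw [Complex.mem_reProdIm] at hw
      obtain ⟨h8, -⟩ := hw
      have h9 : |w.im - t₀| ≤ H := abs_le.2 ⟨by linarith, by linarith⟩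
      have h10 : w.re = 1 - 3 * δ ∨ w.re = 3 * δ := by
        rcases h8 with h8 | h8
        · exact Or.inr h8
        · exact Or.inl h8
      have h11 := (abs_le.1 (hv w h10 h9)).1
      linarith
  rw [hGn z (hne z (hclR z hzc)), Real.exp_le_exp] at key
  have h13 : Real.cos (2 * (z.re - 1 / 2)) * Real.cosh (2 * (z.im - t₀)) ≤ 3 := by
    have h14 : Real.cosh (2 * (z.im - t₀)) ≤ 3 := by
      rw [← Real.cosh_abs]
      have h15 : |2 * (z.im - t₀)| ≤ 1 := abs_le.2 ⟨by linarith [hzi.1], by linarith [hzi.2]⟩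
      have h16 : Real.cosh |2 * (z.im - t₀)| ≤ Real.exp |2 * (z.im - t₀)| := by
        rw [Real.cosh_eq]
        have : Real.exp (-|2 * (z.im - t₀)|) ≤ Real.exp |2 * (z.im - t₀)| :=
          Real.exp_le_exp.2 (by linarith [abs_nonneg (2 * (z.im - t₀))])
        linarith
      have h17 := Real.exp_le_exp.2 h15
      linarith [Real.exp_one_lt_three]
    have h15 : 0 ≤ Real.cosh (2 * (z.im - t₀)) := (Real.cosh_pos _).le
    calc Real.cos (2 * (z.re - 1 / 2)) * Real.cosh (2 * (z.im - t₀)) ≤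
          1 * Real.cosh (2 * (z.im - t₀)) := mul_le_mul_of_nonneg_right (Real.cos_le_one _) h15
      _ ≤ 3 := by linarith
  have h18 := mul_le_mul_of_nonneg_left h13 hκ
  linarith

/-- **Few zeros away from the edges.** -/
theorem maximal {ε : ℝ} (hε : 0 < ε) : ∃ δ H ω : ℝ, 0 < δ ∧ δ ≤ 1 / 20 ∧ 1 ≤ H ∧ 0 < ω ∧ ω ≤ δ ∧
    ∀ (x t₀ T : ℝ) (Λ : ℂ → ℂ), 0 < x → |t₀| + H + 10 ≤ T → St ω x T Λ →
      nz Λ (rect δ t₀ (H + 1)) ≤ ω * x →
      ∫ z in ball (⟨1 / 2, t₀⟩ : ℂ) (1 / 4), |Real.log ‖FF x Λ z‖| ≤ ε * x := by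
  have hpi := Real.pi_pos
  set δ : ℝ := min (1 / 20) (ε / 400000) with hδdef
  have hδ : 0 < δ := by positivity
  have hδ1 : δ ≤ 1 / 20 := min_le_left _ _
  have hδ2 : 100000 * δ ≤ ε / 4 := by
    have : δ ≤ ε / 400000 := min_le_right _ _
    linarith
  set κ : ℝ := ε / 12 with hκ
  have hκ0 : 0 < κ := by positivity
  have hc1 : 0 < Real.cos 1 := Real.cos_one_pos
  set A : ℝ := 8000 / δ ^ 2 with hA
  have hA0 : 0 < A := by positivity
  set H : ℝ := 1 + A / (κ * Real.cos 1) with hH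
  have hH1 : 1 ≤ H := by
    have : 0 < A / (κ * Real.cos 1) := by positivity
    linarith
  have hAH : A ≤ κ * (Real.cos 1 * Real.cosh (2 * H)) := by
    have h1 := le_cosh (2 * H) (by linarith)
    have h2 : A / (κ * Real.cos 1) ≤ Real.cosh (2 * H) := by
      have : 2 * H / 2 = H := by ring
      linarith
    rw [div_le_iff₀ (by positivity)] at h2
    linarith
  set R₀ : ℝ := 2 * H + 10 with hR₀
  set ω : ℝ := min δ (min (δ ^ 3 * 10 / (lmass R₀ + 1)) (ε / (8 * (lmass R₀ + 1)))) with hω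
  have hlm := lmass_nonneg R₀
  have hω0 : 0 < ω := by positivity
  have hωδ : ω ≤ δ := min_le_left _ _
  have hω1 : ω * lmass R₀ ≤ δ ^ 3 * 10 := by
    have : ω ≤ δ ^ 3 * 10 / (lmass R₀ + 1) := (min_le_right _ _).trans (min_le_left _ _)
    calc ω * lmass R₀ ≤ δ ^ 3 * 10 / (lmass R₀ + 1) * (lmass R₀ + 1) := by gcongr; linarith
      _ = _ := by field_simp
  have hω2 : ω * lmass R₀ ≤ ε / 8 := by
    have : ω ≤ ε / (8 * (lmass R₀ + 1)) := (min_le_right _ _).trans (min_le_right _ _)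
    calc ω * lmass R₀ ≤ ε / (8 * (lmass R₀ + 1)) * (lmass R₀ + 1) := by gcongr; linarith
      _ = _ := by field_simp
  refine ⟨δ, H, ω, hδ, hδ1, hH1, hω0, hωδ, fun x t₀ T Λ hx hT h hnz => ?_⟩
  set f : ℂ → ℂ := FF x Λ with hf
  have hfd : Differentiable ℂ f := FF_diff h.pot.ent x
  have h2 : Λ 2 ≠ 0 := by
    refine h.pot.ne 2 ?_ ?_
    · simp only [Complex.re_ofNat]
      linarith
    · have := abs_nonneg t₀
      simp only [Complex.norm_ofNat]
      linarith
  have hf2 : f 2 ≠ 0 := FF_ne.2 h2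
  have hmuf : ∀ u, mu f u = mu Λ u := by
    intro u
    have hk : Differentiable ℂ fun _ : ℂ => ((Real.exp (-(x / 2)) : ℝ) : ℂ) :=
      differentiable_const _
    have h3 := mu_mul_ne h.pot.ent hk (fun _ => by exact_mod_cast (Real.exp_pos _).ne') u
    rw [← h3]
    congr 1
    funext z
    rw [hf]
    unfold FF
    ring
  -- the zeros in the rectangle
  set S : Set ℂ := rect δ t₀ (H + 1) with hS
  set c₀ : ℂ := ⟨1 / 2, t₀⟩ with hc₀
  have hSc : ∀ u ∈ S, u ∈ closedBall c₀ (H + 2) := by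
    rintro u ⟨h3, h4, h5⟩
    rw [mem_closedBall, dist_eq_norm]
    refine (Complex.norm_le_abs_re_add_abs_im _).trans ?_
    rw [Complex.sub_re, Complex.sub_im, hc₀]
    simp only
    have : |u.re - 1 / 2| ≤ 1 / 2 := abs_le.2 ⟨by linarith, by linarith⟩
    linarith
  classical
  have hfin := fin_zeros hfd hf2 c₀ (H + 2)
  set Z : Finset ℂ := hfin.toFinset.filter (· ∈ S) with hZ
  have hZS : ∀ u ∈ Z, u ∈ S := fun u hu => (Finset.mem_filter.1 hu).2
  have hZc : ∀ u ∈ Z, u ∈ closedBall c₀ (H + 2) := fun u hu => hSc u (hZS u hu)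
  have hSZ : ∀ u ∈ S, f u = 0 → u ∈ Z := fun u h3 h4 =>
    Finset.mem_filter.2 ⟨(Finite.mem_toFinset hfin).2 ⟨h4, hSc u h3⟩, h3⟩
  obtain ⟨g, hg, hgZ, hfg⟩ := factor hfd hf2 Z
  have hgne : ∀ z ∈ S, g z ≠ 0 := by
    intro z hz h3
    by_cases hzZ : z ∈ Z
    · exact hgZ z hzZ h3
    · exact hzZ (hSZ z hz (by rw [hfg, h3, mul_zero]))
  have hg2 : g 2 ≠ 0 := fun h3 => hf2 (by rw [hfg, h3, mul_zero])
  set N : ℝ := ∑ u ∈ Z, mu f u with hN
  have hN0 : 0 ≤ N := Finset.sum_nonneg fun u _ => mu_nonneg _ _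
  have hNx : N ≤ ω * x := by
    have : nz f S = N := nz_eq hSZ hZS hfd
    rw [← this]
    unfold nz
    simp only [hmuf]
    exact hnz
  have hPP : ∀ {z : ℂ} {r : ℝ}, ‖z - c₀‖ + r ≤ H + 3 →
      IntegrableOn (fun w => |Real.log ‖PP f Z w‖|) (ball z r) ∧
      ∫ w in ball z r, |Real.log ‖PP f Z w‖| ≤ N * lmass R₀ := by
    intro z r hz
    exact PP_L1 hZc (by rw [hR₀]; linarith)
  have hNl : N * lmass R₀ ≤ ω * lmass R₀ * x := by
    calc N * lmass R₀ ≤ ω * x * lmass R₀ := mul_le_mul_of_nonneg_right hNx hlm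
      _ = _ := by ring
  have hae : ∀ B : Set ℂ, ∀ᵐ z ∂(volume.restrict B), Real.log ‖f z‖ =
      Real.log ‖PP f Z z‖ + Real.log ‖g z‖ := by
    intro B
    have h2 : ∀ᵐ z ∂(volume.restrict B), z ∉ (Z : Set ℂ) :=
      ae_restrict_of_ae (Set.Countable.ae_notMem Z.countable_toSet _)
    have h3 : ∀ᵐ z ∂(volume.restrict B), g z ≠ 0 := ae_restrict_of_ae (ae_ne hg hg2)
    filter_upwards [h2, h3] with z hz hgz
    rw [hfg z, norm_mul, Real.log_mul (norm_ne_zero_iff.2 (PP_ne (by simpa using hz)))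
      (norm_ne_zero_iff.2 hgz)]
  have hgint : ∀ {z : ℂ} {r a : ℝ}, ‖z - c₀‖ + r ≤ H + 3 →
      ∫ w in ball z r, |Real.log ‖f w‖| ≤ a →
      ∫ w in ball z r, |Real.log ‖g w‖| ≤ a + N * lmass R₀ := by
    intro z r a hz ha
    obtain ⟨hPi, hPb⟩ := hPP hz
    have h3 : ∫ w in ball z r, |Real.log ‖g w‖| ≤
        ∫ w in ball z r, (|Real.log ‖f w‖| + |Real.log ‖PP f Z w‖|) := by
      refine integral_mono_ae (intOn_log hg hg2 z r).abs ((intOn_log hfd hf2 z r).abs.add hPi) ?_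
      filter_upwards [hae (ball z r)] with w hw
      have h4 : Real.log ‖g w‖ = Real.log ‖f w‖ - Real.log ‖PP f Z w‖ := by rw [hw]; ring
      rw [h4]
      exact abs_sub _ _
    rw [integral_add (intOn_log hfd hf2 z r).abs hPi] at h3
    linarith
  have hnorm : ∀ {z : ℂ}, 0 ≤ z.re → z.re ≤ 1 → |z.im - t₀| ≤ H → ‖z - c₀‖ ≤ H + 1 / 2 := by
    intro z h3 h4 h5
    refine (Complex.norm_le_abs_re_add_abs_im _).trans ?_
    rw [Complex.sub_re, Complex.sub_im, hc₀]
    simp only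
    have : |z.re - 1 / 2| ≤ 1 / 2 := abs_le.2 ⟨by linarith, by linarith⟩
    linarith
  have hballS : ∀ {z : ℂ}, 3 * δ ≤ z.re → z.re ≤ 1 - 3 * δ → |z.im - t₀| ≤ H →
      ∀ w ∈ ball z δ, g w ≠ 0 := by
    intro z h3 h4 h5 w hw
    rw [mem_ball, dist_eq_norm] at hw
    have h6 := (Complex.abs_re_le_norm (w - z)).trans_lt hw
    have h7 := (Complex.abs_im_le_norm (w - z)).trans_lt hw
    rw [Complex.sub_re, abs_lt] at h6
    rw [Complex.sub_im, abs_lt] at h7
    rw [abs_le] at h5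
    exact hgne w ⟨by linarith, by linarith, abs_le.2 ⟨by linarith [h5.1], by linarith [h5.2]⟩⟩
  have him : ∀ {z : ℂ}, |z.im - t₀| ≤ H → |z.im| + 6 ≤ T := by
    intro z h3
    have h4 : |z.im| ≤ |z.im - t₀| + |t₀| := by
      have := abs_add_le (z.im - t₀) t₀
      rwa [sub_add_cancel] at this
    linarith
  -- the vertical sides
  have hv : ∀ z : ℂ, (z.re = 1 - 3 * δ ∨ z.re = 3 * δ) → |z.im - t₀| ≤ H →
      |Real.log ‖g z‖| ≤ 100000 * δ * x := by
    intro z hz hzi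
    have h3 : 3 * δ ≤ z.re ∧ z.re ≤ 1 - 3 * δ := by
      rcases hz with hz | hz
      · exact ⟨by linarith, by linarith⟩
      · exact ⟨by linarith, by linarith⟩
    have h4 := both_edges h hω0.le hδ hδ1 hωδ hx hz (him hzi)
    have h5 := hnorm (z := z) (by linarith [h3.1]) (by linarith [h3.2]) hzi
    have h6 := hgint (z := z) (r := δ) (by linarith) h4
    have h7 : ∫ w in ball z δ, |Real.log ‖g w‖| ≤ 1510 * δ ^ 3 * x := by
      have : ω * lmass R₀ * x ≤ δ ^ 3 * 10 * x := mul_le_mul_of_nonneg_right hω1 hx.le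
      linarith
    refine (harm_pt hg hδ (by positivity) (hballS h3.1 h3.2 hzi) h7).trans ?_
    have e : 64 * (1510 * δ ^ 3 * x) / δ ^ 2 = 96640 * (δ * x) := by field_simp; ring
    rw [e]
    have : 0 < δ * x := by positivity
    linarith
  -- the horizontal sides
  have hh : ∀ z : ℂ, 3 * δ ≤ z.re → z.re ≤ 1 - 3 * δ → |z.im - t₀| = H →
      |Real.log ‖g z‖| ≤ A * x := by
    intro z h3 h3' hzi
    have h4 := crude h (by linarith) hx (τ := z.im) (him hzi.le)
    have h5 := hnorm (z := z) (by linarith) (by linarith) hzi.le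
    have hsub : ball z δ ⊆ ball (⟨1 / 2, z.im⟩ : ℂ) 1 := by
      intro w hw
      rw [mem_ball, dist_eq_norm] at hw ⊢
      have e1 : z - (⟨1 / 2, z.im⟩ : ℂ) = ((z.re - 1 / 2 : ℝ) : ℂ) := by
        apply Complex.ext
        · simp only [Complex.sub_re, Complex.ofReal_re]
        · simp only [Complex.sub_im, Complex.ofReal_im]; ring
      calc ‖w - ⟨1 / 2, z.im⟩‖ = ‖(w - z) + (z - ⟨1 / 2, z.im⟩)‖ := by rw [sub_add_sub_cancel]
        _ ≤ ‖w - z‖ + ‖z - ⟨1 / 2, z.im⟩‖ := norm_add_le _ _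
        _ < 1 := by
            rw [e1, Complex.norm_real, Real.norm_eq_abs]
            have : |z.re - 1 / 2| ≤ 1 / 2 := abs_le.2 ⟨by linarith, by linarith⟩
            linarith
    have h6 : ∫ w in ball z δ, |Real.log ‖f w‖| ≤ 120 * x :=
      le_trans (setIntegral_mono_set (intOn_log hfd hf2 _ _).abs
        (Eventually.of_forall fun z => abs_nonneg _) hsub.eventuallyLE) h4
    have h7 := hgint (z := z) (r := δ) (by linarith) h6
    have hδ3 : δ ^ 3 * 10 ≤ 1 := by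
      have : δ ^ 3 ≤ (1 / 20) ^ 3 := pow_le_pow_left₀ hδ.le hδ1 3
      linarith
    have h8 : ∫ w in ball z δ, |Real.log ‖g w‖| ≤ 121 * x := by
      have : ω * lmass R₀ * x ≤ 1 * x := mul_le_mul_of_nonneg_right (hω1.trans hδ3) hx.le
      linarith
    refine (harm_pt hg hδ (by positivity) (hballS h3 h3' hzi.le) h8).trans ?_
    rw [hA, div_mul_eq_mul_div]
    refine div_le_div_of_nonneg_right ?_ (by positivity)
    linarith
  have hbar := barrier hg (t₀ := t₀) (a := 100000 * δ * x) (A := A * x) (κ := κ * x) hδ hδ1 hH1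
    (by positivity) (by positivity) hgne hv hh (by
      calc A * x ≤ κ * (Real.cos 1 * Real.cosh (2 * H)) * x :=
            mul_le_mul_of_nonneg_right hAH hx.le
        _ = _ := by ring)
  -- the conclusion
  obtain ⟨hPi, hPb⟩ := hPP (z := c₀) (r := 1 / 4) (by rw [sub_self, norm_zero]; linarith)
  have hfin1 : ∫ z in ball c₀ (1 / 4), |Real.log ‖f z‖| ≤
      ∫ z in ball c₀ (1 / 4), (|Real.log ‖PP f Z z‖| +
        (2 * ω * x + (100000 * δ * x + 3 * (κ * x)))) := by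
    refine integral_mono_ae (intOn_log hfd hf2 _ _).abs (hPi.add (intConst _ _ _)) ?_
    filter_upwards [hae (ball c₀ (1 / 4)), ae_restrict_mem measurableSet_ball] with z hz hzb
    have h3 := hbar z hzb
    have h4 : Real.log ‖f z‖ ≤ ω * x := by
      refine FF_le (by positivity) ((h.le z ?_ ?_).trans (Real.exp_le_exp.2 (by linarith)))
      · rw [mem_ball, dist_eq_norm] at hzb
        have := (Complex.abs_re_le_norm (z - c₀)).trans_lt hzb
        rw [Complex.sub_re, hc₀, abs_lt] at this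
        simp only at this
        linarith [this.1]
      · rw [mem_ball, dist_eq_norm] at hzb
        have := (Complex.abs_re_le_norm (z - c₀)).trans_lt hzb
        rw [Complex.sub_re, hc₀, abs_lt] at this
        simp only at this
        linarith [this.2]
    have h5 := neg_abs_le (Real.log ‖PP f Z z‖)
    have h6 : 0 ≤ |Real.log ‖PP f Z z‖| := abs_nonneg _
    have h7 : 0 ≤ 100000 * δ * x := by positivity
    have h8 : 0 ≤ κ * x := by positivity
    have h9 : 0 ≤ ω * x := by positivity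
    rw [abs_le]
    constructor
    · rw [hz]
      linarith
    · linarith
  rw [integral_add hPi (intConst _ _ _), setIntegral_const, vol_ball_real _ (by norm_num),
    smul_eq_mul] at hfin1
  have h10 : π * (1 / 4) ^ 2 ≤ 1 / 4 := by
    have := Real.pi_lt_four
    linarith
  have h11 : 0 ≤ 2 * ω * x + (100000 * δ * x + 3 * (κ * x)) := by positivity
  have h12 : π * (1 / 4) ^ 2 * (2 * ω * x + (100000 * δ * x + 3 * (κ * x))) ≤
      1 / 4 * (2 * ω * x + (100000 * δ * x + 3 * (κ * x))) := mul_le_mul_of_nonneg_right h10 h11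
  have h13 : 100000 * δ * x ≤ ε / 4 * x := mul_le_mul_of_nonneg_right hδ2 hx.le
  have h14 : 3 * (κ * x) = ε / 4 * x := by rw [hκ]; ring
  have h15 : 2 * ω * x ≤ ε / 4 * x := by
    have : 2 * ω ≤ ε / 4 := by linarith
    exact mul_le_mul_of_nonneg_right this hx.le
  have h16 : ω * lmass R₀ * x ≤ ε / 8 * x := mul_le_mul_of_nonneg_right hω2 hx.le
  have h17 : 0 < ε * x := by positivity
  linarith

end Pool.Agent.H465.PT
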