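import Pool.Agent.H465.PT.S

/-!
# No gaps between the zeros
-/

set_option autoImplicit false

open MeasureTheory Metric Set Filter Topology
open scoped Real ENNReal ComplexConjugate

namespace Pool.Agent.H465.PT

open Pool.Agent.H465.EQ

/-- the window -/
def win (h t : ℝ) : Set ℂ := {z : ℂ | |z.re| ≤ 3 ∧ |z.im - t| < h}

lemma win_sub {h t : ℝ} : win h t ⊆ closedBall 0 (3 + |t| + |h|) := by
  rintro z ⟨h1, h2⟩
  rw [mem_closedBall_zero_iff]
  refine (Complex.norm_le_abs_re_add_abs_im _).trans ?_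
  have h3 : |z.im| ≤ |z.im - t| + |t| := by
    have := abs_add_le (z.im - t) t
    rwa [sub_add_cancel] at this
  have := le_abs_self h
  linarith

/-- the chain of discs -/
theorem chain {h : ℝ} (hh : 0 < h) (hh1 : h ≤ 1 / 4) (m : ℕ) : (m : ℝ) * (h / 4) ≤ 3 → ∀ ε : ℝ,
    0 < ε → ∃ ω : ℝ, 0 < ω ∧ ω ≤ 1 ∧ ∀ x : ℝ, 0 < x → ∀ (t T : ℝ) (Λ : ℂ → ℂ), |t| + 10 ≤ T →
      Pot (1 / 4) 1 (1 / 2) x T Λ → nz Λ (win h t) ≤ ω * x →
      (∫ z in ball (⟨3 / 2, t⟩ : ℂ) (h / 4), |Real.log ‖HH x Λ z‖| ≤ ω * x) →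
      ∫ z in ball (⟨3 / 2 - m * (h / 4), t⟩ : ℂ) (h / 4), |Real.log ‖HH x Λ z‖| ≤ ε * x := by
  induction m with
  | zero =>
    intro _ ε hε
    refine ⟨min ε 1, by positivity, min_le_right _ _, fun x hx t T Λ _ _ _ h1 => ?_⟩
    rw [Nat.cast_zero, zero_mul, sub_zero]
    exact h1.trans (mul_le_mul_of_nonneg_right (min_le_left _ _) hx.le)
  | succ m ih =>
    intro hm ε hε
    have hm' : (m : ℝ) * (h / 4) + h / 4 ≤ 3 := by
      push_cast at hm
      linarith
    obtain ⟨ω₁, hω₁, hω₁1, hd⟩ := disc_mass (r₀ := h / 4) (ρ' := h / 2) (ρ := 3 / 4 * h)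
      (by positivity) (by linarith) (by linarith) hε (A := 3) (by norm_num)
    obtain ⟨ω₂, hω₂, hω₂1, hi⟩ := ih (by linarith) ω₁ hω₁
    refine ⟨min ω₁ ω₂, by positivity, (min_le_left _ _).trans hω₁1,
      fun x hx t T Λ hT hP hnz h1 => ?_⟩
    have hω1x : min ω₁ ω₂ * x ≤ ω₁ * x := mul_le_mul_of_nonneg_right (min_le_left _ _) hx.le
    have hω2x : min ω₁ ω₂ * x ≤ ω₂ * x := mul_le_mul_of_nonneg_right (min_le_right _ _) hx.le
    have h2 := hi x hx t T Λ hT hP (hnz.trans hω2x) (h1.trans hω2x)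
    have ht := abs_nonneg t
    have hΛ2 : Λ 2 ≠ 0 := hP.two (by norm_num) (by linarith)
    set a : ℂ := ⟨3 / 2 - m * (h / 4), t⟩ with ha
    have hm0 : (0 : ℝ) ≤ m * (h / 4) := by positivity
    have hball : ∀ z ∈ closedBall a (3 / 4 * h), |z.re| ≤ 2 ∧ |z.im - t| < h ∧ ‖z‖ ≤ T - 1 := by
      intro z hz
      rw [mem_closedBall, dist_eq_norm] at hz
      have h3 := (Complex.abs_re_le_norm (z - a)).trans hz
      have h4 := (Complex.abs_im_le_norm (z - a)).trans hz
      rw [Complex.sub_re, ha] at h3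
      rw [Complex.sub_im, ha] at h4
      simp only at h3 h4
      rw [abs_le] at h3
      have h5 : |z.re| ≤ 2 := abs_le.2 ⟨by linarith [h3.1], by linarith [h3.2]⟩
      have h6 : |z.im - t| < h := by linarith
      refine ⟨h5, h6, (Complex.norm_le_abs_re_add_abs_im _).trans ?_⟩
      have h7 : |z.im| ≤ |z.im - t| + |t| := by
        have := abs_add_le (z.im - t) t
        rwa [sub_add_cancel] at this
      linarith
    have h3 := hd x hx (HH x Λ) 2 a (HH_diff hP.ent x) (HH_ne.2 hΛ2) (fun z hz => by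
        obtain ⟨h4, h5, h6⟩ := hball z hz
        rw [abs_le] at h4
        by_cases hz0 : Λ z = 0
        · have : HH x Λ z = 0 := by unfold HH; rw [hz0, zero_mul]
          rw [this, norm_zero, Real.log_zero]
          positivity
        rw [log_HH hz0]
        have h7 := hP.up' h6
        have h8 : U0 z + 1 / 4 + 1 / 2 - z.re / 2 ≤ 3 := by
          unfold U0
          rcases le_or_gt (1 / 2) z.re with h9 | h9
          · rw [abs_of_nonneg (by linarith)]
            linarith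
          · rw [abs_of_neg (by linarith)]
            linarith [h4.1]
        have h9 := mul_le_mul_of_nonneg_right h8 hx.le
        linarith) (by
        rw [nz_HH hP.ent]
        refine (nz_mono hP.ent hΛ2 win_sub ?_).trans (hnz.trans hω1x)
        intro z hz
        obtain ⟨h4, h5, -⟩ := hball z hz
        exact ⟨by linarith, h5⟩) h2
    refine le_trans (setIntegral_mono_set (intOn_log (HH_diff hP.ent x) (HH_ne.2 hΛ2) _ _).abs
      (Eventually.of_forall fun z => abs_nonneg _) (HasSubset.Subset.eventuallyLE ?_)) h3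
    intro z hz
    rw [mem_ball, dist_eq_norm] at hz ⊢
    have e1 : (⟨3 / 2 - ((m + 1 : ℕ) : ℝ) * (h / 4), t⟩ : ℂ) - a = ((-(h / 4) : ℝ) : ℂ) := by
      apply Complex.ext
      · rw [Complex.sub_re, Complex.ofReal_re, ha]
        push_cast
        ring
      · rw [Complex.sub_im, Complex.ofReal_im, ha]
        ring
    calc ‖z - a‖ = ‖(z - ⟨3 / 2 - ((m + 1 : ℕ) : ℝ) * (h / 4), t⟩) +
          ((⟨3 / 2 - ((m + 1 : ℕ) : ℝ) * (h / 4), t⟩ : ℂ) - a)‖ := by rw [sub_add_sub_cancel]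
      _ ≤ ‖z - ⟨3 / 2 - ((m + 1 : ℕ) : ℝ) * (h / 4), t⟩‖ +
          ‖(⟨3 / 2 - ((m + 1 : ℕ) : ℝ) * (h / 4), t⟩ : ℂ) - a‖ := norm_add_le _ _
      _ < h / 2 := by
          rw [e1, Complex.norm_real, Real.norm_eq_abs, abs_neg, abs_of_pos (by positivity)]
          linarith

/-- **No gaps.** -/
theorem gap {h : ℝ} (hh : 0 < h) (hh1 : h ≤ 1 / 4) : ∃ ω : ℝ, 0 < ω ∧ ω ≤ 1 / 4 ∧
    ∀ x : ℝ, 0 < x → ∀ (t T : ℝ) (Λ : ℂ → ℂ), |t| + 10 ≤ T → Pot (1 / 4) ω (1 / 2) x T Λ →
      ω * x < nz Λ (win h t) := by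
  have hpi := Real.pi_pos
  set m : ℕ := ⌈8 / h⌉₊ with hm
  have hm1 : 8 / h ≤ m := Nat.le_ceil _
  have hm2 : (m : ℝ) < 8 / h + 1 := Nat.ceil_lt_add_one (by positivity)
  have hm3 : 2 ≤ (m : ℝ) * (h / 4) := by
    rw [div_le_iff₀ hh] at hm1
    linarith
  have hm4 : (m : ℝ) * (h / 4) ≤ 2 + h / 4 := by
    have := mul_le_mul_of_nonneg_right hm2.le (show 0 ≤ h / 4 by positivity)
    have e : (8 / h + 1) * (h / 4) = 2 + h / 4 := by
      field_simp
      ring
    linarith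
  set ε : ℝ := π * (h / 4) ^ 2 / 4 with hε
  have hε0 : 0 < ε := by positivity
  obtain ⟨ω, hω, hω1, hc⟩ := chain hh hh1 m (by linarith) ε hε0
  refine ⟨min ω (1 / 4), by positivity, min_le_right _ _, fun x hx t T Λ hT hP => ?_⟩
  by_contra hcon
  push Not at hcon
  have ht := abs_nonneg t
  have hΛ2 : Λ 2 ≠ 0 := hP.two (by norm_num) (by linarith)
  have hωx : min ω (1 / 4) * x ≤ ω * x := mul_le_mul_of_nonneg_right (min_le_left _ _) hx.le
  have hωx4 : min ω (1 / 4) * x ≤ 1 / 4 * x := mul_le_mul_of_nonneg_right (min_le_right _ _) hx.le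
  have hHi : ∀ (c : ℂ) (r : ℝ), IntegrableOn (fun z => |Real.log ‖HH x Λ z‖|) (ball c r) :=
    fun c r => (intOn_log (HH_diff hP.ent x) (HH_ne.2 hΛ2) c r).abs
  have h1 : ∫ z in ball (⟨3 / 2, t⟩ : ℂ) (h / 4), |Real.log ‖HH x Λ z‖| ≤ ω * x := by
    calc ∫ z in ball (⟨3 / 2, t⟩ : ℂ) (h / 4), |Real.log ‖HH x Λ z‖| ≤
          ∫ z in ball (⟨3 / 2, t⟩ : ℂ) (h / 4), ω * x := by
          refine setIntegral_mono_on (hHi _ _) (intConst _ _ _) measurableSet_ball fun z hz => ?_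
          rw [mem_ball, dist_eq_norm] at hz
          have h3 := (Complex.abs_re_le_norm (z - ⟨3 / 2, t⟩)).trans hz.le
          rw [Complex.sub_re] at h3
          simp only at h3
          rw [abs_le] at h3
          have h5 : ‖z‖ ≤ T := by
            have h6 : ‖(⟨3 / 2, t⟩ : ℂ)‖ ≤ 3 / 2 + |t| := by
              refine (Complex.norm_le_abs_re_add_abs_im _).trans ?_
              simp only
              rw [abs_of_pos (by norm_num)]
            calc ‖z‖ = ‖(z - ⟨3 / 2, t⟩) + ⟨3 / 2, t⟩‖ := by rw [sub_add_cancel]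
              _ ≤ ‖z - ⟨3 / 2, t⟩‖ + ‖(⟨3 / 2, t⟩ : ℂ)‖ := norm_add_le _ _
              _ ≤ T := by linarith
          have h6 : 1 + 1 / 4 ≤ z.re := by linarith [h3.1]
          rw [log_HH (hP.ne z h6 h5)]
          exact (hP.edge z h6 h5).trans hωx
      _ = π * (h / 4) ^ 2 * (ω * x) := by
          rw [setIntegral_const, vol_ball_real _ (by positivity), smul_eq_mul]
      _ ≤ 1 * (ω * x) := by
          refine mul_le_mul_of_nonneg_right ?_ (by positivity)
          have h3 : (h / 4) ^ 2 ≤ (1 / 16) ^ 2 := pow_le_pow_left₀ (by positivity) (by linarith) 2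
          have h4 := Real.pi_lt_four
          nlinarith
      _ = ω * x := one_mul _
  have h2 := hc x hx t T Λ hT (hP.mono le_rfl (by
    have := min_le_right ω (1 / 4)
    linarith) le_rfl hx.le) (hcon.trans hωx) h1
  set a : ℂ := ⟨3 / 2 - m * (h / 4), t⟩ with ha
  have h3 : π * (h / 4) ^ 2 * (x / 2) ≤ ∫ z in ball a (h / 4), |Real.log ‖HH x Λ z‖| := by
    have e : π * (h / 4) ^ 2 * (x / 2) = ∫ z in ball a (h / 4), x / 2 := by
      rw [setIntegral_const, vol_ball_real _ (by positivity), smul_eq_mul]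
    rw [e]
    refine setIntegral_mono_on (intConst _ _ _) (hHi _ _) measurableSet_ball fun z hz => ?_
    rw [mem_ball, dist_eq_norm] at hz
    have h3 := (Complex.abs_re_le_norm (z - a)).trans hz.le
    have h3' := (Complex.abs_im_le_norm (z - a)).trans hz.le
    rw [Complex.sub_re, ha] at h3
    rw [Complex.sub_im, ha] at h3'
    simp only at h3 h3'
    rw [abs_le] at h3
    have h4 : z.re ≤ -1 / 4 := by linarith [h3.2]
    have h5 : ‖z‖ ≤ |t| + 3 := by
      refine (Complex.norm_le_abs_re_add_abs_im _).trans ?_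
      have h6 : |z.re| ≤ 1 := abs_le.2 ⟨by linarith [h3.1], by linarith⟩
      have h7 : |z.im| ≤ |z.im - t| + |t| := by
        have := abs_add_le (z.im - t) t
        rwa [sub_add_cancel] at this
      linarith
    have h6 : ‖1 - conj z‖ ≤ T := (norm_conj_sub z).trans (by linarith)
    have h7 : 1 + 1 / 4 ≤ (1 - conj z).re := by
      rw [re_conj_sub]
      linarith
    have h8 := (abs_le.1 (hP.edge _ h7 h6)).1
    have h9 : Λ z ≠ 0 := by
      have := norm_pos_iff.2 (hP.ne _ h7 h6)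
      rw [hP.sym] at this
      exact norm_pos_iff.1 this
    rw [hP.sym, re_conj_sub] at h8
    rw [log_HH h9]
    refine le_trans ?_ (le_abs_self _)
    nlinarith
  have h4 : ε * x = π * (h / 4) ^ 2 * (x / 2) / 2 := by rw [hε]; ring
  have h5 : 0 < π * (h / 4) ^ 2 * (x / 2) := by positivity
  linarith

/-- an upper bound for the number of zeros -/
theorem zeros_up {f : ℂ → ℂ} (hf : Differentiable ℂ f) {p : ℂ} {r M : ℝ} (hr : 0 < r) (hp : f p ≠ 0)
    (hb : ∀ z : ℂ, ‖z - p‖ = 4 * r → ‖f z‖ ≤ Real.exp M) :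
    nz f (closedBall p r) ≤ M - Real.log ‖f p‖ := by
  have hfin := fin_zeros hf hp p r
  set Z : Finset ℂ := hfin.toFinset with hZ
  have hZc : ∀ u ∈ Z, u ∈ closedBall p r := fun u hu => ((Finite.mem_toFinset _).1 hu).2
  obtain ⟨g, hg, -, hfg⟩ := factor hf hp Z
  set N : ℕ := ∑ u ∈ Z, analyticOrderNatAt f u with hN
  have hNn : nz f (closedBall p r) = N := by
    rw [nz_eq (S := closedBall p r) (Z := Z)
      (fun u h1 h2 => (Finite.mem_toFinset hfin).2 ⟨h2, h1⟩) hZc hf, hN]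
    push_cast
    rfl
  have hP : ∀ z : ℂ, ‖PP f Z z‖ = ∏ u ∈ Z, ‖z - u‖ ^ (analyticOrderNatAt f u) := by
    intro z
    unfold PP
    rw [norm_prod]
    exact Finset.prod_congr rfl fun u _ => norm_pow _ _
  have hlow : ∀ z : ℂ, ‖z - p‖ = 4 * r → (3 * r) ^ N ≤ ‖PP f Z z‖ := by
    intro z hz
    rw [hP, hN, ← Finset.prod_pow_eq_pow_sum]
    refine Finset.prod_le_prod (fun u _ => by positivity) fun u hu => ?_
    refine pow_le_pow_left₀ (by positivity) ?_ _
    have h3 := hZc u hu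
    rw [mem_closedBall, dist_eq_norm] at h3
    have h4 : ‖z - p‖ ≤ ‖z - u‖ + ‖u - p‖ := by
      calc ‖z - p‖ = ‖(z - u) + (u - p)‖ := by rw [sub_add_sub_cancel]
        _ ≤ _ := norm_add_le _ _
    linarith
  have hupp : ‖PP f Z p‖ ≤ r ^ N := by
    rw [hP, hN, ← Finset.prod_pow_eq_pow_sum]
    refine Finset.prod_le_prod (fun u _ => by positivity) fun u hu => ?_
    refine pow_le_pow_left₀ (norm_nonneg _) ?_ _
    have h3 := hZc u hu
    rw [mem_closedBall, dist_eq_norm] at h3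
    rw [norm_sub_rev]
    exact h3
  have hgb : ‖g p‖ ≤ Real.exp M / (3 * r) ^ N := by
    refine Complex.norm_le_of_forall_mem_frontier_norm_le (U := ball p (4 * r)) isBounded_ball
      hg.diffContOnCl ?_ (subset_closure (mem_ball_self (by positivity)))
    intro w hw
    rw [frontier_ball _ (by positivity)] at hw
    have hw' : ‖w - p‖ = 4 * r := by rwa [mem_sphere, dist_eq_norm] at hw
    rw [le_div_iff₀ (by positivity)]
    have h3 := hb w hw'
    rw [hfg, norm_mul] at h3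
    calc ‖g w‖ * (3 * r) ^ N ≤ ‖g w‖ * ‖PP f Z w‖ :=
          mul_le_mul_of_nonneg_left (hlow w hw') (norm_nonneg _)
      _ ≤ _ := by rw [mul_comm]; exact h3
  have h5 : ‖f p‖ ≤ Real.exp (M - N) := by
    rw [hfg p, norm_mul, Real.exp_sub]
    calc ‖PP f Z p‖ * ‖g p‖ ≤ r ^ N * (Real.exp M / (3 * r) ^ N) :=
          mul_le_mul hupp hgb (norm_nonneg _) (by positivity)
      _ = Real.exp M / 3 ^ N := by
          rw [mul_pow]
          field_simp
      _ ≤ Real.exp M / Real.exp N := by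
          refine div_le_div_of_nonneg_left (Real.exp_pos _).le (Real.exp_pos _) ?_
          rw [← Real.exp_one_pow]
          exact pow_le_pow_left₀ (Real.exp_pos _).le Real.exp_one_lt_three.le _
  rw [← Real.log_le_iff_le_exp (norm_pos_iff.2 hp)] at h5
  rw [hNn]
  linarith

/-- the number of zeros in a window -/
theorem win_up {x t T : ℝ} {Λ : ℂ → ℂ} (hx : 0 < x) (hT : |t| + 20 ≤ T)
    (hP : Pot (1 / 4) (1 / 4) (1 / 2) x T Λ) :
    nz Λ {z : ℂ | 0 ≤ z.re ∧ z.re ≤ 1 ∧ |z.im - t| ≤ 1} ≤ 10 * x := by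
  have ht := abs_nonneg t
  have hpn : ‖(⟨2, t⟩ : ℂ)‖ ≤ 2 + |t| := by
    refine (Complex.norm_le_abs_re_add_abs_im _).trans ?_
    simp
  have hp0 : Λ ⟨2, t⟩ ≠ 0 := hP.ne _ (by simp only; norm_num) (by linarith)
  have hlow : 0 ≤ Real.log ‖Λ ⟨2, t⟩‖ := by
    have h1 := (abs_le.1 (hP.edge ⟨2, t⟩ (by simp only; norm_num) (by linarith))).1
    simp only at h1
    linarith
  have h1 := zeros_up hP.ent (p := ⟨2, t⟩) (r := 3) (M := 10 * x) (by norm_num) hp0 (fun z hz => by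
    by_cases h0 : Λ z = 0
    · rw [h0, norm_zero]
      exact (Real.exp_pos _).le
    rw [← Real.log_le_iff_le_exp (norm_pos_iff.2 h0)]
    have hzn : ‖z‖ ≤ T - 1 := by
      calc ‖z‖ = ‖(z - ⟨2, t⟩) + ⟨2, t⟩‖ := by rw [sub_add_cancel]
        _ ≤ ‖z - ⟨2, t⟩‖ + ‖(⟨2, t⟩ : ℂ)‖ := norm_add_le _ _
        _ ≤ T - 1 := by linarith
    refine (hP.up' hzn).trans ?_
    have h2 : U0 z ≤ 7 := by
      have h3 := (Complex.abs_re_le_norm (z - ⟨2, t⟩)).trans hz.le
      simp only [Complex.sub_re] at h3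
      unfold U0
      rw [abs_le] at h3
      have : |z.re - 1 / 2| ≤ 14 := abs_le.2 ⟨by linarith [h3.1], by linarith [h3.2]⟩
      linarith
    nlinarith)
  refine le_trans (nz_mono hP.ent hp0 (R := ‖(⟨2, t⟩ : ℂ)‖ + 3) ?_ ?_) (h1.trans (by linarith))
  · intro z hz
    rw [mem_closedBall, dist_eq_norm] at hz
    rw [mem_closedBall_zero_iff]
    calc ‖z‖ = ‖(z - ⟨2, t⟩) + ⟨2, t⟩‖ := by rw [sub_add_cancel]
      _ ≤ ‖z - ⟨2, t⟩‖ + ‖(⟨2, t⟩ : ℂ)‖ := norm_add_le _ _
      _ ≤ _ := by linarith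
  · rintro z ⟨h2, h3, h4⟩
    rw [mem_closedBall, dist_eq_norm]
    refine (Complex.norm_le_abs_re_add_abs_im _).trans ?_
    simp only [Complex.sub_re, Complex.sub_im]
    have : |z.re - 2| ≤ 2 := abs_le.2 ⟨by linarith, by linarith⟩
    linarith

end Pool.Agent.H465.PT
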