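import Pool.Agent.H465.PT.O
import Pool.Agent.H465.PT.T

/-!
# Elliptic curves over number fields: no gaps, subconvexity
-/

set_option autoImplicit false

open MeasureTheory Metric Set Filter Topology Asymptotics
open scoped Real ENNReal ComplexConjugate
open NumberField IsDedekindDomain

namespace Pool.Agent.H465.PT

open Pool.Agent.H465.EQ

/-- the convexity bound -/
theorem st_of (T : ℝ) {η : ℝ} (hη : 0 < η) (hη1 : η ≤ 1 / 4) :
    ∃ δ : ℝ, 0 < δ ∧ ∀ (K : Type) [Field K] [NumberField K] (a b : 𝓞 K) (A : ℝ) (F : ℂ → ℂ),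
      HasseWeil K a b A F → (Module.finrank ℚ K : ℝ) ≤ δ * Real.log A → ∀ w : ℂ, ‖w‖ = 1 →
      (∀ s : ℂ, 0 < s.re → s.re < 2 →
        completed (Module.finrank ℚ K) A F s = w * completed (Module.finrank ℚ K) A F (2 - s)) →
      St η (Real.log A) T (LL (Module.finrank ℚ K) A F w) := by
  obtain ⟨C, hC, hg⟩ := gc_bd
  obtain ⟨δ₁, hδ₁, hp⟩ := pot_of hη hη1 T hη
  have hlC : 0 ≤ Real.log C := Real.log_nonneg hC
  have hBB := BB_nonneg η
  refine ⟨min δ₁ (η / (2 * (Real.log C + BB η + 1))), by positivity,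
    fun K _ _ a b A F h hn w hw hfe => ?_⟩
  set n := Module.finrank ℚ K with hndef
  set x := Real.log A with hx
  have hn1 : (1 : ℝ) ≤ n := by exact_mod_cast (Module.finrank_pos (R := ℚ) (M := K))
  have hδ0 : 0 < min δ₁ (η / (2 * (Real.log C + BB η + 1))) := by positivity
  have hx0 : 0 < x := by
    by_contra hcon
    push Not at hcon
    have := mul_nonpos_of_nonneg_of_nonpos hδ0.le hcon
    linarith
  have hnδ : (n : ℝ) ≤ δ₁ * x := hn.trans (mul_le_mul_of_nonneg_right (min_le_left _ _) hx0.le)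
  refine ⟨hp K a b A F h hnδ w hw hfe, fun s h1 h2 => ?_⟩
  have hre := half_re s
  have h3 := h.strip hη hη1 hC hg hw hfe (s := s + 1 / 2) (by linarith) (by linarith)
  have e2 : (n : ℝ) * (Real.log C + BB η) ≤ η / 2 * x := by
    have h1 : (n : ℝ) * (Real.log C + BB η + 1) ≤ η / 2 * x := by
      calc (n : ℝ) * (Real.log C + BB η + 1) ≤
            (η / (2 * (Real.log C + BB η + 1))) * x * (Real.log C + BB η + 1) := by
            gcongr
            exact hn.trans (mul_le_mul_of_nonneg_right (min_le_right _ _) hx0.le)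
        _ = _ := by field_simp
    linarith
  rw [LL_norm]
  have h4 : A ^ ((3 / 2 + η) / 2) = Real.exp (x * ((3 / 2 + η) / 2)) := by
    rw [Real.rpow_def_of_pos h.pos]
  have h5 : C ^ n = Real.exp (n * Real.log C) := by
    rw [Real.exp_nat_mul, Real.exp_log (by linarith)]
  calc Real.exp (-(Real.log A / 4)) * ‖Lam n A F w (s + 1 / 2)‖ ≤
        Real.exp (-(Real.log A / 4)) * (A ^ ((3 / 2 + η) / 2) * C ^ n * Real.exp (BB η * n)) :=
        mul_le_mul_of_nonneg_left h3 (Real.exp_pos _).le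
    _ = Real.exp (-(x / 4) + (x * ((3 / 2 + η) / 2) + n * Real.log C + BB η * n)) := by
        rw [h4, h5, ← Real.exp_add, ← Real.exp_add, ← Real.exp_add]
    _ ≤ Real.exp (x * (1 / 2 + η)) := by
        refine Real.exp_le_exp.2 ?_
        linarith

lemma nz_congr {f : ℂ → ℂ} (hf : Differentiable ℂ f) {S S' : Set ℂ}
    (h : ∀ u, f u = 0 → (u ∈ S ↔ u ∈ S')) : nz f S = nz f S' := by
  classical
  unfold nz
  refine finsum_congr fun u => ?_
  rw [finsum_eq_if, finsum_eq_if]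
  by_cases h0 : f u = 0
  · have := h u h0
    by_cases h1 : u ∈ S
    · rw [if_pos h1, if_pos (this.1 h1)]
    · rw [if_neg h1, if_neg fun h2 => h1 (this.2 h2)]
  · have h1 : mu f u = 0 := by
      by_contra h2
      exact h0 (mu_ne hf h2)
    rw [h1]
    simp

section
variable {K : Type} [Field K] [NumberField K] {a b : 𝓞 K} {A : ℝ} {F : ℂ → ℂ}

/-- all zeros are in the strip -/
lemma HasseWeil.LL_zero_strip (h : HasseWeil K a b A F) {w : ℂ} (hw : ‖w‖ = 1)
    (hfe : ∀ s : ℂ, 0 < s.re → s.re < 2 →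
      completed (Module.finrank ℚ K) A F s = w * completed (Module.finrank ℚ K) A F (2 - s))
    {u : ℂ} (h0 : LL (Module.finrank ℚ K) A F w u = 0) : 0 ≤ u.re ∧ u.re ≤ 1 := by
  have key : ∀ z : ℂ, LL (Module.finrank ℚ K) A F w z = 0 → z.re ≤ 1 := by
    intro z hz
    by_contra hcon
    push Not at hcon
    have h1 := (h.LL_zero (w := w) (u := z) (by linarith)).1 hz
    exact h.ne (s := z + 1 / 2) (by rw [half_re]; linarith) h1
  refine ⟨?_, key u h0⟩
  have h1 : LL (Module.finrank ℚ K) A F w (1 - conj u) = 0 := by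
    rw [← norm_eq_zero, LL_sym h.norm_conj h.pos hw hfe, h0, norm_zero]
  have h2 := key _ h1
  rw [re_conj_sub] at h2
  linarith

end

/-- the number of zeros -/
noncomputable def cn (F : ℂ → ℂ) (S : Set ℂ) : ℝ := NF.zsum F (S.indicator fun _ => 1)

/-- **No gaps**, for the L-functions -/
theorem hw_gap {k : ℝ} (hk : 0 < k) (T : ℝ) : ∃ c δ : ℝ, 0 < c ∧ 0 < δ ∧
    ∀ (K : Type) [Field K] [NumberField K] (a b : 𝓞 K) (A : ℝ) (F : ℂ → ℂ),
      HasseWeil K a b A F → (Module.finrank ℚ K : ℝ) ≤ δ * Real.log A → ∀ t : ℝ, |t| ≤ T →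
      c * Real.log A ≤ cn F {ρ : ℂ | |ρ.im - t| < k} ∧
      cn F {ρ : ℂ | |ρ.im - t| ≤ 1} ≤ 10 * Real.log A := by
  set k' : ℝ := min k (1 / 4) with hk'
  have hk0 : 0 < k' := by positivity
  obtain ⟨ω, hω, hω1, hg⟩ := gap hk0 (min_le_right _ _)
  obtain ⟨δ, hδ, hp⟩ := pot_of (ϑ := 1 / 4) (by norm_num) le_rfl (T + 20) hω
  refine ⟨ω, δ, hω, hδ, fun K _ _ a b A F h hn t ht => ?_⟩
  obtain ⟨w, hw, hfe⟩ := h.fe
  have hP := hp K a b A F h hn w hw hfe
  have hn1 : (1 : ℝ) ≤ Module.finrank ℚ K := by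
    exact_mod_cast (Module.finrank_pos (R := ℚ) (M := K))
  have hx : 0 < Real.log A := by
    by_contra hcon
    push Not at hcon
    have := mul_nonpos_of_nonneg_of_nonpos hδ.le hcon
    linarith
  have hT : 0 ≤ T := (abs_nonneg t).trans ht
  have h2 : LL (Module.finrank ℚ K) A F w 2 ≠ 0 := hP.two (by norm_num) (by linarith)
  refine ⟨?_, ?_⟩
  · refine (hg (Real.log A) hx t (T + 20) _ (by linarith) hP).le.trans ?_
    unfold cn
    rw [h.nz_LL hw hfe, nz_congr hP.ent (S := {u : ℂ | u + 1 / 2 ∈ {ρ : ℂ | |ρ.im - t| < k}})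
      (S' := {u : ℂ | (u + 1 / 2 ∈ {ρ : ℂ | |ρ.im - t| < k}) ∧ |u.re| ≤ 3})]
    · refine nz_mono hP.ent h2 (R := 3 + |t| + |k|) ?_ ?_
      swap
      · rintro u ⟨hu1, hu2⟩
        refine ⟨?_, hu1⟩
        show |(u + 1 / 2).im - t| < k
        have : (u + 1 / 2).im = u.im := by simp
        rw [this]
        exact hu2.trans_le (min_le_left _ _)
      · rintro u ⟨hu1, hu2⟩
        have hu1' : |(u + 1 / 2).im - t| < k := hu1
        have : (u + 1 / 2).im = u.im := by simp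
        rw [this] at hu1'
        exact win_sub ⟨hu2, hu1'⟩
    · intro u hu
      have := h.LL_zero_strip hw hfe hu
      constructor
      · intro h3
        exact ⟨h3, abs_le.2 ⟨by linarith, by linarith⟩⟩
      · rintro ⟨h3, -⟩
        exact h3
  · unfold cn
    rw [h.nz_LL hw hfe, nz_congr hP.ent (S := {u : ℂ | u + 1 / 2 ∈ {ρ : ℂ | |ρ.im - t| ≤ 1}})
      (S' := {z : ℂ | 0 ≤ z.re ∧ z.re ≤ 1 ∧ |z.im - t| ≤ 1})]
    · exact win_up hx (by linarith) (hP.mono le_rfl hω1 le_rfl hx.le)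
    · intro u hu
      have h3 := h.LL_zero_strip hw hfe hu
      have : (u + 1 / 2).im = u.im := by simp
      constructor
      · intro h4
        have h4' : |(u + 1 / 2).im - t| ≤ 1 := h4
        rw [this] at h4'
        exact ⟨h3.1, h3.2, h4'⟩
      · rintro ⟨-, -, h4⟩
        show |(u + 1 / 2).im - t| ≤ 1
        rw [this]
        exact h4

section family
variable {ι : Type} {l : Filter ι} {K : ι → Type} [∀ i, Field (K i)] [∀ i, NumberField (K i)]
  {a b : ∀ i, 𝓞 (K i)} {A : ι → ℝ} {F : ι → ℂ → ℂ} {w : ι → ℂ}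

lemma ev_st (h : ∀ i, HasseWeil (K i) (a i) (b i) (A i) (F i))
    (hw : ∀ i, ‖w i‖ = 1) (hfe : ∀ i, ∀ s : ℂ, 0 < s.re → s.re < 2 →
      completed (Module.finrank ℚ (K i)) (A i) (F i) s =
        w i * completed (Module.finrank ℚ (K i)) (A i) (F i) (2 - s))
    (hA : Tendsto (fun i => Real.log (A i) / Module.finrank ℚ (K i)) l atTop)
    (T : ℝ) {η : ℝ} (hη : 0 < η) (hη1 : η ≤ 1 / 4) : ∀ᶠ i in l, St η (Real.log (A i)) T
      (LL (Module.finrank ℚ (K i)) (A i) (F i) (w i)) := by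
  obtain ⟨δ, hδ, hp⟩ := st_of T hη hη1
  filter_upwards [ev_small hA hδ] with i hi
  exact hp (K i) (a i) (b i) (A i) (F i) (h i) hi.1 (w i) (hw i) (hfe i)

/-- comparison on the line -/
lemma ev_line (h : ∀ i, HasseWeil (K i) (a i) (b i) (A i) (F i))
    (hA : Tendsto (fun i => Real.log (A i) / Module.finrank ℚ (K i)) l atTop)
    (T : ℝ) {ε : ℝ} (hε : 0 < ε) : ∀ᶠ i in l, ∀ t : ℝ, |t| ≤ T → ∀ y : ℝ,
      (‖F i (NF.p1 t)‖ ≤ Real.exp (Real.log (A i) * (1 / 4 - y)) →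
        ‖LL (Module.finrank ℚ (K i)) (A i) (F i) (w i) (pt t)‖ ≤
          Real.exp (Real.log (A i) * (1 / 2 - (y - ε)))) ∧
      (‖LL (Module.finrank ℚ (K i)) (A i) (F i) (w i) (pt t)‖ ≤
          Real.exp (Real.log (A i) * (1 / 2 - y)) →
        ‖F i (NF.p1 t)‖ ≤ Real.exp (Real.log (A i) * (1 / 4 - (y - ε)))) := by
  have ep : ∀ t : ℝ, pt t + 1 / 2 = NF.p1 t := by
    intro t
    apply Complex.ext
    · simp [pt, NF.p1]; norm_num
    · simp [pt, NF.p1]
  have hpt : ∀ {t T : ℝ}, |t| ≤ T → ‖pt t‖ ≤ T + 1 := by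
    intro t T ht
    refine (Complex.norm_le_abs_re_add_abs_im _).trans ?_
    simp only [pt]
    rw [abs_of_pos (by norm_num)]
    linarith
  filter_upwards [ev_log (w := w) h hA (T + 1) hε] with i hl t ht y
  have hz := (h i).LL_zero (w := w i) (u := pt t) (by rw [pt_re]; norm_num)
  by_cases h0 : F i (pt t + 1 / 2) = 0
  · have h1 := hz.2 h0
    rw [h1, ← ep, h0, norm_zero]
    exact ⟨fun _ => (Real.exp_pos _).le, fun _ => (Real.exp_pos _).le⟩
  · have h1 : LL (Module.finrank ℚ (K i)) (A i) (F i) (w i) (pt t) ≠ 0 := fun h2 => h0 (hz.1 h2)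
    have h3 := abs_le.1 (hl (pt t) (by rw [pt_re]) (hpt ht) h0)
    rw [pt_re] at h3
    rw [← ep, ← Real.log_le_iff_le_exp (norm_pos_iff.2 h0),
      ← Real.log_le_iff_le_exp (norm_pos_iff.2 h0), ← Real.log_le_iff_le_exp (norm_pos_iff.2 h1),
      ← Real.log_le_iff_le_exp (norm_pos_iff.2 h1)]
    exact ⟨fun h4 => by linarith [h3.2], fun h4 => by linarith [h3.1]⟩

lemma cn_rect (h : ∀ i, HasseWeil (K i) (a i) (b i) (A i) (F i))
    (hw : ∀ i, ‖w i‖ = 1) (hfe : ∀ i, ∀ s : ℂ, 0 < s.re → s.re < 2 →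
      completed (Module.finrank ℚ (K i)) (A i) (F i) s =
        w i * completed (Module.finrank ℚ (K i)) (A i) (F i) (2 - s)) (i : ι) (δ t H : ℝ) :
    cn (F i) {ρ : ℂ | |ρ.im - t| ≤ H ∧ |ρ.re - 1| ≤ 1 / 2 - δ} =
      nz (LL (Module.finrank ℚ (K i)) (A i) (F i) (w i)) (rect δ t H) := by
  unfold cn
  rw [(h i).nz_LL (hw i) (hfe i)]
  congr 1
  ext u
  have him : (u + 1 / 2).im = u.im := by simp
  have hre := half_re u
  constructor
  · intro h1
    have h1' : |(u + 1 / 2).im - t| ≤ H ∧ |(u + 1 / 2).re - 1| ≤ 1 / 2 - δ := h1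
    rw [him, hre] at h1'
    obtain ⟨h2, h3⟩ := h1'
    rw [abs_le] at h3
    exact ⟨by linarith [h3.1], by linarith [h3.2], h2⟩
  · rintro ⟨h1, h2, h3⟩
    show |(u + 1 / 2).im - t| ≤ H ∧ |(u + 1 / 2).re - 1| ≤ 1 / 2 - δ
    rw [him, hre]
    exact ⟨h3, abs_le.2 ⟨by linarith, by linarith⟩⟩

lemma rect_compact (δ t H : ℝ) : IsCompact (rect δ t H) := by
  have h1 : rect δ t H = (Icc δ (1 - δ)) ×ℂ (Icc (t - H) (t + H)) := by
    ext z
    rw [Complex.mem_reProdIm]
    constructor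
    · rintro ⟨h1, h2, h3⟩
      rw [abs_le] at h3
      exact ⟨⟨h1, h2⟩, by linarith [h3.1], by linarith [h3.2]⟩
    · rintro ⟨⟨h1, h2⟩, h3, h4⟩
      exact ⟨h1, h2, abs_le.2 ⟨by linarith, by linarith⟩⟩
  rw [h1]
  exact isCompact_Icc.reProdIm isCompact_Icc

/-- from a disc to the line -/
lemma to_line (h : ∀ i, HasseWeil (K i) (a i) (b i) (A i) (F i))
    (hw : ∀ i, ‖w i‖ = 1) (hfe : ∀ i, ∀ s : ℂ, 0 < s.re → s.re < 2 →
      completed (Module.finrank ℚ (K i)) (A i) (F i) s =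
        w i * completed (Module.finrank ℚ (K i)) (A i) (F i) (2 - s))
    (hA : Tendsto (fun i => Real.log (A i) / Module.finrank ℚ (K i)) l atTop)
    {r c T₀ : ℝ} (hr : 0 < r) (hr1 : r ≤ 1 / 20) (hc : 0 < c)
    (hd : ∀ η : ℝ, 0 < η → ∀ᶠ i in l, ∃ p : ℂ, 6 * r ≤ p.re ∧ p.re ≤ 1 - 6 * r ∧ |p.im| ≤ T₀ ∧
      ∀ z ∈ ball p r, ‖LL (Module.finrank ℚ (K i)) (A i) (F i) (w i) z‖ ≤
        Real.exp (Real.log (A i) * (1 / 2 - (c - η)))) (T : ℝ) :
    ∃ c' : ℝ, 0 < c' ∧ ∀ᶠ i in l, ∀ t : ℝ, |t| ≤ T →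
      ‖F i (NF.p1 t)‖ ≤ Real.exp (Real.log (A i) * (1 / 4 - c')) := by
  set n : ℕ := ⌈(|T| + |T₀| + 1) / r⌉₊ with hn
  have hn1 : (|T| + |T₀| + 1) / r ≤ n := Nat.le_ceil _
  have hn2 : |T| + |T₀| + 1 ≤ n * r := by rwa [div_le_iff₀ hr] at hn1
  have h16 : (1 : ℝ) ≤ 16 ^ n := one_le_pow₀ (by norm_num)
  set η : ℝ := min (1 / 4) (c / (32 * 16 ^ n)) with hη
  have hη0 : 0 < η := by positivity
  have hη2 : η ≤ c / (32 * 16 ^ n) := min_le_right _ _
  have hη3 : η ≤ c / 32 := by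
    refine hη2.trans (div_le_div_of_nonneg_left hc.le (by norm_num) ?_)
    linarith
  set c' : ℝ := c / (4 * 16 ^ n) with hc'
  have hc'0 : 0 < c' := by positivity
  refine ⟨c' / 2, by positivity, ?_⟩
  filter_upwards [hd η hη0, ev_st h hw hfe hA 2 hη0 (min_le_left _ _),
    (ev_small hA one_pos).mono fun i hi => hi.2,
    ev_line (w := w) h hA T (show 0 < c' / 2 by positivity)] with i hp hst hx hline t ht
  obtain ⟨p, hp1, hp2, hp3, hp4⟩ := hp
  have h2 : LL (Module.finrank ℚ (K i)) (A i) (F i) (w i) 2 ≠ 0 := by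
    intro h0
    have h1 := ((h i).LL_zero (w := w i) (u := 2) (by norm_num)).1 h0
    exact (h i).ne (s := 2 + 1 / 2) (by norm_num) h1
  have h3 : ‖pt t - p‖ ≤ n * r := by
    refine (Complex.norm_le_abs_re_add_abs_im _).trans ?_
    rw [Complex.sub_re, Complex.sub_im, pt_re, pt_im]
    have h4 : |1 / 2 - p.re| ≤ 1 := abs_le.2 ⟨by linarith, by linarith⟩
    have h5 : |t - p.im| ≤ |T| + |T₀| := by
      refine (abs_sub _ _).trans ?_
      have := le_abs_self T
      have := le_abs_self T₀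
      linarith
    linarith
  have h4 := spread hst hη0.le hx h2 hr hp1 hp2 hp4 n (pt t) (by rw [pt_re]; linarith)
    (by rw [pt_re]; linarith) h3 (pt t) (mem_ball_self hr)
  have h5 : c' ≤ (c - η) / 16 ^ n - 2 * η := by
    have e1 : 2 * η ≤ c / (16 * 16 ^ n) := by
      calc 2 * η ≤ 2 * (c / (32 * 16 ^ n)) := by linarith
        _ = _ := by field_simp; ring
    have e2 : (31 / 32 * c) / 16 ^ n ≤ (c - η) / 16 ^ n :=
      div_le_div_of_nonneg_right (by linarith) (by positivity)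
    have e3 : c' = (1 / 4 : ℝ) * (c / 16 ^ n) := by rw [hc']; field_simp
    have e4 : (31 / 32 * c) / 16 ^ n = 31 / 32 * (c / 16 ^ n) := by ring
    have e5 : c / (16 * 16 ^ n) = 1 / 16 * (c / 16 ^ n) := by field_simp
    have e6 : 0 < c / 16 ^ n := by positivity
    rw [e3]
    rw [e4] at e2
    rw [e5] at e1
    linarith
  have h6 := ((hline t ht) c').2 (h4.trans (Real.exp_le_exp.2 (by
    refine mul_le_mul_of_nonneg_left ?_ hx.le
    linarith)))
  have e : c' - c' / 2 = c' / 2 := by ring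
  rwa [e] at h6

/-- **Subconvexity and zeros.** -/
theorem hw_sub (h : ∀ i, HasseWeil (K i) (a i) (b i) (A i) (F i))
    (hA : Tendsto (fun i => Real.log (A i) / Module.finrank ℚ (K i)) l atTop) :
    List.TFAE [
      ∀ T : ℝ, ∃ c : ℝ, 0 < c ∧ ∀ᶠ i in l, ∀ t : ℝ, |t| ≤ T →
        ‖F i (NF.p1 t)‖ ≤ Real.exp (Real.log (A i) * (1 / 4 - c)),
      ∃ T r c : ℝ, 0 < r ∧ 0 < c ∧ ∀ᶠ i in l, ∃ t₀ : ℝ, |t₀| ≤ T ∧ ∀ t : ℝ, |t - t₀| ≤ r →
        ‖F i (NF.p1 t)‖ ≤ Real.exp (Real.log (A i) * (1 / 4 - c)),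
      ∃ T δ c : ℝ, 0 < δ ∧ 0 < c ∧ ∀ᶠ i in l,
        c * Real.log (A i) ≤ cn (F i) {ρ : ℂ | |ρ.im - 0| ≤ T ∧ |ρ.re - 1| ≤ 1 / 2 - δ},
      ∀ T : ℝ, ∃ H δ c : ℝ, 0 < δ ∧ 0 < c ∧ ∀ᶠ i in l, ∀ t : ℝ, |t| ≤ T →
        c * Real.log (A i) ≤ cn (F i) {ρ : ℂ | |ρ.im - t| ≤ H ∧ |ρ.re - 1| ≤ 1 / 2 - δ}] := by
  have hpi := Real.pi_pos
  choose w hw hfe using fun i => (h i).fe
  have hx : ∀ᶠ i in l, 0 < Real.log (A i) := (ev_small hA one_pos).mono fun i hi => hi.2
  have hne : ∀ i, LL (Module.finrank ℚ (K i)) (A i) (F i) (w i) 2 ≠ 0 := by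
    intro i h0
    have h1 := ((h i).LL_zero (w := w i) (u := 2) (by norm_num)).1 h0
    exact (h i).ne (s := 2 + 1 / 2) (by norm_num) h1
  tfae_have 1 → 2 := by
    intro h1
    obtain ⟨c, hc, h2⟩ := h1 1
    refine ⟨0, 1, c, one_pos, hc, h2.mono fun i hi => ⟨0, by simp, fun t ht => hi t ?_⟩⟩
    rwa [sub_zero] at ht
  tfae_have 2 → 1 := by
    rintro ⟨T₀, r, c, hr, hc, h2⟩ T
    set r' : ℝ := min r (1 / 4) with hr'
    have hr'0 : 0 < r' := by positivity
    have hr'1 : r' ≤ 1 / 4 := min_le_right _ _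
    refine to_line h hw hfe hA (r := r' / 8) (c := 3 / 16 * c) (T₀ := T₀) (by positivity)
      (by linarith) (by positivity) (fun η hη => ?_) T
    filter_upwards [h2, ev_st h hw hfe hA 2 (lt_min hη (show (0 : ℝ) < 1 / 4 by norm_num))
      (min_le_right _ _), hx, ev_line (w := w) h hA (T₀ + 1) (show 0 < c / 2 by positivity)]
      with i hi hst hxi hline
    obtain ⟨t₀, ht₀, hb⟩ := hi
    refine ⟨⟨1 / 2 + r' / 4, t₀⟩, by simp only; linarith, by simp only; linarith, ht₀, ?_⟩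
    have h3 := bump hst (lt_min hη (by norm_num)).le hxi hr'0 hr'1 (c := c / 2) (by positivity)
      (t₀ := t₀) (fun t ht => by
        have h4 : |t| ≤ T₀ + 1 := by
          have := abs_add_le (t - t₀) t₀
          rw [sub_add_cancel] at this
          linarith
        have h5 := ((hline t h4) c).1 (hb t (ht.trans (min_le_left _ _)))
        have e : c - c / 2 = c / 2 := by ring
        rwa [e] at h5)
    intro z hz
    refine (h3 z hz).trans (Real.exp_le_exp.2 (mul_le_mul_of_nonneg_left ?_ hxi.le))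
    have := min_le_left η (1 / 4)
    linarith
  tfae_have 1 → 4 := by
    intro h1 T
    obtain ⟨c, hc, h2⟩ := h1 (T + 1)
    set ε : ℝ := π * (1 / 32) ^ 2 * (c / 16) with hε
    have hε0 : 0 < ε := by positivity
    obtain ⟨δ, H, ω, hδ, hδ1, hH, hω, hωδ, hm⟩ := maximal hε0
    set η : ℝ := min ω (c / 16) with hη
    have hη0 : 0 < η := by positivity
    have hηω : η ≤ ω := min_le_left _ _
    have hηc : η ≤ c / 16 := min_le_right _ _
    have hη4 : η ≤ 1 / 4 := by linarith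
    refine ⟨H + 1, δ, ω, hδ, hω, ?_⟩
    filter_upwards [h2, ev_st h hw hfe hA (T + H + 20) hη0 hη4,
      ev_st h hw hfe hA (T + H + 20) hω (by linarith), hx,
      ev_line (w := w) h hA (T + 1) (show 0 < c / 2 by positivity)] with i hi hst hst' hxi hline t ht
    rw [cn_rect h hw hfe]
    by_contra hcon
    push Not at hcon
    have h3 := hm (Real.log (A i)) t (T + H + 20) _ hxi (by linarith) hst' hcon.le
    have h4 := bump hst hη0.le hxi (r := 1 / 4) (by norm_num) le_rfl (c := c / 2) (by positivity)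
      (t₀ := t) (fun t' ht' => by
        have h4 : |t'| ≤ T + 1 := by
          have := abs_add_le (t' - t) t
          rw [sub_add_cancel] at this
          linarith
        have h5 := ((hline t' h4) c).1 (hi t' h4)
        have e : c - c / 2 = c / 2 := by ring
        rwa [e] at h5)
    set x := Real.log (A i)
    set Λ := LL (Module.finrank ℚ (K i)) (A i) (F i) (w i) with hΛ
    set B : Set ℂ := ball (⟨1 / 2 + 1 / 4 / 4, t⟩ : ℂ) (1 / 4 / 8) with hB
    have hsub : B ⊆ ball (⟨1 / 2, t⟩ : ℂ) (1 / 4) := by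
      intro z hz
      rw [hB, mem_ball, dist_eq_norm] at hz
      rw [mem_ball, dist_eq_norm]
      have e1 : (⟨1 / 2 + 1 / 4 / 4, t⟩ : ℂ) - ⟨1 / 2, t⟩ = ((1 / 16 : ℝ) : ℂ) := by
        apply Complex.ext
        · simp only [Complex.sub_re, Complex.ofReal_re]; norm_num
        · simp only [Complex.sub_im, Complex.ofReal_im]; ring
      calc ‖z - ⟨1 / 2, t⟩‖ = ‖(z - ⟨1 / 2 + 1 / 4 / 4, t⟩) +
            ((⟨1 / 2 + 1 / 4 / 4, t⟩ : ℂ) - ⟨1 / 2, t⟩)‖ := by rw [sub_add_sub_cancel]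
        _ ≤ ‖z - ⟨1 / 2 + 1 / 4 / 4, t⟩‖ +
            ‖(⟨1 / 2 + 1 / 4 / 4, t⟩ : ℂ) - ⟨1 / 2, t⟩‖ := norm_add_le _ _
        _ < 1 / 4 := by
            rw [e1, Complex.norm_real, Real.norm_eq_abs, abs_of_pos (by norm_num)]
            linarith
    have hFi : ∀ (c : ℂ) (r : ℝ), IntegrableOn (fun z => |Real.log ‖FF x Λ z‖|) (ball c r) :=
      fun c r => (intOn_log (FF_diff hst.pot.ent x) (FF_ne.2 (hne i)) c r).abs
    have h5 : π * (1 / 32) ^ 2 * (c / 8 * x) ≤ ∫ z in B, |Real.log ‖FF x Λ z‖| := by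
      have e : π * (1 / 32) ^ 2 * (c / 8 * x) = ∫ z in B, c / 8 * x := by
        rw [setIntegral_const, hB, vol_ball_real _ (by norm_num), smul_eq_mul]
        norm_num
      rw [e]
      refine integral_mono_ae (intConst _ _ _) (hFi _ _) ?_
      filter_upwards [ae_restrict_of_ae (ae_ne hst.pot.ent (hne i)),
        ae_restrict_mem measurableSet_ball] with z hz hzb
      have h6 := h4 z hzb
      rw [← Real.log_le_iff_le_exp (norm_pos_iff.2 hz)] at h6
      refine le_trans ?_ (neg_le_abs _)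
      rw [log_FF hz]
      have h7 : 1 / 2 - (3 / 8 * (c / 2) - η) ≤ 1 / 2 - c / 8 := by linarith
      have h8 := mul_le_mul_of_nonneg_left h7 hxi.le
      linarith
    have h6 : ∫ z in B, |Real.log ‖FF x Λ z‖| ≤
        ∫ z in ball (⟨1 / 2, t⟩ : ℂ) (1 / 4), |Real.log ‖FF x Λ z‖| :=
      setIntegral_mono_set (hFi _ _) (Eventually.of_forall fun z => abs_nonneg _)
        hsub.eventuallyLE
    have h7 : ε * x = π * (1 / 32) ^ 2 * (c / 8 * x) / 2 := by rw [hε]; ring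
    have h8 : 0 < π * (1 / 32) ^ 2 * (c / 8 * x) := by positivity
    linarith
  tfae_have 4 → 3 := by
    intro h1
    obtain ⟨H, δ, c, hδ, hc, h2⟩ := h1 0
    exact ⟨H, δ, c, hδ, hc, h2.mono fun i hi => hi 0 (by simp)⟩
  tfae_have 3 → 1 := by
    rintro ⟨T₀, δ, c, hδ, hc, h2⟩ T
    set δ' : ℝ := min δ (1 / 4) with hδ'
    have hδ'0 : 0 < δ' := by positivity
    obtain ⟨J, hJ, hJc⟩ := pigeon (rect_compact δ' 0 T₀) (r := δ' / 8) (by positivity)
    set M : ℝ := (J.card : ℝ) + 1 with hM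
    have hM0 : 0 < M := by positivity
    refine to_line h hw hfe hA (r := δ' / 8) (c := c / M) (T₀ := T₀) (by positivity)
      (by have := min_le_right δ (1 / 4); linarith) (by positivity) (fun η hη => ?_) T
    filter_upwards [h2, ev_st h hw hfe hA 2 (lt_min hη (show (0 : ℝ) < 1 / 4 by norm_num))
      (min_le_right _ _), hx] with i hi hst hxi
    rw [cn_rect h hw hfe] at hi
    set x := Real.log (A i)
    set Λ := LL (Module.finrank ℚ (K i)) (A i) (F i) (w i) with hΛ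
    have h3 : c * x ≤ ∑ q ∈ J, nz Λ (closedBall q (δ' / 8)) := by
      refine hi.trans (le_trans ?_ (hJc Λ hst.pot.ent 2 (hne i)))
      obtain ⟨R, hR⟩ := (rect_compact δ' 0 T₀).isBounded.subset_closedBall 0
      refine nz_mono hst.pot.ent (hne i) hR ?_
      rintro z ⟨h4, h5, h6⟩
      have := min_le_left δ (1 / 4)
      exact ⟨by linarith, by linarith, h6⟩
    obtain ⟨q, hq, hq2⟩ : ∃ q ∈ J, c / M * x ≤ nz Λ (closedBall q (δ' / 8)) := by
      by_contra hcon
      push Not at hcon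
      have h4 : ∑ q ∈ J, nz Λ (closedBall q (δ' / 8)) ≤ J.card * (c / M * x) := by
        rw [← nsmul_eq_mul, ← Finset.sum_const]
        exact Finset.sum_le_sum fun q hq => (hcon q hq).le
      have h5 : (J.card : ℝ) * (c / M * x) < c * x := by
        calc (J.card : ℝ) * (c / M * x) < M * (c / M * x) := by
              have : 0 < c / M * x := by positivity
              nlinarith
          _ = c * x := by field_simp
      linarith
    obtain ⟨h4, h5, h6⟩ := hJ q hq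
    rw [sub_zero] at h6
    refine ⟨q, by linarith, by linarith, h6, fun z hz => ?_⟩
    have h7 := jens hst (lt_min hη (by norm_num)).le (hne i) (a := q) (r := δ' / 8) (by positivity)
      (by linarith) (by linarith) z hz
    refine h7.trans (Real.exp_le_exp.2 ?_)
    have h8 : min η (1 / 4) * x ≤ η * x := mul_le_mul_of_nonneg_right (min_le_left _ _) hxi.le
    linarith
  tfae_finish

end family

end Pool.Agent.H465.PT
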