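import Pool.Agent.H465.PT.U

/-!
# L-functions of degree `n`: the analytic data and the potential
-/

set_option autoImplicit false

open MeasureTheory Metric Set Filter Topology Asymptotics
open scoped Real ENNReal ComplexConjugate

namespace Pool.Agent.H465.PT

open Pool.Agent.H465.EQ

/-- the analytic data of an L-function of degree `n` and conductor `exp x`, with a pole of order at
most `k` at `s = 1`; `c` and `b` are constants -/
structure Deg (c b : ℝ → ℝ) (k n : ℕ) (x : ℝ) (Λ L : ℂ → ℂ) : Prop where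
  kn : k ≤ n
  ent : Differentiable ℂ Λ
  dif : ∀ s : ℂ, 0 < s.re → s ≠ 1 → DifferentiableAt ℂ L s
  sym : ∀ s : ℂ, ‖Λ (1 - conj s)‖ = ‖Λ s‖
  grow : ∃ (C : ℝ) (m : ℕ), ∀ s : ℂ, -1 ≤ s.re → s.re ≤ 2 → ‖Λ s‖ ≤ C * (1 + ‖s‖) ^ m
  fac : ∃ γ : ℂ → ℂ, (∀ s : ℂ, 0 < s.re → DifferentiableAt ℂ γ s ∧ γ s ≠ 0) ∧
    (∀ s : ℂ, 0 < s.re → s ≠ 1 →
      Λ s = Complex.exp (((x / 2 : ℝ) : ℂ) * s) * γ s * ((s - 1) ^ k * L s)) ∧
    (∀ (T : ℝ) (s : ℂ), 1 / 2 ≤ s.re → ‖s‖ ≤ T → |Real.log ‖γ s‖| ≤ n * c T) ∧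
    ∀ s : ℂ, 1 ≤ s.re → s.re ≤ 5 / 4 → ‖γ s‖ * ‖s - 1‖ ^ k ≤ Real.exp (n * c 0)
  right : ∀ (ϑ : ℝ) (s : ℂ), 0 < ϑ → 1 + ϑ ≤ s.re → L s ≠ 0 ∧ |Real.log ‖L s‖| ≤ n * b ϑ
  one : ∀ s : ℂ, s.re = 1 → Λ s ≠ 0

variable {c b : ℝ → ℝ} {k n : ℕ} {x : ℝ} {Λ L : ℂ → ℂ}

lemma exp_norm (x : ℝ) (s : ℂ) : ‖Complex.exp (((x / 2 : ℝ) : ℂ) * s)‖ = Real.exp (x * (s.re / 2)) := by
  rw [Complex.norm_exp, Complex.re_ofReal_mul]
  congr 1
  ring

lemma ne_one_of_re {s : ℂ} (h : 1 < s.re) : s ≠ 1 := by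
  rintro rfl
  simp at h

lemma Deg.ne (h : Deg c b k n x Λ L) {s : ℂ} (hs : 1 < s.re) : L s ≠ 0 :=
  (h.right (s.re - 1) s (by linarith) (by linarith)).1

lemma Deg.neL (h : Deg c b k n x Λ L) {s : ℂ} (hs : 1 < s.re) : Λ s ≠ 0 := by
  obtain ⟨γ, h1, h2, -⟩ := h.fac
  have hs1 := ne_one_of_re hs
  rw [h2 s (by linarith) hs1]
  exact mul_ne_zero (mul_ne_zero (Complex.exp_ne_zero _) (h1 s (by linarith)).2)
    (mul_ne_zero (pow_ne_zero _ (sub_ne_zero.2 hs1)) (h.ne hs))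

/-- all the zeros are in the open strip -/
lemma Deg.strip_zero (h : Deg c b k n x Λ L) {s : ℂ} (hs : Λ s = 0) : 0 < s.re ∧ s.re < 1 := by
  have key : ∀ z : ℂ, Λ z = 0 → z.re < 1 := by
    intro z hz
    by_contra hcon
    push Not at hcon
    rcases hcon.lt_or_eq with h1 | h1
    · exact h.neL h1 hz
    · exact h.one z h1.symm hz
  refine ⟨?_, key s hs⟩
  have h1 : Λ (1 - conj s) = 0 := by
    rw [← norm_eq_zero, h.sym, hs, norm_zero]
  have h2 := key _ h1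
  rw [re_conj_sub] at h2
  linarith

lemma abs_log_le {y a M : ℝ} (ha : 0 < a) (h1 : a ≤ y) (h2 : y ≤ M) :
    |Real.log y| ≤ |Real.log a| + |Real.log M| := by
  have hy : 0 < y := ha.trans_le h1
  have h3 := Real.log_le_log ha h1
  have h4 := Real.log_le_log hy h2
  rw [abs_le]
  constructor
  · have := neg_abs_le (Real.log a)
    have := abs_nonneg (Real.log M)
    linarith
  · have := le_abs_self (Real.log M)
    have := abs_nonneg (Real.log a)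
    linarith

/-- the constant for the pole -/
noncomputable def dd (ϑ T : ℝ) : ℝ := |Real.log ϑ| + |Real.log (T + 1)|

lemma dd_nonneg (ϑ T : ℝ) : 0 ≤ dd ϑ T := by unfold dd; positivity

lemma dd_le {ϑ T : ℝ} (hϑ : 0 < ϑ) {s : ℂ} (h1 : ϑ ≤ ‖s - 1‖) (h2 : ‖s‖ ≤ T) :
    |Real.log ‖s - 1‖| ≤ dd ϑ T := by
  refine abs_log_le hϑ h1 ((norm_sub_le _ _).trans ?_)
  rw [norm_one]
  linarith

lemma dd_re {ϑ T : ℝ} (hϑ : 0 < ϑ) {s : ℂ} (h1 : 1 + ϑ ≤ s.re) (h2 : ‖s‖ ≤ T) :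
    |Real.log ‖s - 1‖| ≤ dd ϑ T := by
  refine dd_le hϑ ?_ h2
  have := Complex.abs_re_le_norm (s - 1)
  rw [Complex.sub_re, Complex.one_re] at this
  have := le_abs_self (s.re - 1)
  linarith

/-- the logarithm to the right of the line -/
lemma Deg.log_eq (h : Deg c b k n x Λ L) {T : ℝ} {s : ℂ} (hs : 1 / 2 ≤ s.re) (hT : ‖s‖ ≤ T)
    (h1 : s ≠ 1) (h0 : L s ≠ 0) :
    Λ s ≠ 0 ∧ |Real.log ‖Λ s‖ - x * (s.re / 2) - Real.log ‖L s‖ - k * Real.log ‖s - 1‖| ≤ n * c T := by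
  obtain ⟨γ, g1, g2, g3, -⟩ := h.fac
  obtain ⟨-, hγ⟩ := g1 s (by linarith)
  have hs1 : s - 1 ≠ 0 := sub_ne_zero.2 h1
  have e := g2 s (by linarith) h1
  refine ⟨?_, ?_⟩
  · rw [e]
    exact mul_ne_zero (mul_ne_zero (Complex.exp_ne_zero _) hγ) (mul_ne_zero (pow_ne_zero _ hs1) h0)
  · rw [e, norm_mul, norm_mul, norm_mul, norm_pow, exp_norm,
      Real.log_mul (by have := norm_pos_iff.2 hγ; positivity)
        (by have := norm_pos_iff.2 hs1; have := norm_pos_iff.2 h0; positivity),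
      Real.log_mul (Real.exp_ne_zero _) (norm_ne_zero_iff.2 hγ), Real.log_exp,
      Real.log_mul (by have := norm_pos_iff.2 hs1; positivity) (norm_ne_zero_iff.2 h0), Real.log_pow]
    have e2 : x * (s.re / 2) + Real.log ‖γ s‖ + (k * Real.log ‖s - 1‖ + Real.log ‖L s‖) -
        x * (s.re / 2) - Real.log ‖L s‖ - k * Real.log ‖s - 1‖ = Real.log ‖γ s‖ := by ring
    rw [e2]
    exact g3 T s hs hT

lemma Deg.edge (h : Deg c b k n x Λ L) {ϑ T : ℝ} (hϑ : 0 < ϑ) {s : ℂ}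
    (hs : 1 + ϑ ≤ s.re) (hT : ‖s‖ ≤ T) :
    Λ s ≠ 0 ∧ |Real.log ‖Λ s‖ - x * (s.re / 2)| ≤ n * (c T + b ϑ + dd ϑ T) := by
  have hs1 : 1 < s.re := by linarith
  obtain ⟨h1, h2⟩ := h.log_eq (by linarith) hT (ne_one_of_re hs1) (h.ne hs1)
  refine ⟨h1, ?_⟩
  have h3 := (h.right ϑ s hϑ hs).2
  have h4 := dd_re hϑ hs hT
  have hk : (k : ℝ) ≤ n := by exact_mod_cast h.kn
  have h5 : |(k : ℝ) * Real.log ‖s - 1‖| ≤ n * dd ϑ T := by
    rw [abs_mul, abs_of_nonneg (by positivity : (0 : ℝ) ≤ k)]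
    exact mul_le_mul hk h4 (abs_nonneg _) (by positivity)
  calc |Real.log ‖Λ s‖ - x * (s.re / 2)| = |(Real.log ‖Λ s‖ - x * (s.re / 2) - Real.log ‖L s‖ -
        k * Real.log ‖s - 1‖) + Real.log ‖L s‖ + k * Real.log ‖s - 1‖| := by
        congr 1; ring
    _ ≤ n * c T + n * b ϑ + n * dd ϑ T := by
        refine (abs_add_le _ _).trans (add_le_add ((abs_add_le _ _).trans (add_le_add h2 h3)) h5)
    _ = _ := by ring

/-- the convexity bound -/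
lemma Deg.strip (h : Deg c b k n x Λ L) {ϑ : ℝ} (hϑ : 0 < ϑ) (hϑ1 : ϑ ≤ 1 / 4) {s : ℂ}
    (h1 : -ϑ ≤ s.re) (h2 : s.re ≤ 1 + ϑ) :
    ‖Λ s‖ ≤ Real.exp (x * ((1 + ϑ) / 2) + n * (c 0 + b ϑ)) := by
  have hpi := Real.pi_gt_three
  obtain ⟨γ, g1, g2, g3, g4⟩ := h.fac
  have hright : ∀ z : ℂ, z.re = 1 + ϑ →
      ‖Λ z‖ ≤ Real.exp (x * ((1 + ϑ) / 2) + n * (c 0 + b ϑ)) := by
    intro z hz
    have hz1 : 1 < z.re := by linarith
    rw [g2 z (by linarith) (ne_one_of_re hz1), norm_mul, norm_mul, norm_mul, norm_pow, exp_norm, hz]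
    have h3 := g4 z (by linarith) (by linarith)
    obtain ⟨h4, h5⟩ := h.right ϑ z hϑ (by linarith)
    have h6 : ‖L z‖ ≤ Real.exp (n * b ϑ) :=
      (Real.log_le_iff_le_exp (norm_pos_iff.2 h4)).1 (abs_le.1 h5).2
    calc Real.exp (x * ((1 + ϑ) / 2)) * ‖γ z‖ * (‖z - 1‖ ^ k * ‖L z‖) =
          Real.exp (x * ((1 + ϑ) / 2)) * ((‖γ z‖ * ‖z - 1‖ ^ k) * ‖L z‖) := by ring
      _ ≤ Real.exp (x * ((1 + ϑ) / 2)) * (Real.exp (n * c 0) * Real.exp (n * b ϑ)) := by gcongr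
      _ = _ := by
          rw [← Real.exp_add, ← Real.exp_add]
          congr 1
          ring
  refine PhragmenLindelof.vertical_strip (a := -ϑ) (b := 1 + ϑ)
    h.ent.diffContOnCl ?_ (fun z hz => ?_) hright h1 h2
  · refine ⟨1, ?_, ?_⟩
    · rw [lt_div_iff₀ (by linarith)]
      linarith
    obtain ⟨C, m, hC⟩ := h.grow
    refine ⟨m, IsBigO.of_bound (|C| * 4 ^ m) ?_⟩
    refine Filter.Eventually.filter_mono inf_le_right ?_
    rw [eventually_principal]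
    intro z hz
    have hz1 : -ϑ < z.re := hz.1
    have hz2 : z.re < 1 + ϑ := hz.2
    rw [Real.norm_of_nonneg (Real.exp_pos _).le, one_mul]
    have h3 : 1 + ‖z‖ ≤ 4 * Real.exp |z.im| := by
      have h4 := Complex.norm_le_abs_re_add_abs_im z
      have h5 : |z.re| ≤ 2 := abs_le.2 ⟨by linarith, by linarith⟩
      have h6 := Real.add_one_le_exp |z.im|
      have h7 := abs_nonneg z.im
      linarith
    have h4 : (4 * Real.exp |z.im|) ^ m ≤ 4 ^ m * Real.exp (m * Real.exp |z.im|) := by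
      rw [mul_pow, ← Real.exp_nat_mul]
      refine mul_le_mul_of_nonneg_left (Real.exp_le_exp.2 ?_) (by positivity)
      refine mul_le_mul_of_nonneg_left ?_ (by positivity)
      have := Real.add_one_le_exp |z.im|
      linarith
    calc ‖Λ z‖ ≤ C * (1 + ‖z‖) ^ m := hC z (by linarith) (by linarith)
      _ ≤ |C| * (1 + ‖z‖) ^ m := mul_le_mul_of_nonneg_right (le_abs_self _) (by positivity)
      _ ≤ |C| * (4 * Real.exp |z.im|) ^ m := by gcongr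
      _ ≤ |C| * (4 ^ m * Real.exp (m * Real.exp |z.im|)) := by gcongr
      _ = _ := by ring
  · rw [← h.sym]
    exact hright _ (by rw [re_conj_sub, hz]; ring)

/-- **The potential and the convexity bound.** -/
theorem deg_st (hc : ∀ T, 0 ≤ c T) (hb : ∀ ϑ, 0 ≤ b ϑ) {ϑ : ℝ} (hϑ : 0 < ϑ) (hϑ1 : ϑ ≤ 1 / 4)
    (T : ℝ) {η : ℝ} (hη : 0 < η) :
    ∃ δ : ℝ, 0 < δ ∧ ∀ (k n : ℕ) (x : ℝ) (Λ L : ℂ → ℂ), Deg c b k n x Λ L → 0 < x → n ≤ δ * x →
      Pot ϑ η (1 / 2) x T Λ ∧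
      ∀ s : ℂ, -ϑ ≤ s.re → s.re ≤ 1 + ϑ → ‖Λ s‖ ≤ Real.exp (x * (1 / 2 + ϑ)) := by
  set M : ℝ := c T + c 0 + b ϑ + dd ϑ T + 1 with hM
  have hdd := dd_nonneg ϑ T
  have hM0 : 0 < M := by
    have := hc T
    have := hc 0
    have := hb ϑ
    linarith
  set κ : ℝ := min η (ϑ / 2) with hκ
  have hκ0 : 0 < κ := lt_min hη (by linarith)
  have hκη : κ ≤ η := min_le_left _ _
  have hκϑ : κ ≤ ϑ / 2 := min_le_right _ _
  refine ⟨κ / M, by positivity, fun k n x Λ L h hx hn => ?_⟩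
  have e1 : (n : ℝ) * M ≤ κ * x := by
    calc (n : ℝ) * M ≤ κ / M * x * M := by gcongr
      _ = _ := by field_simp
  have hn0 : (0 : ℝ) ≤ n := by positivity
  have e2 : (n : ℝ) * (c T + b ϑ + dd ϑ T) ≤ κ * x := by
    refine le_trans (mul_le_mul_of_nonneg_left ?_ hn0) e1
    have := hc 0
    linarith
  have e3 : (n : ℝ) * (c 0 + b ϑ) ≤ κ * x := by
    refine le_trans (mul_le_mul_of_nonneg_left ?_ hn0) e1
    have := hc T
    linarith
  have e4 : κ * x ≤ ϑ / 2 * x := mul_le_mul_of_nonneg_right hκϑ hx.le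
  have hstrip : ∀ s : ℂ, -ϑ ≤ s.re → s.re ≤ 1 + ϑ → ‖Λ s‖ ≤ Real.exp (x * (1 / 2 + ϑ)) := by
    intro s h1 h2
    refine (h.strip hϑ hϑ1 h1 h2).trans (Real.exp_le_exp.2 ?_)
    linarith
  refine ⟨⟨h.ent, h.sym, fun s hs hsT => ?_, fun s hs hsT => (h.edge hϑ hs hsT).1,
    fun s hs hsT => (h.edge hϑ hs hsT).2.trans (e2.trans (mul_le_mul_of_nonneg_right hκη hx.le))⟩,
    hstrip⟩
  rcases le_or_gt (1 + ϑ) s.re with h1 | h1
  · have h2 := (abs_le.1 (h.edge hϑ h1 hsT).2).2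
    have h3 : ϑ / 2 * x ≤ x / 2 := by nlinarith
    linarith
  · by_cases h0 : Λ s = 0
    · rw [h0, norm_zero, Real.log_zero]
      have : 0 ≤ s.re := by linarith
      positivity
    have h2 := hstrip s (by linarith) h1.le
    rw [← Real.log_le_iff_le_exp (norm_pos_iff.2 h0)] at h2
    have h3 : x * (1 / 2 + ϑ) ≤ x * (s.re / 2 + 1 / 2) := by
      refine mul_le_mul_of_nonneg_left ?_ hx.le
      linarith
    exact h2.trans h3

section family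
variable {ι : Type} {l : Filter ι} {k n : ι → ℕ} {x : ι → ℝ} {Λ L : ι → ℂ → ℂ}

lemma deg_small (hA : Tendsto (fun i => x i / n i) l atTop) {δ : ℝ} (hδ : 0 < δ) :
    ∀ᶠ i in l, (n i : ℝ) ≤ δ * x i ∧ 0 < x i := by
  filter_upwards [hA.eventually_ge_atTop (1 / δ), hA.eventually_gt_atTop 0] with i h1 h2
  have hn : (0 : ℝ) < n i := by
    rcases Nat.eq_zero_or_pos (n i) with h | h
    · rw [h] at h2
      simp at h2
    · exact_mod_cast h
  have h3 : 0 < x i := by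
    by_contra hc
    exact absurd h2 (not_lt.2 (div_nonpos_of_nonpos_of_nonneg (not_lt.1 hc) hn.le))
  rw [le_div_iff₀ hn, div_mul_eq_mul_div, one_mul, div_le_iff₀ hδ] at h1
  exact ⟨by linarith, h3⟩

lemma deg_pot (hc : ∀ T, 0 ≤ c T) (hb : ∀ ϑ, 0 ≤ b ϑ) (h : ∀ i, Deg c b (k i) (n i) (x i) (Λ i) (L i))
    (hA : Tendsto (fun i => x i / n i) l atTop) {ϑ : ℝ} (hϑ : 0 < ϑ) (hϑ1 : ϑ ≤ 1 / 4)
    (T η : ℝ) (hη : 0 < η) : ∀ᶠ i in l, Pot ϑ η (1 / 2) (x i) T (Λ i) := by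
  obtain ⟨δ, hδ, hp⟩ := deg_st hc hb hϑ hϑ1 T hη
  filter_upwards [deg_small hA hδ] with i hi
  exact (hp _ _ _ _ _ (h i) hi.2 hi.1).1

lemma deg_ev_st (hc : ∀ T, 0 ≤ c T) (hb : ∀ ϑ, 0 ≤ b ϑ)
    (h : ∀ i, Deg c b (k i) (n i) (x i) (Λ i) (L i))
    (hA : Tendsto (fun i => x i / n i) l atTop) (T : ℝ) {η : ℝ} (hη : 0 < η) (hη1 : η ≤ 1 / 4) :
    ∀ᶠ i in l, St η (x i) T (Λ i) := by
  obtain ⟨δ, hδ, hp⟩ := deg_st hc hb hη hη1 T hη
  filter_upwards [deg_small hA hδ] with i hi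
  obtain ⟨h1, h2⟩ := hp _ _ _ _ _ (h i) hi.2 hi.1
  exact ⟨h1, h2⟩

lemma deg_log (hc : ∀ T, 0 ≤ c T) (h : ∀ i, Deg c b (k i) (n i) (x i) (Λ i) (L i))
    (hA : Tendsto (fun i => x i / n i) l atTop) (T : ℝ) {ε : ℝ} (hε : 0 < ε) :
    ∀ᶠ i in l, ∀ s : ℂ, 1 / 2 ≤ s.re → ‖s‖ ≤ T → s ≠ 1 → L i s ≠ 0 → Λ i s ≠ 0 ∧
      |Real.log ‖Λ i s‖ - x i * (s.re / 2) - Real.log ‖L i s‖| ≤
        ε * x i + ε * x i * |Real.log ‖s - 1‖| := by
  filter_upwards [deg_small hA (show 0 < ε / (c T + 1) by have := hc T; positivity)] with i hi s hs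
    hsT h1 h0
  obtain ⟨h2, h3⟩ := (h i).log_eq hs hsT h1 h0
  refine ⟨h2, ?_⟩
  have hcT := hc T
  have hk : (k i : ℝ) ≤ n i := by exact_mod_cast (h i).kn
  have hx := hi.2
  have e1 : (n i : ℝ) ≤ ε * x i := by
    refine hi.1.trans (mul_le_mul_of_nonneg_right ?_ hx.le)
    exact div_le_self hε.le (by linarith)
  have e2 : (n i : ℝ) * c T ≤ ε * x i := by
    calc (n i : ℝ) * c T ≤ ε / (c T + 1) * x i * (c T + 1) := by
          refine mul_le_mul hi.1 (by linarith) hcT (by positivity)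
      _ = _ := by field_simp
  calc |Real.log ‖Λ i s‖ - x i * (s.re / 2) - Real.log ‖L i s‖| =
        |(Real.log ‖Λ i s‖ - x i * (s.re / 2) - Real.log ‖L i s‖ - k i * Real.log ‖s - 1‖) +
          k i * Real.log ‖s - 1‖| := by rw [sub_add_cancel]
    _ ≤ n i * c T + |(k i : ℝ) * Real.log ‖s - 1‖| :=
        (abs_add_le _ _).trans (add_le_add_left h3 _)
    _ ≤ ε * x i + ε * x i * |Real.log ‖s - 1‖| := by
        rw [abs_mul, abs_of_nonneg (by positivity : (0 : ℝ) ≤ k i)]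
        exact add_le_add e2 (mul_le_mul_of_nonneg_right (hk.trans e1) (abs_nonneg _))

end family

/-! ### zeros -/

open Classical in
/-- the sum over the zeros in the open strip -/
noncomputable def zs (L : ℂ → ℂ) (g : ℂ → ℝ) : ℝ :=
  ∑ᶠ ρ : ℂ, if 0 < ρ.re ∧ ρ.re < 1 then (analyticOrderNatAt L ρ : ℝ) * g ρ else 0

/-- the orders agree -/
lemma Deg.order (h : Deg c b k n x Λ L) {s : ℂ} (hs : 0 < s.re) (h1 : s ≠ 1) :
    analyticOrderAt Λ s = analyticOrderAt L s := by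
  obtain ⟨γ, g1, g2, -⟩ := h.fac
  have hop : IsOpen {z : ℂ | 0 < z.re ∧ z ≠ 1} :=
    (isOpen_lt continuous_const Complex.continuous_re).inter isOpen_ne
  have hd : DifferentiableOn ℂ (fun z => Complex.exp (((x / 2 : ℝ) : ℂ) * z) * γ z * (z - 1) ^ k)
      {z : ℂ | 0 < z.re ∧ z ≠ 1} := by
    intro z hz
    refine DifferentiableAt.differentiableWithinAt ?_
    refine DifferentiableAt.mul (DifferentiableAt.mul ?_ (g1 z hz.1).1) ?_
    · exact ((differentiableAt_id.const_mul _).cexp)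
    · exact (differentiableAt_id.sub_const _).pow _
  have hk := hd.analyticAt (hop.mem_nhds ⟨hs, h1⟩)
  have hL : AnalyticAt ℂ L s := by
    have : DifferentiableOn ℂ L {z : ℂ | 0 < z.re ∧ z ≠ 1} := fun z hz =>
      (h.dif z hz.1 hz.2).differentiableWithinAt
    exact this.analyticAt (hop.mem_nhds ⟨hs, h1⟩)
  have h0 : analyticOrderAt (fun z => Complex.exp (((x / 2 : ℝ) : ℂ) * z) * γ z * (z - 1) ^ k) s =
      0 := by
    refine hk.analyticOrderAt_eq_zero.2 (mul_ne_zero (mul_ne_zero (Complex.exp_ne_zero _)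
      (g1 s hs).2) (pow_ne_zero _ (sub_ne_zero.2 h1)))
  have h2 := analyticOrderAt_mul hk hL
  rw [h0, zero_add] at h2
  rw [← h2]
  refine analyticOrderAt_congr ?_
  filter_upwards [hop.mem_nhds ⟨hs, h1⟩] with z hz
  rw [g2 z hz.1 hz.2, Pi.mul_apply]
  ring

open Classical in
lemma Deg.mu_eq (h : Deg c b k n x Λ L) (u : ℂ) : mu Λ u =
    if 0 < u.re ∧ u.re < 1 then (analyticOrderNatAt L u : ℝ) else 0 := by
  split_ifs with hu
  · have h1 : u ≠ 1 := by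
      rintro rfl
      simp at hu
    unfold mu analyticOrderNatAt
    rw [h.order hu.1 h1]
  · have h1 : Λ u ≠ 0 := fun h2 => hu (h.strip_zero h2)
    unfold mu analyticOrderNatAt
    rw [(h.ent.analyticAt u).analyticOrderAt_eq_zero.2 h1]
    simp

/-- the sum over the zeros -/
lemma Deg.zs_eq (h : Deg c b k n x Λ L) (g : ℂ → ℝ) : zs L g = ∑ᶠ u, mu Λ u * g u := by
  classical
  unfold zs
  refine finsum_congr fun u => ?_
  rw [h.mu_eq]
  split_ifs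
  · rfl
  · rw [zero_mul]

/-- the number of zeros -/
lemma Deg.nz_eq (h : Deg c b k n x Λ L) (S : Set ℂ) : zs L (S.indicator fun _ => 1) = nz Λ S := by
  classical
  rw [h.zs_eq]
  unfold nz
  refine finsum_congr fun u => ?_
  by_cases hu : u ∈ S
  · rw [indicator_of_mem hu, mul_one, finsum_eq_if, if_pos hu]
  · rw [indicator_of_notMem hu, mul_zero, finsum_eq_if, if_neg hu]

end Pool.Agent.H465.PT
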