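import Pool.Agent.H465.PT.W

/-!
# Families of L-functions: subconvexity and the zeros; no gaps
-/

set_option autoImplicit false

open MeasureTheory Metric Set Filter Topology Asymptotics
open scoped Real ENNReal ComplexConjugate

namespace Pool.Agent.H465.PT

open Pool.Agent.H465.EQ

variable {cc bb : ℝ → ℝ}

section family
variable {ι : Type} {l : Filter ι} {kk nn : ι → ℕ} {xx : ι → ℝ} {LA LF : ι → ℂ → ℂ}

lemma deg_rect (h : ∀ i, Deg cc bb (kk i) (nn i) (xx i) (LA i) (LF i)) (i : ι) (δ t H : ℝ) :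
    zs (LF i) ({ρ : ℂ | |ρ.im - t| ≤ H ∧ |ρ.re - 1 / 2| ≤ 1 / 2 - δ}.indicator fun _ => 1) =
      nz (LA i) (rect δ t H) := by
  rw [(h i).nz_eq]
  congr 1
  ext u
  constructor
  · rintro ⟨h2, h3⟩
    rw [abs_le] at h3
    exact ⟨by linarith [h3.1], by linarith [h3.2], h2⟩
  · rintro ⟨h1, h2, h3⟩
    exact ⟨h3, abs_le.2 ⟨by linarith, by linarith⟩⟩

/-- from a disc to the line -/
lemma deg_to_line (hcc : ∀ T, 0 ≤ cc T) (hbb : ∀ ϑ, 0 ≤ bb ϑ)
    (h : ∀ i, Deg cc bb (kk i) (nn i) (xx i) (LA i) (LF i))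
    (hA : Tendsto (fun i => xx i / nn i) l atTop)
    {r c T₀ : ℝ} (hr : 0 < r) (hr1 : r ≤ 1 / 20) (hc : 0 < c)
    (hd : ∀ η : ℝ, 0 < η → ∀ᶠ i in l, ∃ p : ℂ, 6 * r ≤ p.re ∧ p.re ≤ 1 - 6 * r ∧ |p.im| ≤ T₀ ∧
      ∀ z ∈ ball p r, ‖LA i z‖ ≤
        Real.exp (xx i * (1 / 2 - (c - η)))) (T : ℝ) :
    ∃ c' : ℝ, 0 < c' ∧ ∀ᶠ i in l, ∀ t : ℝ, |t| ≤ T →
      ‖LF i (pt t)‖ ≤ Real.exp (xx i * (1 / 4 - c')) := by
  set n : ℕ := ⌈(|T| + |T₀| + 1) / r⌉₊ with hn
  have hn1 : (|T| + |T₀| + 1) / r ≤ n := Nat.le_ceil _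
  have hn2 : |T| + |T₀| + 1 ≤ n * r := by rwa [div_le_iff₀ hr] at hn1
  have h16 : (1 : ℝ) ≤ 16 ^ n := one_le_pow₀ (by norm_num)
  set η : ℝ := min (1 / 4) (c / (32 * 16 ^ n)) with hη
  have hη0 : 0 < η := by positivity
  have hη2 : η ≤ c / (32 * 16 ^ n) := min_le_right _ _
  have hη3 : η ≤ c / 32 := by
    refine hη2.trans (div_le_div_of_nonneg_left hc.le (by norm_num) ?_)
    linarith
  set c' : ℝ := c / (4 * 16 ^ n) with hc'
  have hc'0 : 0 < c' := by positivity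
  refine ⟨c' / 2, by positivity, ?_⟩
  filter_upwards [hd η hη0, deg_ev_st hcc hbb h hA 2 hη0 (min_le_left _ _),
    (deg_small hA one_pos).mono fun i hi => hi.2,
    deg_line hcc h hA T (show 0 < c' / 2 by positivity)] with i hp hst hx hline t ht
  obtain ⟨p, hp1, hp2, hp3, hp4⟩ := hp
  have h2 : LA i 2 ≠ 0 := (h i).neL (by norm_num)
  have h3 : ‖pt t - p‖ ≤ n * r := by
    refine (Complex.norm_le_abs_re_add_abs_im _).trans ?_
    rw [Complex.sub_re, Complex.sub_im, pt_re, pt_im]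
    have h4 : |1 / 2 - p.re| ≤ 1 := abs_le.2 ⟨by linarith, by linarith⟩
    have h5 : |t - p.im| ≤ |T| + |T₀| := by
      refine (abs_sub _ _).trans ?_
      have := le_abs_self T
      have := le_abs_self T₀
      linarith
    linarith
  have h4 := spread hst hη0.le hx h2 hr hp1 hp2 hp4 n (pt t) (by rw [pt_re]; linarith)
    (by rw [pt_re]; linarith) h3 (pt t) (mem_ball_self hr)
  have h5 : c' ≤ (c - η) / 16 ^ n - 2 * η := by
    have e1 : 2 * η ≤ c / (16 * 16 ^ n) := by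
      calc 2 * η ≤ 2 * (c / (32 * 16 ^ n)) := by linarith
        _ = _ := by field_simp; ring
    have e2 : (31 / 32 * c) / 16 ^ n ≤ (c - η) / 16 ^ n :=
      div_le_div_of_nonneg_right (by linarith) (by positivity)
    have e3 : c' = (1 / 4 : ℝ) * (c / 16 ^ n) := by rw [hc']; field_simp
    have e4 : (31 / 32 * c) / 16 ^ n = 31 / 32 * (c / 16 ^ n) := by ring
    have e5 : c / (16 * 16 ^ n) = 1 / 16 * (c / 16 ^ n) := by field_simp
    have e6 : 0 < c / 16 ^ n := by positivity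
    rw [e3]
    rw [e4] at e2
    rw [e5] at e1
    linarith
  have h6 := ((hline t ht) c').2 (h4.trans (Real.exp_le_exp.2 (by
    refine mul_le_mul_of_nonneg_left ?_ hx.le
    linarith)))
  have e : c' - c' / 2 = c' / 2 := by ring
  rwa [e] at h6

/-- **Subconvexity and zeros.** -/
theorem deg_sub (hcc : ∀ T, 0 ≤ cc T) (hbb : ∀ ϑ, 0 ≤ bb ϑ)
    (h : ∀ i, Deg cc bb (kk i) (nn i) (xx i) (LA i) (LF i))
    (hA : Tendsto (fun i => xx i / nn i) l atTop) :
    List.TFAE [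
      ∀ T : ℝ, ∃ c : ℝ, 0 < c ∧ ∀ᶠ i in l, ∀ t : ℝ, |t| ≤ T →
        ‖LF i (pt t)‖ ≤ Real.exp (xx i * (1 / 4 - c)),
      ∃ T r c : ℝ, 0 < r ∧ 0 < c ∧ ∀ᶠ i in l, ∃ t₀ : ℝ, |t₀| ≤ T ∧ ∀ t : ℝ, |t - t₀| ≤ r →
        ‖LF i (pt t)‖ ≤ Real.exp (xx i * (1 / 4 - c)),
      ∃ T δ c : ℝ, 0 < δ ∧ 0 < c ∧ ∀ᶠ i in l,
        c * xx i ≤ zs (LF i) ({ρ : ℂ | |ρ.im - 0| ≤ T ∧ |ρ.re - 1 / 2| ≤ 1 / 2 - δ}.indicator fun _ => 1),
      ∀ T : ℝ, ∃ H δ c : ℝ, 0 < δ ∧ 0 < c ∧ ∀ᶠ i in l, ∀ t : ℝ, |t| ≤ T →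
        c * xx i ≤ zs (LF i) ({ρ : ℂ | |ρ.im - t| ≤ H ∧ |ρ.re - 1 / 2| ≤ 1 / 2 - δ}.indicator fun _ => 1)] := by
  have hpi := Real.pi_pos
  have hx : ∀ᶠ i in l, 0 < xx i := (deg_small hA one_pos).mono fun i hi => hi.2
  have hne : ∀ i, LA i 2 ≠ 0 := by
    intro i
    exact (h i).neL (by norm_num)
  tfae_have 1 → 2 := by
    intro h1
    obtain ⟨c, hc, h2⟩ := h1 1
    refine ⟨0, 1, c, one_pos, hc, h2.mono fun i hi => ⟨0, by simp, fun t ht => hi t ?_⟩⟩
    rwa [sub_zero] at ht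
  tfae_have 2 → 1 := by
    rintro ⟨T₀, r, c, hr, hc, h2⟩ T
    set r' : ℝ := min r (1 / 4) with hr'
    have hr'0 : 0 < r' := by positivity
    have hr'1 : r' ≤ 1 / 4 := min_le_right _ _
    refine deg_to_line hcc hbb h hA (r := r' / 8) (c := 3 / 16 * c) (T₀ := T₀) (by positivity)
      (by linarith) (by positivity) (fun η hη => ?_) T
    filter_upwards [h2, deg_ev_st hcc hbb h hA 2 (lt_min hη (show (0 : ℝ) < 1 / 4 by norm_num))
      (min_le_right _ _), hx, deg_line hcc h hA (T₀ + 1) (show 0 < c / 2 by positivity)]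
      with i hi hst hxi hline
    obtain ⟨t₀, ht₀, hb⟩ := hi
    refine ⟨⟨1 / 2 + r' / 4, t₀⟩, by simp only; linarith, by simp only; linarith, ht₀, ?_⟩
    have h3 := bump hst (lt_min hη (by norm_num)).le hxi hr'0 hr'1 (c := c / 2) (by positivity)
      (t₀ := t₀) (fun t ht => by
        have h4 : |t| ≤ T₀ + 1 := by
          have := abs_add_le (t - t₀) t₀
          rw [sub_add_cancel] at this
          linarith
        have h5 := ((hline t h4) c).1 (hb t (ht.trans (min_le_left _ _)))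
        have e : c - c / 2 = c / 2 := by ring
        rwa [e] at h5)
    intro z hz
    refine (h3 z hz).trans (Real.exp_le_exp.2 (mul_le_mul_of_nonneg_left ?_ hxi.le))
    have := min_le_left η (1 / 4)
    linarith
  tfae_have 1 → 4 := by
    intro h1 T
    obtain ⟨c, hc, h2⟩ := h1 (T + 1)
    set ε : ℝ := π * (1 / 32) ^ 2 * (c / 16) with hε
    have hε0 : 0 < ε := by positivity
    obtain ⟨δ, H, ω, hδ, hδ1, hH, hω, hωδ, hm⟩ := maximal hε0
    set η : ℝ := min ω (c / 16) with hη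
    have hη0 : 0 < η := by positivity
    have hηω : η ≤ ω := min_le_left _ _
    have hηc : η ≤ c / 16 := min_le_right _ _
    have hη4 : η ≤ 1 / 4 := by linarith
    refine ⟨H + 1, δ, ω, hδ, hω, ?_⟩
    filter_upwards [h2, deg_ev_st hcc hbb h hA (T + H + 20) hη0 hη4,
      deg_ev_st hcc hbb h hA (T + H + 20) hω (by linarith), hx,
      deg_line hcc h hA (T + 1) (show 0 < c / 2 by positivity)] with i hi hst hst' hxi hline t ht
    rw [deg_rect h]
    by_contra hcon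
    push Not at hcon
    have h3 := hm (xx i) t (T + H + 20) _ hxi (by linarith) hst' hcon.le
    have h4 := bump hst hη0.le hxi (r := 1 / 4) (by norm_num) le_rfl (c := c / 2) (by positivity)
      (t₀ := t) (fun t' ht' => by
        have h4 : |t'| ≤ T + 1 := by
          have := abs_add_le (t' - t) t
          rw [sub_add_cancel] at this
          linarith
        have h5 := ((hline t' h4) c).1 (hi t' h4)
        have e : c - c / 2 = c / 2 := by ring
        rwa [e] at h5)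
    set x := xx i
    set Λ := LA i with hΛ
    set B : Set ℂ := ball (⟨1 / 2 + 1 / 4 / 4, t⟩ : ℂ) (1 / 4 / 8) with hB
    have hsub : B ⊆ ball (⟨1 / 2, t⟩ : ℂ) (1 / 4) := by
      intro z hz
      rw [hB, mem_ball, dist_eq_norm] at hz
      rw [mem_ball, dist_eq_norm]
      have e1 : (⟨1 / 2 + 1 / 4 / 4, t⟩ : ℂ) - ⟨1 / 2, t⟩ = ((1 / 16 : ℝ) : ℂ) := by
        apply Complex.ext
        · simp only [Complex.sub_re, Complex.ofReal_re]; norm_num
        · simp only [Complex.sub_im, Complex.ofReal_im]; ring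
      calc ‖z - ⟨1 / 2, t⟩‖ = ‖(z - ⟨1 / 2 + 1 / 4 / 4, t⟩) +
            ((⟨1 / 2 + 1 / 4 / 4, t⟩ : ℂ) - ⟨1 / 2, t⟩)‖ := by rw [sub_add_sub_cancel]
        _ ≤ ‖z - ⟨1 / 2 + 1 / 4 / 4, t⟩‖ +
            ‖(⟨1 / 2 + 1 / 4 / 4, t⟩ : ℂ) - ⟨1 / 2, t⟩‖ := norm_add_le _ _
        _ < 1 / 4 := by
            rw [e1, Complex.norm_real, Real.norm_eq_abs, abs_of_pos (by norm_num)]
            linarith
    have hFi : ∀ (c : ℂ) (r : ℝ), IntegrableOn (fun z => |Real.log ‖FF x Λ z‖|) (ball c r) :=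
      fun c r => (intOn_log (FF_diff hst.pot.ent x) (FF_ne.2 (hne i)) c r).abs
    have h5 : π * (1 / 32) ^ 2 * (c / 8 * x) ≤ ∫ z in B, |Real.log ‖FF x Λ z‖| := by
      have e : π * (1 / 32) ^ 2 * (c / 8 * x) = ∫ z in B, c / 8 * x := by
        rw [setIntegral_const, hB, vol_ball_real _ (by norm_num), smul_eq_mul]
        norm_num
      rw [e]
      refine integral_mono_ae (intConst _ _ _) (hFi _ _) ?_
      filter_upwards [ae_restrict_of_ae (ae_ne hst.pot.ent (hne i)),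
        ae_restrict_mem measurableSet_ball] with z hz hzb
      have h6 := h4 z hzb
      rw [← Real.log_le_iff_le_exp (norm_pos_iff.2 hz)] at h6
      refine le_trans ?_ (neg_le_abs _)
      rw [log_FF hz]
      have h7 : 1 / 2 - (3 / 8 * (c / 2) - η) ≤ 1 / 2 - c / 8 := by linarith
      have h8 := mul_le_mul_of_nonneg_left h7 hxi.le
      linarith
    have h6 : ∫ z in B, |Real.log ‖FF x Λ z‖| ≤
        ∫ z in ball (⟨1 / 2, t⟩ : ℂ) (1 / 4), |Real.log ‖FF x Λ z‖| :=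
      setIntegral_mono_set (hFi _ _) (Eventually.of_forall fun z => abs_nonneg _)
        hsub.eventuallyLE
    have h7 : ε * x = π * (1 / 32) ^ 2 * (c / 8 * x) / 2 := by rw [hε]; ring
    have h8 : 0 < π * (1 / 32) ^ 2 * (c / 8 * x) := by positivity
    linarith
  tfae_have 4 → 3 := by
    intro h1
    obtain ⟨H, δ, c, hδ, hc, h2⟩ := h1 0
    exact ⟨H, δ, c, hδ, hc, h2.mono fun i hi => hi 0 (by simp)⟩
  tfae_have 3 → 1 := by
    rintro ⟨T₀, δ, c, hδ, hc, h2⟩ T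
    set δ' : ℝ := min δ (1 / 4) with hδ'
    have hδ'0 : 0 < δ' := by positivity
    obtain ⟨J, hJ, hJc⟩ := pigeon (rect_compact δ' 0 T₀) (r := δ' / 8) (by positivity)
    set M : ℝ := (J.card : ℝ) + 1 with hM
    have hM0 : 0 < M := by positivity
    refine deg_to_line hcc hbb h hA (r := δ' / 8) (c := c / M) (T₀ := T₀) (by positivity)
      (by have := min_le_right δ (1 / 4); linarith) (by positivity) (fun η hη => ?_) T
    filter_upwards [h2, deg_ev_st hcc hbb h hA 2 (lt_min hη (show (0 : ℝ) < 1 / 4 by norm_num))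
      (min_le_right _ _), hx] with i hi hst hxi
    rw [deg_rect h] at hi
    set x := xx i
    set Λ := LA i with hΛ
    have h3 : c * x ≤ ∑ q ∈ J, nz Λ (closedBall q (δ' / 8)) := by
      refine hi.trans (le_trans ?_ (hJc Λ hst.pot.ent 2 (hne i)))
      obtain ⟨R, hR⟩ := (rect_compact δ' 0 T₀).isBounded.subset_closedBall 0
      refine nz_mono hst.pot.ent (hne i) hR ?_
      rintro z ⟨h4, h5, h6⟩
      have := min_le_left δ (1 / 4)
      exact ⟨by linarith, by linarith, h6⟩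
    obtain ⟨q, hq, hq2⟩ : ∃ q ∈ J, c / M * x ≤ nz Λ (closedBall q (δ' / 8)) := by
      by_contra hcon
      push Not at hcon
      have h4 : ∑ q ∈ J, nz Λ (closedBall q (δ' / 8)) ≤ J.card * (c / M * x) := by
        rw [← nsmul_eq_mul, ← Finset.sum_const]
        exact Finset.sum_le_sum fun q hq => (hcon q hq).le
      have h5 : (J.card : ℝ) * (c / M * x) < c * x := by
        calc (J.card : ℝ) * (c / M * x) < M * (c / M * x) := by
              have : 0 < c / M * x := by positivity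
              nlinarith
          _ = c * x := by field_simp
      linarith
    obtain ⟨h4, h5, h6⟩ := hJ q hq
    rw [sub_zero] at h6
    refine ⟨q, by linarith, by linarith, h6, fun z hz => ?_⟩
    have h7 := jens hst (lt_min hη (by norm_num)).le (hne i) (a := q) (r := δ' / 8) (by positivity)
      (by linarith) (by linarith) z hz
    refine h7.trans (Real.exp_le_exp.2 ?_)
    have h8 : min η (1 / 4) * x ≤ η * x := mul_le_mul_of_nonneg_right (min_le_left _ _) hxi.le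
    linarith
  tfae_finish

end family

/-- **No gaps** -/
theorem deg_gap (hcc : ∀ T, 0 ≤ cc T) (hbb : ∀ ϑ, 0 ≤ bb ϑ) {k : ℝ} (hk : 0 < k) (T : ℝ) :
    ∃ c δ : ℝ, 0 < c ∧ 0 < δ ∧ ∀ (k' n : ℕ) (x : ℝ) (Λ L : ℂ → ℂ), Deg cc bb k' n x Λ L → 0 < x →
      n ≤ δ * x → ∀ t : ℝ, |t| ≤ T →
      c * x ≤ zs L ({ρ : ℂ | |ρ.im - t| < k}.indicator fun _ => 1) ∧
      zs L ({ρ : ℂ | |ρ.im - t| ≤ 1}.indicator fun _ => 1) ≤ 10 * x := by
  set k' : ℝ := min k (1 / 4) with hk'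
  have hk0 : 0 < k' := by positivity
  obtain ⟨ω, hω, hω1, hg⟩ := gap hk0 (min_le_right _ _)
  obtain ⟨δ, hδ, hp⟩ := deg_st hcc hbb (ϑ := 1 / 4) (by norm_num) le_rfl (T + 20) hω
  refine ⟨ω, δ, hω, hδ, fun m n x Λ L h hx hn t ht => ?_⟩
  have hP := (hp m n x Λ L h hx hn).1
  have hT : 0 ≤ T := (abs_nonneg t).trans ht
  have h2 : Λ 2 ≠ 0 := h.neL (by norm_num)
  refine ⟨?_, ?_⟩
  · refine (hg x hx t (T + 20) _ (by linarith) hP).le.trans ?_
    rw [h.nz_eq, nz_congr hP.ent (S := {ρ : ℂ | |ρ.im - t| < k})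
      (S' := {u : ℂ | |u.im - t| < k ∧ |u.re| ≤ 3})]
    · refine nz_mono hP.ent h2 (R := 3 + |t| + |k|) ?_ ?_
      swap
      · rintro u ⟨hu1, hu2⟩
        exact ⟨hu2.trans_le (min_le_left _ _), hu1⟩
      · rintro u ⟨hu1, hu2⟩
        exact win_sub ⟨hu2, hu1⟩
    · intro u hu
      have := h.strip_zero hu
      constructor
      · intro h3
        exact ⟨h3, abs_le.2 ⟨by linarith, by linarith⟩⟩
      · rintro ⟨h3, -⟩
        exact h3
  · rw [h.nz_eq, nz_congr hP.ent (S := {ρ : ℂ | |ρ.im - t| ≤ 1})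
      (S' := {z : ℂ | 0 ≤ z.re ∧ z.re ≤ 1 ∧ |z.im - t| ≤ 1})]
    · exact win_up hx (by linarith) (hP.mono le_rfl hω1 le_rfl hx.le)
    · intro u hu
      have h3 := h.strip_zero hu
      constructor
      · intro h4
        exact ⟨h3.1.le, h3.2.le, h4⟩
      · rintro ⟨-, -, h4⟩
        exact h4

end Pool.Agent.H465.PT
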