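import Pool.Agent.H465.PT.Y

/-!
# Hecke L-functions of number fields: the analytic data
-/

set_option autoImplicit false

open MeasureTheory Metric Set Filter Topology Asymptotics
open scoped Real ENNReal ComplexConjugate
open NumberField IsDedekindDomain

namespace Pool.Agent.H465.PT

open Pool.Agent.H465.EQ
open Pool.Agent.Y773 (LI GG)

section
variable {K : Type} [Field K] [NumberField K]

/-- the data of a primitive character -/
structure HD (ψ : Ideal (𝓞 K) →*₀ ℂ) (k : ℕ) (e : (K →+* ℂ) → ℕ) (R : ℝ) (Λ F : ℂ → ℂ) :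
    Prop where
  k1 : k ≤ 1
  e1 : ∀ φ, e φ ≤ 1
  k0 : k = 1 → ∃ φ, e φ = 0
  R1 : 1 ≤ R
  le : ∀ 𝔞, ‖ψ 𝔞‖ ≤ 1
  entL : Differentiable ℂ Λ
  entF : Differentiable ℂ F
  ser : ∀ s : ℂ, 1 < s.re → F s = (s - 1) ^ k * LI ψ s
  fac : ∀ s : ℂ, 0 < s.re → Λ s = s ^ k * GG R e s * F s
  sym : ∀ s : ℂ, ‖Λ (1 - conj s)‖ = ‖Λ s‖
  grow : ∃ (C : ℝ) (m : ℕ), ∀ s : ℂ, -1 ≤ s.re → s.re ≤ 2 → ‖Λ s‖ ≤ C * (1 + ‖s‖) ^ m
  one : ∀ s : ℂ, s.re = 1 → F s ≠ 0

/-- `L` is the L-function of `ψ` -/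
structure IsCont (ψ : Ideal (𝓞 K) →*₀ ℂ) (L : ℂ → ℂ) : Prop where
  dif : ∀ s : ℂ, s ≠ 1 → DifferentiableAt ℂ L s
  ser : ∀ s : ℂ, 1 < s.re → L s = LI ψ s

lemma conn_compl_one : IsPreconnected ({1}ᶜ : Set ℂ) := by
  have : 1 < Module.rank ℝ ℂ := by
    rw [Complex.rank_real_complex]
    norm_num
  exact (isConnected_compl_singleton_of_one_lt_rank this 1).isPreconnected

/-- the identity theorem -/
lemma cont_eq {ψ : Ideal (𝓞 K) →*₀ ℂ} {L F : ℂ → ℂ} {k : ℕ} (hL : IsCont ψ L)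
    (hF : Differentiable ℂ F) (hs : ∀ s : ℂ, 1 < s.re → F s = (s - 1) ^ k * LI ψ s) {s : ℂ}
    (h1 : s ≠ 1) : F s = (s - 1) ^ k * L s := by
  have hop : IsOpen ({1}ᶜ : Set ℂ) := isOpen_compl_singleton
  have a1 : AnalyticOnNhd ℂ F ({1}ᶜ : Set ℂ) := fun z _ => hF.analyticAt z
  have hd : DifferentiableOn ℂ (fun z => (z - 1) ^ k * L z) ({1}ᶜ : Set ℂ) := by
    intro z hz
    refine DifferentiableAt.differentiableWithinAt ?_
    exact ((differentiableAt_id.sub_const _).pow _).mul (hL.dif z hz)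
  have a2 : AnalyticOnNhd ℂ (fun z => (z - 1) ^ k * L z) ({1}ᶜ : Set ℂ) := hd.analyticOnNhd hop
  have h2 : (2 : ℂ) ∈ ({1}ᶜ : Set ℂ) := by
    simp
  have h3 : F =ᶠ[𝓝 2] fun z => (z - 1) ^ k * L z := by
    filter_upwards [(isOpen_lt continuous_const Complex.continuous_re).mem_nhds
      (show (1 : ℝ) < (2 : ℂ).re by norm_num)] with z hz
    rw [hs z hz, hL.ser z hz]
  exact a1.eqOn_of_preconnected_of_eventuallyEq a2 conn_compl_one h2 h3 h1

lemma card_emb' : Fintype.card (K →+* ℂ) = Module.finrank ℚ K := NumberField.Embeddings.card K ℂ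

lemma gam_prod_log {e : (K →+* ℂ) → ℕ} (he : ∀ φ, e φ ≤ 1) {T : ℝ} {s : ℂ} (h1 : 1 / 2 ≤ s.re)
    (h2 : ‖s‖ ≤ T) : ∏ φ, Complex.Gammaℝ (s + e φ) ≠ 0 ∧
      |Real.log ‖∏ φ, Complex.Gammaℝ (s + e φ)‖| ≤ Module.finrank ℚ K * gT T := by
  have h3 : ∀ φ, Complex.Gammaℝ (s + e φ) ≠ 0 := fun φ => by
    refine Complex.Gammaℝ_ne_zero_of_re_pos ?_
    rw [Complex.add_re, Complex.natCast_re]
    have : (0 : ℝ) ≤ e φ := by positivity
    linarith
  refine ⟨Finset.prod_ne_zero_iff.2 fun φ _ => h3 φ, ?_⟩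
  rw [norm_prod, Real.log_prod fun φ _ => norm_ne_zero_iff.2 (h3 φ)]
  refine (Finset.abs_sum_le_sum_abs _ _).trans ?_
  calc ∑ φ, |Real.log ‖Complex.Gammaℝ (s + e φ)‖| ≤ ∑ _φ : K →+* ℂ, gT T :=
        Finset.sum_le_sum fun φ _ => gT_le h1 h2 (he φ)
    _ = _ := by
        rw [Finset.sum_const, nsmul_eq_mul, Finset.card_univ, card_emb']

lemma rpow_exp {R : ℝ} (hR : 1 ≤ R) (s : ℂ) :
    (R : ℂ) ^ (s / 2) = Complex.exp (((Real.log R / 2 : ℝ) : ℂ) * s) := by
  have hR0 : (R : ℂ) ≠ 0 := by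
    have : 0 < R := by linarith
    exact_mod_cast this.ne'
  rw [Complex.cpow_def_of_ne_zero hR0, ← Complex.ofReal_log (by linarith)]
  congr 1
  push_cast
  ring

/-- **The analytic data of a Hecke L-function.** -/
theorem HD.deg {ψ : Ideal (𝓞 K) →*₀ ℂ} {k : ℕ} {e : (K →+* ℂ) → ℕ} {R : ℝ} {Λ F L : ℂ → ℂ}
    (h : HD ψ k e R Λ F) (hL : IsCont ψ L) :
    Deg cH BB k (Module.finrank ℚ K) (Real.log R) Λ L := by
  set n := Module.finrank ℚ K with hn
  have hn1 : 1 ≤ n := Module.finrank_pos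
  have hn1' : (1 : ℝ) ≤ n := by exact_mod_cast hn1
  have hk1 : (k : ℝ) ≤ 1 := by exact_mod_cast h.k1
  have hk0 : (0 : ℝ) ≤ k := by positivity
  have hG1 := G₀_one
  have hGl : 0 ≤ Real.log G₀ := Real.log_nonneg hG1
  have hγ : ∀ s : ℂ, 0 < s.re → ∏ φ, Complex.Gammaℝ (s + e φ) ≠ 0 := fun s hs => by
    refine Finset.prod_ne_zero_iff.2 fun φ _ => Complex.Gammaℝ_ne_zero_of_re_pos ?_
    rw [Complex.add_re, Complex.natCast_re]
    have : (0 : ℝ) ≤ e φ := by positivity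
    linarith
  have hs0 : ∀ s : ℂ, 0 < s.re → s ≠ 0 := fun s hs => by
    rintro rfl
    simp at hs
  refine ⟨h.k1.trans hn1, h.entL, fun s _ h1 => hL.dif s h1, h.sym, h.grow, ?_, ?_, ?_⟩
  · refine ⟨fun s => s ^ k * ∏ φ, Complex.Gammaℝ (s + e φ), fun s hs => ⟨?_, ?_⟩, fun s hs h1 => ?_,
      fun T s h1 h2 => ?_, fun s h1 h2 => ?_⟩
    · refine (differentiableAt_id.pow _).mul ?_
      refine DifferentiableAt.fun_finsetProd fun φ _ => ?_
      refine (gr_diff ?_).comp s (differentiableAt_id.add_const _)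
      simp only [id_eq, Complex.add_re, Complex.natCast_re]
      positivity
    · exact mul_ne_zero (pow_ne_zero _ (hs0 s hs)) (hγ s hs)
    · rw [h.fac s hs, cont_eq hL h.entF h.ser h1]
      unfold GG
      rw [rpow_exp h.R1]
      ring
    · have hsn : 1 / 2 ≤ ‖s‖ := by
        have := Complex.abs_re_le_norm s
        have := le_abs_self s.re
        linarith
      obtain ⟨h3, h4⟩ := gam_prod_log h.e1 h1 h2
      have h5 : s ≠ 0 := hs0 s (by linarith)
      have h6 := abs_log_le (by norm_num) hsn h2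
      rw [norm_mul, Real.log_mul (norm_ne_zero_iff.2 (pow_ne_zero _ h5)) (norm_ne_zero_iff.2 h3),
        norm_pow, Real.log_pow]
      refine (abs_add_le _ _).trans ?_
      rw [abs_mul, abs_of_nonneg hk0]
      have h7 : (k : ℝ) * |Real.log ‖s‖| ≤ n * (|Real.log (1 / 2)| + |Real.log T|) :=
        mul_le_mul (hk1.trans hn1') h6 (abs_nonneg _) (by positivity)
      have h8 : 0 ≤ (n : ℝ) * Real.log G₀ := by positivity
      unfold cH
      calc (k : ℝ) * |Real.log ‖s‖| + |Real.log ‖∏ φ, Complex.Gammaℝ (s + e φ)‖| ≤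
            n * (|Real.log (1 / 2)| + |Real.log T|) + n * gT T := add_le_add h7 h4
        _ ≤ n * (|Real.log (1 / 2)| + |Real.log T|) + n * gT T + n * Real.log G₀ := by linarith
        _ = _ := by ring
    · have h3 : ∀ φ, ‖Complex.Gammaℝ (s + e φ)‖ ≤ G₀ := fun φ =>
        gr_bd.choose_spec.2.1 s h1 h2 (e φ) (h.e1 φ)
      have key : ‖s ^ k * ∏ φ, Complex.Gammaℝ (s + e φ)‖ * ‖s - 1‖ ^ k ≤ G₀ ^ n := by
        rcases Nat.eq_zero_or_pos k with hk | hk
        · rw [hk, pow_zero, one_mul, pow_zero, mul_one, norm_prod]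
          calc ∏ φ, ‖Complex.Gammaℝ (s + e φ)‖ ≤ ∏ _φ : K →+* ℂ, G₀ :=
                Finset.prod_le_prod (fun φ _ => norm_nonneg _) fun φ _ => h3 φ
            _ = G₀ ^ n := by rw [Finset.prod_const, Finset.card_univ, card_emb']
        · have hk1' : k = 1 := le_antisymm h.k1 hk
          obtain ⟨φ₀, hφ₀⟩ := h.k0 hk1'
          classical
          rw [hk1', pow_one, pow_one, norm_mul, norm_prod,
            ← Finset.mul_prod_erase _ _ (Finset.mem_univ φ₀)]
          have h4 : ∏ φ ∈ Finset.univ.erase φ₀, ‖Complex.Gammaℝ (s + e φ)‖ ≤ G₀ ^ (n - 1) := by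
            calc ∏ φ ∈ Finset.univ.erase φ₀, ‖Complex.Gammaℝ (s + e φ)‖ ≤
                  ∏ _φ ∈ Finset.univ.erase φ₀, G₀ :=
                  Finset.prod_le_prod (fun φ _ => norm_nonneg _) fun φ _ => h3 φ
              _ = G₀ ^ (n - 1) := by
                  rw [Finset.prod_const, Finset.card_erase_of_mem (Finset.mem_univ _),
                    Finset.card_univ, card_emb']
          have h5 := gr_bd.choose_spec.2.2 s h1 h2
          rw [hφ₀, Nat.cast_zero, add_zero]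
          calc ‖s‖ * (‖Complex.Gammaℝ s‖ * ∏ φ ∈ Finset.univ.erase φ₀, ‖Complex.Gammaℝ (s + e φ)‖) *
                ‖s - 1‖ = (‖s‖ * ‖s - 1‖ * ‖Complex.Gammaℝ s‖) *
                  ∏ φ ∈ Finset.univ.erase φ₀, ‖Complex.Gammaℝ (s + e φ)‖ := by ring
            _ ≤ G₀ * G₀ ^ (n - 1) := by
                refine mul_le_mul h5 h4 (Finset.prod_nonneg fun φ _ => norm_nonneg _) (by linarith)
            _ = G₀ ^ n := by
                rw [← pow_succ']
                congr 1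
                omega
      refine key.trans ?_
      have e1 : G₀ ^ n = Real.exp (n * Real.log G₀) := by
        rw [Real.exp_nat_mul, Real.exp_log (by linarith)]
      rw [e1]
      refine Real.exp_le_exp.2 (mul_le_mul_of_nonneg_left ?_ (by positivity))
      unfold cH
      have := gT_nonneg 0
      have := abs_nonneg (Real.log (1 / 2))
      have := abs_nonneg (Real.log 0)
      linarith
  · intro ϑ s hϑ hs
    rw [hL.ser s (by linarith)]
    exact LI_bound h.le hϑ hs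
  · intro s hs
    rw [h.fac s (by linarith)]
    refine mul_ne_zero (mul_ne_zero (pow_ne_zero _ (hs0 s (by linarith))) ?_) (h.one s hs)
    unfold GG
    refine mul_ne_zero ?_ (hγ s (by linarith))
    rw [rpow_exp h.R1]
    exact Complex.exp_ne_zero _

end

end Pool.Agent.H465.PT
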